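import Mathlib
import Pool.Agent.Lib.MP_4ca46c_ag.Geo.Assemble
import Pool.Agent.Lib.MP_4ca46c_ag.Geo.Spread

/-!
# Two parameters: specification of the linear algebra

`W` is a Weil cohomology theory. `W.Cor X Y r` are the algebraic correspondences
`H(Y) ⟶ H(X)` of degree `r` with rational coefficients, `W.R X r` the `K`-linear combinations of
`W.Cor X X r`, `W.N X r` the numerically trivial ones (`Geo/Ideal.lean`).
-/

namespace Pool.Agent.Lib.MP_4ca46c_ag.Two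

open CategoryTheory MonoidalCategory CartesianMonoidalCategory TensorProduct
open Pool.Agent.Lib.MP_4ca46c_ag.Geo Pool.Agent.Lib.MP_4ca46c_ag.Geo.WeilCohomology

section defs

variable {K : Type} [Field K] [CharZero K] {𝒱 : Type 1} [Category.{0} 𝒱]
  [CartesianMonoidalCategory 𝒱] (W : WeilCohomology K 𝒱)

/-- Hard Lefschetz for the class `h`. -/
def Hard (X : 𝒱) (h : W.H X) : Prop := ∀ i j : ℕ, i + j = W.dim X →
  Set.BijOn (fun x => h ^ j * x) (W.gr X i) (W.gr X (i + 2 * j))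

/-- Multiplication by `η` has an algebraic quasi-inverse. -/
def QInv (X : 𝒱) (η : W.H X) : Prop := ∃ G ∈ W.Cor X X (-1), ∀ z, η * G (η * z) = η * z

/-- The relation of the net: for every `m` there is an algebraic `w` of degree `-1` on
`H(X × X)` with `η ⊗ η = (η ⊗ η) w δ - δ w (η ⊗ η)` on `H^m(X × X)`, `δ = η ⊗ 1 + 1 ⊗ η`. -/
def Rel (X : 𝒱) (η : W.H X) : Prop := ∀ m : ℕ, ∃ w ∈ W.Cor (X ⊗ X) (X ⊗ X) (-1),
  ∀ z ∈ W.gr (X ⊗ X) m, W.tm η η * z = W.tm η η * w ((W.tm η 1 + W.tm 1 η) * z) -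
    (W.tm η 1 + W.tm 1 η) * w (W.tm η η * z)

/-- Cohomology of the generic member `U` of a net of divisors with class `δ` on `Y`. `res` is
the restriction to `U` and `gys` the Gysin map. By `split` the projectors of `U` (if they are
algebraic) are sums of a correspondence which comes from `Y × Y` and one which commutes with
`δ`. -/
structure NetH {𝒱' : Type 1} [Category.{0} 𝒱'] [CartesianMonoidalCategory 𝒱']
    (W' : WeilCohomology K 𝒱') (Y : 𝒱) (U : 𝒱') (δ : W.H Y) where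
  res : W.H Y →ₐ[K] W'.H U
  res_gr : ∀ i z, z ∈ W.gr Y i → res z ∈ W'.gr U i
  δ_gr : δ ∈ W.gr Y 2
  tr_res : ∀ z, W'.tr U (res z) = W.tr Y (δ * z)
  gys : W'.H U →ₗ[K] W.H Y
  gys_spec : ∀ y z, W.tr Y (gys y * z) = W'.tr U (y * res z)
  split : ∀ m, W'.pi U m ∈ W'.Cor U U 0 → ∃ w ∈ W.Cor Y Y (-1), ∃ β : W'.H U →ₗ[K] W'.H U,
    (∀ y, β (res δ * y) = res δ * β y) ∧ ∀ y, W'.pi U m y = res (w (gys y)) + β y

/-- A pencil on `X`: the smooth divisor `Z` of type `(1, 1)` on `X × ℙ¹`, `p : Z ⟶ X`, fibred over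
the projective line with the fibre `V`, a smooth hyperplane section `i : V ⟶ X`. `η` is the class
of the fibre. -/
structure Pencil (X V Z : 𝒱) (h : W.H X) where
  i : V ⟶ X
  p : Z ⟶ X
  ι : V ⟶ Z
  η : W.H Z
  ι_p : ι ≫ p = i
  dim_V : W.dim X = W.dim V + 1
  dim_Z : W.dim Z = W.dim X
  h_alg : h ∈ W.Alg X 1
  η_alg : η ∈ W.Alg Z 1
  η_sq : η * η = 0
  η_ι : W.pull ι η = 0
  cls_V : W.push i 1 = h
  cls_η : W.push ι 1 = η
  deg_p : W.push p 1 = 1
  hard_X : Hard W X h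
  /-- weak Lefschetz for `V ⊆ X` -/
  weak_V : ∀ m < W.dim V, ∀ v ∈ W.gr V m, ∃ x ∈ W.gr X m, W.pull i x = v
  /-- weak Lefschetz for `Z ⊆ X × ℙ¹` -/
  weak_Z : ∀ m < W.dim Z, ∀ z ∈ W.gr Z m, ∃ x ∈ W.gr X m, ∃ y ∈ W.gr X (m - 2),
    (m < 2 → y = 0) ∧ z = W.pull p x + η * W.pull p y

/-- Conjecture B in one degree. -/
def LefAt (X : 𝒱) (h : W.H X) (m : ℕ) : Prop := ∀ j : ℕ, m + j = W.dim X →
  ∃ θ ∈ W.Cor X X (-j), ∀ x ∈ W.gr X m, θ (h ^ j * x) = x

end defs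

/-- Maximal idempotents.

PROOF. Choose `G₀ ∈ R(-j)` such that `e = G₀ T` is an idempotent, of maximal rank
(`0` is one). Put `G = e G₀ = G₀ T G₀`: `G T = e e = e`, `G T G = e G = G`. Let `f = 1 - e`,
`f' = 1 - T G` (idempotents, `(T G)^2 = T (G T G) = T G`), `T f = T - T G T = f' T`. Claim
`T f ∈ N`. Otherwise (`not_N`) there is `g ∈ R(-j)` with `tr (g T f) ≠ 0`; let
`x = f g T f = f g f' T ∈ R(-j) T`, `tr x = tr (g T f) ≠ 0` (cyclic, `f f = f`), so `x` is not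
nilpotent. Fitting for the endomorphism `x` of a finite-dimensional space: there is a polynomial
`r` over `K` with `e₂ = r(x) x` idempotent and `≠ 0` (see `Split.lean`; write the minimal
polynomial as `X^a q`, `q(0) ≠ 0`, `1 = s q + t X^(a+1)`, `e₂ = t(x) x^(a+1)`; `e₂ = 0` gives
`x` nilpotent). `e₂ ∈ R(-j) T` (a left ideal of `R(0)`; `R(0)` contains `r(x)`), and
`e x = 0 = x e`, so `e e₂ = e₂ e = 0`. `e + e₂` is an idempotent in `R(-j) T` with larger rank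
(`LinearMap.IsIdempotentElem`, the rank is the trace; or ranges are independent): a
contradiction. -/
def StIdem : Prop := ∀ (K : Type) [Field K] [CharZero K] (𝒱 : Type 1) [Category.{0} 𝒱]
  [CartesianMonoidalCategory 𝒱] (W : WeilCohomology K 𝒱) (X : 𝒱) (j : ℤ) (T : W.E X),
  T ∈ W.R X j → ∃ G ∈ W.R X (-j), G * T * G = G ∧ T - T * G * T ∈ W.N X j

/-- Quasi-inverse with coefficients in `K`.

PROOF. Let `T` be the multiplication by `η` (`cor_mul`, in `R 1`), `G` from `StIdem`,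
`e = G T`, `f = 1 - e`, `f' = 1 - T G`: idempotents in `R 0`, `T f = f' T ∈ N 1`. Write
`M = tens T T` = multiplication by `tm η η`, `Δ = tens T 1 + tens 1 T` = multiplication by `δ`
(`mulLeft_fst`, `mulLeft_snd`), `E = tens (T f) (T f)`, `F = tens f f`, `F' = tens f' f'`:
`M F = E = F' M`, `F F = F`, `F' F' = F'`. Fix `m` and `w = w_m`, `π = pi (X ⊗ X) m`. The relation
is `M π = M w Δ π - Δ w M π`. Multiply by `F'` on the left and by `F` on the right
(`F` commutes with `π`, `pi_comm`): `E π = E a π - b E π` with `a = F w Δ F`, `b = F' Δ w F'`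
(`F' M w Δ F = E w Δ F = E F w Δ F` because `E = E F`; `F' Δ w M F = F' Δ w E = F' Δ w F' E`).
`Δ F = tens (T f) f + tens f (T f) ∈ N 1`, `F' Δ = tens (f' T) f' + tens f' (f' T) ∈ N 1`
(`N_tens`, `N_tens'`, with `hε`), so `a, b ∈ N 0` (`N_mul_left`, `N_mul_right`) are nilpotent
(`N_nilpotent`). `a` commutes with `π` (`pi_comm`). So `(E π) (1 - a) = - b (E π)`,
`1 - a` is a unit, `E π = (-b)^k (E π) (1 - a)^(-k) = 0` for large `k`. For `m = 2 k` and
`x, x' ∈ H^k(X)`: `0 = E (tm x x') = tm (T f x) (T f x')`, so `T f x = 0` (Künneth,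
`kun_tmul`; `v ⊗ v = 0` implies `v = 0`). So `T f = 0` (`hom_ext`), `T = T G T`. -/
def StVRK : Prop := ∀ (K : Type) [Field K] [CharZero K] (𝒱 : Type 1) [Category.{0} 𝒱]
  [CartesianMonoidalCategory 𝒱] (W : WeilCohomology K 𝒱) (X : 𝒱) (η : W.H X),
  η ∈ W.Alg X 1 → (W.eps X : W.E X) ∈ W.R X 0 → Rel W X η →
  ∃ G ∈ W.R X (-1), ∀ z, η * G (η * z) = η * z

/-- Rational coefficients.

PROOF. For `i : ℕ` put `T = mulLeft η * pi X i ∈ Cor 1` (`kunneth_iff`, `cor_mul`), `T π_i = T`,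
and `g = G ∈ R (-1)`; `T g T = T`: `π_i G η π_i = G η π_i` (`R_pi`, `pi_comm`). CLAIM: there is
`θ ∈ Cor (-1)` with `T θ T = T`. Write `g = ∑ c_k k`, `k ∈ Cor (-1)`, `g' = ∑ φ(c_k) k` with the
retraction `φ : K → ℚ` (`exists_retraction`, see `descend` in `Geo/Six.lean`). For
`y ∈ Cor (-1)`: `tr (y T k T)` and `tr (y T)` are rational (`t_rat`, `y T π_i = y T`), so
`tr (y T g' T) = φ(tr (y T g T)) = φ(tr (y T)) = tr (y T)`. So `n = T - T g' T ∈ N 1` (linearity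
of `R (-1)`). `x = g' T ∈ Cor 0`, `x - x x = g' n ∈ N 0` is nilpotent. Let `e = r(x) x` be a lift of
the idempotent, with a rational polynomial `r`: if `(x - x^2)^a = 0` then with
`1 = (x + (1 - x))^(2a)` put `e = ∑_(l ≥ a) binom(2a, l) x^l (1-x)^(2a-l)`;
`e e = e`, `e - x` is a multiple of `x - x^2`; `e = g'' T` with `g'' ∈ Cor (-1)`. `f = 1 - e`,
`ν = T f = n + T (x - e) ∈ N 1`. With `e' = g T` (idempotent, `T e' = T`): `e e' = e`, so
`f e' f = e' f` and `ν g ν = T f g T f = T f e' f = T e' f = ν`. So `g ν ∈ N 0` is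
idempotent and nilpotent, `g ν = 0`, `ν = ν g ν = 0`: `T g'' T = T`. END OF CLAIM.
Let `θ_i` be as in the claim for `i`, and
`G' = ∑_(i ≤ 2 dim X) π_i θ_i π_(i+2) ∈ Cor (-1)`. On `H^i(X)`: `η G' η z = η π_i θ_i η z = η z`
for `z ∈ H^i(X)` (`η z ∈ H^(i+2)`). -/
def StVRQ : Prop := ∀ (K : Type) [Field K] [CharZero K] (𝒱 : Type 1) [Category.{0} 𝒱]
  [CartesianMonoidalCategory 𝒱] (W : WeilCohomology K 𝒱) (X : 𝒱) (η : W.H X),
  η ∈ W.Alg X 1 → W.Kunneth X → (∃ G ∈ W.R X (-1), ∀ z, η * G (η * z) = η * z) → QInv W X η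

/-- The relation from the projectors of the generic member of the net.

PROOF. Let `m : ℕ`. From `kunneth_iff` and `split` take `w`, `β`. `gys (res z) = δ z` (duality:
`tr (gys (res z) * y) = tr' (res (z * y)) = tr (δ * z * y)`). For `z ∈ H^m(Y)`:
`res z = π_m (res z) = res (w (δ z)) + β (res z)` and, as `res (δ z)` has degree `m + 2`,
`0 = π_m (res (δ z)) = res (w (δ (δ z))) + res δ * β (res z)` (`res (δ z) = res δ * res z`).
Multiply the first equation by `res δ` and use the second: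
`res (δ z) = res (δ w(δ z)) - res (w(δ δ z))`. Apply `gys` (`gys (res y) = δ y`):
`δ δ z = δ δ w(δ z) - δ w(δ δ z)`. For `δ = tm η 1 + tm 1 η`: `δ * δ = 2 tm η η`
(`η * η = 0`, `η` even: `tm_mul`), so `2 tm η η z = 2 tm η η w(δ z) - 2 δ w(tm η η z)`;
divide by `2`. -/
def StNetRel : Prop := ∀ (K : Type) [Field K] [CharZero K] (𝒱 𝒱' : Type 1) [Category.{0} 𝒱]
  [CartesianMonoidalCategory 𝒱] [Category.{0} 𝒱'] [CartesianMonoidalCategory 𝒱']
  (W : WeilCohomology K 𝒱) (W' : WeilCohomology K 𝒱') (X : 𝒱) (U : 𝒱') (η : W.H X),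
  η ∈ W.Alg X 1 → η * η = 0 → Nonempty (NetH W W' (X ⊗ X) U (W.tm η 1 + W.tm 1 η)) →
  W'.Kunneth U → Rel W X η

/-- The transpose.

PROOF. As `trp_main` in `Div/Trp.lean` (there for `X = Y`): `f = op u`,
`f' = op (pull (lift snd fst) u)`. The codimension `dim Y + r` is `dim X + (r + dim Y - dim X)`.
(If `f = 0` take `0`.) -/
def StTrp : Prop := ∀ (K : Type) [Field K] [CharZero K] (𝒱 : Type 1) [Category.{0} 𝒱]
  [CartesianMonoidalCategory 𝒱] (W : WeilCohomology K 𝒱) (X Y : 𝒱) (r s : ℤ),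
  s + W.dim X = r + W.dim Y → ∀ f ∈ W.Cor X Y r, ∃ f' ∈ W.Cor Y X s,
  ∀ x y, W.tr Y (f' x * y) = W.tr X (x * f y)

/-- The section of the Gysin map in degree `m`.

PROOF. Let `G` be the quasi-inverse of `η` (`QInv`), `m < dim X` and `v ∈ H^m(V)`.
(1) There is `x₁ ∈ H^m(X)` with `ι_* v = η p^* x₁`: if `m < dim V`, `v = i^* x₁ = ι^* p^* x₁`
(`weak_V`, `ι_p`) and `ι_* ι^* = η` (`push_pull`, `cls_η`). If `m = dim V`, `i_* v ∈ H^(m+2)(X)` and
`h : H^m(X) ⟶ H^(m+2)(X)` is bijective (`hard_X` for `j = 1`), so `i_* v = h x₁ = i_* i^* x₁`;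
`v' = v - i^* x₁` has `i_* v' = 0`, and `ι_* v' = 0` by duality: for `z ∈ H^l(Z)`,
`tr (ι_* v' * z)` vanishes unless `m + 2 + l = 2 dim Z`, then `l = m < dim Z` and
`z = p^* x' + η p^* y` (`weak_Z`); `tr (ι_* v' * p^* x') = tr (i_* v' * x') = 0` and
`tr (ι_* v' * (η * p^* y)) = tr (v' * (ι^* η * ..)) = 0` (`η_ι`, `push_spec'`). So
`ι_* v = ι_* ι^* p^* x₁ = η p^* x₁`. Hence `η G (ι_* v) = η G (η p^* x₁) = η p^* x₁ = ι_* v`.
(2) `z = G ι_* v ∈ H^m(Z)` (`cor` of degree `-1`, `push` of degree `1`), so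
`z = p^* x + η p^* y` (`weak_Z`; `y = 0` if `m < 2`). `ι_* v = η z = η p^* x` (`η_sq`), apply
`p_*`: `i_* v = p_* ι_* ι^* p^* x = i_* i^* x = h x` (`push_comp`, `push_pull`, `cls_V`). And
`p_* z = x + p_* (η p^* y) = x + h y` (`deg_p`). So `h y = p_* z - x`,
`h (h y) = h p_* z - i_* v`. If `m < 2` take `s = p_* G ι_*`: `s v = x`. If `2 ≤ m` let `j = dim X - m`
and `θ` be the operator of `LefAt` for `m - 2` and `j + 2`: `θ (h^(j+2) y) = y`. Take
`s v = p_* G ι_* v - h θ (h^j (h p_* G ι_* v - i_* v))` (degrees: `ι_*`, `i_*` are in `Cor _ _ 1`,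
`G` in `Cor _ _ (-1)`, `h` in `Cor _ _ 1`, `θ` in `Cor _ _ (-(j+2))`; `cor_comp`, `cor_push`,
`cor_mul`). Then `s v = x + h y - h y = x` and `h x = i_* v`. -/
def StPencS : Prop := ∀ (K : Type) [Field K] [CharZero K] (𝒱 : Type 1) [Category.{0} 𝒱]
  [CartesianMonoidalCategory 𝒱] (W : WeilCohomology K 𝒱) (X V Z : 𝒱) (h : W.H X)
  (P : Pencil W X V Z h), QInv W Z P.η → ∀ m < W.dim X, (2 ≤ m → LefAt W X h (m - 2)) →
  ∃ s ∈ W.Cor X V 0, ∀ v ∈ W.gr V m, h * s v = W.push P.i v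

/-- Conjecture B for `X` from conjecture B for the hyperplane section `V`, in one degree.

PROOF. Let `m + j = dim X`, `j ≥ 1`, and `f ∈ Cor V V (-(j-1))` with `f (g^(j-1) v) = v` for
`v ∈ H^m(V)`, `g = i^* h` (`m + (j - 1) = dim V`). Let `t ∈ Cor V X (-1)` be the transpose of `s`
(`StTrp`): `tr (t x * v) = tr (x * s v)`. For `x ∈ H^m(X)`: `t (h^j x) = i^* (h^(j-1) x)`, by
duality: for `v ∈ H^l(V)` both `tr (t (h^j x) * v)` and `tr (i^* (h^(j-1) x) * v)` vanish unless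
`l = m` (`t (h^j x) ∈ H^(m+2j-2)(V)`, `m + 2j - 2 + l = 2 dim V`), and for `l = m`:
`tr (t (h^j x) * v) = tr (h^j x * s v) = tr (h^(j-1) x * (h * s v)) = tr (h^(j-1) x * i_* v) =
tr (i^* (h^(j-1) x) * v)` (`h` has degree 2, so it commutes; `push_spec'`).
`θ = s f t ∈ Cor X X (-j)`:
`θ (h^j x) = s f (i^* (h^(j-1) x)) = s f (g^(j-1) i^* x) = s (i^* x)`, an element of `H^m(X)`
with `h s (i^* x) = i_* i^* x = h x` (`push_pull`), and `h` is injective on `H^m(X)`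
(`Hard`: `h^j` is, and `j ≥ 1`), so it is `x`. -/
def StStep : Prop := ∀ (K : Type) [Field K] [CharZero K] (𝒱 : Type 1) [Category.{0} 𝒱]
  [CartesianMonoidalCategory 𝒱] (W : WeilCohomology K 𝒱) (X V : 𝒱) (h : W.H X) (i : V ⟶ X),
  W.dim X = W.dim V + 1 → h ∈ W.Alg X 1 → Hard W X h → W.push i 1 = h → ∀ m < W.dim X,
  (∃ s ∈ W.Cor X V 0, ∀ v ∈ W.gr V m, h * s v = W.push i v) → LefAt W V (W.pull i h) m →
  LefAt W X h m

/-- PROOF. `lefschetz_iff`; `LefAt W X h m` for all `m ≤ dim X` by strong induction on `m`: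
for `m = dim X` the identity (`j = 0`), for `m < dim X` use `StPencS` and `StStep`. -/
def StLefUp : Prop := ∀ (K : Type) [Field K] [CharZero K] (𝒱 : Type 1) [Category.{0} 𝒱]
  [CartesianMonoidalCategory 𝒱] (W : WeilCohomology K 𝒱) (X V Z : 𝒱) (h : W.H X)
  (P : Pencil W X V Z h), QInv W Z P.η → W.Lefschetz V (W.pull P.i h) → W.Lefschetz X h

/-- Conjecture B in dimension at most `1`.

PROOF. `lefschetz_iff`; for `i + j = dim X`: `j = 0` the identity; otherwise `i = 0`, `j = 1`: let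
`q = tr (h^(dim X)) ∈ ℚ` (`alg_tr`), `q ≠ 0` (`Hard` for `i = 0`: `h^n ≠ 0` in `H^(2n)`, and the
trace is injective on `H^(2n)` by duality with `H^0 = K`); `f = q^(-1) op (tm 1 1)`
(`op_tm`, `Cor (-n)`), `f (h^n a) = a` for `a ∈ H^0 = K`. -/
def StLow : Prop := ∀ (K : Type) [Field K] [CharZero K] (𝒱 : Type 1) [Category.{0} 𝒱]
  [CartesianMonoidalCategory 𝒱] (W : WeilCohomology K 𝒱) (X : 𝒱) (h : W.H X),
  h ∈ W.Alg X 1 → Hard W X h → W.dim X ≤ 1 → W.Lefschetz X h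

end Pool.Agent.Lib.MP_4ca46c_ag.Two
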