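import Mathlib
import Pool.Agent.Lib.MP_4ca46c_ag.Std.GenV
import Pool.Agent.Lib.MP_4ca46c_ag.Two.SpecL

/-!
# Two parameters: the generic member of a net (specification)

`P` is a projective variety over `k` (in the application `P = ℙ²`), `P.Y₀` its generic hyperplane
section, over the function field `P.F`. For a morphism `ψ : Y ⟶ P` let `U₀ ⊆ Y_F` be the preimage
of `P.Y₀`. We do not assume that `ψ` is injective.
-/

namespace Pool.Agent.Lib.MP_4ca46c_ag.Two

open CategoryTheory Limits AlgebraicGeometry TensorProduct MonoidalCategory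
  CartesianMonoidalCategory
open Pool.Agent.Lib.MP_4ca46c_ag.Sign Pool.Agent.Lib.MP_4ca46c_ag.Hyp
open Pool.Agent.Lib.MP_4ca46c_ag.Std Pool.Agent.Lib.MP_4ca46c_ag.Geo

/-- A morphism `ψ : Y ⟶ P` and the preimage `U₀` of the generic hyperplane section of `P`. -/
structure Net {k₀ k : Type} [Field k₀] [Field k] [Algebra k₀ k] (P : ProjVar k₀ k) where
  Y : Sch k₀
  str : Y ⟶ pt k₀ k
  N : ℕ
  isVar : IsVar str (N + 1)
  ψ : Y ⟶ P.X
  ψ_str : ψ ≫ P.str = str
  U₀ : Sch k₀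
  toP : U₀ ⟶ P.Y₀
  toY : U₀ ⟶ Y
  isPB : IsPullback toP toY P.r₀ ψ
  smooth : SmoothOfRelativeDimension N (toP ≫ P.y₀).left
  conn : GeometricallyConnected (toP ≫ P.y₀).left

namespace Net

variable {k₀ k : Type} [Field k₀] [Field k] [Algebra k₀ k] {P : ProjVar k₀ k} (D : Net P)

/-- The structure morphism of `U₀`. -/
noncomputable def u₀ : D.U₀ ⟶ pt k₀ P.F := D.toP ≫ P.y₀

theorem toY_str : D.toY ≫ D.str = D.u₀ ≫ ptMap k₀ (IsScalarTower.toAlgHom k₀ k P.F) := by
  rw [← D.ψ_str, ← Category.assoc, ← D.isPB.w, Category.assoc, P.r₀_str, u₀, Category.assoc]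

/-- The geometric generic member `U`. -/
noncomputable def U : Sch k₀ := pullback D.u₀ (ptMap k₀ (IsScalarTower.toAlgHom k₀ P.F P.L))

/-- The structure morphism of `U`. -/
noncomputable def u : D.U ⟶ pt k₀ P.L := pullback.snd _ _

/-- The base change map. -/
noncomputable def pU : D.U ⟶ D.U₀ := pullback.fst _ _

theorem isBC : IsPullback D.pU D.u D.u₀ (ptMap k₀ (IsScalarTower.toAlgHom k₀ P.F P.L)) :=
  IsPullback.of_hasPullback _ _

/-- The map `U ⟶ Y`. -/
noncomputable def r : D.U ⟶ D.Y := D.pU ≫ D.toY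

/-- The product `Y × Y`. -/
noncomputable abbrev YY : Sch k₀ := pullback D.str D.str

/-- The product `U₀ × U₀`. -/
noncomputable abbrev UU₀ : Sch k₀ := pullback D.u₀ D.u₀

/-- The product `U × U`. -/
noncomputable abbrev UU : Sch k₀ := pullback D.u D.u

/-- The map `U₀ × U₀ ⟶ Y × Y`. -/
noncomputable def ρ : D.UU₀ ⟶ D.YY :=
  pullback.lift (pullback.fst D.u₀ D.u₀ ≫ D.toY) (pullback.snd D.u₀ D.u₀ ≫ D.toY) (by
    rw [Category.assoc, Category.assoc, D.toY_str, ← Category.assoc, ← Category.assoc,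
      pullback.condition])

/-- The map `Y × Y ⟶ P × P`. -/
noncomputable def ψψ : D.YY ⟶ pullback P.str P.str :=
  pullback.lift (pullback.fst D.str D.str ≫ D.ψ) (pullback.snd D.str D.str ≫ D.ψ) (by
    rw [Category.assoc, Category.assoc, D.ψ_str, pullback.condition])

/-- The open subset `ψ ≠ ψ'` of `Y × Y`. -/
noncomputable def O : Sch k₀ := pullback D.ψψ P.G.incl

/-- The inclusion. -/
noncomputable def incl : D.O ⟶ D.YY := pullback.fst _ _

/-- The open subset `ψ ≠ ψ'` of `U₀ × U₀`. -/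
noncomputable def Q₀ : Sch k₀ := pullback D.ρ D.incl

/-- The inclusion. -/
noncomputable def jQ : D.Q₀ ⟶ D.UU₀ := pullback.fst _ _

/-- The base change map `U × U ⟶ U₀ × U₀`. -/
noncomputable def e2 : D.UU ⟶ D.UU₀ :=
  pullback.lift (pullback.fst D.u D.u ≫ D.pU) (pullback.snd D.u D.u ≫ D.pU) (by
    rw [Category.assoc, Category.assoc, D.isBC.w, ← Category.assoc, ← Category.assoc,
      pullback.condition])

/-- `Y` as an object of the category of varieties. -/
noncomputable def YV : Var k₀ k := ⟨D.Y, D.str, D.N + 1, D.isVar⟩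

end Net

section Statements

variable (k₀ K : Type) [Field k₀] [Field K]

/-- `U₀` is proper over `F`, `U` is a smooth projective variety.

PROOF. `D.ψ` is proper (`Y` and `P.X` are proper over `k`), so `D.toP` is (base change) and
`P.proper₀`. `IsVar D.u`: base change (`genclass_var` in `Std/GenClass.lean`). The last
statement: two maps which agree with `u` and `r` agree by `isBC`, `isPB` and `P.joint`. -/
def StNetVar : Prop := ∀ (k : Type) [Field k] [Algebra k₀ k] [IsAlgClosed k] (P : ProjVar k₀ k)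
  (D : Net P), IsVar D.u₀ D.N ∧ IsVar D.u D.N ∧
  ∀ (T : Sch k₀) (t t' : T ⟶ D.U), t ≫ D.r = t' ≫ D.r → t ≫ D.u = t' ≫ D.u → t = t'

/-- The schemes which occur are smooth.

PROOF. `StNetVar`; products: `Var.isVar_prod` (over `F` too, it does not need an algebraically
closed field); open subschemes: the lemmas of `Sign/SmS.lean` (`incl` and `jQ` are base changes of
the open immersion `P.G.incl`, see `P.G.complement`; all schemes are Noetherian, so they are
quasi-compact). -/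
def StNetSm : Prop := ∀ (k : Type) [Field k] [Algebra k₀ k] [IsAlgClosed k] (P : ProjVar k₀ k)
  (D : Net P), Sm D.Y ∧ Sm D.YY ∧ Sm D.O ∧ Sm D.U₀ ∧ Sm D.UU₀ ∧ Sm D.Q₀ ∧ Sm D.U ∧ Sm D.UU ∧
  IsVar (pullback.fst D.str D.str ≫ D.str) (D.N + 1 + (D.N + 1)) ∧
  IsVar (pullback.fst D.u₀ D.u₀ ≫ D.u₀) (D.N + D.N) ∧
  IsVar (pullback.fst D.u D.u ≫ D.u) (D.N + D.N) ∧
  IsOpenImmersion D.incl.left ∧ QuasiCompact D.incl.left ∧
  IsOpenImmersion D.jQ.left ∧ QuasiCompact D.jQ.left ∧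
  IsPullback D.e2 (pullback.fst D.u D.u ≫ D.u) (pullback.fst D.u₀ D.u₀ ≫ D.u₀)
    (ptMap k₀ (IsScalarTower.toAlgHom k₀ P.F P.L)) ∧ Flat D.e2.left

/-- **Cycles on `U₀ × U₀`.**

PROOF. Let `G = P.G`, `W = pullback G.q G.incl`, `b : W ⟶ G.U` the second projection, an affine
bundle (`G.bundle`), and `E = pullback b (D.O ⟶ G.U)` (second projection of `D.O`), an affine
bundle over `D.O` (base change of an affine bundle: `IsAffineBundle` is stable under base change,
`AffineSpace.isPullback_map`; smooth: `sms_bundle_smooth`). `Q₀` is the fibre product of `D.O` and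
`Q = pullback G.rho G.incl` over `G.U` (because
`U₀ × U₀ = (Y × Y) ×_(P × P) (Y₀ × Y₀)` by `isPB`), so `Q₀ ⟶ E` is a base change of
`G.Q₀W₀ : Q ⟶ W`, which is a flat quasi-compact monomorphism (`G.generic_all`, base change of
`spG`, see `spG_flat`, `spG_mono`, `spG_qc` in `Std/GenV.lean`). So `pull jQ a` comes from `E`
(`pull_surjective_of_mono`), then from `D.O` (`pull_surjective_of_affineBundle`), then from
`Y × Y` (`pull_surjective_of_mono` for `incl`), say from `w`; `Q₀ ⟶ E ⟶ O ⟶ Y × Y` is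
`jQ ≫ ρ`. -/
def StNetCH : Prop := ∀ (T : WeilTheory k₀ K) (k : Type) [Field k] [Algebra k₀ k]
  [IsAlgClosed k] (P : ProjVar k₀ k) (D : Net P) (p : ℕ),
  ∀ a ∈ T.codim D.UU₀ p, ∃ w ∈ T.codim D.YY p, T.pull D.jQ (a - T.pull D.ρ w) = 0

/-- **Cycles supported on `ψ = ψ'`.**

PROOF. Let `T₀ = U₀ × U₀` over `F`, `Z = pullback (T₀ ⟶ pt k) P.str` (that is `T₀ × P`) with the
structure map `Z ⟶ T₀ ⟶ pt F` (smooth, proper: base change of `P.str`), and
`γ₁, γ₂ : T₀ ⟶ Z` the graphs of `ψ₁ = fst ≫ toY ≫ ψ` and `ψ₂ = snd ≫ toY ≫ ψ`: closed immersions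
(sections of the separated map `Z ⟶ T₀`). Let `j : Z' ⟶ Z` be the complement of `γ₂`. The
preimage of `Z'` under `γ₁` is `Q₀` (`ψ₁ = ψ₂` on the complement of `Q₀`, compare
`PreSec.compl_isPullback`, `PreSec.isCompl` in `Std/PreSec.lean`; `P.G.complement`), so by
`push_baseChange` (`j` is flat) `pull j (push γ₁ β) = push _ (pull jQ β) = 0`, and by
`localization` `push γ₁ β = push γ₂ b` for some `b ∈ CH^N(T₀)`. Base change to `L`:
`T' = U × U`, `Z' = pullback (T' ⟶ pt k) P.str` over `L`, `γ₁', γ₂'` the graphs,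
`push γ₁' (pull e2 β) = push γ₂' (pull e2 b)` (`push_baseChange` twice, `Z' ⟶ Z` is flat as a base
change of `Spec L ⟶ Spec F`). By `cl_push` for `γ_i'` and the class `pr^* v * pr_P^* (cl c)` on
`Z'`: `tr (cl (e2^* β) * v * ψ₁^* cl c) = tr (cl (e2^* b) * v * ψ₂^* cl c)` for all `v`, `c`. With
`c = 1` and `T.poincare`: `cl (e2^* β) = cl (e2^* b)`. (Classes of cycles commute with everything:
they have even degree, `key_central` in `Sign/Key.lean`.) -/
def StNetDel : Prop := ∀ (T : WeilTheory k₀ K) (k : Type) [Field k] [Algebra k₀ k]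
  [IsAlgClosed k] (P : ProjVar k₀ k) (D : Net P), ∀ β ∈ T.codim D.UU₀ D.N, T.pull D.jQ β = 0 →
  ∀ (c : T.CH P.X) (v : T.H D.UU),
    T.tr D.UU (T.cl D.UU (T.pull D.e2 β) *
      T.pullH (pullback.fst D.u D.u ≫ D.r ≫ D.ψ) (T.cl P.X c) * v) =
    T.tr D.UU (T.cl D.UU (T.pull D.e2 β) *
      T.pullH (pullback.snd D.u D.u ≫ D.r ≫ D.ψ) (T.cl P.X c) * v)

/-- **The class of the generic member.**

PROOF. As `tGenClass` in `Std/GenClass.lean`. Let `P_F = pullback P.str (ptMap k F)`,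
`i₀ : P.Y₀ ⟶ P_F`; `push i₀ 1 = pull (P_F ⟶ P.X) (P.h T)` is `e1` in the proof of `tGenClass`
(extract it as a lemma; `StUnivX` and `StAffSm` are proved in `Std/UnivX.lean`, `Std/AffSm.lean`,
see `fGenClass` in `Std/Facts.lean`). Let `Y_F = pullback D.str (ptMap k F)`, `ψ_F : Y_F ⟶ P_F`,
`i : U₀ ⟶ Y_F`. The square `toP`, `i`, `i₀`, `ψ_F` is cartesian (from `isPB`), so by
`E.transversal` (dimensions `P.n`, `m = P.n - 1`, `N + 1`, `N`)
`push i 1 = pull ψ_F (push i₀ 1) = pull (Y_F ⟶ Y) (pull ψ (P.h T))`. The rest is the second half of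
the proof of `tGenClass` with `Y_F`, `U₀`, `U` in place of `X_F`, `Y₀`, `Y`. -/
def StNetCls : Prop := ∀ (T : WeilTheory k₀ K), Extra T → ∀ (k : Type) [Field k] [Algebra k₀ k]
  [IsAlgClosed k] (P : ProjVar k₀ k) (D : Net P) (m : ℕ), P.n = m + 1 →
  ∀ z, T.tr D.U (T.pullH D.r z) = T.tr D.Y (T.cl D.Y (T.pull D.ψ (P.h T)) * z)

/-- **Averaging.**

PROOF. As `tAverage` in `Std/Average.lean` (replace `Even i` by `i = m`). -/
def StNetAvg : Prop := ∀ (T : WeilTheory k₀ K) (k : Type) [Field k] [Algebra k₀ k]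
  [IsAlgClosed k] (P : ProjVar k₀ k) (D : Net P) (m : ℕ), ∀ a ∈ T.codim D.UU D.N,
  (∀ i, ∀ y ∈ T.deg D.U i, ∀ y', T.tr D.UU (T.cl D.UU a * T.pullH (pullback.snd D.u D.u) y *
    T.pullH (pullback.fst D.u D.u) y') = if i = m then T.tr D.U (y * y') else 0) →
  ∃ N₀ : ℕ, 0 < N₀ ∧ ∃ b ∈ T.codim D.UU₀ D.N, ∀ i, ∀ y ∈ T.deg D.U i, ∀ y',
    T.tr D.UU (T.cl D.UU (T.pull D.e2 b) * T.pullH (pullback.snd D.u D.u) y *
      T.pullH (pullback.fst D.u D.u) y') = if i = m then (N₀ : K) * T.tr D.U (y * y') else 0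

end Statements

/-- `U` as an object of the category of varieties. -/
noncomputable def Net.UV {k₀ k : Type} [Field k₀] [Field k] [Algebra k₀ k] [IsAlgClosed k]
    {P : ProjVar k₀ k} (h : StNetVar k₀) (D : Net P) : Var k₀ P.L := ⟨D.U, D.u, D.N, (h k P D).2.1⟩

/-- **The cohomology of the generic member.**

PROOF. `W = weil T k`, `W' = weil T P.L`, `Y = D.YV`, `U = D.UV h`, `δ = cl (ψ^* h)`.
`res = T.pullH D.r` (`T.pullH_mem`), `δ_gr`: `P.h_mem` (`Std/ProdV.lean`), `T.pull_mem`, `T.cl_mem`.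
`tr_res` is `StNetCls`. `gys`: the transpose of `res` (Poincaré duality on `Y`: for every linear
form `φ` on `H(Y)` there is `x` with `tr (x * z) = φ z`, see `push` in `Geo/Push.lean`; finite
dimension). `split`: let `π_m ∈ Cor U U 0`. So (`mem_cor`, `op` in `Geo/Corr.lean`) there is a
cycle `a` of codimension `N` on `U × U` with the property in `StNetAvg`
(`π_m y = p₁_* (cl a * p₂^* y)`; if `π_m = 0` take `a = 0`). Let `b`, `N₀` be from `StNetAvg`, `w`
from `StNetCH` (`p = N`) for `b`, `β₀ = b - ρ^* w`; then `π_m = N₀⁻¹ (op (cl (e2^* ρ^* w)) +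
op (cl (e2^* β₀)))`. `e2 ≫ ρ = r × r` and `cl (e2^* ρ^* w) = (r × r)^* (cl w)`, and for
`u ∈ H(Y × Y)`: `op ((r × r)^* u) = res ∘ op u ∘ gys` (`ind_tm`: for `u = a ⊗ a'` both sides are
`y ↦ ± res a * tr (res a' * y)`), and `op (cl w) ∈ Cor Y Y (-1)` because
`N = dim Y + (-1)`. `β = N₀⁻¹ op (cl (e2^* β₀))` commutes with the multiplication by `res δ`:
`tr (op x (res δ * y) * y') = tr (x * p₂^* (res δ) * p₂^* y * p₁^* y')` and
`tr (res δ * op x y * y') = tr (x * p₂^* y * p₁^* (res δ * y'))` are equal by `StNetDel` for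
`c = P.h T` (`p_i^* (res δ) = (fst / snd ≫ r ≫ ψ)^* (cl h)`; `δ` is central, its degree is even). -/
def StNetH (k₀ K : Type) [Field k₀] [Field K] [CharZero K] : Prop :=
  ∀ (hv : StNetVar k₀) (T : WeilTheory k₀ K), Extra T →
  ∀ (k : Type) [Field k] [Algebra k₀ k] [IsAlgClosed k] (P : ProjVar k₀ k) (D : Net P) (m : ℕ),
  P.n = m + 1 → Nonempty (NetH (weil T k) (weil T P.L) D.YV (D.UV hv)
    (T.cl D.Y (T.pull D.ψ (P.h T))))

end Pool.Agent.Lib.MP_4ca46c_ag.Two
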