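import Mathlib
import Pool.Agent.Lib.MP_4ca46c_ag.Hyp.HypCompl
import Pool.Agent.Lib.MP_4ca46c_ag.Hyp.Val
import Pool.Agent.Lib.MP_4ca46c_ag.Two.SpecN

/-!
# Two parameters: the divisors `U` of type `(1, 1)` (specification)

`ψ₀ : ℙ¹ × ℙ¹ ⟶ ℙ²` is given by the three forms `ℓ_j(x) ℓ_j(x')`, `ℓ = (x₀, x₁, x₀ + x₁)`. For
`a = (a₀, a₁, a₂)` in an extension `M` of `k` the equation `∑ a_j ℓ_j(x) ℓ_j(x') = 0` is the graph of
an automorphism of `ℙ¹` over `M` if `a₀ a₁ + a₀ a₂ + a₁ a₂ ≠ 0`. Let `f : W ⟶ ℙ¹` be a fibration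
with a section. `U_a ⊆ W × W` is the preimage of this graph.
-/

namespace Pool.Agent.Lib.MP_4ca46c_ag.Two

open CategoryTheory Limits AlgebraicGeometry TensorProduct MonoidalCategory
  CartesianMonoidalCategory
open Pool.Agent.Lib.MP_4ca46c_ag.Sign Pool.Agent.Lib.MP_4ca46c_ag.Hyp
open Pool.Agent.Lib.MP_4ca46c_ag.Std Pool.Agent.Lib.MP_4ca46c_ag.Geo

section defs

variable {k₀ k : Type} [Field k₀] [Field k] [Algebra k₀ k]

/-- The point `t` of `Z` lies on the hyperplane `∑ a_j x_j = 0`, `a_j ∈ M`. -/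
def Mem {κ : Type} [Fintype κ] {M : Type} [Field M] [Algebra k₀ M] {Z : Sch k₀}
    (φ : Z ⟶ PSo k₀ k κ) (a : κ → M) {T : Sch k₀} (t : T ⟶ Z) (s : T ⟶ pt k₀ M) : Prop :=
  (psCoord k κ).Van ((t ≫ φ).left : T.left ⟶ PS k κ)
    (fun j => Hyp.val (s.left : T.left ⟶ Spec (CommRingCat.of M)) (a j))

/-- `U ⊆ Z × Spec M` is the subscheme `∑ a_j x_j = 0`. -/
structure IsMem {κ : Type} [Fintype κ] {M : Type} [Field M] [Algebra k₀ M] [Algebra k M]
    [IsScalarTower k₀ k M] {Z : Sch k₀} (z : Z ⟶ pt k₀ k) (φ : Z ⟶ PSo k₀ k κ) (a : κ → M)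
    {U : Sch k₀} (r : U ⟶ Z) (u : U ⟶ pt k₀ M) : Prop where
  comm : r ≫ z = u ≫ ptMap k₀ (IsScalarTower.toAlgHom k₀ k M)
  mem : Mem φ a r u
  lift : ∀ (T : Sch k₀) (t : T ⟶ Z) (s : T ⟶ pt k₀ M),
    t ≫ z = s ≫ ptMap k₀ (IsScalarTower.toAlgHom k₀ k M) → Mem φ a t s →
    ∃ t' : T ⟶ U, t' ≫ r = t ∧ t' ≫ u = s
  ext : ∀ (T : Sch k₀) (t t' : T ⟶ U), t ≫ r = t' ≫ r → t ≫ u = t' ≫ u → t = t'

variable (k₀ k)

/-- The projective line. -/
noncomputable abbrev P1 : Sch k₀ := PSo k₀ k (Fin 2)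

/-- The product `ℙ¹ × ℙ¹`. -/
noncomputable abbrev PP : Sch k₀ := pullback (PSo.str k₀ k (Fin 2)) (PSo.str k₀ k (Fin 2))

/-- The projections. -/
noncomputable abbrev pr₁ : PP k₀ k ⟶ P1 k₀ k := pullback.fst _ _

/-- The projections. -/
noncomputable abbrev pr₂ : PP k₀ k ⟶ P1 k₀ k := pullback.snd _ _

/-- The projective plane, as a projective variety. -/
noncomputable def P2 : ProjVar k₀ k where
  X := PSo k₀ k (Fin 3)
  str := PSo.str k₀ k (Fin 3)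
  n := 2
  isVar := pso_var k₀ k (Fin 3) 2 (by simp)
  κ := Fin 3
  i := 0
  emb := 𝟙 _
  closed := by
    rw [Over.id_left]
    infer_instance
  emb_str := Category.id_comp _

variable {k₀ k}

/-- The map `ψ₀ : ℙ¹ × ℙ¹ ⟶ ℙ²`. -/
def IsPsi (ψ₀ : PP k₀ k ⟶ PSo k₀ k (Fin 3)) : Prop :=
  ψ₀ ≫ PSo.str k₀ k (Fin 3) = pr₁ k₀ k ≫ PSo.str k₀ k (Fin 2) ∧
  ∀ (T : Scheme.{0}) (z : T ⟶ (PP k₀ k).left) (i i' : Fin 2)
    (h : ⊤ ≤ (z ≫ (pr₁ k₀ k).left : T ⟶ PS k (Fin 2)) ⁻¹ᵁ psD i)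
    (h' : ⊤ ≤ (z ≫ (pr₂ k₀ k).left : T ⟶ PS k (Fin 2)) ⁻¹ᵁ psD i') (a : Fin 3 → Γ(T, ⊤)),
    (psCoord k (Fin 3)).Van (z ≫ ψ₀.left : T ⟶ PS k (Fin 3)) a ↔
      a 0 * ((psCoord k (Fin 2)).val (z ≫ (pr₁ k₀ k).left) i h 0 *
          (psCoord k (Fin 2)).val (z ≫ (pr₂ k₀ k).left) i' h' 0) +
        a 1 * ((psCoord k (Fin 2)).val (z ≫ (pr₁ k₀ k).left) i h 1 *
          (psCoord k (Fin 2)).val (z ≫ (pr₂ k₀ k).left) i' h' 1) +
        a 2 * (((psCoord k (Fin 2)).val (z ≫ (pr₁ k₀ k).left) i h 0 +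
            (psCoord k (Fin 2)).val (z ≫ (pr₁ k₀ k).left) i h 1) *
          ((psCoord k (Fin 2)).val (z ≫ (pr₂ k₀ k).left) i' h' 0 +
            (psCoord k (Fin 2)).val (z ≫ (pr₂ k₀ k).left) i' h' 1)) = 0

/-- The determinant of the form `∑ a_j ℓ_j(x) ℓ_j(x')`. -/
def det3 {M : Type} [Field M] (a : Fin 3 → M) : M := a 0 * a 1 + a 0 * a 2 + a 1 * a 2

/-- A fibration over the projective line, smooth outside rational points, with a section. -/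
structure Fib (k₀ k : Type) [Field k₀] [Field k] [Algebra k₀ k] where
  V : ProjVar k₀ k
  m : ℕ
  dim : V.n = m + 1
  f : V.X ⟶ P1 k₀ k
  f_str : f ≫ PSo.str k₀ k (Fin 2) = V.str
  σ : P1 k₀ k ⟶ V.X
  σ_f : σ ≫ f = 𝟙 _
  S : (P1 k₀ k).left.Opens
  smooth : SmoothOfRelativeDimension m (f.left ∣_ S)
  compl : ∀ x : (P1 k₀ k).left, x ∉ S → ∃ e : pt k₀ k ⟶ P1 k₀ k,
    e ≫ PSo.str k₀ k (Fin 2) = 𝟙 _ ∧ x ∈ Set.range e.left

namespace Fib

variable (Φ : Fib k₀ k)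

/-- The product `W × W`. -/
noncomputable abbrev Y : Sch k₀ := pullback Φ.V.str Φ.V.str

/-- The structure morphism. -/
noncomputable abbrev y : Φ.Y ⟶ pt k₀ k := pullback.fst _ _ ≫ Φ.V.str

/-- The map `W × W ⟶ ℙ¹ × ℙ¹`. -/
noncomputable def ff : Φ.Y ⟶ PP k₀ k :=
  pullback.lift (pullback.fst _ _ ≫ Φ.f) (pullback.snd _ _ ≫ Φ.f) (by
    rw [Category.assoc, Category.assoc, Φ.f_str, pullback.condition])

/-- `W` as an object of the category of varieties. -/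
noncomputable def VV : Var k₀ k := ⟨Φ.V.X, Φ.V.str, Φ.V.n, Φ.V.isVar⟩

/-- The class of a fibre. -/
noncomputable def η {K : Type} [Field K] (T : WeilTheory k₀ K) : T.H Φ.V.X :=
  T.cl Φ.V.X (T.pull Φ.f (hypClass T k (0 : Fin 2)))

end Fib

end defs

section general

/-- Existence of the hyperplane section.

PROOF. Let `C = pCoord k κ` (`Std/Aff.lean`), `I = Fam C`, `hZ C : I ⟶ PSo k₀ k κ`,
`hB C : I ⟶ Spec k[a_j]`. `T`-points of `I` are pairs of `t : T ⟶ PSo k₀ k κ` and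
`a ∈ Γ(T)^κ` with `Van t a` (`Coord.lift`, `Coord.hom_ext`, `Coord.van` in `Hyp/Family.lean`; `hB`
is given by the `a_j`: `Hyp/Coef.lean`, `toA_iff`). Let `ε : pt k₀ M ⟶ sp k₀ k[a_j]` be given by
`MvPolynomial.aeval a`. `U = pullback (φ, hZ C) ×` the fibre product with `ε` over `sp`:
`T`-points are triples of `t : T ⟶ Z`, `T ⟶ I`, `s : T ⟶ pt k₀ M`. -/
def StMemEx : Prop := ∀ (k₀ k : Type) [Field k₀] [Field k] [Algebra k₀ k] (κ : Type) [Fintype κ]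
  (M : Type) [Field M] [Algebra k₀ M] [Algebra k M] [IsScalarTower k₀ k M] (Z : Sch k₀)
  (z : Z ⟶ pt k₀ k) (φ : Z ⟶ PSo k₀ k κ), φ ≫ PSo.str k₀ k κ = z → ∀ (a : κ → M),
  ∃ (U : Sch k₀) (r : U ⟶ Z) (u : U ⟶ pt k₀ M), IsMem z φ a r u

/-- The generic hyperplane section.

PROOF. `P.Y₀` with `P.r₀`, `P.y₀` is `IsMem P.str P.emb X`: `P.fibre`, and the `T`-points of
`Fam P.C`, `P.C = eCoord .. = (psCoord k κ).comap P.emb.left ..` (`PreCoord.comap_van` in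
`Hyp/Square.lean`), as in `StMemEx`. So a point `t : T ⟶ Z`, `s : T ⟶ pt F` with `Mem` gives a point
of `P.Y₀`; this gives `toP` and the universal property. -/
def StMemGen : Prop := ∀ (k₀ k : Type) [Field k₀] [Field k] [Algebra k₀ k] (P : ProjVar k₀ k)
  (Z : Sch k₀) (z : Z ⟶ pt k₀ k) (ψ : Z ⟶ P.X), ψ ≫ P.str = z → ∀ (U : Sch k₀) (r : U ⟶ Z)
  (u : U ⟶ pt k₀ P.F),
  IsMem z (ψ ≫ P.emb) (fun j => algebraMap P.R P.F (MvPolynomial.X j)) r u →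
  ∃ toP : U ⟶ P.Y₀, IsPullback toP r P.r₀ ψ ∧ toP ≫ P.y₀ = u

/-- Base change.

PROOF. `Mem` for `algebraMap ∘ a` and `s : T ⟶ pt M'` is `Mem` for `a` and `s ≫ ptMap`
(`Hyp.val_map`); `Van.comp` for `mem`; the universal property of the pull-back. -/
def StMemBC : Prop := ∀ (k₀ k : Type) [Field k₀] [Field k] [Algebra k₀ k] (κ : Type) [Fintype κ]
  (M : Type) [Field M] [Algebra k₀ M] [Algebra k M] [IsScalarTower k₀ k M] (M' : Type) [Field M']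
  [Algebra k₀ M'] [Algebra k M'] [IsScalarTower k₀ k M'] [Algebra M M'] [IsScalarTower k₀ M M']
  [IsScalarTower k M M'] (Z : Sch k₀) (z : Z ⟶ pt k₀ k) (φ : Z ⟶ PSo k₀ k κ) (a : κ → M)
  (U : Sch k₀) (r : U ⟶ Z) (u : U ⟶ pt k₀ M) (U' : Sch k₀) (g : U' ⟶ U) (u' : U' ⟶ pt k₀ M'),
  IsMem z φ a r u → IsPullback g u' u (ptMap k₀ (IsScalarTower.toAlgHom k₀ M M')) →
  IsMem z φ (fun j => algebraMap M M' (a j)) (g ≫ r) u'

/-- Scaling, and uniqueness.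

PROOF. `Van` is invariant under multiplication of the vector by a unit (`PreCoord.eqn` is linear
in `a`); two objects with the same universal property are isomorphic. -/
def StMemScale : Prop := ∀ (k₀ k : Type) [Field k₀] [Field k] [Algebra k₀ k] (κ : Type)
  [Fintype κ] (M : Type) [Field M] [Algebra k₀ M] [Algebra k M] [IsScalarTower k₀ k M] (Z : Sch k₀)
  (z : Z ⟶ pt k₀ k) (φ : Z ⟶ PSo k₀ k κ) (a : κ → M) (c : M), c ≠ 0 → ∀ (U : Sch k₀) (r : U ⟶ Z)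
  (u : U ⟶ pt k₀ M) (U' : Sch k₀) (r' : U' ⟶ Z) (u' : U' ⟶ pt k₀ M),
  IsMem z φ a r u → IsMem z φ (fun j => c * a j) r' u' →
  ∃ e : U ⟶ U', IsIso e ∧ e ≫ r' = r ∧ e ≫ u' = u

/-- PROOF. Let `K'` be a field over `F`, `M` an algebraic closure of `K'`, and `L ⟶ M` an
embedding over `F` (if `L` is algebraic over `F`: `IsAlgClosed.lift`). `X_L` is geometrically
connected (`StGeomConn`, `tGeomConn`), so `X_M` is connected, and `X_M ⟶ X_(K')` is surjective. -/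
def StGeomUp : Prop := ∀ (F L : Type) [Field F] [Field L] [Algebra F L] [IsAlgClosure F L]
  (X X' : Scheme.{0}) (x : X ⟶ Spec (CommRingCat.of F)) (x' : X' ⟶ Spec (CommRingCat.of L))
  (g : X' ⟶ X), IsPullback g x' x (Spec.map (CommRingCat.ofHom (algebraMap F L))) →
  ConnectedSpace X' → GeometricallyConnected x

/-- The conjecture of Künneth type is stable under base change of algebraically closed fields.

PROOF. Let `G = (g × g) : X' × X' ⟶ X × X`. `G^* (class of the diagonal) = class of the diagonal`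
(`push_baseChange`; `g` is flat), and `G^*` maps `H^i(X) ⊗ H^j(X)` to `H^i(X') ⊗ H^j(X')`, so it is
compatible with `kcomp i j`. Algebraic classes go to algebraic classes (`T.cl_pull`). -/
def StKunBC (k₀ K : Type) [Field k₀] [Field K] [CharZero K] : Prop :=
  ∀ (T : WeilTheory k₀ K) (M L : Type) [Field M] [Algebra k₀ M] [IsAlgClosed M] [Field L]
  [Algebra k₀ L] [IsAlgClosed L] [Algebra M L] [IsScalarTower k₀ M L] (X : Var k₀ M)
  (X' : Var k₀ L) (g : X'.X ⟶ X.X),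
  IsPullback g X'.str X.str (ptMap k₀ (IsScalarTower.toAlgHom k₀ M L)) → X'.dim = X.dim →
  (weil T M).Kunneth X → (weil T L).Kunneth X'

end general

section special

/-- The map `ψ₀`.

PROOF. Let `ℓ_0 = x_0`, `ℓ_1 = x_1`, `ℓ_2 = x_0 + x_1` in `k[x_0, x_1]`, homogeneous of degree one. On
`PS k (Fin 2) = Proj` let `C` be the `PreCoord` with index set `Fin 3`: `C.D i = basicOpen ℓ_i`,
`C.f i j = ℓ_j / ℓ_i` (`gsec` in `Hyp/HypMap.lean`, compare `psCoord`, `Hyp/Proj.lean`;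
`⨆ D i = ⊤` since `psD 0 ⊔ psD 1 = ⊤`). Let `C₁`, `C₂` be the pull-backs along the two
projections of `ℙ¹ × ℙ¹` (`PreCoord.comap`) and `C₁₂` the product: `D i = C₁.D i ⊓ C₂.D i`,
`f i j = C₁.f i j * C₂.f i j` (compare `PreCoord.segre` in `Hyp/Prod.lean`); `⨆ D i = ⊤` because at
every point at most one `ℓ_i` vanishes in the first factor (two of them generate `x_0`, `x_1`) and
at most one in the second. `ψ₀ = C₁₂.toPS` (`Hyp/ToPS.lean`). The formula: cover `T` by the open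
sets where `z ∈ C₁₂.D j`; there by `eqn`, `Rep` the condition `Van` is
`∑ a_l f₁ j l * f₂ j l = 0`, and `f₁ j l = ℓ_l(x) / ℓ_j(x)` with `ℓ_j(x)` a unit. -/
def StPsi : Prop := ∀ (k₀ k : Type) [Field k₀] [Field k] [Algebra k₀ k],
  ∃ ψ₀ : PP k₀ k ⟶ PSo k₀ k (Fin 3), IsPsi ψ₀

/-- The curve `C` of type `(1, 1)` is the graph of an automorphism of `ℙ¹`.

PROOF. For `pr₁` (then `pr₂` by the symmetry `x ↔ x'` of the formula in `IsPsi`). Let
`T` with `t : T ⟶ ℙ¹`, `s : T ⟶ pt M`. Locally `t` is given by `x = (x_0, x_1)` with one `x_i = 1`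
(`exists_vec`, `unique_vec'` in `Hyp/Vec.lean`). The equation for `x'` is `m_0 x'_0 + m_1 x'_1 = 0`
with `m_0 = (a_0 + a_2) x_0 + a_2 x_1`, `m_1 = a_2 x_0 + (a_1 + a_2) x_1`; as
`det3 a ≠ 0` is a unit, `m_0`, `m_1` generate the unit ideal, and the unique solution is
`x' = (- m_1, m_0)`, a morphism `T ⟶ ℙ¹` (locally where `m_0` or `m_1` is a unit: `exists_vec`; they
glue by uniqueness; or construct the morphism by a `PreCoord` with `D j = basicOpen`, as `ofVec`).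
Morphisms `T ⟶ ℙ¹` can be glued on an open cover of `T`. So `T ⟶ C` corresponds to
`T ⟶ ℙ¹` and `T ⟶ pt M`. -/
def StGraph : Prop := ∀ (k₀ k : Type) [Field k₀] [Field k] [Algebra k₀ k]
  (ψ₀ : PP k₀ k ⟶ PSo k₀ k (Fin 3)), IsPsi ψ₀ → ∀ (M : Type) [Field M] [Algebra k₀ M]
  [Algebra k M] [IsScalarTower k₀ k M] (a : Fin 3 → M), det3 a ≠ 0 → ∀ (C : Sch k₀)
  (r : C ⟶ PP k₀ k) (u : C ⟶ pt k₀ M), IsMem (pr₁ k₀ k ≫ PSo.str k₀ k (Fin 2)) ψ₀ a r u →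
  IsPullback (r ≫ pr₁ k₀ k) u (PSo.str k₀ k (Fin 2)) (ptMap k₀ (IsScalarTower.toAlgHom k₀ k M)) ∧
  IsPullback (r ≫ pr₂ k₀ k) u (PSo.str k₀ k (Fin 2)) (ptMap k₀ (IsScalarTower.toAlgHom k₀ k M))

/-- The curve `C` contains no pair of rational points.

PROOF. Let `K'` be the residue field of `c` and `x : Spec K' ⟶ C`. As `e` is a closed immersion
and `Spec K'` is reduced, `x ≫ r ≫ pr₁` factors through `e`, and similarly for `e'`. So the
coordinates of the two points are images of elements `x_l`, `x'_l` of `k` (one `x_i = 1`, one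
`x'_(i') = 1`). By the formula `∑ a_j c_j = 0` in `K'` with `c_j = ℓ_j(x) ℓ_j(x') ∈ k`, and
`M ⟶ K'` is injective, so `∑ a_j c_j = 0` in `M` and all `c_j = 0` (linear independence). But at
most one `ℓ_j(x)` and at most one `ℓ_j(x')` is zero. -/
def StNotRat : Prop := ∀ (k₀ k : Type) [Field k₀] [Field k] [Algebra k₀ k]
  (ψ₀ : PP k₀ k ⟶ PSo k₀ k (Fin 3)), IsPsi ψ₀ → ∀ (M : Type) [Field M] [Algebra k₀ M]
  [Algebra k M] [IsScalarTower k₀ k M] (a : Fin 3 → M), LinearIndependent k a → ∀ (C : Sch k₀)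
  (r : C ⟶ PP k₀ k) (u : C ⟶ pt k₀ M), IsMem (pr₁ k₀ k ≫ PSo.str k₀ k (Fin 2)) ψ₀ a r u →
  ∀ (e e' : pt k₀ k ⟶ P1 k₀ k), e ≫ PSo.str k₀ k (Fin 2) = 𝟙 _ →
  e' ≫ PSo.str k₀ k (Fin 2) = 𝟙 _ → ∀ c : C.left, (r ≫ pr₁ k₀ k).left c ∈ Set.range e.left →
  (r ≫ pr₂ k₀ k).left c ∈ Set.range e'.left → False

/-- **Smoothness of `U`.**

PROOF. Let `C` be the curve over `M` (`StMemEx` for `ψ₀`), `q₁, q₂ : C ⟶ ℙ¹` the two projections.
`U = W₁ ×_C W₂`, `W_i = pullback Φ.f q_i ⟶ C` (compare the functors of points). By `StGraph` the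
square `C`, `ℙ¹`, `pt M`, `pt k` for `q_i` is cartesian, so `W_i` is the base change of `Φ.V.X` to
`M`: `W_i ⟶ pt M` is smooth of relative dimension `m + 1` and proper. By `StNotRat` and
`Φ.compl`, `C` is the union of the open sets `C_i = q_i^(-1)(S)`. Over `C_2` the map `W₂ ⟶ C` is
smooth of relative dimension `m` (base change of `f` restricted to `S`), so over `C_2` the map
`U ⟶ W₁` is, and `U ⟶ W₁ ⟶ pt M` is smooth of relative dimension `m + (m + 1)` there; similarly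
over `C_1`. `SmoothOfRelativeDimension` is local on the source. Proper: `U ⟶ W₁` is a base change
of the proper map `W₂ ⟶ C`. -/
def StUSm : Prop := ∀ (k₀ k : Type) [Field k₀] [Field k] [Algebra k₀ k] (Φ : Fib k₀ k)
  (ψ₀ : PP k₀ k ⟶ PSo k₀ k (Fin 3)), IsPsi ψ₀ → ∀ (M : Type) [Field M] [Algebra k₀ M]
  [Algebra k M] [IsScalarTower k₀ k M] (a : Fin 3 → M), LinearIndependent k a → det3 a ≠ 0 →
  ∀ (U : Sch k₀) (r : U ⟶ Φ.Y) (u : U ⟶ pt k₀ M), IsMem Φ.y (Φ.ff ≫ ψ₀) a r u →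
  SmoothOfRelativeDimension (Φ.V.n + Φ.m) u.left ∧ IsProper u.left

/-- **Connectedness of `U`** for the generic vector.

PROOF. `P = P2 k₀ k`. Let `𝒰 = pullback (hZ (pCoord k (Fin 3))) (Φ.ff ≫ ψ₀)`; `𝒰 ⟶ Φ.Y` is an affine
bundle (base change of `Coord.toZ_bundle`, `Hyp/ToZ.lean`) and `Φ.Y` is irreducible
(`isVar_irreducible` in `Std/PreConn.lean` with `fStalk`, `tIrr`; `Var.isVar_prod`), so `𝒰` is
irreducible (`tBundleIrr`). `U` is the generic fibre of `𝒰 ⟶ Spec P.R`, so it is preirreducible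
(`tGenIrr`). `U` has an `F`-rational point: let `p : pt k ⟶ W` be a rational point
(`IsVar.exists_point`), `C` the curve over `F` (`StMemEx`), `c : pt F ⟶ C` the point with
`q₁ c = (p ≫ f)_F` (`StGraph`), and the point `(p_F, σ (q₂ c))` of `W × W`, whose image in
`ℙ¹ × ℙ¹` is `(q₁ c, q₂ c)`, on `C`; so it lifts to `U`. So `U` is connected and has a rational
point, and its base change to `L = P.L` is connected (`tRatPt`); `StGeomUp`. (`det3` of the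
generic vector is not `0`: a nonzero polynomial.) -/
def StUConn : Prop := ∀ (k₀ k : Type) [Field k₀] [Field k] [Algebra k₀ k] [IsAlgClosed k]
  (Φ : Fib k₀ k) (ψ₀ : PP k₀ k ⟶ PSo k₀ k (Fin 3)), IsPsi ψ₀ → ∀ (U : Sch k₀) (r : U ⟶ Φ.Y)
  (u : U ⟶ pt k₀ (P2 k₀ k).F), IsMem Φ.y (Φ.ff ≫ ψ₀)
    (fun j : Fin 3 => algebraMap (P2 k₀ k).R (P2 k₀ k).F (MvPolynomial.X j)) r u →
  GeometricallyConnected u.left

/-- The net on `ℙ¹ × ℙ¹`.

PROOF. `StMemEx`, `StMemGen` (`P = P2`, `P.emb = 𝟙`), `StGraph`: `C` is isomorphic to the base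
change of `ℙ¹` to `F`, so it is smooth of relative dimension `1` and geometrically connected
(`pso_var`, base change). (`det3` of the generic vector is not `0`: a nonzero polynomial.) -/
def StNetPP : Prop := ∀ (k₀ k : Type) [Field k₀] [Field k] [Algebra k₀ k]
  (ψ₀ : PP k₀ k ⟶ PSo k₀ k (Fin 3)), IsPsi ψ₀ → ∃ (C : Sch k₀) (toP : C ⟶ (P2 k₀ k).Y₀)
  (toY : C ⟶ PP k₀ k), IsPullback toP toY (P2 k₀ k).r₀ ψ₀ ∧
  SmoothOfRelativeDimension 1 (toP ≫ (P2 k₀ k).y₀).left ∧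
  GeometricallyConnected (toP ≫ (P2 k₀ k).y₀).left ∧
  IsPullback (toY ≫ pr₁ k₀ k) (toP ≫ (P2 k₀ k).y₀) (PSo.str k₀ k (Fin 2))
    (ptMap k₀ (IsScalarTower.toAlgHom k₀ k (P2 k₀ k).F)) ∧
  IsPullback (toY ≫ pr₂ k₀ k) (toP ≫ (P2 k₀ k).y₀) (PSo.str k₀ k (Fin 2))
    (ptMap k₀ (IsScalarTower.toAlgHom k₀ k (P2 k₀ k).F))

/-- **The class of the divisors of type `(1, 1)`.**

PROOF. Let `D` be the net with `Y = ℙ¹ × ℙ¹`, `N = 1` from `StNetPP`, `δ = cl (ψ₀^* h) ∈ H²(ℙ¹ × ℙ¹)`, `t = cl (hypClass T k 0)` on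
`ℙ¹`. By the Künneth formula and `H(ℙ¹) = K ⊕ K t` (`H¹ = 0`, see `Div/ProdH.lean`, `Div/TrH.lean`),
`δ = α (t ⊗ 1) + β (1 ⊗ t)`, and `tr t = 1` (`Div/TrH.lean`). `β = tr (δ * (t ⊗ 1))`
`= tr_U (r^* pr₁^* t)` by `StNetCls`, `= tr t = 1` by `E.tr_field` and the first square in
`StNetPP`. Similarly `α = 1`. (`t ⊗ t` has trace `1`, `t * t = 0`.) -/
def StPsiCls (k₀ K : Type) [Field k₀] [Field K] [CharZero K] : Prop :=
  ∀ (T : WeilTheory k₀ K), Extra T → ∀ (k : Type) [Field k] [Algebra k₀ k] [IsAlgClosed k]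
  (ψ₀ : PP k₀ k ⟶ PSo k₀ k (Fin 3)), IsPsi ψ₀ →
  T.cl (PP k₀ k) (T.pull ψ₀ (hypClass T k (0 : Fin 3))) =
    T.pullH (pr₁ k₀ k) (T.cl (P1 k₀ k) (hypClass T k (0 : Fin 2))) +
    T.pullH (pr₂ k₀ k) (T.cl (P1 k₀ k) (hypClass T k (0 : Fin 2)))

/-- The net on `W × W`.

PROOF. `StPsi`, `StMemEx`, `StMemGen` (`P2.emb = 𝟙`), `StUSm`, `StUConn`. (The generic vector is
linearly independent over `k` and its `det3` is not `0`.) Class:
`cl (ψ^* h) = ff^* (cl (ψ₀^* h)) = ff^* (pr₁^* t + pr₂^* t)` (`StPsiCls`, `T.cl_pull`,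
`T.pull_comp`), `ff ≫ pr₁ = fst ≫ f`, and `tm η 1 = fst^* η`, `tm 1 η = snd^* η` for
`weil T k`; `P2.h = hypClass T k 0` (`P2.emb = 𝟙`). -/
def StNetWW (k₀ K : Type) [Field k₀] [Field K] [CharZero K] : Prop :=
  ∀ (T : WeilTheory k₀ K), Extra T → ∀ (k : Type) [Field k] [Algebra k₀ k] [IsAlgClosed k]
  (Φ : Fib k₀ k), ∃ (ψ₀ : PP k₀ k ⟶ PSo k₀ k (Fin 3)), IsPsi ψ₀ ∧ ∃ (U₀ : Sch k₀)
  (toP : U₀ ⟶ (P2 k₀ k).Y₀) (toY : U₀ ⟶ Φ.Y),
  IsPullback toP toY (P2 k₀ k).r₀ (Φ.ff ≫ ψ₀) ∧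
  SmoothOfRelativeDimension (Φ.V.n + Φ.m) (toP ≫ (P2 k₀ k).y₀).left ∧
  GeometricallyConnected (toP ≫ (P2 k₀ k).y₀).left ∧
  IsMem Φ.y (Φ.ff ≫ ψ₀)
    (fun j : Fin 3 => algebraMap (P2 k₀ k).R (P2 k₀ k).F (MvPolynomial.X j)) toY
    (toP ≫ (P2 k₀ k).y₀) ∧
  T.cl Φ.Y (T.pull (Φ.ff ≫ ψ₀) ((P2 k₀ k).h T)) =
    (weil T k).tm (X := Φ.VV) (Y := Φ.VV) (Φ.η T) 1 +
      (weil T k).tm (X := Φ.VV) (Y := Φ.VV) 1 (Φ.η T)

/-- The conjecture of Künneth type for all varieties over all algebraically closed extensions of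
`k` of transcendence degree `2`. -/
def Kun2 {k₀ K : Type} [Field k₀] [Field K] [CharZero K] (T : WeilTheory k₀ K) (k : Type)
    [Field k] [Algebra k₀ k] : Prop :=
  ∀ (M : Type) [Field M] [Algebra k₀ M] [Algebra k M] [IsScalarTower k₀ k M] [IsAlgClosed M],
    Algebra.trdeg k M = 2 → ∀ V : ProjVar k₀ M, (weil T M).Kunneth ⟨V.X, V.str, V.n, V.isVar⟩

/-- **The member of the net over a field of transcendence degree two.**

PROOF. `P = P2 k₀ k`, `F = P.F`, `L = P.L`, `X_j ∈ F` the coordinates, `b = X_1 / X_0`,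
`c = X_2 / X_0`. Let `M ⊆ L` be the algebraic closure of `k(b, c)` in `L` (`integralClosure` /
`IntermediateField.algebraicClosure`): algebraically closed (`L` is), and
`trdeg_k M = 2` (`b`, `c` are algebraically independent over `k`: `X_0, X_1, X_2` are; use
`MvPolynomial` or `IsTranscendenceBasis`). `a' = (1, b, c) ∈ M³` is linearly independent over `k`
and `det3 a' ≠ 0`. Let `(U', r', u')` be from `StMemEx` for `M`, `a'`: smooth of relative dimension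
`n + m` and proper (`StUSm`). The base change of `U'` to `L` is `IsMem` for `(1, b, c)` over `L`
(`StMemBC`), and so is, after scaling by `X_0`, `U` (`StMemBC` for the base change of `U₀` to `L`,
`StMemScale`). So `U` is the base change of `U'`: there is `g : U ⟶ U'` with `IsPullback`. `g` is
surjective and `U` is connected (`GeometricallyConnected` for `U₀`), so `U'` is connected, and
geometrically connected (`tGeomConn`). `U'` has a closed embedding: `tEmb` for the composition of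
`r'` with the Segre embedding of `Φ.V × Φ.V` (`ProjVar.prod` in `Std/ProdV.lean`, the Segre
statement `StSegreGeo` is proved, see `Std/Facts.lean`), so `U'` is a `ProjVar k₀ M`. Now `Kun2`
and `StKunBC`. -/
def StKunU (k₀ K : Type) [Field k₀] [Field K] [CharZero K] : Prop :=
  ∀ (T : WeilTheory k₀ K), Extra T → ∀ (k : Type) [Field k] [Algebra k₀ k] [IsAlgClosed k]
  (Φ : Fib k₀ k) (ψ₀ : PP k₀ k ⟶ PSo k₀ k (Fin 3)), IsPsi ψ₀ → Kun2 T k → ∀ (U₀ : Sch k₀)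
  (toY : U₀ ⟶ Φ.Y) (u₀ : U₀ ⟶ pt k₀ (P2 k₀ k).F), IsMem Φ.y (Φ.ff ≫ ψ₀)
    (fun j : Fin 3 => algebraMap (P2 k₀ k).R (P2 k₀ k).F (MvPolynomial.X j)) toY u₀ →
  GeometricallyConnected u₀.left → ∀ (U : Var k₀ (P2 k₀ k).L) (g : U.X ⟶ U₀),
  U.dim = Φ.V.n + Φ.m →
  IsPullback g U.str u₀ (ptMap k₀ (IsScalarTower.toAlgHom k₀ (P2 k₀ k).F (P2 k₀ k).L)) →
  (weil T (P2 k₀ k).L).Kunneth U

/-- **The relation for the class of a fibre.**

PROOF. Take `ψ₀`, `U₀`, `toP`, `toY` from `StNetWW`, and the net `D` with `Y = Φ.Y`,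
`str = Φ.y`, `N = Φ.V.n + Φ.m` (`isVar`: `Var.isVar_prod`, `Φ.dim`). `StNetH` gives
`NetH (weil T k) (weil T L) D.YV (D.UV hv) δ`; `D.YV` is `Φ.VV ⊗ Φ.VV` up to the equality
`N + 1 = n + n` of the dimensions (generalize, `subst`). `StKunU` gives `Kunneth (D.UV hv)`
(`D.isBC`). Then `StNetRel` (`tNetRel`): `Φ.η T ∈ Alg 1` (`hypClass_mem` in `Std/ProdV.lean`), and
`η * η = 0`: it is the pull-back of `t * t ∈ H⁴(ℙ¹) = 0`. -/
def StRelW (k₀ K : Type) [Field k₀] [Field K] [CharZero K] : Prop :=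
  ∀ (T : WeilTheory k₀ K), Extra T → ∀ (k : Type) [Field k] [Algebra k₀ k] [IsAlgClosed k]
  (Φ : Fib k₀ k), Kun2 T k → Φ.η T ∈ (weil T k).Alg Φ.VV 1 ∧ Φ.η T * Φ.η T = 0 ∧
  Rel (weil T k) Φ.VV (Φ.η T)

/-- **The quasi-inverse for the class of a fibre.**

PROOF. `StRelW`, `tVRK`, `tVRQ` (`Two/VRK.lean`, `Two/VRQ.lean`); `eps` is in `R 0` by
`kunneth_iff` (it is a sum of `± pi`, see `eps_eq`, `even`). -/
def StQW (k₀ K : Type) [Field k₀] [Field K] [CharZero K] : Prop :=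
  ∀ (T : WeilTheory k₀ K), Extra T → ∀ (k : Type) [Field k] [Algebra k₀ k] [IsAlgClosed k]
  (Φ : Fib k₀ k), Kun2 T k → (weil T k).Kunneth Φ.VV → QInv (weil T k) Φ.VV (Φ.η T)

end special

end Pool.Agent.Lib.MP_4ca46c_ag.Two
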