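import Pool.Agent.Lib.MP_4ca46c_ag.Two.SpecN
import Pool.Agent.Lib.MP_4ca46c_ag.Std.GenClass

set_option autoImplicit false

/-!
# The generic member of a net is a variety
-/

namespace Pool.Agent.Lib.MP_4ca46c_ag.Two

open CategoryTheory Limits AlgebraicGeometry
open Pool.Agent.Lib.MP_4ca46c_ag.Sign Pool.Agent.Lib.MP_4ca46c_ag.Hyp
open Pool.Agent.Lib.MP_4ca46c_ag.Std

namespace NetVarAux

variable {k₀ k : Type} [Field k₀] [Field k] [Algebra k₀ k] {P : ProjVar k₀ k} (D : Net P)

/-- the map to the base of the net is proper -/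
theorem proper_ψ : IsProper D.ψ.left := by
  have h1 : IsProper D.str.left := D.isVar.proper
  have h2 : IsProper P.str.left := P.isVar.proper
  have h3 : D.ψ.left ≫ P.str.left = D.str.left := by
    rw [← Over.comp_left, D.ψ_str]
  have h4 : IsProper (D.ψ.left ≫ P.str.left) := by
    rw [h3]
    exact h1
  exact IsProper.of_comp D.ψ.left P.str.left

theorem proper_toP : IsProper D.toP.left := by
  have h1 : IsPullback D.toP.left D.toY.left P.r₀.left D.ψ.left := D.isPB.map (Over.forget _)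
  exact MorphismProperty.of_isPullback (P := @IsProper) h1.flip (proper_ψ D)

theorem proper_u₀ : IsProper D.u₀.left := by
  have h1 := proper_toP D
  have h2 := P.proper₀
  have h3 : D.u₀.left = D.toP.left ≫ P.y₀.left := Over.comp_left _ _ _ _ _
  rw [h3]
  infer_instance

theorem var₀ : IsVar D.u₀ D.N := ⟨D.smooth, proper_u₀ D, D.conn⟩

theorem joint (T : Sch k₀) (t t' : T ⟶ D.U) (hr : t ≫ D.r = t' ≫ D.r) (hu : t ≫ D.u = t' ≫ D.u) :
    t = t' := by
  have hr' : (t ≫ D.pU) ≫ D.toY = (t' ≫ D.pU) ≫ D.toY := by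
    rw [Category.assoc, Category.assoc]
    exact hr
  have h0 : (t ≫ D.pU) ≫ D.u₀ = (t' ≫ D.pU) ≫ D.u₀ := by
    rw [Category.assoc, Category.assoc, D.isBC.w, ← Category.assoc, ← Category.assoc, hu]
  refine D.isBC.hom_ext (D.isPB.hom_ext (P.joint _ _ ?_ ?_) hr') hu
  · rw [Category.assoc, Category.assoc]
    exact h0
  · rw [Category.assoc, Category.assoc (t' ≫ D.pU), D.isPB.w, ← Category.assoc, ← Category.assoc,
      hr']

end NetVarAux

theorem tNetVar (k₀ : Type) [Field k₀] : StNetVar k₀ := by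
  intro k _ _ _ P D
  exact ⟨NetVarAux.var₀ D, genclass_var D.isBC (NetVarAux.var₀ D), fun T t t' hr hu =>
    NetVarAux.joint D T t t' hr hu⟩

end Pool.Agent.Lib.MP_4ca46c_ag.Two
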