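import Mathlib
import Pool.Agent.Lib.MP_4ca46c_ag.Div.BC
import Pool.Agent.Lib.MP_4ca46c_ag.Std.AffSm
import Pool.Agent.Lib.MP_4ca46c_ag.Std.GenClass
import Pool.Agent.Lib.MP_4ca46c_ag.Std.GenV
import Pool.Agent.Lib.MP_4ca46c_ag.Sign.Average

set_option autoImplicit false

/-!
# Algebraic classes and extensions of finite transcendence degree

Let `L` be the algebraic closure of the field of rational functions in finitely many variables over
the algebraically closed field `k`. The classes of cycles on the base change to `L` of a smooth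
proper variety over `k` come from classes of cycles over `k`.
-/

namespace Pool.Agent.Lib.MP_4ca46c_ag.Two

open CategoryTheory Limits AlgebraicGeometry TensorProduct MonoidalCategory
  CartesianMonoidalCategory
open Pool.Agent.Lib.MP_4ca46c_ag.Sign Pool.Agent.Lib.MP_4ca46c_ag.Hyp
open Pool.Agent.Lib.MP_4ca46c_ag.Std Pool.Agent.Lib.MP_4ca46c_ag.Geo

section frac

variable {k₀ : Type} [Field k₀] {k F : Type} [Field k] [Algebra k₀ k] [Field F] [Algebra k₀ F]
  [Algebra k F] [IsScalarTower k₀ k F] (κ : Type) [Algebra (MvPolynomial κ k) F]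
  [IsScalarTower k₀ (MvPolynomial κ k) F] [IsScalarTower k (MvPolynomial κ k) F]
  {X X' : Sch k₀} {x : X ⟶ pt k₀ k} {x' : X' ⟶ pt k₀ F} {g : X' ⟶ X}

/-- The map to the affine space over `X`. -/
theorem desc_map (hg : IsPullback g x' x (ptMap k₀ (IsScalarTower.toAlgHom k₀ k F))) :
    ∃ g' : X' ⟶ Aff κ X, g' ≫ Aff.pr κ X = g ∧
    IsPullback g' x' (Aff.toSp κ x) (spG k₀ (MvPolynomial κ k) F) := by
  have hA := Aff.isPullback_toSp κ x
  have hw : (x' ≫ spG k₀ (MvPolynomial κ k) F) ≫ spB k₀ k (MvPolynomial κ k) = g ≫ x := by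
    rw [Category.assoc, spG_spB]
    exact hg.w.symm
  refine ⟨hA.lift _ _ hw, hA.lift_snd _ _ _, ?_⟩
  have h1 : IsPullback (hA.lift _ _ hw ≫ Aff.pr κ X) x' x
      (spG k₀ (MvPolynomial κ k) F ≫ spB k₀ k (MvPolynomial κ k)) := by
    rw [hA.lift_snd, spG_spB]
    exact hg
  exact IsPullback.of_right h1 (hA.lift_fst _ _ _) hA.flip

variable {K : Type} [Field K] (T : WeilTheory k₀ K) [Fintype κ] [Nonempty κ]
  [IsFractionRing (MvPolynomial κ k) F]

include κ in
/-- Cycles over the field of rational functions come from cycles over `k`. -/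
theorem desc_frac {n : ℕ} (hx : IsVar x n)
    (hg : IsPullback g x' x (ptMap k₀ (IsScalarTower.toAlgHom k₀ k F))) (c : ℕ) (a : T.CH X')
    (ha : a ∈ T.codim X' c) : ∃ b ∈ T.codim X c, T.pull g b = a := by
  obtain ⟨g', e, hsq⟩ := desc_map κ hg
  obtain ⟨N, hN⟩ : ∃ N, Fintype.card κ = N + 1 := by
    have h1 : 0 < Fintype.card κ := Fintype.card_pos
    exact ⟨Fintype.card κ - 1, by omega⟩
  obtain ⟨bA, sA, -, -⟩ := tAffSm k₀ k X x κ n N hx.isSm hx.smooth hN
  have s1 : Sm X' := (genclass_var hg hx).sm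
  have s2 : Sm X := hx.sm
  have s3 : Sm (Aff κ X) := ⟨_, _, _, _, sA⟩
  have h := (hsq.map (Over.forget _)).flip
  have g1 : Flat g'.left :=
    MorphismProperty.of_isPullback (P := @Flat) h (spG_flat (k₀ := k₀) (MvPolynomial κ k) F)
  have g2 : Mono g'.left :=
    MorphismProperty.of_isPullback (P := MorphismProperty.monomorphisms Scheme) h
      (spG_mono (k₀ := k₀) (MvPolynomial κ k) F)
  have g3 : QuasiCompact g'.left :=
    MorphismProperty.of_isPullback (P := @QuasiCompact) h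
      (spG_qc (k₀ := k₀) (MvPolynomial κ k) F)
  obtain ⟨b, hb, e1⟩ := T.pull_surjective_of_mono g' s1 s3 g1 g2 g3 c a ha
  obtain ⟨w, hw, e2⟩ := T.pull_surjective_of_affineBundle (Aff.pr κ X) s3 s2 bA c b hb
  refine ⟨w, hw, ?_⟩
  rw [← e, T.pull_comp g' (Aff.pr κ X) s1 s3 s2, e2, e1]

end frac

section closed

variable {k₀ K : Type} [Field k₀] [Field K] [CharZero K] {T : WeilTheory k₀ K} (E : Extra T)
  {k L : Type} [Field k] [Algebra k₀ k] [IsAlgClosed k] [Field L] [Algebra k₀ L] [IsAlgClosed L]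
  [Algebra k L] [IsScalarTower k₀ k L]

/-- Algebraic classes on the base change come from algebraic classes. -/
def AlgDesc (T : WeilTheory k₀ K) (k L : Type) [Field k] [Algebra k₀ k] [Field L] [Algebra k₀ L]
    [Algebra k L] [IsScalarTower k₀ k L] : Prop :=
  ∀ (X : Var k₀ k) (X' : Var k₀ L) (g : X'.X ⟶ X.X), X'.dim = X.dim →
    IsPullback g X'.str X.str (ptMap k₀ (IsScalarTower.toAlgHom k₀ k L)) →
    ∀ c, ∀ a ∈ T.codim X'.X c, ∃ b ∈ T.codim X.X c, T.cl X'.X a = T.pullH g (T.cl X.X b)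

include E in
theorem desc_alg (κ : Type) [Fintype κ] [Nonempty κ] (F : Type) [Field F] [Algebra k₀ F]
    [Algebra k F] [IsScalarTower k₀ k F] [Algebra (MvPolynomial κ k) F]
    [IsScalarTower k₀ (MvPolynomial κ k) F] [IsScalarTower k (MvPolynomial κ k) F]
    [IsFractionRing (MvPolynomial κ k) F] [Algebra F L] [IsScalarTower k₀ F L]
    [IsScalarTower k F L] [IsAlgClosure F L] : AlgDesc T k L := by
  intro X X' g hd hg c a ha
  obtain ⟨-, ⟨-, surj⟩, -⟩ := Div.tBC k₀ K T E k L X X' g hd hg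
  have hF := IsPullback.of_hasPullback X.str (ptMap k₀ (IsScalarTower.toAlgHom k₀ k F))
  have vF : IsVar (pullback.snd X.str (ptMap k₀ (IsScalarTower.toAlgHom k₀ k F))) X.dim :=
    genclass_var hF X.isVar
  have hw : g ≫ X.str = (X'.str ≫ ptMap k₀ (IsScalarTower.toAlgHom k₀ F L)) ≫
      ptMap k₀ (IsScalarTower.toAlgHom k₀ k F) := by
    rw [Category.assoc, genclass_ptMap, hg.w]
  have hL : IsPullback (hF.lift g (X'.str ≫ ptMap k₀ (IsScalarTower.toAlgHom k₀ F L)) hw) X'.str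
      (pullback.snd X.str (ptMap k₀ (IsScalarTower.toAlgHom k₀ k F)))
      (ptMap k₀ (IsScalarTower.toAlgHom k₀ F L)) := by
    refine IsPullback.of_right ?_ (hF.lift_snd _ _ _) hF
    rw [hF.lift_fst, genclass_ptMap]
    exact hg
  have hlf := hF.lift_fst g (X'.str ≫ ptMap k₀ (IsScalarTower.toAlgHom k₀ F L)) hw
  generalize hF.lift g (X'.str ≫ ptMap k₀ (IsScalarTower.toAlgHom k₀ F L)) hw = gL at hL hlf
  obtain ⟨N, σ, s, hN, hs, b₁, hb₁, e₁⟩ := T.norm _ X'.str gL vF.isSm hL c a ha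
  obtain ⟨b, hb, e₂⟩ := desc_frac κ T X.isVar hF c b₁ hb₁
  have wX := X.isVar.isWeil
  have wX' := X'.isVar.isWeil
  have e3 : T.pull g b = ∑ i, T.pull (s i) a := by
    rw [← e₁, ← e₂, ← T.pull_comp _ _ X'.isVar.sm vF.sm X.isVar.sm, hlf]
  have e4 : ∀ i, T.cl X'.X (T.pull (s i) a) = T.cl X'.X a := by
    intro i
    rw [T.cl_pull _ wX' wX']
    obtain ⟨u, hu⟩ := surj (T.cl X'.X a)
    rw [← hu, ← T.pullH_comp _ _ wX' wX' wX]
    congr 2
    rw [← hlf, ← Category.assoc, (hs i).1]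
  have e5 : T.pullH g (T.cl X.X b) = (N : K) • T.cl X'.X a := by
    rw [← T.cl_pull _ wX' wX, e3, map_sum, Finset.sum_congr rfl fun i _ => e4 i,
      Finset.sum_const, Finset.card_univ, Fintype.card_fin, Nat.cast_smul_eq_nsmul]
  have hN' : (N : K) ≠ 0 := Nat.cast_ne_zero.2 hN.ne'
  refine ⟨(N : ℚ)⁻¹ • b, (T.codim X.X c).smul_mem _ hb, ?_⟩
  rw [cl_smul, map_smul, e5, smul_smul, Rat.cast_inv, Rat.cast_natCast, inv_mul_cancel₀ hN',
    one_smul]

include E in
/-- Algebraic correspondences descend. -/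
theorem desc_cor (H : AlgDesc T k L) {X : Var k₀ k} {X' : Var k₀ L} {g : X'.X ⟶ X.X}
    (hd : X'.dim = X.dim)
    (hg : IsPullback g X'.str X.str (ptMap k₀ (IsScalarTower.toAlgHom k₀ k L))) (r : ℤ)
    (f : T.H X'.X →ₗ[K] T.H X'.X) (hf : f ∈ (weil T L).Cor X' X' r) :
    ∃ f₀ ∈ (weil T k).Cor X X r, ∀ u : T.H X.X, f (T.pullH g u) = T.pullH g (f₀ u) := by
  obtain ⟨tr1, ⟨inj, surj⟩, -⟩ := Div.tBC k₀ K T E k L X X' g hd hg
  have vP : IsVar (pullback.fst X.str X.str ≫ X.str) (X.dim + X.dim) :=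
    Var.isVar_prod X.isVar X.isVar
  have vP' : IsVar (pullback.fst X'.str X'.str ≫ X'.str) (X'.dim + X'.dim) :=
    Var.isVar_prod X'.isVar X'.isVar
  have wX : IsWeil X.X := X.isVar.isWeil
  have wX' : IsWeil X'.X := X'.isVar.isWeil
  have wP : IsWeil (pullback X.str X.str) := vP.isWeil
  have wP' : IsWeil (pullback X'.str X'.str) := vP'.isWeil
  have tr2 : ∀ u, T.tr (pullback X'.str X'.str) (T.pullH (Div.bc_g₂ hg) u) =
      T.tr (pullback X.str X.str) u :=
    E.tr_field _ _ (Div.bc_g₂ hg) _ vP (Div.bc_squareBase hg)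
  have c1 : ∀ a, T.pullH (Div.bc_g₂ hg) (T.pullH (pullback.fst X.str X.str) a) =
      T.pullH (pullback.fst X'.str X'.str) (T.pullH g a) := by
    intro a
    rw [← T.pullH_comp _ _ wP' wP wX, ← T.pullH_comp _ _ wP' wX' wX, Div.bc_g₂_fst]
  have c2 : ∀ a, T.pullH (Div.bc_g₂ hg) (T.pullH (pullback.snd X.str X.str) a) =
      T.pullH (pullback.snd X'.str X'.str) (T.pullH g a) := by
    intro a
    rw [← T.pullH_comp _ _ wP' wP wX, ← T.pullH_comp _ _ wP' wX' wX, Div.bc_g₂_snd]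
  rcases (weil T L).mem_cor.1 hf with rfl | ⟨c, u, hc, hu, rfl⟩
  · refine ⟨0, AddSubgroup.zero_mem _, fun u => ?_⟩
    exact (map_zero (T.pullH g)).symm
  · obtain ⟨a, ha, rfl⟩ := hu
    obtain ⟨b, hb, hab⟩ := H (X ⊗ X) (X' ⊗ X') (Div.bc_g₂ hg)
      (by change X'.dim + X'.dim = X.dim + X.dim; rw [hd]) (Div.bc_squareBase hg) c a ha
    have hab' : T.cl (pullback X'.str X'.str) a =
      T.pullH (Div.bc_g₂ hg) (T.cl (pullback X.str X.str) b) := hab
    refine ⟨(weil T k).op (X := X) (Y := X) (T.cl (pullback X.str X.str) b),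
      (weil T k).mem_cor.2 (Or.inr ⟨c, _, ?_, ⟨b, hb, rfl⟩, rfl⟩), fun y => ?_⟩
    · change (c : ℤ) = (X.dim : ℤ) + r
      rw [← hd]
      exact hc
    · refine (weil T L).ext_tr (X := X') fun z' => ?_
      obtain ⟨z, rfl⟩ := surj z'
      have e1 := (weil T L).op_spec (X := X') (Y := X')
        (T.cl (pullback X'.str X'.str) a) (T.pullH g y) (T.pullH g z)
      have e2 := (weil T k).op_spec (X := X) (Y := X) (T.cl (pullback X.str X.str) b) y z
      refine e1.trans ?_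
      change T.tr (pullback X'.str X'.str) (T.cl (pullback X'.str X'.str) a *
        T.pullH (pullback.snd X'.str X'.str) (T.pullH g y) *
        T.pullH (pullback.fst X'.str X'.str) (T.pullH g z)) = _
      rw [hab', ← c1, ← c2, ← map_mul, ← map_mul, tr2]
      refine e2.symm.trans ?_
      refine (tr1 _).symm.trans ?_
      exact congrArg (T.tr X'.X) (map_mul (T.pullH g) _ _)

end closed

end Pool.Agent.Lib.MP_4ca46c_ag.Two
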