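import Pool.Agent.Lib.MP_4ca46c_ag.Two.SpecU

/-!
# Two parameters: smoothness of `U`
-/

namespace Pool.Agent.Lib.MP_4ca46c_ag.Two

open CategoryTheory Limits AlgebraicGeometry TensorProduct MonoidalCategory
  CartesianMonoidalCategory
open Pool.Agent.Lib.MP_4ca46c_ag.Sign Pool.Agent.Lib.MP_4ca46c_ag.Hyp
open Pool.Agent.Lib.MP_4ca46c_ag.Std Pool.Agent.Lib.MP_4ca46c_ag.Geo

namespace USmAux

section scheme

variable {U W₁ W₂ C X P : Scheme.{0}}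

/-- The base change of the restriction. -/
theorem res {m : ℕ} {p : U ⟶ X} {a : U ⟶ W₁} {f : X ⟶ P} {b : W₁ ⟶ P} (h : IsPullback p a f b)
    (S : P.Opens) (hf : SmoothOfRelativeDimension m (f ∣_ S)) :
    SmoothOfRelativeDimension m (a ∣_ (b ⁻¹ᵁ S)) := by
  have h1 : IsPullback ((a ⁻¹ᵁ (b ⁻¹ᵁ S)).ι ≫ p) (a ∣_ (b ⁻¹ᵁ S)) f ((b ⁻¹ᵁ S).ι ≫ b) :=
    (isPullback_morphismRestrict a (b ⁻¹ᵁ S)).flip.paste_horiz h
  have h2 : (b ⁻¹ᵁ S).ι ≫ b = (b ∣_ S) ≫ S.ι := (morphismRestrict_ι b S).symm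
  rw [h2] at h1
  have h3 := h1.of_right' (isPullback_morphismRestrict f S).flip
  have := smoothOfRelativeDimension_isStableUnderBaseChange.{0} m
  exact MorphismProperty.of_isPullback (P := @SmoothOfRelativeDimension m) h3 hf

theorem loc {m n : ℕ} {a₁ : U ⟶ W₁} {a₂ : U ⟶ W₂} {g₁ : W₁ ⟶ C} {g₂ : W₂ ⟶ C}
    (hU : IsPullback a₁ a₂ g₁ g₂) {w₂ : W₂ ⟶ X} {q : C ⟶ P} {f : X ⟶ P}
    (h2 : IsPullback w₂ g₂ f q) (S : P.Opens) (hf : SmoothOfRelativeDimension m (f ∣_ S))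
    {Q : Scheme.{0}} {e : W₁ ⟶ Q} (he : SmoothOfRelativeDimension n e) :
    SmoothOfRelativeDimension (n + m) ((a₁ ⁻¹ᵁ (g₁ ≫ q) ⁻¹ᵁ S).ι ≫ a₁ ≫ e) := by
  have h1 := hU.flip.paste_horiz h2
  have h3 := res h1 S hf
  have h4 : (a₁ ⁻¹ᵁ (g₁ ≫ q) ⁻¹ᵁ S).ι ≫ a₁ ≫ e =
      (a₁ ∣_ ((g₁ ≫ q) ⁻¹ᵁ S)) ≫ ((g₁ ≫ q) ⁻¹ᵁ S).ι ≫ e := by
    rw [← Category.assoc, ← Category.assoc, morphismRestrict_ι]
  rw [h4]
  have h5 : SmoothOfRelativeDimension (0 + n) (((g₁ ≫ q) ⁻¹ᵁ S).ι ≫ e) := inferInstance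
  have h6 : SmoothOfRelativeDimension (m + (0 + n))
      ((a₁ ∣_ ((g₁ ≫ q) ⁻¹ᵁ S)) ≫ ((g₁ ≫ q) ⁻¹ᵁ S).ι ≫ e) := inferInstance
  rwa [zero_add, add_comm m n] at h6

theorem cover {n : ℕ} (f : X ⟶ P) (O : Bool → X.Opens) (hO : iSup O = ⊤)
    (h : ∀ i, SmoothOfRelativeDimension n ((O i).ι ≫ f)) : SmoothOfRelativeDimension n f :=
  haveI : IsZariskiLocalAtSource (@SmoothOfRelativeDimension.{0} n) :=
    HasRingHomProperty.instIsZariskiLocalAtSource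
      (Q := RingHom.Locally (RingHom.IsStandardSmoothOfRelativeDimension n))
  IsZariskiLocalAtSource.of_iSup_eq_top (P := @SmoothOfRelativeDimension.{0} n) O hO h

end scheme

section main

variable {k₀ k : Type} [Field k₀] [Field k] [Algebra k₀ k] (Φ : Fib k₀ k)
  {ψ₀ : PP k₀ k ⟶ PSo k₀ k (Fin 3)} {M : Type} [Field M] [Algebra k₀ M]
  [Algebra k M] [IsScalarTower k₀ k M] {a : Fin 3 → M}
  {U : Sch k₀} {r : U ⟶ Φ.Y} {u : U ⟶ pt k₀ M}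
  {C : Sch k₀} {rC : C ⟶ PP k₀ k} {uC : C ⟶ pt k₀ M}

theorem ff_pr₁ : Φ.ff ≫ pr₁ k₀ k = pullback.fst _ _ ≫ Φ.f := pullback.lift_fst _ _ _

theorem ff_pr₂ : Φ.ff ≫ pr₂ k₀ k = pullback.snd _ _ ≫ Φ.f := pullback.lift_snd _ _ _

omit [Algebra k M] [IsScalarTower k₀ k M] in
theorem mem_comp {κ : Type} [Fintype κ] {Z : Sch k₀} (φ : Z ⟶ PSo k₀ k κ) {a : κ → M} {T T' : Sch k₀}
    {t : T ⟶ Z} {s : T ⟶ pt k₀ M} (h : Mem φ a t s) (e : T' ⟶ T) : Mem φ a (e ≫ t) (e ≫ s) := by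
  unfold Mem at h ⊢
  have h1 := PreCoord.Van.comp _ e.left h
  have h2 : ∀ j, Hyp.val ((e ≫ s).left : T'.left ⟶ Spec (CommRingCat.of M)) (a j) =
      (e.left).appTop (Hyp.val (s.left : T.left ⟶ Spec (CommRingCat.of M)) (a j)) := by
    intro j
    rw [Over.comp_left]
    exact DFunLike.congr_fun (Hyp.val_comp e.left (s.left : T.left ⟶ Spec (CommRingCat.of M))) (a j)
  simp only [h2]
  rw [Category.assoc, Over.comp_left]
  exact h1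

/-- `U` is the fibre product of the two base changes of `W` over the curve. -/
theorem sq {W₁ W₂ : Sch k₀} {w₁ : W₁ ⟶ Φ.V.X} {g₁ : W₁ ⟶ C} {w₂ : W₂ ⟶ Φ.V.X} {g₂ : W₂ ⟶ C}
    (hW₁ : IsPullback w₁ g₁ Φ.f (rC ≫ pr₁ k₀ k)) (hW₂ : IsPullback w₂ g₂ Φ.f (rC ≫ pr₂ k₀ k))
    (hU : IsMem Φ.y (Φ.ff ≫ ψ₀) a r u)
    (hC : IsMem (pr₁ k₀ k ≫ PSo.str k₀ k (Fin 2)) ψ₀ a rC uC)
    {c : U ⟶ C} (hc : c ≫ rC = r ≫ Φ.ff) (hcu : c ≫ uC = u) {a₁ : U ⟶ W₁} {a₂ : U ⟶ W₂}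
    (h11 : a₁ ≫ w₁ = r ≫ pullback.fst _ _) (h12 : a₁ ≫ g₁ = c)
    (h21 : a₂ ≫ w₂ = r ≫ pullback.snd _ _) (h22 : a₂ ≫ g₂ = c) : IsPullback a₁ a₂ g₁ g₂ := by
  refine IsPullback.mk' (by rw [h12, h22]) ?_ ?_
  · intro T φ φ' e1 e2
    refine hU.ext T φ φ' ?_ ?_
    · refine pullback.hom_ext ?_ ?_
      · rw [Category.assoc, Category.assoc, ← h11, reassoc_of% e1]
      · rw [Category.assoc, Category.assoc, ← h21, reassoc_of% e2]
    · rw [← hcu, ← h12, Category.assoc, reassoc_of% e1]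
  · intro T p q e
    have hs : pr₁ k₀ k ≫ PSo.str k₀ k (Fin 2) = pr₂ k₀ k ≫ PSo.str k₀ k (Fin 2) :=
      pullback.condition
    have e1 : p ≫ w₁ ≫ Φ.f = p ≫ g₁ ≫ rC ≫ pr₁ k₀ k := by rw [hW₁.w]
    have e2 : q ≫ w₂ ≫ Φ.f = p ≫ g₁ ≫ rC ≫ pr₂ k₀ k := by rw [hW₂.w, reassoc_of% e]
    have e3 : (p ≫ w₁) ≫ Φ.V.str = p ≫ g₁ ≫ uC ≫ ptMap k₀ (IsScalarTower.toAlgHom k₀ k M) := by
      rw [← Φ.f_str, ← hC.comm, Category.assoc, reassoc_of% e1]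
    have e4 : (q ≫ w₂) ≫ Φ.V.str = p ≫ g₁ ≫ uC ≫ ptMap k₀ (IsScalarTower.toAlgHom k₀ k M) := by
      rw [← Φ.f_str, ← hC.comm, Category.assoc, reassoc_of% e2, hs]
    let t : T ⟶ Φ.Y := pullback.lift (p ≫ w₁) (q ≫ w₂) (by rw [e3, e4])
    have ht1 : t ≫ pullback.fst _ _ = p ≫ w₁ := pullback.lift_fst _ _ _
    have ht2 : t ≫ pullback.snd _ _ = q ≫ w₂ := pullback.lift_snd _ _ _
    have htf : t ≫ Φ.ff = (p ≫ g₁) ≫ rC := by
      refine pullback.hom_ext ?_ ?_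
      · rw [Category.assoc, Category.assoc, Category.assoc]
        change t ≫ Φ.ff ≫ pr₁ k₀ k = p ≫ g₁ ≫ rC ≫ pr₁ k₀ k
        rw [ff_pr₁, reassoc_of% ht1, e1]
      · rw [Category.assoc, Category.assoc, Category.assoc]
        change t ≫ Φ.ff ≫ pr₂ k₀ k = p ≫ g₁ ≫ rC ≫ pr₂ k₀ k
        rw [ff_pr₂, reassoc_of% ht2, e2]
    have hmem : Mem (Φ.ff ≫ ψ₀) a t ((p ≫ g₁) ≫ uC) := by
      have h1 := mem_comp ψ₀ hC.mem (p ≫ g₁)
      unfold Mem at h1 ⊢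
      rw [← Category.assoc t Φ.ff ψ₀, htf]
      exact h1
    obtain ⟨t', ht'r, ht'u⟩ := hU.lift T t ((p ≫ g₁) ≫ uC) (by
      rw [Category.assoc, Category.assoc, ← e3, ← ht1, Category.assoc]) hmem
    have hcc : t' ≫ c = p ≫ g₁ := by
      refine hC.ext T _ _ ?_ ?_
      · rw [Category.assoc, hc, reassoc_of% ht'r, htf]
      · rw [Category.assoc, hcu, ht'u]
    refine ⟨t', ?_, ?_⟩
    · refine hW₁.hom_ext ?_ ?_
      · rw [Category.assoc, h11, reassoc_of% ht'r, ht1]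
      · rw [Category.assoc, h12, hcc]
    · refine hW₂.hom_ext ?_ ?_
      · rw [Category.assoc, h21, reassoc_of% ht'r, ht2]
      · rw [Category.assoc, h22, hcc, e]

end main

end USmAux

open USmAux

theorem tUSm (h1 : StMemEx) (h2 : StGraph) (h3 : StNotRat) : StUSm := by
  intro k₀ k _ _ _ Φ ψ₀ hψ M _ _ _ _ a ha hdet U r u hU
  obtain ⟨C, rC, uC, hC⟩ := h1 k₀ k (Fin 3) M (PP k₀ k) (pr₁ k₀ k ≫ PSo.str k₀ k (Fin 2)) ψ₀ hψ.1 a
  obtain ⟨G1, G2⟩ := h2 k₀ k ψ₀ hψ M a hdet C rC uC hC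
  have hnr := h3 k₀ k ψ₀ hψ M a ha C rC uC hC
  -- the map to the curve
  have hmem : Mem ψ₀ a (r ≫ Φ.ff) u := by
    have h := hU.mem
    unfold Mem at h ⊢
    rw [Category.assoc]
    exact h
  have hcomm : (r ≫ Φ.ff) ≫ pr₁ k₀ k ≫ PSo.str k₀ k (Fin 2) =
      u ≫ ptMap k₀ (IsScalarTower.toAlgHom k₀ k M) := by
    rw [← hU.comm, Category.assoc, ← Category.assoc Φ.ff, ff_pr₁, Category.assoc, Φ.f_str]
  obtain ⟨c, hc, hcu⟩ := hC.lift U (r ≫ Φ.ff) u hcomm hmem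
  -- the two base changes
  let W₁ : Sch k₀ := pullback Φ.f (rC ≫ pr₁ k₀ k)
  let W₂ : Sch k₀ := pullback Φ.f (rC ≫ pr₂ k₀ k)
  let w₁ : W₁ ⟶ Φ.V.X := pullback.fst _ _
  let g₁ : W₁ ⟶ C := pullback.snd _ _
  let w₂ : W₂ ⟶ Φ.V.X := pullback.fst _ _
  let g₂ : W₂ ⟶ C := pullback.snd _ _
  have hW₁ : IsPullback w₁ g₁ Φ.f (rC ≫ pr₁ k₀ k) := IsPullback.of_hasPullback _ _
  have hW₂ : IsPullback w₂ g₂ Φ.f (rC ≫ pr₂ k₀ k) := IsPullback.of_hasPullback _ _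
  have e1 : (r ≫ pullback.fst _ _) ≫ Φ.f = c ≫ rC ≫ pr₁ k₀ k := by
    rw [← Category.assoc c, hc, Category.assoc, Category.assoc, ff_pr₁]
  have e2 : (r ≫ pullback.snd _ _) ≫ Φ.f = c ≫ rC ≫ pr₂ k₀ k := by
    rw [← Category.assoc c, hc, Category.assoc, Category.assoc, ff_pr₂]
  let a₁ : U ⟶ W₁ := pullback.lift (r ≫ pullback.fst _ _) c e1
  let a₂ : U ⟶ W₂ := pullback.lift (r ≫ pullback.snd _ _) c e2
  have h11 : a₁ ≫ w₁ = r ≫ pullback.fst _ _ := pullback.lift_fst _ _ _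
  have h12 : a₁ ≫ g₁ = c := pullback.lift_snd _ _ _
  have h21 : a₂ ≫ w₂ = r ≫ pullback.snd _ _ := pullback.lift_fst _ _ _
  have h22 : a₂ ≫ g₂ = c := pullback.lift_snd _ _ _
  have hsq : IsPullback a₁ a₂ g₁ g₂ := sq Φ hW₁ hW₂ hU hC hc hcu h11 h12 h21 h22
  have P : IsPullback a₁.left a₂.left g₁.left g₂.left := hsq.map (Over.forget _)
  have P₁ : IsPullback w₁.left g₁.left Φ.f.left (rC ≫ pr₁ k₀ k).left := hW₁.map (Over.forget _)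
  have P₂ : IsPullback w₂.left g₂.left Φ.f.left (rC ≫ pr₂ k₀ k).left := hW₂.map (Over.forget _)
  -- the base changes to `M`
  have B₁ : IsPullback w₁ (g₁ ≫ uC) Φ.V.str (ptMap k₀ (IsScalarTower.toAlgHom k₀ k M)) := by
    have := hW₁.paste_vert G1
    rwa [Φ.f_str] at this
  have B₂ : IsPullback w₂ (g₂ ≫ uC) Φ.V.str (ptMap k₀ (IsScalarTower.toAlgHom k₀ k M)) := by
    have := hW₂.paste_vert G2
    rwa [Φ.f_str] at this
  have hbc := smoothOfRelativeDimension_isStableUnderBaseChange.{0} Φ.V.n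
  have s₁ : SmoothOfRelativeDimension Φ.V.n (g₁ ≫ uC).left :=
    MorphismProperty.of_isPullback (P := @SmoothOfRelativeDimension Φ.V.n)
      (B₁.map (Over.forget _)) Φ.V.isVar.smooth
  have s₂ : SmoothOfRelativeDimension Φ.V.n (g₂ ≫ uC).left :=
    MorphismProperty.of_isPullback (P := @SmoothOfRelativeDimension Φ.V.n)
      (B₂.map (Over.forget _)) Φ.V.isVar.smooth
  have p₁ : IsProper (g₁ ≫ uC).left :=
    MorphismProperty.of_isPullback (P := @IsProper) (B₁.map (Over.forget _)) Φ.V.isVar.proper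
  have hu₁ : u.left = a₁.left ≫ (g₁ ≫ uC).left := by
    rw [← Over.comp_left, ← Category.assoc, h12, hcu]
  have hu₂ : u.left = a₂.left ≫ (g₂ ≫ uC).left := by
    rw [← Over.comp_left, ← Category.assoc, h22, hcu]
  constructor
  · let O : Bool → U.left.Opens := fun i => match i with
      | true => a₁.left ⁻¹ᵁ (g₁.left ≫ (rC ≫ pr₂ k₀ k).left) ⁻¹ᵁ Φ.S
      | false => a₂.left ⁻¹ᵁ (g₂.left ≫ (rC ≫ pr₁ k₀ k).left) ⁻¹ᵁ Φ.S
    have hO : iSup O = ⊤ := by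
      rw [eq_top_iff]
      intro x _
      rw [TopologicalSpace.Opens.mem_iSup]
      by_contra hx
      have q1 : (g₁.left ≫ (rC ≫ pr₂ k₀ k).left) (a₁.left x) = (rC ≫ pr₂ k₀ k).left (c.left x) := by
        rw [← h12]
        rfl
      have q2 : (g₂.left ≫ (rC ≫ pr₁ k₀ k).left) (a₂.left x) = (rC ≫ pr₁ k₀ k).left (c.left x) := by
        rw [← h22]
        rfl
      have n1 : (rC ≫ pr₂ k₀ k).left (c.left x) ∉ Φ.S := by
        intro hc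
        refine hx ⟨true, ?_⟩
        change (g₁.left ≫ (rC ≫ pr₂ k₀ k).left) (a₁.left x) ∈ Φ.S
        rw [q1]
        exact hc
      have n2 : (rC ≫ pr₁ k₀ k).left (c.left x) ∉ Φ.S := by
        intro hc
        refine hx ⟨false, ?_⟩
        change (g₂.left ≫ (rC ≫ pr₁ k₀ k).left) (a₂.left x) ∈ Φ.S
        rw [q2]
        exact hc
      obtain ⟨e', he', hr'⟩ := Φ.compl _ n1
      obtain ⟨e, he, hr⟩ := Φ.compl _ n2
      exact hnr e e' he he' (c.left x) hr hr'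
    refine cover _ O hO fun i => ?_
    cases i with
    | true =>
      rw [hu₁]
      exact loc P P₂ Φ.S Φ.smooth s₁
    | false =>
      rw [hu₂]
      exact loc P.flip P₁ Φ.S Φ.smooth s₂
  · rw [hu₁]
    have hf : IsProper Φ.f.left := by
      have h5 : IsProper (Φ.f.left ≫ (PSo.str k₀ k (Fin 2)).left) := by
        rw [← Over.comp_left, Φ.f_str]
        exact Φ.V.isVar.proper
      have h6 : IsProper (PSo.str k₀ k (Fin 2)).left := (pso_var k₀ k (Fin 2) 1 (by simp)).proper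
      exact IsProper.of_comp _ (PSo.str k₀ k (Fin 2)).left
    have hg₂ : IsProper g₂.left := MorphismProperty.of_isPullback (P := @IsProper) P₂ hf
    have ha₁ : IsProper a₁.left := MorphismProperty.of_isPullback (P := @IsProper) P.flip hg₂
    infer_instance

end Pool.Agent.Lib.MP_4ca46c_ag.Two
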