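import Pool.Agent.Lib.MP_4ca46c_ag.Two.SpecU
import Pool.Agent.Lib.MP_4ca46c_ag.Div.Pr
import Pool.Agent.Lib.MP_4ca46c_ag.Div.ProdH
import Pool.Agent.Lib.MP_4ca46c_ag.Div.Abs

/-!
# The class of the divisors of type `(1, 1)`
-/

namespace Pool.Agent.Lib.MP_4ca46c_ag.Two

open CategoryTheory Limits AlgebraicGeometry TensorProduct MonoidalCategory
  CartesianMonoidalCategory
open Pool.Agent.Lib.MP_4ca46c_ag.Sign Pool.Agent.Lib.MP_4ca46c_ag.Hyp
open Pool.Agent.Lib.MP_4ca46c_ag.Std Pool.Agent.Lib.MP_4ca46c_ag.Geo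

namespace PsiClsAux

section Abs

variable {K : Type} [Field K] [CharZero K] {𝒱 : Type 1} [Category.{0} 𝒱]
  [CartesianMonoidalCategory 𝒱] (W : Geo.WeilCohomology K 𝒱)

theorem abs_mul {X : 𝒱} {t : W.H X} (ht : t ∈ W.gr X 2) (hs : Div.pr_Span W X t 1)
    {D : W.H X} (hD : D ∈ W.gr X 2) : ∃ a : K, D = a • t := by
  obtain ⟨c, hc⟩ := hs D
  have h2 := congrArg (W.pi X 2) hc
  rw [W.pi_same hD, map_sum, Finset.sum_eq_single_of_mem 1 (by simp) (fun l _ hl => by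
    rw [map_smul, W.pi_ne (Div.pr_pow_gr W ht l) (by omega), smul_zero])] at h2
  exact ⟨c 1, by rw [h2, map_smul, pow_one, W.pi_same ht]⟩

theorem abs_span {X : 𝒱} {t t' : W.H X} (ht : t ∈ W.gr X 2) (ht' : t' ∈ W.gr X 2) (h0 : t ≠ 0)
    (hs : Div.pr_Span W X t' 1) : Div.pr_Span W X t 1 := by
  obtain ⟨a, ha⟩ := abs_mul W ht' hs ht
  have h2 : a ≠ 0 := by
    intro h3
    rw [h3, zero_smul] at ha
    exact h0 ha
  intro v
  obtain ⟨d, hd⟩ := hs v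
  refine ⟨fun l => d l * (a⁻¹) ^ l, ?_⟩
  rw [hd]
  refine Finset.sum_congr rfl fun l _ => ?_
  rw [ha, smul_pow, smul_smul, mul_assoc, ← mul_pow, inv_mul_cancel₀ h2, one_pow, mul_one]

theorem abs_main {P : 𝒱} {t : W.H P} (hP : W.dim P = 1) (ht : t ∈ W.gr P 2)
    (htr : W.tr P t = 1) (hs : Div.pr_Span W P t 1) {δ : W.H (P ⊗ P)} (hδ : δ ∈ W.gr (P ⊗ P) 2)
    (h1 : W.tr (P ⊗ P) (δ * W.pull (fst P P) t) = 1)
    (h2 : W.tr (P ⊗ P) (δ * W.pull (snd P P) t) = 1) :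
    δ = W.pull (fst P P) t + W.pull (snd P P) t := by
  obtain ⟨D, hD, b, hb⟩ := Div.prodh_two W ht hP hs hδ
  obtain ⟨a, ha⟩ := abs_mul W ht hs hD
  have e1 : W.tm t (1 : W.H P) = W.pull (fst P P) t := by
    rw [Geo.WeilCohomology.tm, map_one, mul_one]
  have e2 : W.tm (1 : W.H P) t = W.pull (snd P P) t := by
    rw [Geo.WeilCohomology.tm, map_one, one_mul]
  have e3 : δ = a • W.pull (fst P P) t + b • W.pull (snd P P) t := by
    rw [hb, ha, W.tm_smul_left, e1, e2]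
  have htt : t * t = 0 := W.gr_top (SetLike.mul_mem_graded ht ht) (by rw [hP]; norm_num)
  have h3 : W.tr (P ⊗ P) (W.pull (fst P P) t * W.pull (snd P P) t) = 1 := by
    have := W.tr_tensor t t
    rw [htr, mul_one] at this
    exact this
  have hb1 : b = 1 := by
    rw [e3, add_mul, smul_mul_assoc, smul_mul_assoc, ← map_mul, htt, map_zero, smul_zero, zero_add,
      ← Div.prodh_comm W ht t, map_smul, h3, smul_eq_mul, mul_one] at h1
    exact h1
  have ha1 : a = 1 := by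
    rw [e3, add_mul, smul_mul_assoc, smul_mul_assoc, ← map_mul, htt, map_zero, smul_zero, add_zero,
      map_smul, h3, smul_eq_mul, mul_one] at h2
    exact h2
  rw [e3, ha1, hb1, one_smul, one_smul]

end Abs

variable {k₀ K : Type} [Field k₀] [Field K] [CharZero K] {T : WeilTheory k₀ K}
  {k : Type} [Field k] [Algebra k₀ k] [IsAlgClosed k]

/-- The trace of `1` on a variety of dimension zero. -/
theorem tr_dim_zero (E : Extra T) {X : Sch k₀} {x : X ⟶ pt k₀ k} (h : IsVar x 0) :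
    T.tr X 1 = 1 := by
  obtain ⟨p, hp⟩ := h.exists_point
  have hpt : IsVar (𝟙 (pt k₀ k)) 0 := Var.isVar_pt
  have hprop := h.proper
  have hpp : IsProper p.left := by
    have h1 : IsProper (p ≫ x).left := by
      rw [hp, Over.id_left]
      infer_instance
    rw [Over.comp_left] at h1
    exact IsProper.of_comp p.left x.left
  have hmono : Mono p := by
    have : Mono (p ≫ x) := by rw [hp]; infer_instance
    exact mono_of_mono p x
  have hmem := T.push_mem (𝟙 (pt k₀ k)) x p hp hpt.isSm h.isSm hpp 0 0 hpt.smooth h.smooth 0 0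
    rfl 1 (T.one_mem _)
  obtain ⟨q, hq⟩ := T.codim_zero X h.sm h.connectedSpace _ hmem
  have hpb : IsPullback (𝟙 (pt k₀ k)) (𝟙 (pt k₀ k)) p p := IsKernelPair.id_of_mono p
  have hid : IsVar (p ≫ x) 0 := by rw [hp]; exact hpt
  have htr := E.transversal x p (𝟙 (pt k₀ k)) (𝟙 (pt k₀ k)) p hpb h.isSm hid.isSm hid.isSm
    (by rw [Category.id_comp]; exact hid.isSm) hpp 0 0 0 0 h.smooth hid.smooth hid.smooth
    (by rw [Category.id_comp]; exact hid.smooth) rfl 1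
  have hcl1 : T.cl (pt k₀ k) (T.push (𝟙 (pt k₀ k)) (T.pull (𝟙 (pt k₀ k)) 1)) = 1 := by
    rw [map_one, ← sub_eq_zero]
    refine T.poincare _ hpt.isWeil _ fun v => ?_
    have h1 := T.cl_push (𝟙 (pt k₀ k)) (𝟙 (pt k₀ k)) (𝟙 (pt k₀ k)) (Category.comp_id _) 0 0 hpt
      hpt 1 v
    rw [map_one (T.cl (pt k₀ k)), one_mul, T.pullH_id hpt.isWeil] at h1
    rw [sub_mul, map_sub, h1, one_mul, sub_self]
  have hq1 : (q : K) = 1 := by
    have h1 := congrArg (T.cl (pt k₀ k)) htr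
    rw [hcl1, T.cl_pull p hpt.isWeil h.isWeil, hq, cl_smul, map_one, map_smul, map_one] at h1
    have h2 := congrArg (T.tr (pt k₀ k)) h1
    rw [map_smul, T.tr_pt, smul_eq_mul, mul_one] at h2
    exact h2
  have h3 := T.cl_push (𝟙 (pt k₀ k)) x p hp 0 0 hpt h 1 1
  rw [hq, cl_smul, map_one (T.cl X), mul_one, hq1, one_smul, map_one (T.cl (pt k₀ k)),
    map_one (T.pullH p), mul_one, T.tr_pt] at h3
  exact h3

theorem vP : IsVar (PSo.str k₀ k (Fin 2)) 1 := tPS k₀ k (Fin 2) 1 (by simp)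

theorem vP0 : IsVar (PSo.str k₀ k {j : Fin 2 // j ≠ 0}) 0 := by
  classical
  exact tPS k₀ k {j : Fin 2 // j ≠ 0} 0 (by
    rw [Fintype.card_subtype_compl]
    simp)

/-- The trace of the class of a point. -/
theorem tr_t (E : Extra T) : T.tr (P1 k₀ k) (T.cl (P1 k₀ k) (hypClass T k (0 : Fin 2))) = 1 := by
  have h1 := T.cl_push (PSo.str k₀ k {j : Fin 2 // j ≠ 0}) (PSo.str k₀ k (Fin 2))
    (PSo.hyp k₀ k (Fin 2) 0) (PSo.hyp_str k₀ k (Fin 2) 0) 0 1 vP0 vP 1 1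
  rw [mul_one, map_one (T.cl (PSo k₀ k {j : Fin 2 // j ≠ 0})),
    map_one (T.pullH (PSo.hyp k₀ k (Fin 2) 0)), mul_one, tr_dim_zero E vP0] at h1
  exact h1

theorem t_mem : T.cl (P1 k₀ k) (hypClass T k (0 : Fin 2)) ∈ T.deg (P1 k₀ k) 2 :=
  T.cl_mem _ vP.isWeil 1 _ (hypClass_mem T tPS tHyp k (0 : Fin 2))

/-- The projective line as a variety. -/
noncomputable abbrev L1 (k₀ k : Type) [Field k₀] [Field k] [Algebra k₀ k] [IsAlgClosed k] :
    Var k₀ k := Div.pr_P k₀ k (Fin 2) 1 vP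

/-- `H(ℙ¹)` is spanned by `1` and `t`. -/
theorem span (E : Extra T) : Div.pr_Span (weil T k) (L1 k₀ k)
    (T.cl (P1 k₀ k) (hypClass T k (0 : Fin 2))) 1 := by
  obtain ⟨t', ht', hs, -⟩ := Div.tPr k₀ K T E k (Fin 2) 1 (by simp)
  have ht2 : T.cl (P1 k₀ k) t' ∈ (weil T k).gr (L1 k₀ k) 2 := T.cl_mem _ vP.isWeil 1 _ ht'
  have ht : T.cl (P1 k₀ k) (hypClass T k (0 : Fin 2)) ∈ (weil T k).gr (L1 k₀ k) 2 := t_mem
  refine abs_span (weil T k) ht ht2 ?_ hs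
  intro h
  have h4 := tr_t (T := T) (k := k) E
  have h5 : T.cl (P1 k₀ k) (hypClass T k (0 : Fin 2)) = 0 := h
  rw [h5, map_zero] at h4
  exact zero_ne_one h4

end PsiClsAux

open PsiClsAux in
theorem tPsiCls (k₀ K : Type) [Field k₀] [Field K] [CharZero K] (h1 : StNetVar k₀)
    (h2 : StNetCls k₀ K) (h3 : StNetPP) : StPsiCls k₀ K := by
  intro T E k _ _ _ ψ₀ hψ
  obtain ⟨C, toP, toY, hpb, hsm, hconn, hq1, hq2⟩ := h3 k₀ k ψ₀ hψ
  have vPP : IsVar (pr₁ k₀ k ≫ PSo.str k₀ k (Fin 2)) (1 + 1) := Var.isVar_prod vP vP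
  let D : Net (P2 k₀ k) :=
    { Y := PP k₀ k
      str := pr₁ k₀ k ≫ PSo.str k₀ k (Fin 2)
      N := 1
      isVar := vPP
      ψ := ψ₀
      ψ_str := hψ.1
      U₀ := C
      toP := toP
      toY := toY
      isPB := hpb
      smooth := hsm
      conn := hconn }
  have vU : IsVar D.u D.N := (h1 k (P2 k₀ k) D).2.1
  have v3 : IsVar (PSo.str k₀ k (Fin 3)) 2 := tPS k₀ k (Fin 3) 2 (by simp)
  have key : ∀ (q : PP k₀ k ⟶ P1 k₀ k), IsPullback (toY ≫ q) (toP ≫ (P2 k₀ k).y₀)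
      (PSo.str k₀ k (Fin 2)) (ptMap k₀ (IsScalarTower.toAlgHom k₀ k (P2 k₀ k).F)) →
      T.tr (PP k₀ k) (T.cl (PP k₀ k) (T.pull ψ₀ (hypClass T k (0 : Fin 3))) *
        T.pullH q (T.cl (P1 k₀ k) (hypClass T k (0 : Fin 2)))) = 1 := by
    intro q hq
    have e1 := h2 T E k (P2 k₀ k) D 1 rfl
      (T.pullH q (T.cl (P1 k₀ k) (hypClass T k (0 : Fin 2))))
    have e2 : (P2 k₀ k).h T = hypClass T k (0 : Fin 3) := T.pull_id v3.sm _
    rw [e2] at e1
    refine Eq.trans e1.symm ?_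
    have e3 := T.pullH_comp D.r q vU.isWeil vPP.isWeil vP.isWeil
      (T.cl (P1 k₀ k) (hypClass T k (0 : Fin 2)))
    refine (congrArg (T.tr D.U) e3.symm).trans ?_
    have hbc : IsPullback (D.r ≫ q) D.u (PSo.str k₀ k (Fin 2))
        (ptMap k₀ (IsScalarTower.toAlgHom k₀ k (P2 k₀ k).L)) := by
      have h4 := IsPullback.paste_horiz D.isBC hq
      have h5 : ptMap k₀ (IsScalarTower.toAlgHom k₀ (P2 k₀ k).F (P2 k₀ k).L) ≫
          ptMap k₀ (IsScalarTower.toAlgHom k₀ k (P2 k₀ k).F) =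
          ptMap k₀ (IsScalarTower.toAlgHom k₀ k (P2 k₀ k).L) := by
        rw [Std.average_ptMap_comp]
        congr 1
      rw [h5] at h4
      have h6 : D.r ≫ q = D.pU ≫ toY ≫ q := Category.assoc _ _ _
      rw [h6]
      exact h4
    rw [E.tr_field (PSo.str k₀ k (Fin 2)) D.u (D.r ≫ q) 1 vP hbc, tr_t E]
  have hmem : T.cl (PP k₀ k) (T.pull ψ₀ (hypClass T k (0 : Fin 3))) ∈
      T.deg (PP k₀ k) (2 * 1) :=
    T.cl_mem _ vPP.isWeil 1 _ (T.pull_mem ψ₀ vPP.sm v3.sm 1 _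
      (hypClass_mem T tPS tHyp k (0 : Fin 3)))
  exact abs_main (weil T k) (P := L1 k₀ k) rfl t_mem (tr_t E) (span E) hmem
    (key (pr₁ k₀ k) hq1) (key (pr₂ k₀ k) hq2)

end Pool.Agent.Lib.MP_4ca46c_ag.Two
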