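import Mathlib
import Pool.Agent.Lib.MP_4ca46c_ag.Hyp.Vec
import Pool.Agent.Lib.MP_4ca46c_ag.Hyp.ToPS
import Pool.Agent.Lib.MP_4ca46c_ag.Two.SpecU

/-!
# Two parameters: the curve of type `(1, 1)` is a graph
-/

namespace Pool.Agent.Lib.MP_4ca46c_ag.Two

open CategoryTheory Limits AlgebraicGeometry TensorProduct MonoidalCategory
  CartesianMonoidalCategory
open Pool.Agent.Lib.MP_4ca46c_ag.Sign Pool.Agent.Lib.MP_4ca46c_ag.Hyp
open Pool.Agent.Lib.MP_4ca46c_ag.Std Pool.Agent.Lib.MP_4ca46c_ag.Geo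

namespace GraphAux

section algebra

variable {R : Type*} [CommRing R]

/-- the bilinear form -/
def bil (a : Fin 3 → R) (x y : Fin 2 → R) : R :=
  a 0 * (x 0 * y 0) + a 1 * (x 1 * y 1) + a 2 * ((x 0 + x 1) * (y 0 + y 1))

/-- the determinant -/
def dt (a : Fin 3 → R) : R := a 0 * a 1 + a 0 * a 2 + a 1 * a 2

/-- coefficient of `y 0` -/
def m0 (a : Fin 3 → R) (x : Fin 2 → R) : R := (a 0 + a 2) * x 0 + a 2 * x 1

/-- coefficient of `y 1` -/
def m1 (a : Fin 3 → R) (x : Fin 2 → R) : R := a 2 * x 0 + (a 1 + a 2) * x 1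

theorem bil_symm (a : Fin 3 → R) (x y : Fin 2 → R) : bil a x y = bil a y x := by
  unfold bil; ring

theorem bil_eq (a : Fin 3 → R) (x y : Fin 2 → R) : bil a x y = m0 a x * y 0 + m1 a x * y 1 := by
  unfold bil m0 m1; ring

theorem key {a : Fin 3 → R} (hd : IsUnit (dt a)) {x : Fin 2 → R} {i : Fin 2} (hx : x i = 1) :
    ∃ c d, c * m0 a x + d * m1 a x = 1 := by
  obtain ⟨e, he⟩ := hd.exists_left_inv
  unfold dt at he
  fin_cases i
  · have hx : x 0 = 1 := hx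
    refine ⟨e * (a 1 + a 2), -(e * a 2), ?_⟩
    unfold m0 m1
    linear_combination he + (e * (a 0 * a 1 + a 0 * a 2 + a 1 * a 2)) * hx
  · have hx : x 1 = 1 := hx
    refine ⟨-(e * a 2), e * (a 0 + a 2), ?_⟩
    unfold m0 m1
    linear_combination he + (e * (a 0 * a 1 + a 0 * a 2 + a 1 * a 2)) * hx

theorem cross {a : Fin 3 → R} (hd : IsUnit (dt a)) {x y y' : Fin 2 → R} {i : Fin 2}
    (hx : x i = 1) (h : bil a x y = 0) (h' : bil a x y' = 0) (p q : Fin 2) :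
    y p * y' q = y q * y' p := by
  obtain ⟨c, d, hcd⟩ := key hd hx
  rw [bil_eq] at h h'
  have h1 : y 0 * y' 1 - y 1 * y' 0 = 0 := by
    linear_combination (c * y' 1 - d * y' 0) * h + (d * y 0 - c * y 1) * h' -
      (y 0 * y' 1 - y 1 * y' 0) * hcd
  fin_cases p <;> fin_cases q
  · rfl
  · change y 0 * y' 1 = y 1 * y' 0
    linear_combination h1
  · change y 1 * y' 0 = y 0 * y' 1
    linear_combination -h1
  · rfl

theorem map_m0 {R' : Type*} [CommRing R'] (φ : R →+* R') (a : Fin 3 → R) (x : Fin 2 → R) :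
    φ (m0 a x) = m0 (fun j => φ (a j)) (fun j => φ (x j)) := by
  simp [m0]

theorem map_m1 {R' : Type*} [CommRing R'] (φ : R →+* R') (a : Fin 3 → R) (x : Fin 2 → R) :
    φ (m1 a x) = m1 (fun j => φ (a j)) (fun j => φ (x j)) := by
  simp [m1]

theorem map_dt {R' : Type*} [CommRing R'] (φ : R →+* R') (a : Fin 3 → R) :
    φ (dt a) = dt (fun j => φ (a j)) := by
  simp [dt]

end algebra

section rel

variable {k : Type} [Field k]

/-- the coordinates of a point of the chart `i` -/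
noncomputable def co {T : Scheme.{0}} (p : T ⟶ PS k (Fin 2)) (i : Fin 2) (h : ⊤ ≤ p ⁻¹ᵁ psD i)
    (j : Fin 2) : Γ(T, ⊤) := p.appLE (psD i) ⊤ h (psf i j)

theorem co_self {T : Scheme.{0}} (p : T ⟶ PS k (Fin 2)) (i : Fin 2) (h : ⊤ ≤ p ⁻¹ᵁ psD i) :
    co p i h i = 1 := by
  rw [co, psf_self, map_one]

theorem top_comp {T T' : Scheme.{0}} (w : T' ⟶ T) {p : T ⟶ PS k (Fin 2)} {i : Fin 2}
    (h : ⊤ ≤ p ⁻¹ᵁ psD i) : ⊤ ≤ (w ≫ p) ⁻¹ᵁ psD i := fun x _ => h (Set.mem_univ (w x))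

theorem co_comp {T T' : Scheme.{0}} (w : T' ⟶ T) (p : T ⟶ PS k (Fin 2)) (i : Fin 2)
    (h : ⊤ ≤ p ⁻¹ᵁ psD i) (h' : ⊤ ≤ (w ≫ p) ⁻¹ᵁ psD i) (j : Fin 2) :
    co (w ≫ p) i h' j = w.appTop (co p i h j) := by
  have h1 := Scheme.Hom.appLE_comp_appLE w p (psD i) ⊤ ⊤ h (le_of_eq rfl)
  have h2 : w.appLE ⊤ ⊤ (le_of_eq rfl) = w.appTop := Scheme.Hom.appLE_eq_app w
  rw [co, co, ← h2, ← CommRingCat.comp_apply, h1]

/-- the properties of the relation which are used -/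
structure IsRel (R : ∀ T : Scheme.{0}, (T ⟶ PS k (Fin 2)) → (T ⟶ PS k (Fin 2)) →
    (Fin 3 → Γ(T, ⊤)) → Prop) : Prop where
  comp : ∀ {T T' : Scheme.{0}} (w : T' ⟶ T) (p q : T ⟶ PS k (Fin 2)) (a : Fin 3 → Γ(T, ⊤)),
    R T p q a → R T' (w ≫ p) (w ≫ q) (fun j => w.appTop (a j))
  form : ∀ {T : Scheme.{0}} (p q : T ⟶ PS k (Fin 2)), p ≫ psStr k _ = q ≫ psStr k _ →
    ∀ (i i' : Fin 2) (h : ⊤ ≤ p ⁻¹ᵁ psD i) (h' : ⊤ ≤ q ⁻¹ᵁ psD i') (a : Fin 3 → Γ(T, ⊤)),
    R T p q a ↔ bil a (co p i h) (co q i' h') = 0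
  loc : ∀ {T : Scheme.{0}} (p q : T ⟶ PS k (Fin 2)), p ≫ psStr k _ = q ≫ psStr k _ →
    ∀ (a : Fin 3 → Γ(T, ⊤)) {κ : Type} (U : κ → T.Opens), ⨆ i, U i = ⊤ →
    (∀ i, R (U i).toScheme ((U i).ι ≫ p) ((U i).ι ≫ q) (fun j => (U i).ι.appTop (a j))) →
    R T p q a

variable {R : ∀ T : Scheme.{0}, (T ⟶ PS k (Fin 2)) → (T ⟶ PS k (Fin 2)) →
  (Fin 3 → Γ(T, ⊤)) → Prop}

theorem uniq0 (hR : IsRel R) {T : Scheme.{0}} (p q q' : T ⟶ PS k (Fin 2)) (i i' i'' : Fin 2)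
    (h : ⊤ ≤ p ⁻¹ᵁ psD i) (h' : ⊤ ≤ q ⁻¹ᵁ psD i') (h'' : ⊤ ≤ q' ⁻¹ᵁ psD i'')
    (hs : p ≫ psStr k _ = q ≫ psStr k _) (hs' : p ≫ psStr k _ = q' ≫ psStr k _)
    (a : Fin 3 → Γ(T, ⊤)) (hd : IsUnit (dt a)) (h1 : R T p q a) (h2 : R T p q' a) : q = q' := by
  rw [hR.form p q hs i i' h h' a] at h1
  rw [hR.form p q' hs' i i'' h h'' a] at h2
  have hc := cross hd (co_self p i h) h1 h2
  have e1 : co q i' h' i'' * co q' i'' h'' i' = 1 := by
    rw [← hc i' i'', co_self, co_self, one_mul]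
  have hu : IsUnit (co q' i'' h'' i') := IsUnit.of_mul_eq_one _ ((mul_comm _ _).trans e1)
  have hi : ⊤ ≤ q' ⁻¹ᵁ psD i' := PreCoord.ps_le q' ⊤ i'' i' h'' hu
  refine ps_sep i' T q q' h' hi (hs.symm.trans hs') fun l => ?_
  have e2 : co q' i'' h'' l = co q' i'' h'' i' * co q' i' hi l :=
    PreCoord.ps_mul q' ⊤ i'' i' l h'' hi
  have e3 := hc i' l
  rw [co_self, one_mul, e2, mul_comm (co q i' h' l)] at e3
  exact (hu.mul_left_cancel e3).symm

theorem uniq (hR : IsRel R) {T : Scheme.{0}} (p q q' : T ⟶ PS k (Fin 2))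
    (hs : p ≫ psStr k _ = q ≫ psStr k _) (hs' : p ≫ psStr k _ = q' ≫ psStr k _)
    (a : Fin 3 → Γ(T, ⊤)) (hd : IsUnit (dt a)) (h1 : R T p q a) (h2 : R T p q' a) : q = q' := by
  have hcov : ∀ (f : T ⟶ PS k (Fin 2)) (x : T), ∃ i, f x ∈ psD (k := k) (κ := Fin 2) i :=
    fun f x => TopologicalSpace.Opens.mem_iSup.1
      ((iSup_psD (k := k) (κ := Fin 2)).ge (Set.mem_univ (f x)))
  refine hom_ext_of_opens (κ := Fin 2 × Fin 2 × Fin 2)
    (fun c => p ⁻¹ᵁ psD c.1 ⊓ q ⁻¹ᵁ psD c.2.1 ⊓ q' ⁻¹ᵁ psD c.2.2) ?_ ?_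
  · rw [eq_top_iff]
    intro x _
    obtain ⟨i, hi⟩ := hcov p x
    obtain ⟨i', hi'⟩ := hcov q x
    obtain ⟨i'', hi''⟩ := hcov q' x
    exact TopologicalSpace.Opens.mem_iSup.2 ⟨(i, i', i''), ⟨⟨hi, hi'⟩, hi''⟩⟩
  · rintro ⟨i, i', i''⟩
    set U : T.Opens := p ⁻¹ᵁ psD i ⊓ q ⁻¹ᵁ psD i' ⊓ q' ⁻¹ᵁ psD i'' with hU
    have hm : ∀ x : U, (x : T) ∈ U := fun x => x.2
    refine uniq0 hR (U.ι ≫ p) (U.ι ≫ q) (U.ι ≫ q') i i' i'' (fun x _ => (hm x).1.1)
      (fun x _ => (hm x).1.2) (fun x _ => (hm x).2) (by rw [Category.assoc, Category.assoc, hs])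
      (by rw [Category.assoc, Category.assoc, hs']) (fun j => U.ι.appTop (a j)) ?_
      (hR.comp U.ι p q a h1) (hR.comp U.ι p q' a h2)
    have := (map_dt U.ι.appTop.hom a) ▸ hd.map U.ι.appTop.hom
    exact this

theorem ex0 (hR : IsRel R) {T : Scheme.{0}} (p : T ⟶ PS k (Fin 2)) (i : Fin 2)
    (h : ⊤ ≤ p ⁻¹ᵁ psD i) (a : Fin 3 → Γ(T, ⊤))
    (hu : IsUnit (m0 a (co p i h)) ∨ IsUnit (m1 a (co p i h))) :
    ∃ q : T ⟶ PS k (Fin 2), p ≫ psStr k _ = q ≫ psStr k _ ∧ R T p q a := by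
  rcases hu with hu | hu
  · obtain ⟨e, he⟩ := hu.exists_right_inv
    obtain ⟨F, hF, hi, hc⟩ := exists_vec (k := k) (κ := Fin 2) (i := 1)
      (![-(m1 a (co p i h)) * e, 1] : Fin 2 → Γ(T, ⊤)) rfl (p ≫ psStr k _)
    refine ⟨F, hF.symm, ?_⟩
    rw [hR.form p F hF.symm i 1 h hi a, bil_eq]
    have e0 : co F 1 hi 0 = -(m1 a (co p i h)) * e := hc 0
    have e1 : co F 1 hi 1 = 1 := hc 1
    rw [e0, e1]
    linear_combination (-(m1 a (co p i h))) * he
  · obtain ⟨e, he⟩ := hu.exists_right_inv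
    obtain ⟨F, hF, hi, hc⟩ := exists_vec (k := k) (κ := Fin 2) (i := 0)
      (![1, -(m0 a (co p i h)) * e] : Fin 2 → Γ(T, ⊤)) rfl (p ≫ psStr k _)
    refine ⟨F, hF.symm, ?_⟩
    rw [hR.form p F hF.symm i 0 h hi a, bil_eq]
    have e0 : co F 0 hi 0 = 1 := hc 0
    have e1 : co F 0 hi 1 = -(m0 a (co p i h)) * e := hc 1
    rw [e0, e1]
    linear_combination (-(m0 a (co p i h))) * he

theorem glue (hR : IsRel R) {T : Scheme.{0}} (p : T ⟶ PS k (Fin 2)) (a : Fin 3 → Γ(T, ⊤))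
    (hd : IsUnit (dt a)) {κ : Type} (U : κ → T.Opens) (hU : ⨆ i, U i = ⊤)
    (H : ∀ i, ∃ q : (U i).toScheme ⟶ PS k (Fin 2), ((U i).ι ≫ p) ≫ psStr k _ = q ≫ psStr k _ ∧
      R (U i).toScheme ((U i).ι ≫ p) q (fun j => (U i).ι.appTop (a j))) :
    ∃ q : T ⟶ PS k (Fin 2), p ≫ psStr k _ = q ≫ psStr k _ ∧ R T p q a := by
  choose q hq1 hq2 using H
  have hg : ∀ i j, pullback.fst (U i).ι (U j).ι ≫ q i = pullback.snd (U i).ι (U j).ι ≫ q j := by
    intro i j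
    set f := pullback.fst (U i).ι (U j).ι
    set g := pullback.snd (U i).ι (U j).ι
    have hfg : f ≫ (U i).ι = g ≫ (U j).ι := pullback.condition
    refine uniq hR (f ≫ (U i).ι ≫ p) _ _ ?_ ?_ (fun l => f.appTop ((U i).ι.appTop (a l))) ?_
      (hR.comp f _ _ _ (hq2 i)) ?_
    · rw [Category.assoc f (q i), ← hq1 i]
      simp only [Category.assoc]
    · rw [Category.assoc g (q j), ← hq1 j, ← Category.assoc f, hfg]
      simp only [Category.assoc]
    · have h1 := hd.map ((U i).ι.appTop.hom)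
      rw [map_dt] at h1
      have h2 := h1.map f.appTop.hom
      rw [map_dt] at h2
      exact h2
    · have h3 := hR.comp g _ _ _ (hq2 j)
      have e1 : f ≫ (U i).ι ≫ p = g ≫ (U j).ι ≫ p := by
        rw [← Category.assoc, hfg, Category.assoc]
      have e2 : (fun l => f.appTop ((U i).ι.appTop (a l))) =
          fun l => g.appTop ((U j).ι.appTop (a l)) := by
        funext l
        have h4 : (f ≫ (U i).ι).appTop = (g ≫ (U j).ι).appTop := by rw [hfg]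
        rw [Scheme.Hom.comp_appTop, Scheme.Hom.comp_appTop] at h4
        exact congrArg (fun φ => φ (a l)) h4
      rw [e1, e2]
      exact h3
  refine ⟨(T.openCoverOfIsOpenCover U (.mk hU)).glueMorphisms q hg, ?_, ?_⟩
  · refine hom_ext_of_opens U hU fun i => ?_
    rw [← Category.assoc, ← Category.assoc]
    rw [show (U i).ι ≫ (T.openCoverOfIsOpenCover U (.mk hU)).glueMorphisms q hg = q i from
      (T.openCoverOfIsOpenCover U (.mk hU)).ι_glueMorphisms q hg i]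
    exact hq1 i
  · refine hR.loc p _ ?_ a U hU fun i => ?_
    · refine hom_ext_of_opens U hU fun i => ?_
      rw [← Category.assoc, ← Category.assoc]
      rw [show (U i).ι ≫ (T.openCoverOfIsOpenCover U (.mk hU)).glueMorphisms q hg = q i from
        (T.openCoverOfIsOpenCover U (.mk hU)).ι_glueMorphisms q hg i]
      exact hq1 i
    · rw [show (U i).ι ≫ (T.openCoverOfIsOpenCover U (.mk hU)).glueMorphisms q hg = q i from
        (T.openCoverOfIsOpenCover U (.mk hU)).ι_glueMorphisms q hg i]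
      exact hq2 i

theorem unit_basic {T : Scheme.{0}} (f : Γ(T, ⊤)) : IsUnit ((T.basicOpen f).ι.appTop f) := by
  have h1 : IsUnit (T.presheaf.map (homOfLE (T.basicOpen_le f)).op f) :=
    T.toRingedSpace.isUnit_res_basicOpen f
  have h2 : (T.basicOpen f).ι.appTop f =
      (T.basicOpen f).topIso.inv (T.presheaf.map (homOfLE (T.basicOpen_le f)).op f) := by
    have h3 := Scheme.Hom.map_appLE (T.basicOpen f).ι (U := T.basicOpen f) (V := ⊤) (U' := ⊤)
      (by simp) (homOfLE (T.basicOpen_le f)).op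
    have h4 : (T.basicOpen f).ι.appLE (T.basicOpen f) ⊤ (by simp) = (T.basicOpen f).topIso.inv := by
      rw [Scheme.Opens.ι_appLE, Scheme.Opens.topIso_inv]
      rfl
    rw [← h4, ← CommRingCat.comp_apply, h3]
    have h5 : (T.basicOpen f).ι.appLE ⊤ ⊤ (le_of_eq rfl) = (T.basicOpen f).ι.appTop :=
      Scheme.Hom.appLE_eq_app _
    exact congrArg (fun φ => φ f) h5.symm
  rw [h2]
  exact h1.map (T.basicOpen f).topIso.inv.hom

theorem ex1 (hR : IsRel R) {T : Scheme.{0}} (p : T ⟶ PS k (Fin 2)) (i : Fin 2)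
    (h : ⊤ ≤ p ⁻¹ᵁ psD i) (a : Fin 3 → Γ(T, ⊤)) (hd : IsUnit (dt a)) :
    ∃ q : T ⟶ PS k (Fin 2), p ≫ psStr k _ = q ≫ psStr k _ ∧ R T p q a := by
  obtain ⟨c, d, hcd⟩ := key hd (co_self p i h)
  refine glue hR p a hd (κ := Bool)
    (fun b => T.basicOpen (if b then m0 a (co p i h) else m1 a (co p i h))) ?_ ?_
  · rw [eq_top_iff]
    intro x _
    rw [TopologicalSpace.Opens.mem_iSup]
    have h1 : IsUnit (T.presheaf.germ ⊤ x trivial (c * m0 a (co p i h) + d * m1 a (co p i h))) := by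
      rw [hcd, map_one]
      exact isUnit_one
    rw [map_add, map_mul, map_mul] at h1
    rcases IsLocalRing.isUnit_or_isUnit_of_isUnit_add h1 with h2 | h2
    · refine ⟨true, ?_⟩
      simp only [if_true]
      rw [Scheme.mem_basicOpen_top]
      exact isUnit_of_mul_isUnit_right h2
    · refine ⟨false, ?_⟩
      simp only [Bool.false_eq_true, if_false]
      rw [Scheme.mem_basicOpen_top]
      exact isUnit_of_mul_isUnit_right h2
  · intro b
    set f := if b then m0 a (co p i h) else m1 a (co p i h) with hf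
    set V := T.basicOpen f with hV
    have ht : ⊤ ≤ (V.ι ≫ p) ⁻¹ᵁ psD i := top_comp V.ι h
    have hco : co (V.ι ≫ p) i ht = fun j => V.ι.appTop (co p i h j) :=
      funext fun j => co_comp V.ι p i h ht j
    refine ex0 hR (V.ι ≫ p) i ht _ ?_
    have hu : IsUnit (V.ι.appTop f) := unit_basic f
    rw [hco]
    cases b
    · right
      have e : V.ι.appTop (m1 a (co p i h)) =
          m1 (fun j => V.ι.appTop (a j)) (fun j => V.ι.appTop (co p i h j)) :=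
        map_m1 V.ι.appTop.hom a (co p i h)
      rw [← e]
      exact hu
    · left
      have e : V.ι.appTop (m0 a (co p i h)) =
          m0 (fun j => V.ι.appTop (a j)) (fun j => V.ι.appTop (co p i h j)) :=
        map_m0 V.ι.appTop.hom a (co p i h)
      rw [← e]
      exact hu

theorem ex (hR : IsRel R) {T : Scheme.{0}} (p : T ⟶ PS k (Fin 2)) (a : Fin 3 → Γ(T, ⊤))
    (hd : IsUnit (dt a)) :
    ∃ q : T ⟶ PS k (Fin 2), p ≫ psStr k _ = q ≫ psStr k _ ∧ R T p q a := by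
  refine glue hR p a hd (κ := Fin 2) (fun i => p ⁻¹ᵁ psD i) ?_ ?_
  · rw [eq_top_iff]
    intro x _
    obtain ⟨i, hi⟩ := TopologicalSpace.Opens.mem_iSup.1
      ((iSup_psD (k := k) (κ := Fin 2)).ge (Set.mem_univ (p x)))
    exact TopologicalSpace.Opens.mem_iSup.2 ⟨i, hi⟩
  · intro i
    set V := p ⁻¹ᵁ psD i with hV
    have ht : ⊤ ≤ (V.ι ≫ p) ⁻¹ᵁ psD i := fun x _ => x.2
    refine ex1 hR (V.ι ≫ p) i ht (fun j => V.ι.appTop (a j)) ?_
    have h1 := hd.map V.ι.appTop.hom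
    rw [map_dt] at h1
    exact h1

end rel

theorem isPB_of {C : Type*} [Category C] {P X Y Z : C} {fst : P ⟶ X} {snd : P ⟶ Y} {f : X ⟶ Z}
    {g : Y ⟶ Z} (w : fst ≫ f = snd ≫ g)
    (ex : ∀ (T : C) (a : T ⟶ X) (b : T ⟶ Y), a ≫ f = b ≫ g → ∃ t : T ⟶ P, t ≫ fst = a ∧
      t ≫ snd = b)
    (un : ∀ (T : C) (t t' : T ⟶ P), t ≫ fst = t' ≫ fst → t ≫ snd = t' ≫ snd → t = t') :
    IsPullback fst snd f g := by
  choose lift h1 h2 using ex
  refine ⟨⟨w⟩, ⟨PullbackCone.IsLimit.mk w (fun s => lift s.pt s.fst s.snd s.condition)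
    (fun s => h1 _ _ _ _) (fun s => h2 _ _ _ _) fun s m hm1 hm2 => ?_⟩⟩
  exact un _ _ _ (hm1.trans (h1 _ _ _ _).symm) (hm2.trans (h2 _ _ _ _).symm)

theorem van_loc {k : Type} [Field k] {κ : Type} [Fintype κ] {T : Scheme.{0}} (z : T ⟶ PS k κ)
    (a : κ → Γ(T, ⊤)) {ι : Type} (U : ι → T.Opens) (hU : ⨆ i, U i = ⊤)
    (H : ∀ i, (psCoord k κ).Van ((U i).ι ≫ z) (fun j => (U i).ι.appTop (a j))) :
    (psCoord k κ).Van z a := by
  intro i
  refine sec_zero (fun l => z ⁻¹ᵁ (psCoord k κ).D i ⊓ U l) (fun l => inf_le_left) ?_ ?_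
  · intro x hx
    obtain ⟨l, hl⟩ := TopologicalSpace.Opens.mem_iSup.1 (hU.ge (Set.mem_univ x))
    exact TopologicalSpace.Opens.mem_iSup.2 ⟨l, hx, hl⟩
  · intro l
    set W : T.Opens := z ⁻¹ᵁ (psCoord k κ).D i ⊓ U l with hW
    rw [PreCoord.eqn_res]
    have h1 := H l i
    have hle : W ≤ z ⁻¹ᵁ (psCoord k κ).D i := inf_le_left
    have hpre : (U l).ι ⁻¹ᵁ W = ((U l).ι ≫ z) ⁻¹ᵁ (psCoord k κ).D i := by
      ext x
      constructor
      · rintro ⟨h, _⟩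
        exact h
      · intro h
        exact ⟨h, x.2⟩
    have h2 := (psCoord k κ).map_eqn (U l).ι z a i (W := W) (W' := (U l).ι ⁻¹ᵁ W) hle le_rfl
    have h3 : (psCoord k κ).eqn ((U l).ι ≫ z) (fun j => (U l).ι.appTop (a j)) i ((U l).ι ⁻¹ᵁ W)
        (le_of_eq hpre) = 0 := by
      rw [← (psCoord k κ).eqn_res ((U l).ι ≫ z) (fun j => (U l).ι.appTop (a j)) i le_rfl
        (le_of_eq hpre), h1, map_zero]
    have h4 : (U l).ι.appLE W ((U l).ι ⁻¹ᵁ W) le_rfl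
        ((psCoord k κ).eqn z a i W hle) = 0 := h2.trans h3
    have h5 : Function.Injective ((U l).ι.appLE W ((U l).ι ⁻¹ᵁ W) le_rfl) := by
      have : IsIso ((U l).ι.app W) := (U l).ι.isIso_app W (by
        rw [Scheme.Opens.opensRange_ι]
        exact inf_le_right)
      rw [Scheme.Hom.appLE_eq_app]
      exact (ConcreteCategory.bijective_of_isIso ((U l).ι.app W)).1
    exact h5 (h4.trans (map_zero _).symm)

theorem van_congr {k : Type} [Field k] {κ : Type} [Fintype κ] {T : Scheme.{0}}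
    {z z' : T ⟶ PS k κ} (e : z = z') {a : κ → Γ(T, ⊤)} (h : (psCoord k κ).Van z a) :
    (psCoord k κ).Van z' a := e ▸ h

section

variable {k₀ k : Type} [Field k₀] [Field k] [Algebra k₀ k]

/-- the relation given by `ψ₀` -/
def RR (ψ₀ : PP k₀ k ⟶ PSo k₀ k (Fin 3)) (T : Scheme.{0}) (p q : T ⟶ PS k (Fin 2))
    (a : Fin 3 → Γ(T, ⊤)) : Prop :=
  ∃ z : T ⟶ (PP k₀ k).left, z ≫ (pr₁ k₀ k).left = p ∧ z ≫ (pr₂ k₀ k).left = q ∧
    (psCoord k (Fin 3)).Van (z ≫ ψ₀.left : T ⟶ PS k (Fin 3)) a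

theorem pb (k₀ k : Type) [Field k₀] [Field k] [Algebra k₀ k] :
    IsPullback (pr₁ k₀ k).left (pr₂ k₀ k).left (psStr k (Fin 2)) (psStr k (Fin 2)) :=
  (IsPullback.of_hasPullback (PSo.str k₀ k (Fin 2)) (PSo.str k₀ k (Fin 2))).map (Over.forget _)

theorem isRel {ψ₀ : PP k₀ k ⟶ PSo k₀ k (Fin 3)} (hψ : IsPsi ψ₀) : IsRel (RR ψ₀) where
  comp := by
    rintro T T' w p q a ⟨z, h1, h2, h3⟩
    refine ⟨w ≫ z, (Category.assoc _ _ _).trans (congrArg (w ≫ ·) h1),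
      (Category.assoc _ _ _).trans (congrArg (w ≫ ·) h2), ?_⟩
    exact van_congr (Category.assoc _ _ _).symm (PreCoord.Van.comp _ w h3)
  form := by
    intro T p q hs i i' h h' a
    constructor
    · rintro ⟨z, rfl, rfl, h3⟩
      exact (hψ.2 T z i i' h h' a).1 h3
    · intro hb
      obtain ⟨z, rfl, rfl⟩ : ∃ z : T ⟶ (PP k₀ k).left, z ≫ (pr₁ k₀ k).left = p ∧
          z ≫ (pr₂ k₀ k).left = q :=
        ⟨(pb k₀ k).lift p q hs, (pb k₀ k).lift_fst _ _ _, (pb k₀ k).lift_snd _ _ _⟩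
      exact ⟨z, rfl, rfl, (hψ.2 T z i i' h h' a).2 hb⟩
  loc := by
    intro T p q hs a κ U hU H
    obtain ⟨z, rfl, rfl⟩ : ∃ z : T ⟶ (PP k₀ k).left, z ≫ (pr₁ k₀ k).left = p ∧
        z ≫ (pr₂ k₀ k).left = q :=
      ⟨(pb k₀ k).lift p q hs, (pb k₀ k).lift_fst _ _ _, (pb k₀ k).lift_snd _ _ _⟩
    refine ⟨z, rfl, rfl, van_loc _ a U hU fun i => ?_⟩
    obtain ⟨z', h1, h2, h3⟩ := H i
    have : z' = (U i).ι ≫ z := by
      refine (pb k₀ k).hom_ext ?_ ?_
      · exact h1.trans (Category.assoc _ _ _).symm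
      · exact h2.trans (Category.assoc _ _ _).symm
    subst this
    exact van_congr (Category.assoc _ _ _) h3

theorem isRel' {ψ₀ : PP k₀ k ⟶ PSo k₀ k (Fin 3)} (hψ : IsPsi ψ₀) :
    IsRel (fun T p q a => RR ψ₀ T q p a) where
  comp := fun w p q a h => (isRel hψ).comp w q p a h
  form := fun p q hs i i' h h' a => by
    rw [(isRel hψ).form q p hs.symm i' i h' h a, bil_symm]
  loc := fun p q hs a _ U hU H => (isRel hψ).loc q p hs.symm a U hU H

end

end GraphAux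

open GraphAux in
theorem tGraph : StGraph := by
  intro k₀ k _ _ _ ψ₀ hψ M _ _ _ _ a ha C r u hC
  have hd : ∀ (T : Sch k₀) (s : T ⟶ pt k₀ M), IsUnit (dt (fun j =>
      Hyp.val (s.left : T.left ⟶ Spec (CommRingCat.of M)) (a j))) := by
    intro T s
    have h1 : IsUnit (det3 a) := isUnit_iff_ne_zero.2 ha
    have h2 := h1.map (Hyp.val (s.left : T.left ⟶ Spec (CommRingCat.of M)))
    have h3 := map_dt (Hyp.val (s.left : T.left ⟶ Spec (CommRingCat.of M))) a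
    exact h3 ▸ h2
  have hw : r ≫ pr₁ k₀ k ≫ PSo.str k₀ k (Fin 2) = r ≫ pr₂ k₀ k ≫ PSo.str k₀ k (Fin 2) := by
    rw [pullback.condition]
  -- the relation holds on `C`
  have hmem : ∀ (T : Sch k₀) (f : T ⟶ C), RR ψ₀ T.left ((f ≫ r ≫ pr₁ k₀ k).left)
      ((f ≫ r ≫ pr₂ k₀ k).left) (fun j => Hyp.val ((f ≫ u).left) (a j)) := by
    intro T f
    refine ⟨(f ≫ r).left, by rw [← Over.comp_left, Category.assoc],
      by rw [← Over.comp_left, Category.assoc], ?_⟩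
    have h1 := PreCoord.Van.comp _ f.left hC.mem
    have e : (fun j => f.left.appTop (Hyp.val (u.left : C.left ⟶ Spec (CommRingCat.of M)) (a j))) =
        fun j => Hyp.val ((f ≫ u).left : T.left ⟶ Spec (CommRingCat.of M)) (a j) := by
      funext j
      exact (DFunLike.congr_fun (Hyp.val_comp f.left u.left) (a j)).symm
    rw [e] at h1
    exact van_congr (Category.assoc f.left r.left ψ₀.left).symm h1
  have hstr : ∀ (T : Sch k₀) (p q : T ⟶ PSo k₀ k (Fin 2)),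
      p ≫ PSo.str k₀ k (Fin 2) = q ≫ PSo.str k₀ k (Fin 2) →
      (p.left : T.left ⟶ PS k (Fin 2)) ≫ psStr k (Fin 2) = q.left ≫ psStr k (Fin 2) :=
    fun T p q h => congrArg (fun f => f.left) h
  -- existence of a lift
  have hlift : ∀ (T : Sch k₀) (z : T.left ⟶ (PP k₀ k).left) (t : T ⟶ PSo k₀ k (Fin 2))
      (s : T ⟶ pt k₀ M), z ≫ (pr₁ k₀ k).left = t.left ∨ z ≫ (pr₂ k₀ k).left = t.left →
      t ≫ PSo.str k₀ k (Fin 2) = s ≫ ptMap k₀ (IsScalarTower.toAlgHom k₀ k M) →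
      (psCoord k (Fin 3)).Van (z ≫ ψ₀.left : T.left ⟶ PS k (Fin 3))
        (fun j => Hyp.val (s.left : T.left ⟶ Spec (CommRingCat.of M)) (a j)) →
      ∃ f : T ⟶ C, (f ≫ r).left = z ∧ f ≫ u = s := by
    intro T z t s h1 h2 h3
    have hT : z ≫ (PP k₀ k).hom = T.hom := by
      rcases h1 with h1 | h1
      · rw [← Over.w (pr₁ k₀ k), ← Category.assoc, h1, Over.w]
      · rw [← Over.w (pr₂ k₀ k), ← Category.assoc, h1, Over.w]
    let z' : T ⟶ PP k₀ k := Over.homMk z hT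
    have h4 : z' ≫ pr₁ k₀ k ≫ PSo.str k₀ k (Fin 2) =
        s ≫ ptMap k₀ (IsScalarTower.toAlgHom k₀ k M) := by
      rw [← h2]
      rcases h1 with h1 | h1
      · have : z' ≫ pr₁ k₀ k = t := Over.OverMorphism.ext h1
        rw [← Category.assoc, this]
      · have : z' ≫ pr₂ k₀ k = t := Over.OverMorphism.ext h1
        rw [pullback.condition, ← Category.assoc, this]
    obtain ⟨f, hf1, hf2⟩ := hC.lift T z' s h4 h3
    exact ⟨f, by rw [hf1]; rfl, hf2⟩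
  constructor
  · refine isPB_of ?_ ?_ ?_
    · rw [Category.assoc]
      exact hC.comm
    · intro T t s hts
      obtain ⟨q, hq1, z, hz1, hz2, hz3⟩ := ex (isRel hψ) (t.left : T.left ⟶ PS k (Fin 2))
        (fun j => Hyp.val (s.left : T.left ⟶ Spec (CommRingCat.of M)) (a j)) (hd T s)
      obtain ⟨f, hf1, hf2⟩ := hlift T z t s (Or.inl hz1) hts hz3
      refine ⟨f, Over.OverMorphism.ext ?_, hf2⟩
      rw [← Category.assoc, Over.comp_left, hf1]
      exact hz1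
    · intro T f g h1 h2
      refine hC.ext T f g ?_ h2
      have h3 := hmem T f
      have h4 := hmem T g
      have e2 : f ≫ r ≫ pr₂ k₀ k = g ≫ r ≫ pr₂ k₀ k := by
        refine Over.OverMorphism.ext ?_
        rw [← h1, ← h2] at h4
        refine uniq (isRel hψ) (f ≫ r ≫ pr₁ k₀ k).left _ _ (hstr T _ _ ?_) (hstr T _ _ ?_) _
          (hd T (f ≫ u)) h3 h4
        · simp only [Category.assoc, hw]
        · rw [h1]
          simp only [Category.assoc, hw]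
      refine pullback.hom_ext ?_ ?_
      · rw [Category.assoc, Category.assoc]
        exact h1
      · rw [Category.assoc, Category.assoc]
        exact e2
  · refine isPB_of ?_ ?_ ?_
    · rw [Category.assoc, ← hw]
      exact hC.comm
    · intro T t s hts
      obtain ⟨q, hq1, z, hz1, hz2, hz3⟩ := ex (isRel' hψ) (t.left : T.left ⟶ PS k (Fin 2))
        (fun j => Hyp.val (s.left : T.left ⟶ Spec (CommRingCat.of M)) (a j)) (hd T s)
      obtain ⟨f, hf1, hf2⟩ := hlift T z t s (Or.inr hz2) hts hz3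
      refine ⟨f, Over.OverMorphism.ext ?_, hf2⟩
      rw [← Category.assoc, Over.comp_left, hf1]
      exact hz2
    · intro T f g h1 h2
      refine hC.ext T f g ?_ h2
      have h3 := hmem T f
      have h4 := hmem T g
      have e2 : f ≫ r ≫ pr₁ k₀ k = g ≫ r ≫ pr₁ k₀ k := by
        refine Over.OverMorphism.ext ?_
        rw [← h1, ← h2] at h4
        refine uniq (isRel' hψ) (f ≫ r ≫ pr₂ k₀ k).left _ _ (hstr T _ _ ?_) (hstr T _ _ ?_) _
          (hd T (f ≫ u)) h3 h4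
        · simp only [Category.assoc, hw]
        · rw [h1]
          simp only [Category.assoc, hw]
      refine pullback.hom_ext ?_ ?_
      · rw [Category.assoc, Category.assoc]
        exact e2
      · rw [Category.assoc, Category.assoc]
        exact h1

end Pool.Agent.Lib.MP_4ca46c_ag.Two
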