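import Pool.Agent.Lib.MP_4ca46c_ag.Two.SpecU

/-!
# The curve of type `(1, 1)` contains no pair of rational points
-/

namespace Pool.Agent.Lib.MP_4ca46c_ag.Two

open CategoryTheory Limits AlgebraicGeometry TensorProduct MonoidalCategory
  CartesianMonoidalCategory
open Pool.Agent.Lib.MP_4ca46c_ag.Sign Pool.Agent.Lib.MP_4ca46c_ag.Hyp
open Pool.Agent.Lib.MP_4ca46c_ag.Std Pool.Agent.Lib.MP_4ca46c_ag.Geo

namespace NotRatAux

theorem exists_res {k : Type} [Field k] {P : Scheme.{0}}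
    (e : Spec (CommRingCat.of k) ⟶ P) : ∃ (y : P) (α : P.residueField y ⟶ CommRingCat.of k),
      e = Spec.map α ≫ P.fromSpecResidueField y := by
  obtain ⟨⟨y, α⟩, h⟩ := (Scheme.SpecToEquivOfField k P).symm.surjective e
  exact ⟨y, α, h.symm⟩

/-- A point whose image is a rational point. -/
theorem sect_fac {k : Type} [Field k] {P : Scheme.{0}} (s : P ⟶ Spec (CommRingCat.of k))
    (e : Spec (CommRingCat.of k) ⟶ P) (he : e ≫ s = 𝟙 _) {C : Scheme.{0}} (p : C ⟶ P) (c : C)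
    (hc : p c ∈ Set.range e) :
    ∃ g : Spec (C.residueField c) ⟶ Spec (CommRingCat.of k),
      C.fromSpecResidueField c ≫ p = g ≫ e := by
  obtain ⟨y, α, rfl⟩ := exists_res e
  have hy : p c = y := by
    obtain ⟨t, ht⟩ := hc
    rw [← ht, Scheme.Hom.comp_apply, Scheme.fromSpecResidueField_apply]
  obtain ⟨β, hβ⟩ := Spec.map_surjective (P.fromSpecResidueField y ≫ s)
  have h1 : β ≫ α = 𝟙 _ := by
    apply Spec.map_injective
    rw [Spec.map_comp, hβ, ← Category.assoc, he, Spec.map_id]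
  have h2 : α ≫ β = 𝟙 _ := by
    ext x
    apply α.hom.injective
    exact congrArg (fun φ => φ.hom (α.hom x)) h1
  subst hy
  refine ⟨Spec.map (p.residueFieldMap c) ≫ Spec.map β, ?_⟩
  rw [Category.assoc, ← Category.assoc (Spec.map β), ← Spec.map_comp, h2, Spec.map_id,
    Category.id_comp, Scheme.Hom.SpecMap_residueFieldMap_fromSpecResidueField]

/-- The coordinates of a rational point of the projective line. -/
theorem coords {k : Type} [Field k] (e : Spec (CommRingCat.of k) ⟶ PS k (Fin 2)) :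
    ∃ (i : Fin 2) (h : ⊤ ≤ e ⁻¹ᵁ (psCoord k (Fin 2)).D i) (w : Fin 2 → k), w i = 1 ∧
      ∀ l, (psCoord k (Fin 2)).val e i h l =
        (Scheme.ΓSpecIso (CommRingCat.of k)).inv.hom (w l) := by
  have hy : e (IsLocalRing.closedPoint k) ∈ (⊤ : (PS k (Fin 2)).Opens) := trivial
  rw [← (psCoord k (Fin 2)).iSup_D, TopologicalSpace.Opens.mem_iSup] at hy
  obtain ⟨i, hi⟩ := hy
  have h : ⊤ ≤ e ⁻¹ᵁ (psCoord k (Fin 2)).D i := by
    intro x _
    have hx : x = IsLocalRing.closedPoint k := Subsingleton.elim _ _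
    rw [hx]
    exact hi
  refine ⟨i, h, fun l => (Scheme.ΓSpecIso (CommRingCat.of k)).hom.hom
    ((psCoord k (Fin 2)).val e i h l), ?_, fun l => ?_⟩
  · have h1 : (psCoord k (Fin 2)).val e i h i = 1 := by
      unfold Coord.val
      rw [PreCoord.f_self, map_one]
    exact (congrArg _ h1).trans (map_one _)
  · exact (congrArg (fun φ => φ.hom ((psCoord k (Fin 2)).val e i h l))
      (Scheme.ΓSpecIso (CommRingCat.of k)).hom_inv_id).symm

theorem alg_core {k M : Type} [Field k] [Field M] [Algebra k M] (a : Fin 3 → M)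
    (ha : LinearIndependent k a) (w w' : Fin 2 → k) (i i' : Fin 2) (hw : w i = 1)
    (hw' : w' i' = 1) {R : Type} [CommRing R] [Nontrivial R] (φ : M →+* R)
    (hE : φ (a 0) * (φ (algebraMap k M (w 0)) * φ (algebraMap k M (w' 0))) +
      φ (a 1) * (φ (algebraMap k M (w 1)) * φ (algebraMap k M (w' 1))) +
      φ (a 2) * ((φ (algebraMap k M (w 0)) + φ (algebraMap k M (w 1))) *
        (φ (algebraMap k M (w' 0)) + φ (algebraMap k M (w' 1)))) = 0) : False := by
  have hE2 : φ ((w 0 * w' 0) • a 0 + (w 1 * w' 1) • a 1 +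
      ((w 0 + w 1) * (w' 0 + w' 1)) • a 2) = 0 := by
    simp only [Algebra.smul_def, map_add, map_mul]
    linear_combination hE
  have hinj : Function.Injective φ := φ.injective
  have h0 : (w 0 * w' 0) • a 0 + (w 1 * w' 1) • a 1 +
      ((w 0 + w 1) * (w' 0 + w' 1)) • a 2 = 0 := hinj (hE2.trans (map_zero φ).symm)
  have hl := Fintype.linearIndependent_iff.1 ha
    ![w 0 * w' 0, w 1 * w' 1, (w 0 + w 1) * (w' 0 + w' 1)] (by
      rw [Fin.sum_univ_three]
      exact h0)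
  have l0 : w 0 * w' 0 = 0 := hl 0
  have l1 : w 1 * w' 1 = 0 := hl 1
  have l2 : (w 0 + w 1) * (w' 0 + w' 1) = 0 := hl 2
  have key : ∀ v v' : Fin 2 → k, (v 0 = 1 ∨ v 1 = 1) → (v' 0 = 1 ∨ v' 1 = 1) →
      v 0 * v' 0 = 0 → v 1 * v' 1 = 0 → (v 0 + v 1) * (v' 0 + v' 1) = 0 → False := by
    rintro v v' (h | h) (h' | h') g0 g1 g2
    · rw [h, h', one_mul] at g0
      exact one_ne_zero g0
    · rw [h, one_mul] at g0
      rw [h', mul_one] at g1
      rw [g0, g1, h, h'] at g2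
      simp at g2
    · rw [h', mul_one] at g0
      rw [h, one_mul] at g1
      rw [g0, g1, h, h'] at g2
      simp at g2
    · rw [h, h', one_mul] at g1
      exact one_ne_zero g1
  have c1 : ∀ (v : Fin 2 → k) (j : Fin 2), v j = 1 → v 0 = 1 ∨ v 1 = 1 := by
    intro v j hj
    fin_cases j
    · exact Or.inl hj
    · exact Or.inr hj
  exact key w w' (c1 w i hw) (c1 w' i' hw') l0 l1 l2

theorem val_section {k : Type} [Field k] {T : Scheme.{0}} (z : T ⟶ PS k (Fin 2))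
    (g : T ⟶ Spec (CommRingCat.of k)) (e : Spec (CommRingCat.of k) ⟶ PS k (Fin 2))
    (hz : z = g ≫ e) (i : Fin 2) (hi : ⊤ ≤ e ⁻¹ᵁ (psCoord k (Fin 2)).D i) (w : Fin 2 → k)
    (hwv : ∀ l, (psCoord k (Fin 2)).val e i hi l =
        (Scheme.ΓSpecIso (CommRingCat.of k)).inv.hom (w l))
    (h : ⊤ ≤ z ⁻¹ᵁ (psCoord k (Fin 2)).D i) (l : Fin 2) :
    (psCoord k (Fin 2)).val z i h l = Hyp.val g (w l) := by
  subst hz
  rw [(psCoord k (Fin 2)).val_comp g e i hi h l, hwv l]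
  rfl

theorem core {k M : Type} [Field k] [Field M] [Algebra k M] (a : Fin 3 → M)
    (ha : LinearIndependent k a) {C P : Scheme.{0}} (r : C ⟶ P) (p p' : P ⟶ PS k (Fin 2))
    (hpp : p ≫ psStr k (Fin 2) = p' ≫ psStr k (Fin 2)) (ψ : P ⟶ PS k (Fin 3))
    (u : C ⟶ Spec (CommRingCat.of M))
    (hu : (r ≫ p) ≫ psStr k (Fin 2) = u ≫ Spec.map (CommRingCat.ofHom (algebraMap k M)))
    (hmem : (psCoord k (Fin 3)).Van (r ≫ ψ) (fun j => Hyp.val u (a j)))
    (hψ : ∀ (T : Scheme.{0}) (z : T ⟶ P) (i i' : Fin 2)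
      (h : ⊤ ≤ (z ≫ p) ⁻¹ᵁ (psCoord k (Fin 2)).D i)
      (h' : ⊤ ≤ (z ≫ p') ⁻¹ᵁ (psCoord k (Fin 2)).D i') (a : Fin 3 → Γ(T, ⊤)),
      (psCoord k (Fin 3)).Van (z ≫ ψ) a →
      a 0 * ((psCoord k (Fin 2)).val (z ≫ p) i h 0 *
          (psCoord k (Fin 2)).val (z ≫ p') i' h' 0) +
        a 1 * ((psCoord k (Fin 2)).val (z ≫ p) i h 1 *
          (psCoord k (Fin 2)).val (z ≫ p') i' h' 1) +
        a 2 * (((psCoord k (Fin 2)).val (z ≫ p) i h 0 +
            (psCoord k (Fin 2)).val (z ≫ p) i h 1) *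
          ((psCoord k (Fin 2)).val (z ≫ p') i' h' 0 +
            (psCoord k (Fin 2)).val (z ≫ p') i' h' 1)) = 0)
    (e e' : Spec (CommRingCat.of k) ⟶ PS k (Fin 2)) (he : e ≫ psStr k (Fin 2) = 𝟙 _)
    (he' : e' ≫ psStr k (Fin 2) = 𝟙 _) (c : C) (hc : (r ≫ p) c ∈ Set.range e)
    (hc' : (r ≫ p') c ∈ Set.range e') : False := by
  obtain ⟨g, hg⟩ := sect_fac (psStr k (Fin 2)) e he (r ≫ p) c hc
  obtain ⟨g', hg'⟩ := sect_fac (psStr k (Fin 2)) e' he' (r ≫ p') c hc'
  obtain ⟨i, hi, w, hw, hwv⟩ := coords (k := k) e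
  obtain ⟨i', hi', w', hw', hwv'⟩ := coords (k := k) e'
  generalize hx : C.fromSpecResidueField c = x at hg hg'
  have hV := PreCoord.Van.comp (psCoord k (Fin 3)).toPreCoord x hmem
  have hz1 : (x ≫ r) ≫ p = g ≫ e := by
    rw [← hg, Category.assoc]
  have hz2 : (x ≫ r) ≫ p' = g' ≫ e' := by
    rw [← hg', Category.assoc]
  have h1 : ⊤ ≤ ((x ≫ r) ≫ p) ⁻¹ᵁ (psCoord k (Fin 2)).D i := by
    rw [hz1]
    exact (psCoord k (Fin 2)).top_le_comp g hi
  have h1' : ⊤ ≤ ((x ≫ r) ≫ p') ⁻¹ᵁ (psCoord k (Fin 2)).D i' := by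
    rw [hz2]
    exact (psCoord k (Fin 2)).top_le_comp g' hi'
  have hE := hψ _ (x ≫ r) i i' h1 h1' (fun j => x.appTop (Hyp.val u (a j))) (by
      rw [Category.assoc]
      exact hV)
  rw [val_section _ g e hz1 i hi w hwv h1 0, val_section _ g e hz1 i hi w hwv h1 1,
    val_section _ g' e' hz2 i' hi' w' hwv' h1' 0,
    val_section _ g' e' hz2 i' hi' w' hwv' h1' 1] at hE
  have hs : (x ≫ u) ≫ Spec.map (CommRingCat.ofHom (algebraMap k M)) = g := by
    rw [Category.assoc, ← hu, Category.assoc, ← Category.assoc x, ← Category.assoc (x ≫ r),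
      hz1, Category.assoc, he, Category.comp_id]
  have hs' : (x ≫ u) ≫ Spec.map (CommRingCat.ofHom (algebraMap k M)) = g' := by
    rw [Category.assoc, ← hu, Category.assoc, hpp, ← Category.assoc x,
      ← Category.assoc (x ≫ r), hz2, Category.assoc, he', Category.comp_id]
  have hgφ : ∀ b : k, Hyp.val g b = Hyp.val (x ≫ u) (algebraMap k M b) := by
    intro b
    rw [← hs, Hyp.val_map]
    rfl
  have hgφ' : ∀ b : k, Hyp.val g' b = Hyp.val (x ≫ u) (algebraMap k M b) := by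
    intro b
    rw [← hs', Hyp.val_map]
    rfl
  have hau : ∀ b : M, x.appTop (Hyp.val u b) = Hyp.val (x ≫ u) b := by
    intro b
    rw [Hyp.val_comp]
    rfl
  simp only [hgφ, hgφ', hau] at hE
  have hnt : Nontrivial Γ(Spec (C.residueField c), ⊤) :=
    (Scheme.ΓSpecIso (C.residueField c)).hom.hom.domain_nontrivial
  exact alg_core a ha w w' i i' hw hw' (Hyp.val (x ≫ u)) hE

end NotRatAux

open NotRatAux

theorem tNotRat : StNotRat := by
  intro k₀ k _ _ _ ψ₀ hψ M _ _ _ _ a ha C r u hU e e' he he' c hc hc'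
  have he1 : e.left ≫ psStr k (Fin 2) = 𝟙 _ := congrArg (fun φ => φ.left) he
  have he1' : e'.left ≫ psStr k (Fin 2) = 𝟙 _ := congrArg (fun φ => φ.left) he'
  have e3 : (pr₁ k₀ k).left ≫ psStr k (Fin 2) = (pr₂ k₀ k).left ≫ psStr k (Fin 2) :=
    congrArg (fun φ => φ.left) (pullback.condition (f := PSo.str k₀ k (Fin 2))
      (g := PSo.str k₀ k (Fin 2)))
  have e4 : (r.left ≫ (pr₁ k₀ k).left) ≫ psStr k (Fin 2) =
      u.left ≫ Spec.map (CommRingCat.ofHom (algebraMap k M)) := by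
    have e1 := congrArg (fun φ => φ.left) hU.comm
    exact (Category.assoc _ _ _).trans e1
  exact core a ha r.left (pr₁ k₀ k).left (pr₂ k₀ k).left e3 ψ₀.left u.left e4 hU.mem
    (fun T z i i' h h' a H => (hψ.2 T z i i' h h' a).1 H) e.left e'.left he1 he1' c hc hc'

end Pool.Agent.Lib.MP_4ca46c_ag.Two
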