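import Pool.Agent.Lib.MP_4ca46c_ag.Two.SpecL

/-!
# The relation from the projectors of the generic member of the net
-/

namespace Pool.Agent.Lib.MP_4ca46c_ag.Two

open CategoryTheory MonoidalCategory CartesianMonoidalCategory TensorProduct
open Pool.Agent.Lib.MP_4ca46c_ag.Geo Pool.Agent.Lib.MP_4ca46c_ag.Geo.WeilCohomology

namespace NetRelAux

variable {K : Type} [Field K] [CharZero K] {𝒱 𝒱' : Type 1} [Category.{0} 𝒱]
  [CartesianMonoidalCategory 𝒱] [Category.{0} 𝒱'] [CartesianMonoidalCategory 𝒱']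
  {W : WeilCohomology K 𝒱} {W' : WeilCohomology K 𝒱'}

/-- the square of the class of the net -/
theorem sq {X : 𝒱} {η : W.H X} (hη : η ∈ W.gr X 2) (h0 : η * η = 0) :
    (W.tm η 1 + W.tm 1 η) * (W.tm η 1 + W.tm 1 η) = (2 : K) • W.tm η η := by
  have h1 : (1 : W.H X) ∈ W.gr X 0 := W.alg_gr (c := 0) (W.alg_one X)
  have e1 : W.tm η (1 : W.H X) * W.tm η 1 = 0 := by
    rw [W.tm_mul η 1 h1 hη, h0, W.tm_zero_left, smul_zero]
  have e2 : W.tm η (1 : W.H X) * W.tm 1 η = W.tm η η := by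
    rw [W.tm_mul η η h1 h1, mul_zero, pow_zero, one_smul, mul_one, one_mul]
  have e3 : W.tm (1 : W.H X) η * W.tm η 1 = W.tm η η := by
    rw [W.tm_mul 1 1 hη hη, one_mul, mul_one, (show Even (2 * 2) by decide).neg_one_pow, one_smul]
  have e4 : W.tm (1 : W.H X) η * W.tm 1 η = 0 := by
    rw [W.tm_mul 1 η hη h1, h0, W.tm_zero_right, smul_zero]
  rw [mul_add, add_mul, add_mul, e1, e2, e3, e4, zero_add, add_zero, two_smul]

theorem gys_res {Y : 𝒱} {U : 𝒱'} {δ : W.H Y} (N : NetH W W' Y U δ) (z : W.H Y) :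
    N.gys (N.res z) = δ * z := by
  refine W.ext_tr fun y => ?_
  rw [N.gys_spec, ← map_mul, N.tr_res, mul_assoc]

/-- the relation on `Y` -/
theorem rel {Y : 𝒱} {U : 𝒱'} {δ : W.H Y} (N : NetH W W' Y U δ) (hK : W'.Kunneth U) (m : ℕ) :
    ∃ w ∈ W.Cor Y Y (-1), ∀ z ∈ W.gr Y m,
      δ * (δ * z) = δ * (δ * w (δ * z)) - δ * w (δ * (δ * z)) := by
  obtain ⟨w, hw, β, hβ, h⟩ := N.split m (W'.kunneth_iff.1 hK m)
  refine ⟨w, hw, fun z hz => ?_⟩
  have E1 := h (N.res z)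
  rw [W'.pi_same (N.res_gr m z hz), gys_res] at E1
  have hz2 : δ * z ∈ W.gr Y (2 + m) := SetLike.mul_mem_graded N.δ_gr hz
  have E2 := h (N.res (δ * z))
  rw [W'.pi_ne (N.res_gr _ _ hz2) (by omega), gys_res, map_mul N.res δ z, hβ] at E2
  have E3 : N.res (δ * z) = N.res (δ * w (δ * z) - w (δ * (δ * z))) := by
    have e := congrArg (fun t => N.res δ * t) E1
    simp only [mul_add] at e
    rw [map_mul N.res δ z, map_sub, map_mul N.res δ (w (δ * z)), e, sub_eq_add_neg]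
    congr 1
    exact eq_neg_of_add_eq_zero_right E2.symm
  have E4 := congrArg N.gys E3
  rw [gys_res, gys_res, mul_sub] at E4
  exact E4

end NetRelAux

open NetRelAux in
theorem tNetRel : StNetRel := by
  intro K _ _ 𝒱 𝒱' _ _ _ _ W W' X U η hη h0 hN hK
  obtain ⟨N⟩ := hN
  have hg : η ∈ W.gr X 2 := W.alg_gr (c := 1) hη
  intro m
  obtain ⟨w, hw, h⟩ := rel N hK m
  refine ⟨w, hw, fun z hz => ?_⟩
  have h1 := h z hz
  have h2 := sq (W := W) hg h0
  have e1 : ∀ t, (W.tm η 1 + W.tm 1 η) * ((W.tm η 1 + W.tm 1 η) * t) =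
      (2 : K) • (W.tm η η * t) := fun t => by
    rw [← mul_assoc, h2, smul_mul_assoc]
  rw [e1, e1, map_smul, mul_smul_comm, ← smul_sub] at h1
  have h3 := congrArg (fun t => (2 : K)⁻¹ • t) h1
  simpa only [smul_smul, inv_mul_cancel₀ (two_ne_zero (α := K)), one_smul] using h3

end Pool.Agent.Lib.MP_4ca46c_ag.Two
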