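import Pool.Agent.Lib.MP_4ca46c_ag.Two.SpecL

/-!
# Quasi-inverse of the multiplication by `η` with coefficients in `K`
-/

set_option autoImplicit false

namespace Pool.Agent.Lib.MP_4ca46c_ag.Two

open CategoryTheory MonoidalCategory CartesianMonoidalCategory TensorProduct
open Pool.Agent.Lib.MP_4ca46c_ag.Geo Pool.Agent.Lib.MP_4ca46c_ag.Geo.WeilCohomology

namespace VRKAux

variable {K : Type} [Field K] [CharZero K] {𝒱 : Type 1} [Category.{0} 𝒱]
  [CartesianMonoidalCategory 𝒱] {W : WeilCohomology K 𝒱} {X : 𝒱}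

omit [CharZero K] in
/-- A tensor square vanishes only if the vector does. -/
theorem eq_zero_of_tmul_self {V : Type} [AddCommGroup V] [Module K V] {v : V}
    (h : (v ⊗ₜ[K] v : V ⊗[K] V) = 0) : v = 0 := by
  rw [← Module.forall_dual_apply_eq_zero_iff K v]
  intro φ
  have h1 : (LinearMap.mul' K K ∘ₗ TensorProduct.map φ φ) (v ⊗ₜ[K] v) = φ v * φ v := by
    rw [LinearMap.comp_apply, TensorProduct.map_tmul, LinearMap.mul'_apply]
  rw [h, map_zero] at h1
  exact mul_self_eq_zero.1 h1.symm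

/-- A tensor square of an operator vanishes only if the operator does. -/
theorem eq_zero_of_tens_self {n : W.E X} (h : (W.tens n n : W.E (X ⊗ X)) = 0) : n = 0 := by
  ext x
  rw [LinearMap.zero_apply]
  refine eq_zero_of_tmul_self (K := K) ?_
  have h1 : W.tens n n (W.tm x x) = 0 := by
    have h2 := LinearMap.congr_fun h (W.tm x x)
    exact h2
  rw [W.tens_tm, ← W.kun_tmul] at h1
  exact (LinearEquiv.map_eq_zero_iff _).1 h1

theorem mul_fst (η : W.H X) : (LinearMap.mulLeft K (W.tm η (1 : W.H X)) : W.E (X ⊗ X)) =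
    W.tens (LinearMap.mulLeft K η) 1 := mulLeft_fst η

theorem mul_snd {η : W.H X} (hη : η ∈ W.gr X (2 * 1)) :
    (LinearMap.mulLeft K (W.tm (1 : W.H X) η) : W.E (X ⊗ X)) =
      W.tens 1 (LinearMap.mulLeft K η) := mulLeft_snd hη

theorem mul_both {η : W.H X} (hη : η ∈ W.gr X (2 * 1)) :
    (LinearMap.mulLeft K (W.tm η η) : W.E (X ⊗ X)) =
      W.tens (LinearMap.mulLeft K η) (LinearMap.mulLeft K η) := by
  have h1 : W.tm η η = W.tm η (1 : W.H X) * W.tm (1 : W.H X) η := by
    simp only [tm, map_one, mul_one, one_mul]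
  have h2 : (LinearMap.mulLeft K (W.tm η η) : W.E (X ⊗ X)) =
      LinearMap.mulLeft K (W.tm η (1 : W.H X)) * LinearMap.mulLeft K (W.tm (1 : W.H X) η) := by
    rw [h1, LinearMap.mulLeft_mul]
    rfl
  rw [h2, mul_fst, mul_snd hη, ← tens_mul, mul_one, one_mul]

/-- The algebra of the argument in a ring. -/
theorem ring_part {A : Type} [Ring A] {M Δ w π F F' E₀ : A} (hMF : M * F = E₀)
    (hFM : F' * M = E₀) (hEF : E₀ * F = E₀) (hFE : F' * E₀ = E₀)
    (hπF : π * F = F * π) (hrel : M * π = M * w * Δ * π - Δ * w * M * π)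
    (hπa : π * (F * w * (Δ * F)) = F * w * (Δ * F) * π)
    (ha : IsNilpotent (F * w * (Δ * F))) (hb : IsNilpotent (F' * Δ * (w * F'))) :
    E₀ * π = 0 := by
  have h1 : E₀ * π = E₀ * π * (F * w * (Δ * F)) - F' * Δ * (w * F') * (E₀ * π) := by
    have h2 : F' * (M * π) * F = E₀ * π := by
      rw [← mul_assoc F' M π, hFM, mul_assoc E₀ π F, hπF, ← mul_assoc, hEF]
    have h3 : F' * (M * w * Δ * π) * F = E₀ * π * (F * w * (Δ * F)) := by
      calc F' * (M * w * Δ * π) * F = (F' * M) * w * Δ * (π * F) := by noncomm_ring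
        _ = (E₀ * F) * w * Δ * (F * π) := by rw [hFM, hπF, hEF]
        _ = E₀ * (F * w * (Δ * F) * π) := by noncomm_ring
        _ = E₀ * π * (F * w * (Δ * F)) := by rw [← hπa]; noncomm_ring
    have h4 : F' * (Δ * w * M * π) * F = F' * Δ * (w * F') * (E₀ * π) := by
      calc F' * (Δ * w * M * π) * F = F' * Δ * w * M * (π * F) := by noncomm_ring
        _ = F' * Δ * w * (M * F) * π := by rw [hπF]; noncomm_ring
        _ = F' * Δ * w * (F' * E₀) * π := by rw [hMF, hFE]
        _ = F' * Δ * (w * F') * (E₀ * π) := by noncomm_ring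
    calc E₀ * π = F' * (M * π) * F := h2.symm
      _ = F' * (M * w * Δ * π) * F - F' * (Δ * w * M * π) * F := by
          rw [hrel, mul_sub, sub_mul]
      _ = _ := by rw [h3, h4]
  generalize F * w * (Δ * F) = a at ha h1
  generalize F' * Δ * (w * F') = b at hb h1
  generalize E₀ * π = Z at h1 ⊢
  have h2 : Z * (1 - a) = -b * Z := by
    have h3 : Z * (1 - a) = Z - Z * a := by rw [mul_sub, mul_one]
    rw [h3]
    conv_lhs => lhs; rw [h1]
    rw [neg_mul]
    abel
  have h3 : ∀ k : ℕ, Z * (1 - a) ^ k = (-b) ^ k * Z := by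
    intro k
    induction k with
    | zero => rw [pow_zero, pow_zero, mul_one, one_mul]
    | succ k ih =>
      rw [pow_succ', ← mul_assoc, h2, mul_assoc, ih, ← mul_assoc, ← pow_succ']
  obtain ⟨k, hk⟩ := hb
  have h4 := h3 k
  have h5 : (-b) ^ k = 0 := by
    rw [neg_pow, hk, mul_zero]
  rw [h5, zero_mul] at h4
  have h6 : IsUnit ((1 - a) ^ k) := (ha.isUnit_one_sub).pow k
  exact (h6.mul_left_eq_zero).1 h4

end VRKAux

open VRKAux in
theorem tVRK : StIdem → StVRK := by
  intro hI K _ _ 𝒱 _ _ W X η hη hε hrel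
  have hη2 : η ∈ W.gr X (2 * 1) := W.alg_gr hη
  obtain ⟨T, hT⟩ : ∃ T : W.E X, T = LinearMap.mulLeft K η := ⟨_, rfl⟩
  have hTR : T ∈ W.R X 1 := by
    rw [hT]
    exact R_cast (cor_le (W.cor_mul hη)) (by norm_num)
  obtain ⟨G, hG, hGTG, hN⟩ := hI K 𝒱 W X 1 T hTR
  have hn1 : T * (1 - G * T) = T - T * G * T := by rw [mul_sub, mul_one, mul_assoc]
  have hn2 : (1 - T * G) * T = T - T * G * T := by rw [sub_mul, one_mul]
  have hff : (1 - G * T) * (1 - G * T) = 1 - G * T := by
    have h1 : G * T * (G * T) = G * T := by rw [← mul_assoc, hGTG]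
    rw [mul_sub, mul_one, sub_mul, one_mul, h1, sub_self, sub_zero]
  have hff' : (1 - T * G) * (1 - T * G) = 1 - T * G := by
    have h1 : T * G * (T * G) = T * G := by
      rw [mul_assoc, ← mul_assoc G T G, hGTG]
    rw [mul_sub, mul_one, sub_mul, one_mul, h1, sub_self, sub_zero]
  have hf0 : (1 - G * T) ∈ W.R X 0 :=
    Submodule.sub_mem _ R_one (R_cast (R_mul hG hTR) (by norm_num))
  have hf0' : (1 - T * G) ∈ W.R X 0 :=
    Submodule.sub_mem _ R_one (R_cast (R_mul hTR hG) (by norm_num))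
  generalize (1 - G * T) = f at hn1 hff hf0
  generalize (1 - T * G) = f' at hn2 hff' hf0'
  generalize hn : T - T * G * T = n at hN hn1 hn2
  have hnf : n * f = n := by rw [← hn1, mul_assoc, hff]
  have hfn : f' * n = n := by rw [← hn2, ← mul_assoc, hff']
  have hE : (W.tens n n : W.E (X ⊗ X)) = 0 := by
    refine W.hom_ext fun m x hx => ?_
    obtain ⟨w, hw, hrw⟩ := hrel m
    have hwR : (w : W.E (X ⊗ X)) ∈ W.R (X ⊗ X) (-1) := cor_le hw
    have hF : (W.tens f f : W.E (X ⊗ X)) ∈ W.R (X ⊗ X) 0 :=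
      R_cast (R_tens hf0 hf0) (by norm_num)
    have hF' : (W.tens f' f' : W.E (X ⊗ X)) ∈ W.R (X ⊗ X) 0 :=
      R_cast (R_tens hf0' hf0') (by norm_num)
    have hΔ1 : ((W.tens T 1 + W.tens 1 T) * W.tens f f : W.E (X ⊗ X)) ∈ W.N (X ⊗ X) 1 := by
      have e : ((W.tens T 1 + W.tens 1 T) * W.tens f f : W.E (X ⊗ X)) =
          W.tens n f + W.tens f n := by
        rw [add_mul, ← tens_mul, ← tens_mul, one_mul, hn1]
      rw [e]
      exact Submodule.add_mem _ (N_cast (N_tens hε hN hf0) (by norm_num))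
        (N_cast (N_tens' hε hN hf0) (by norm_num))
    have hΔ2 : (W.tens f' f' * (W.tens T 1 + W.tens 1 T) : W.E (X ⊗ X)) ∈ W.N (X ⊗ X) 1 := by
      have e : (W.tens f' f' * (W.tens T 1 + W.tens 1 T) : W.E (X ⊗ X)) =
          W.tens n f' + W.tens f' n := by
        rw [mul_add, ← tens_mul, ← tens_mul, mul_one, hn2]
      rw [e]
      exact Submodule.add_mem _ (N_cast (N_tens hε hN hf0') (by norm_num))
        (N_cast (N_tens' hε hN hf0') (by norm_num))
    have ha : (W.tens f f * w * ((W.tens T 1 + W.tens 1 T) * W.tens f f) : W.E (X ⊗ X)) ∈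
        W.N (X ⊗ X) 0 := N_cast (N_mul_left hΔ1 (R_mul hF hwR)) (by norm_num)
    have hb : (W.tens f' f' * (W.tens T 1 + W.tens 1 T) * (w * W.tens f' f') :
        W.E (X ⊗ X)) ∈ W.N (X ⊗ X) 0 := N_cast (N_mul_right hΔ2 (R_mul hwR hF')) (by norm_num)
    have hkey : (W.tens n n * W.pi (X ⊗ X) m : W.E (X ⊗ X)) = 0 := by
      refine ring_part (M := W.tens T T) (Δ := W.tens T 1 + W.tens 1 T) (w := w)
        (π := W.pi (X ⊗ X) m) (F := W.tens f f) (F' := W.tens f' f') ?_ ?_ ?_ ?_ ?_ ?_ ?_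
        (N_nilpotent ha) (N_nilpotent hb)
      · rw [← tens_mul, hn1]
      · rw [← tens_mul, hn2]
      · rw [← tens_mul, hnf]
      · rw [← tens_mul, hfn]
      · exact pi_comm hF m
      · have hM : (LinearMap.mulLeft K (W.tm η η) : W.E (X ⊗ X)) = W.tens T T := by
          rw [hT]
          exact mul_both hη2
        have hD : (LinearMap.mulLeft K (W.tm η 1 + W.tm 1 η) : W.E (X ⊗ X)) =
            W.tens T 1 + W.tens 1 T := by
          rw [hT, ← mul_fst, ← mul_snd hη2]
          ext y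
          rw [LinearMap.add_apply, LinearMap.mulLeft_apply, LinearMap.mulLeft_apply,
            LinearMap.mulLeft_apply, add_mul]
        rw [← hM, ← hD]
        ext y
        exact hrw _ (W.pi_mem m y)
      · exact pi_comm (N_le ha) m
    have h1 := LinearMap.congr_fun hkey x
    rw [Module.End.mul_apply, W.pi_same hx] at h1
    exact h1
  have hn0 : n = 0 := eq_zero_of_tens_self hE
  refine ⟨G, hG, fun z => ?_⟩
  rw [hn0, sub_eq_zero] at hn
  have h2 := LinearMap.congr_fun hn z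
  rw [hT] at h2
  exact h2.symm

end Pool.Agent.Lib.MP_4ca46c_ag.Two
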