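import Pool.Agent.Lib.MP_4ca46c_ag.Two.SpecL
import Pool.Agent.Lib.MP_4ca46c_ag.Geo.Six

/-!
# Quasi-inverse with rational coefficients
-/

set_option autoImplicit false

open CategoryTheory MonoidalCategory CartesianMonoidalCategory TensorProduct

namespace Pool.Agent.Lib.MP_4ca46c_ag.Two

open Pool.Agent.Lib.MP_4ca46c_ag.Geo Pool.Agent.Lib.MP_4ca46c_ag.Geo.WeilCohomology

namespace VRQAux

section poly

open Polynomial

/-- polynomials which lift idempotents -/
theorem lift_poly (a : ℕ) : ∃ P Q R : ℤ[X], P - P ^ 2 = (X - X ^ 2) ^ (a + 1) * Q ∧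
    P - X = (X - X ^ 2) * R := by
  induction a with
  | zero => exact ⟨X, 1, 0, by ring, by ring⟩
  | succ a ih =>
    obtain ⟨P, Q, R, h1, h2⟩ := ih
    refine ⟨3 * P ^ 2 - 2 * P ^ 3, (X - X ^ 2) ^ a * Q ^ 2 * (3 - 2 * P) * (1 + 2 * P),
      (X - X ^ 2) ^ a * Q * (2 * P - 1) + R, ?_, ?_⟩
    · have h3 : 3 * P ^ 2 - 2 * P ^ 3 - (3 * P ^ 2 - 2 * P ^ 3) ^ 2 =
          (P - P ^ 2) ^ 2 * (3 - 2 * P) * (1 + 2 * P) := by ring
      rw [h3, h1]
      ring
    · have h3 : 3 * P ^ 2 - 2 * P ^ 3 - X = (P - P ^ 2) * (2 * P - 1) + (P - X) := by ring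
      rw [h3, h1, h2]
      ring

/-- Lifting of an idempotent: `e = s x` is idempotent, `x - e = (x - x x) r`, where `s`, `r` are
polynomials in `x` with integral coefficients. -/
theorem lift_idem {E : Type*} [Ring E] (x : E) (hx : IsNilpotent (x - x * x)) :
    ∃ s r : ℤ[X], (aeval x s * x) * (aeval x s * x) = aeval x s * x ∧
      x - aeval x s * x = (x - x * x) * aeval x r := by
  obtain ⟨a, ha⟩ := hx
  obtain ⟨P, Q, R, h1, h2⟩ := lift_poly a
  have h3 : P = (1 + (1 - X) * R) * X := by linear_combination h2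
  have hP : aeval x P = aeval x (1 + (1 - X) * R) * x := by
    conv_lhs => rw [h3, map_mul, aeval_X]
  have hX : aeval x (X - X ^ 2 : ℤ[X]) = x - x * x := by
    rw [map_sub, map_pow, aeval_X, pow_two]
  refine ⟨1 + (1 - X) * R, -R, ?_, ?_⟩
  · rw [← hP, ← pow_two, ← map_pow]
    have h4 : aeval x (P - P ^ 2) = 0 := by
      rw [h1, map_mul, map_pow, hX, pow_succ, ha, zero_mul, zero_mul]
    rw [map_sub, sub_eq_zero] at h4
    exact h4.symm
  · rw [← hP]
    have h4 : aeval x (P - X) = (x - x * x) * aeval x R := by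
      rw [h2, map_mul, hX]
    rw [map_sub, aeval_X] at h4
    rw [map_neg, mul_neg, ← h4]
    abel

end poly

variable {K : Type} [Field K] [CharZero K] {𝒱 : Type 1} [Category.{0} 𝒱]
  [CartesianMonoidalCategory 𝒱] {W : WeilCohomology K 𝒱} {X : 𝒱}

theorem aeval_mem {x : W.E X} (hx : x ∈ W.Cor X X 0) (s : Polynomial ℤ) :
    Polynomial.aeval x s ∈ W.Cor X X 0 := by
  rw [Polynomial.aeval_eq_sum_range]
  exact AddSubgroup.sum_mem _ fun k _ => AddSubgroup.zsmul_mem _ (A_pow hx k) _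

/-- The claim. -/
theorem core {i : ℕ} {T g : W.E X} (hT : T ∈ W.Cor X X 1) (hTi : T * W.pi X i = T)
    (hg : g ∈ W.R X (-1)) (hTg : T * g * T = T) : ∃ θ ∈ W.Cor X X (-1), T * θ * T = T := by
  classical
  obtain ⟨φ, hφ⟩ := exists_retraction K
  have hφ1 : ∀ q : ℚ, φ (q : K) = q := fun q => (hφ q 0).2
  obtain ⟨l, hl⟩ := (Finsupp.mem_span_iff_linearCombination K _ g).1 hg
  rw [Finsupp.linearCombination_apply, Finsupp.sum] at hl
  have hrat : ∀ (k : (W.Cor X X (-1) : Set (W.E X))) (y : W.E X), y ∈ W.Cor X X (-1) →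
      ∃ q : ℚ, W.t X (y * T * k * T) = q := by
    intro k y hy
    refine t_rat (i := i) (A_cast (A_mul (A_mul (A_mul hy hT) k.2) hT) (by ring)) ?_
    rw [mul_assoc, hTi]
  have hrat' : ∀ y : W.E X, y ∈ W.Cor X X (-1) → ∃ q : ℚ, W.t X (y * T) = q := by
    intro y hy
    refine t_rat (i := i) (A_cast (A_mul hy hT) (by ring)) ?_
    rw [mul_assoc, hTi]
  obtain ⟨g', hg'⟩ : ∃ g' : W.E X, g' = ∑ k ∈ l.support, ((φ (l k) : ℚ) : K) • (k : W.E X) :=
    ⟨_, rfl⟩
  have hg'A : g' ∈ W.Cor X X (-1) := by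
    rw [hg']
    exact AddSubgroup.sum_mem _ fun k _ => W.cor_rat k.2 _
  have hkey : ∀ y ∈ W.Cor X X (-1), W.t X (y * T * g' * T) = W.t X (y * T) := by
    intro y hy
    choose q hq using fun k => hrat k y hy
    obtain ⟨q₀, hq₀⟩ := hrat' y hy
    have e1 : W.t X (y * T * g' * T) = ∑ k ∈ l.support, ((φ (l k) * q k : ℚ) : K) := by
      rw [hg', Finset.mul_sum, Finset.sum_mul, map_sum]
      refine Finset.sum_congr rfl fun k _ => ?_
      rw [mul_smul_comm, smul_mul_assoc, map_smul, hq, smul_eq_mul, Rat.cast_mul]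
    have e2 : W.t X (y * T) = ∑ k ∈ l.support, ((q k : ℚ) : K) * l k := by
      have h1 : y * T = y * T * g * T := by
        rw [mul_assoc (y * T), mul_assoc y T, ← mul_assoc T, hTg]
      rw [h1, ← hl, Finset.mul_sum, Finset.sum_mul, map_sum]
      refine Finset.sum_congr rfl fun k _ => ?_
      rw [mul_smul_comm, smul_mul_assoc, map_smul, hq, smul_eq_mul, mul_comm]
    have e3 : φ (W.t X (y * T)) = ∑ k ∈ l.support, φ (l k) * q k := by
      rw [e2, map_sum]
      refine Finset.sum_congr rfl fun k _ => ?_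
      rw [(hφ (q k) (l k)).1, mul_comm]
    rw [e1, ← Rat.cast_sum, ← e3, hq₀, hφ1]
  -- the numerically trivial error
  have hT1 : T ∈ W.R X 1 := cor_le hT
  have hg'R : g' ∈ W.R X (-1) := cor_le hg'A
  obtain ⟨n, hn⟩ : ∃ n, n = T - T * g' * T := ⟨_, rfl⟩
  have hnN : n ∈ W.N X 1 := by
    refine N_iff.2 ⟨?_, fun y hy => ?_⟩
    · rw [hn]
      exact Submodule.sub_mem _ hT1 (R_cast (R_mul (R_mul hT1 hg'R) hT1) (by ring))
    · refine Submodule.span_induction (p := fun y _ => W.t X (y * n) = 0) (fun y hy => ?_)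
        (by rw [zero_mul, map_zero]) (fun a b _ _ ha hb => by rw [add_mul, map_add, ha, hb, add_zero])
        (fun c a _ ha => by rw [smul_mul_assoc, map_smul, ha, smul_zero]) hy
      rw [hn, mul_sub, map_sub, ← mul_assoc, ← mul_assoc, hkey y hy, sub_self]
  -- lifting
  obtain ⟨x, hx⟩ : ∃ x, x = g' * T := ⟨_, rfl⟩
  have hxA : x ∈ W.Cor X X 0 := by
    rw [hx]
    exact A_cast (A_mul hg'A hT) (by ring)
  have hxx : x - x * x = g' * n := by
    rw [hx, hn, mul_sub, mul_assoc g' T (g' * T), mul_assoc T g' T]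
  have hxN : g' * n ∈ W.N X 0 := N_cast (N_mul_left hnN hg'R) (by ring)
  obtain ⟨s, r, he, hr⟩ := lift_idem x (by rw [hxx]; exact N_nilpotent hxN)
  have hsA : Polynomial.aeval x s ∈ W.Cor X X 0 := aeval_mem hxA s
  have hrA : Polynomial.aeval x r ∈ W.Cor X X 0 := aeval_mem hxA r
  generalize Polynomial.aeval x s = u at he hr hsA
  generalize Polynomial.aeval x r = v at hr hrA
  obtain ⟨e, he'⟩ : ∃ e, e = u * x := ⟨_, rfl⟩
  rw [← he'] at he hr
  -- the product `T (1 - e)`
  obtain ⟨ν, hν⟩ : ∃ ν, ν = T * (1 - e) := ⟨_, rfl⟩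
  have hνN : ν ∈ W.N X 1 := by
    have h1 : ν = n + T * (g' * n) * v := by
      have h2 : T * (x - e) = T * (g' * n) * v := by rw [hr, hxx, ← mul_assoc]
      rw [hν, ← h2, hn, hx]
      noncomm_ring
    rw [h1]
    exact Submodule.add_mem _ hnN (N_cast (N_mul_right (N_mul_left hxN hT1) (cor_le hrA))
      (by ring))
  have hee : e * (g * T) = e := by
    rw [he', hx, mul_assoc u, mul_assoc g' T, ← mul_assoc T g T, hTg]
  have hef : e * (1 - e) = 0 := by rw [mul_sub, mul_one, he, sub_self]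
  have hνg : ν * g * ν = ν := by
    have h1 : ν * g * ν = (T * (g * T) - T * (e * (g * T))) * (1 - e) := by
      have h2 : T * (1 - e) * g * (T * (1 - e)) = T * (1 - e) * (g * T) * (1 - e) := by
        simp only [mul_assoc]
      rw [hν, h2]
      congr 1
      rw [mul_sub, mul_one, sub_mul, mul_assoc T e]
    rw [h1, hee, ← mul_assoc T g T, hTg, sub_mul, mul_assoc T e, hef, mul_zero, sub_zero, hν]
  have hgν : g * ν = 0 := by
    obtain ⟨k, hk⟩ := N_nilpotent (N_cast (N_mul_left hνN hg) (by ring) : g * ν ∈ W.N X 0)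
    have h1 : g * ν * (g * ν) = g * ν := by rw [mul_assoc g ν, ← mul_assoc ν g ν, hνg]
    have h2 : ∀ k : ℕ, (g * ν) ^ (k + 1) = g * ν := by
      intro k
      induction k with
      | zero => rw [zero_add, pow_one]
      | succ k ih => rw [pow_succ, ih, h1]
    rw [← h2 k, pow_succ, hk, zero_mul]
  have hν0 : ν = 0 := by rw [← hνg, mul_assoc, hgν, mul_zero]
  refine ⟨u * g', A_cast (A_mul hsA hg'A) (by ring), ?_⟩
  have h1 : T * (u * g') * T = T * e := by
    rw [he', hx]
    simp only [mul_assoc]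
  rw [h1]
  rw [hν, mul_sub, mul_one, sub_eq_zero] at hν0
  exact hν0.symm

end VRQAux

open VRQAux

/-- **Quasi-inverse with rational coefficients.** -/
theorem tVRQ : StVRQ := by
  intro K _ _ 𝒱 _ _ W X η hη hK hG
  obtain ⟨g, hg, hgη⟩ := hG
  have hpi := W.kunneth_iff.1 hK
  obtain ⟨L, hL⟩ : ∃ L : W.E X, L = LinearMap.mulLeft K η := ⟨_, rfl⟩
  have hLA : L ∈ W.Cor X X 1 := by
    rw [hL]
    exact A_cast (W.cor_mul hη) (by norm_num)
  have hLg : L * g * L = L := by
    rw [hL]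
    ext z
    exact hgη z
  have hT : ∀ i : ℕ, ∃ θ ∈ W.Cor X X (-1), L * W.pi X i * θ * (L * W.pi X i) = L * W.pi X i := by
    intro i
    refine core (i := i) (A_cast (A_mul hLA (hpi i)) (by ring))
      (by rw [mul_assoc, pi_mul_self]) hg ?_
    have h1 : W.pi X i * g = g * W.pi X (i + 2) := R_pi hg (by push_cast; ring)
    have h2 : W.pi X (i + 2) * L = L * W.pi X i := R_pi (cor_le hLA) (by push_cast; ring)
    rw [mul_assoc L, h1, ← mul_assoc L, mul_assoc (L * g), ← mul_assoc (W.pi X (i + 2)), h2,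
      mul_assoc L (W.pi X i), pi_mul_self, ← mul_assoc, hLg]
  choose θ hθ hθT using hT
  refine ⟨∑ i ∈ Finset.range (2 * W.dim X + 1), W.pi X i * θ i * W.pi X (i + 2),
    AddSubgroup.sum_mem _ fun i _ => A_cast (A_mul (A_mul (hpi i) (hθ i)) (hpi (i + 2)))
      (by ring), ?_⟩
  intro z
  refine W.ind (P := fun z => η * (∑ i ∈ Finset.range (2 * W.dim X + 1),
    W.pi X i * θ i * W.pi X (i + 2) : W.E X) (η * z) = η * z) z (by simp) (fun i z hz => ?_)
    (fun a b ha hb => by simp only [mul_add, map_add, ha, hb])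
  by_cases hi : 2 * W.dim X < i
  · rw [W.gr_top hz hi]
    simp
  · have hηz : η * z ∈ W.gr X (i + 2) := by
      have := SetLike.mul_mem_graded (W.alg_gr hη) hz
      rwa [show 2 * 1 + i = i + 2 by ring] at this
    rw [LinearMap.sum_apply, Finset.sum_eq_single_of_mem i (Finset.mem_range.2 (by omega))
      (fun j _ hj => by
        rw [Module.End.mul_apply, W.pi_ne hηz (by omega), map_zero])]
    have h1 := LinearMap.congr_fun (hθT i) z
    simp only [hL, Module.End.mul_apply, LinearMap.mulLeft_apply, W.pi_same hz] at h1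
    rw [Module.End.mul_apply, Module.End.mul_apply, W.pi_same hηz]
    exact h1

end Pool.Agent.Lib.MP_4ca46c_ag.Two
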