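import Mathlib
import Pool.Agent.Lib.MP_4ca46c_ag.Two.SpecU

/-!
# The member of the net over a field of transcendence degree two
-/

set_option autoImplicit false

namespace Pool.Agent.Lib.MP_4ca46c_ag.Two

namespace KunUAux

open MvPolynomial

/-- The field `k(b, c)`. -/
abbrev Q (k : Type) [Field k] : Type := FractionRing (MvPolynomial (Fin 2) k)

/-- The algebraic closure of `k(b, c)`. -/
abbrev M (k : Type) [Field k] : Type := AlgebraicClosure (Q k)

/-- The element `b` or `c`. -/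
noncomputable def bc (k : Type) [Field k] (i : Fin 2) : M k :=
  algebraMap (MvPolynomial (Fin 2) k) (M k) (X i)

theorem basis (k : Type) [Field k] : IsTranscendenceBasis k (bc k) := by
  have h1 : IsTranscendenceBasis k (X : Fin 2 → MvPolynomial (Fin 2) k) :=
    IsTranscendenceBasis.mvPolynomial _ _
  have h2 : Algebra.IsAlgebraic (MvPolynomial (Fin 2) k) (Q k) :=
    IsFractionRing.comap_isAlgebraic_iff.2 (inferInstance : Algebra.IsAlgebraic (Q k) (Q k))
  have h3 : Algebra.IsAlgebraic (MvPolynomial (Fin 2) k) (M k) := Algebra.IsAlgebraic.trans _ (Q k) _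
  have h4 : FaithfulSMul (MvPolynomial (Fin 2) k) (M k) := by
    rw [faithfulSMul_iff_algebraMap_injective, IsScalarTower.algebraMap_eq _ (Q k) (M k)]
    exact (algebraMap (Q k) (M k)).injective.comp (IsFractionRing.injective _ _)
  exact h1.algebraMap_comp

theorem trdeg_M (k : Type) [Field k] : Algebra.trdeg k (M k) = 2 := by
  rw [← (basis k).cardinalMk_eq_trdeg]
  simp

/-- The vector `(1, b, c)`. -/
noncomputable def vec (k : Type) [Field k] : Fin 3 → M k := ![1, bc k 0, bc k 1]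

theorem vec_li (k : Type) [Field k] : LinearIndependent k (vec k) := by
  rw [Fintype.linearIndependent_iff]
  intro g hg
  have h0 : aeval (bc k) (C (g 0) + C (g 1) * X 0 + C (g 2) * X 1) = 0 := by
    rw [Fin.sum_univ_three] at hg
    simp only [vec, Matrix.cons_val_zero, Matrix.cons_val_one, Matrix.cons_val, Algebra.smul_def,
      mul_one] at hg
    simp only [map_add, map_mul, aeval_X, algHom_C]
    exact hg
  have h1 : C (g 0) + C (g 1) * X 0 + C (g 2) * X 1 = (0 : MvPolynomial (Fin 2) k) :=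
    (injective_iff_map_eq_zero _).1 (basis k).1 _ h0
  have e : ∀ y : Fin 2 → k, g 0 + g 1 * y 0 + g 2 * y 1 = 0 := fun y => by
    have := congrArg (eval y) h1
    simpa using this
  have e0 : g 0 = 0 := by simpa using e ![0, 0]
  have e1 : g 1 = 0 := by simpa [e0] using e ![1, 0]
  have e2 : g 2 = 0 := by simpa [e0] using e ![0, 1]
  intro i
  fin_cases i
  · exact e0
  · exact e1
  · exact e2

theorem vec_det (k : Type) [Field k] : bc k 0 + bc k 1 + bc k 0 * bc k 1 ≠ 0 := by
  intro h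
  have h0 : aeval (bc k) (X 0 + X 1 + X 0 * X 1 : MvPolynomial (Fin 2) k) = 0 := by
    simp only [map_add, map_mul, aeval_X]
    exact h
  have h1 : X 0 + X 1 + X 0 * X 1 = (0 : MvPolynomial (Fin 2) k) :=
    (injective_iff_map_eq_zero _).1 (basis k).1 _ h0
  have := congrArg (eval ![(1 : k), 0]) h1
  simp at this

/-- The embedding in a larger field. -/
theorem exists_embed (k L : Type) [Field k] [Field L] [Algebra k L] [IsAlgClosed L]
    (y : Fin 2 → L) (h : AlgebraicIndependent k y) :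
    ∃ φ : M k →ₐ[k] L, ∀ i, φ (bc k i) = y i := by
  have hinj : Function.Injective (aeval y : MvPolynomial (Fin 2) k →ₐ[k] L) := h
  let f : Q k →+* L := IsFractionRing.lift (g := (aeval y : MvPolynomial (Fin 2) k →ₐ[k] L).toRingHom) hinj
  let _ : Algebra (Q k) L := f.toAlgebra
  have hf : ∀ p : MvPolynomial (Fin 2) k, f (algebraMap _ (Q k) p) = aeval y p := fun p =>
    IsFractionRing.lift_algebraMap hinj p
  let ψ : M k →ₐ[Q k] L := IsAlgClosed.lift
  have hψ : ∀ p : MvPolynomial (Fin 2) k, ψ (algebraMap _ (M k) p) = aeval y p := fun p => by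
    rw [IsScalarTower.algebraMap_apply _ (Q k) (M k), ψ.commutes]
    exact hf p
  refine ⟨⟨ψ.toRingHom, fun r => ?_⟩, fun i => ?_⟩
  · have := hψ (C r)
    rw [algHom_C] at this
    exact this
  · have := hψ (X i)
    rw [aeval_X] at this
    exact this

/-- Quotients of algebraically independent elements. -/
theorem quot_ind (k L : Type) [Field k] [Field L] [Algebra k L] (x : Fin 3 → L)
    (h : AlgebraicIndependent k x) :
    AlgebraicIndependent k (![x 1 / x 0, x 2 / x 0] : Fin 2 → L) := by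
  have h0 : x 0 ≠ 0 := h.ne_zero 0
  have key : ∀ p : MvPolynomial (Fin 2) k, ∃ (d : ℕ) (q : MvPolynomial (Fin 3) k),
      aeval x q = x 0 ^ d * aeval (![x 1 / x 0, x 2 / x 0] : Fin 2 → L) p ∧
      aeval (![1, X 0, X 1] : Fin 3 → MvPolynomial (Fin 2) k) q = p := by
    intro p
    induction p using MvPolynomial.induction_on with
    | C a => exact ⟨0, C a, by simp, by simp⟩
    | add p p' hp hp' =>
      obtain ⟨d, q, h1, h2⟩ := hp
      obtain ⟨d', q', h1', h2'⟩ := hp'
      refine ⟨d + d', X 0 ^ d' * q + X 0 ^ d * q', ?_, ?_⟩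
      · rw [map_add, map_mul, map_mul, map_pow, map_pow, aeval_X, h1, h1', map_add]
        ring
      · rw [map_add, map_mul, map_mul, map_pow, map_pow, aeval_X, h2, h2']
        simp
    | mul_X p i hp =>
      obtain ⟨d, q, h1, h2⟩ := hp
      refine ⟨d + 1, q * X i.succ, ?_, ?_⟩
      · rw [map_mul, aeval_X, h1, map_mul, aeval_X]
        fin_cases i
        · simp
          field_simp
          ring
        · simp
          field_simp
          ring
      · rw [map_mul, aeval_X, h2]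
        fin_cases i <;> simp
  rw [AlgebraicIndependent, injective_iff_map_eq_zero]
  intro p hp
  obtain ⟨d, q, h1, h2⟩ := key p
  rw [hp, mul_zero] at h1
  have hq : q = 0 := (injective_iff_map_eq_zero _).1 h q h1
  rw [← h2, hq, map_zero]

section geo

open CategoryTheory Limits AlgebraicGeometry
open Pool.Agent.Lib.MP_4ca46c_ag.Sign Pool.Agent.Lib.MP_4ca46c_ag.Hyp
open Pool.Agent.Lib.MP_4ca46c_ag.Std Pool.Agent.Lib.MP_4ca46c_ag.Geo

theorem ff_str {k₀ k : Type} [Field k₀] [Field k] [Algebra k₀ k] (Φ : Fib k₀ k)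
    (ψ₀ : PP k₀ k ⟶ PSo k₀ k (Fin 3)) (hψ : IsPsi ψ₀) :
    (Φ.ff ≫ ψ₀) ≫ PSo.str k₀ k (Fin 3) = Φ.y := by
  rw [Category.assoc, hψ.1, ← Category.assoc, Fib.ff, pullback.lift_fst, Category.assoc, Φ.f_str]

theorem exists_embY {k₀ k : Type} [Field k₀] [Field k] [Algebra k₀ k] [IsAlgClosed k]
    (Φ : Fib k₀ k) : ∃ (κ : Type) (_ : Fintype κ) (_ : Nontrivial κ) (_ : κ)
    (e : Φ.Y ⟶ PSo k₀ k κ), IsClosedImmersion e.left ∧ e ≫ PSo.str k₀ k κ = Φ.y := by
  let P := Φ.V.prod Φ.V tSegreGeo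
  exact ⟨P.κ, P.fintype, P.nontrivial, P.i, P.emb, P.closed, P.emb_str⟩

/-- The general statement. -/
theorem core {k₀ K : Type} [Field k₀] [Field K] [CharZero K] (h1 : StMemEx) (h2 : StMemBC)
    (h3 : StMemScale) (h4 : StUSm) (h5 : StKunBC k₀ K) (T : WeilTheory k₀ K)
    (k : Type) [Field k] [Algebra k₀ k] [IsAlgClosed k] (Φ : Fib k₀ k)
    (ψ₀ : PP k₀ k ⟶ PSo k₀ k (Fin 3)) (hψ : IsPsi ψ₀) (hK : Kun2 T k)
    (F L : Type) [Field F] [Algebra k₀ F] [Algebra k F] [IsScalarTower k₀ k F]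
    [Field L] [Algebra k₀ L] [Algebra k L] [IsScalarTower k₀ k L] [Algebra F L]
    [IsScalarTower k₀ F L] [IsScalarTower k F L] [IsAlgClosed L] (x : Fin 3 → F)
    (hx : AlgebraicIndependent k x) (U₀ : Sch k₀) (toY : U₀ ⟶ Φ.Y) (u₀ : U₀ ⟶ pt k₀ F)
    (hM : IsMem Φ.y (Φ.ff ≫ ψ₀) x toY u₀) (U : Var k₀ L) (g : U.X ⟶ U₀)
    (hd : U.dim = Φ.V.n + Φ.m)
    (hPB : IsPullback g U.str u₀ (ptMap k₀ (IsScalarTower.toAlgHom k₀ F L))) :
    (weil T L).Kunneth U := by
  -- the coordinates in `L`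
  have hxL : AlgebraicIndependent k (fun j => algebraMap F L (x j)) :=
    hx.map' (f := IsScalarTower.toAlgHom k F L) (algebraMap F L).injective
  set xL : Fin 3 → L := fun j => algebraMap F L (x j) with hxLdef
  have hx0 : xL 0 ≠ 0 := hxL.ne_zero 0
  obtain ⟨φ, hφ⟩ := exists_embed k L _ (quot_ind k L xL hxL)
  let _ : Algebra (M k) L := φ.toRingHom.toAlgebra
  have t1 : IsScalarTower k (M k) L := IsScalarTower.of_algebraMap_eq fun r => (φ.commutes r).symm
  have t2 : IsScalarTower k₀ (M k) L := by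
    refine IsScalarTower.of_algebraMap_eq fun r => ?_
    rw [IsScalarTower.algebraMap_apply k₀ k L, IsScalarTower.algebraMap_apply k₀ k (M k),
      ← IsScalarTower.algebraMap_apply k (M k) L]
  have hscale : (fun j => xL 0 * algebraMap (M k) L (vec k j)) = xL := by
    funext j
    fin_cases j
    · simp [vec]
    · have : algebraMap (M k) L (bc k 0) = xL 1 / xL 0 := hφ 0
      simp only [vec, Fin.mk_one, Matrix.cons_val_one, Matrix.cons_val_zero, this]
      field_simp
    · have : algebraMap (M k) L (bc k 1) = xL 2 / xL 0 := hφ 1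
      simp only [vec, Fin.reduceFinMk, Matrix.cons_val, this]
      field_simp
  -- the member over `M`
  obtain ⟨U', r', u', hM'⟩ := h1 k₀ k (Fin 3) (M k) Φ.Y Φ.y (Φ.ff ≫ ψ₀) (ff_str Φ ψ₀ hψ) (vec k)
  have hdet : det3 (vec k) ≠ 0 := by
    have e : det3 (vec k) = bc k 0 + bc k 1 + bc k 0 * bc k 1 := by
      simp only [det3, vec, Matrix.cons_val_zero, Matrix.cons_val_one, Matrix.cons_val]
      ring
    rw [e]
    exact vec_det k
  obtain ⟨hsm, hpr⟩ := h4 k₀ k Φ ψ₀ hψ (M k) (vec k) (vec_li k) hdet U' r' u' hM'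
  -- the base change to `L`
  let pm : pt k₀ L ⟶ pt k₀ (M k) := ptMap k₀ (IsScalarTower.toAlgHom k₀ (M k) L)
  have hPB'' : IsPullback (pullback.fst u' pm) (pullback.snd u' pm) u' pm :=
    IsPullback.of_hasPullback _ _
  have hM'' := h2 k₀ k (Fin 3) (M k) L Φ.Y Φ.y (Φ.ff ≫ ψ₀) (vec k) U' r' u' _ _ _ hM' hPB''
  have hMU := h2 k₀ k (Fin 3) F L Φ.Y Φ.y (Φ.ff ≫ ψ₀) x U₀ toY u₀ _ _ _ hM hPB
  obtain ⟨e, he, he1, he2⟩ := h3 k₀ k (Fin 3) L Φ.Y Φ.y (Φ.ff ≫ ψ₀)
    (fun j => algebraMap (M k) L (vec k j)) (xL 0) hx0 _ _ _ U.X (g ≫ toY) U.str hM'' (by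
      rw [hscale]; exact hMU)
  let g' : U.X ⟶ U' := inv e ≫ pullback.fst u' pm
  have hg' : IsPullback g' U.str u' pm := by
    refine IsPullback.of_iso hPB'' (asIso e) (Iso.refl _) (Iso.refl _) (Iso.refl _) ?_ ?_ ?_ ?_
    · simp [g']
    · simp [he2]
    · simp
    · simp
  -- connectedness
  have hgl : IsPullback g'.left U.str.left u'.left pm.left := hg'.map (Over.forget _)
  have hsurj : AlgebraicGeometry.Surjective g'.left :=
    MorphismProperty.of_isPullback hgl.flip (conn_surjective _)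
  have hUc : ConnectedSpace U.X.left := by
    have h := U.isVar.connected
    have i1 : Subsingleton (pt k₀ L).left := inferInstanceAs (Subsingleton (PrimeSpectrum L))
    have i2 : Nonempty (pt k₀ L).left := inferInstanceAs (Nonempty (PrimeSpectrum L))
    exact GeometricallyConnected.connectedSpace_of_subsingleton U.str.left
  have hU'c : ConnectedSpace U'.left := hsurj.surj.connectedSpace g'.left.continuous
  have hconn : GeometricallyConnected u'.left := fGeomConn (M k) U'.left u'.left hU'c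
  -- the embedding
  obtain ⟨κ, _, _, i, eY, hPc, hPs⟩ := exists_embY Φ
  obtain ⟨em, hem1, hem2⟩ := tEmb k₀ k (M k) (IsScalarTower.toAlgHom k₀ k (M k)) κ U' u'
    (r' ≫ eY) hpr (by
      rw [Category.assoc, hPs]
      exact hM'.comm) (by
      intro S t t' e1 e2
      refine hM'.ext S t t' ?_ e1
      apply Over.OverMorphism.ext
      rw [← cancel_mono eY.left]
      have h5 := congrArg CommaMorphism.left e2
      simpa using h5)
  let V' : ProjVar k₀ (M k) :=
    { X := U'
      str := u'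
      n := Φ.V.n + Φ.m
      isVar := ⟨hsm, hpr, hconn⟩
      κ := κ
      i := i
      emb := em
      closed := hem1
      emb_str := hem2 }
  have hkun := hK (M k) (trdeg_M k) V'
  exact h5 T (M k) L ⟨U', u', Φ.V.n + Φ.m, ⟨hsm, hpr, hconn⟩⟩ U g' hg' hd hkun

end geo

end KunUAux

open CategoryTheory Limits AlgebraicGeometry
open Pool.Agent.Lib.MP_4ca46c_ag.Sign Pool.Agent.Lib.MP_4ca46c_ag.Hyp
open Pool.Agent.Lib.MP_4ca46c_ag.Std Pool.Agent.Lib.MP_4ca46c_ag.Geo

theorem tKunU (k₀ K : Type) [Field k₀] [Field K] [CharZero K] (h1 : StMemEx) (h2 : StMemBC)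
    (h3 : StMemScale) (h4 : StUSm) (h5 : StKunBC k₀ K) : StKunU k₀ K := by
  intro T _ k _ _ _ Φ ψ₀ hψ hK U₀ toY u₀ hM _ U g hd hPB
  have hx : AlgebraicIndependent k
      (fun j : Fin 3 => algebraMap (P2 k₀ k).R (P2 k₀ k).F (MvPolynomial.X j)) := by
    have h : AlgebraicIndependent k
        (MvPolynomial.X : (P2 k₀ k).κ → MvPolynomial (P2 k₀ k).κ k) :=
      MvPolynomial.algebraicIndependent_X _ k
    exact h.map' (f := IsScalarTower.toAlgHom k (P2 k₀ k).R (P2 k₀ k).F)
      (IsFractionRing.injective _ _)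
  exact KunUAux.core h1 h2 h3 h4 h5 T k Φ ψ₀ hψ hK (P2 k₀ k).F (P2 k₀ k).L _ hx U₀ toY u₀ hM U g
    hd hPB

end Pool.Agent.Lib.MP_4ca46c_ag.Two
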