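import Mathlib
import Pool.Agent.Lib.MP_4ca46c_ag.Two.Desc
import Pool.Agent.Lib.MP_4ca46c_ag.Vtc.Step
import Pool.Agent.Lib.MP_4ca46c_ag.Std.Trdeg

/-!
# Base change of projective varieties

Let `V` be a smooth projective variety and `L` the algebraic closure of the field of rational
functions in `r` variables over the base field of `V`. If the conjecture of Künneth type, or the
Lefschetz standard conjecture, holds for the base change `V_L`, then it holds for `V`.
-/

namespace Pool.Agent.Lib.MP_4ca46c_ag.Two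

open CategoryTheory Limits AlgebraicGeometry MonoidalCategory CartesianMonoidalCategory
open Pool.Agent.Lib.MP_4ca46c_ag.Sign Pool.Agent.Lib.MP_4ca46c_ag.Hyp
open Pool.Agent.Lib.MP_4ca46c_ag.Std Pool.Agent.Lib.MP_4ca46c_ag.Vtc

variable {k₀ : Type} [Field k₀]

section bc

variable (V : PrVar k₀) (L : Type) [Field L] [Algebra k₀ L] [IsAlgClosed L] [Algebra V.k L]
  [IsScalarTower k₀ V.k L]

omit [IsAlgClosed L] in
/-- The square of the base change. -/
theorem pbc_sq : IsPullback (pullback.fst V.str (ext k₀ V.k L)) (pullback.snd V.str (ext k₀ V.k L))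
    V.str (ext k₀ V.k L) := IsPullback.of_hasPullback _ _

omit [IsAlgClosed L] in
theorem pbc_w : (pullback.fst V.str (ext k₀ V.k L) ≫ V.emb) ≫ PSo.str k₀ V.k V.κ =
    pullback.snd V.str (ext k₀ V.k L) ≫ ext k₀ V.k L := by
  rw [Category.assoc, V.emb_str]
  exact pullback.condition

/-- The embedding of the base change. -/
noncomputable def pbcEmb : pullback V.str (ext k₀ V.k L) ⟶ PSo k₀ L V.κ :=
  (bc_isPullback k₀ V.k L V.κ).lift (pullback.fst V.str (ext k₀ V.k L) ≫ V.emb)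
    (pullback.snd V.str (ext k₀ V.k L)) (pbc_w V L)

theorem pbcEmb_bc : pbcEmb V L ≫ PSo.bc V.k L V.κ k₀ = pullback.fst V.str (ext k₀ V.k L) ≫ V.emb :=
  (bc_isPullback k₀ V.k L V.κ).lift_fst _ _ _

theorem pbcEmb_str : pbcEmb V L ≫ PSo.str k₀ L V.κ = pullback.snd V.str (ext k₀ V.k L) :=
  (bc_isPullback k₀ V.k L V.κ).lift_snd _ _ _

theorem pbcEmb_sq : IsPullback (pullback.fst V.str (ext k₀ V.k L)) (pbcEmb V L) V.emb
    (PSo.bc V.k L V.κ k₀) := by
  refine IsPullback.of_bot ?_ (pbcEmb_bc V L).symm (bc_isPullback k₀ V.k L V.κ)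
  rw [pbcEmb_str, V.emb_str]
  exact pbc_sq V L

/-- The base change of a projective variety. -/
noncomputable def pbc : PrVar k₀ where
  k := L
  X := pullback V.str (ext k₀ V.k L)
  str := pullback.snd V.str (ext k₀ V.k L)
  n := V.n
  isVar := genclass_var (pbc_sq V L) V.isVar
  κ := V.κ
  i := V.i
  emb := pbcEmb V L
  isClosed := MorphismProperty.of_isPullback (P := @IsClosedImmersion)
    ((pbcEmb_sq V L).map (Over.forget _)) V.isClosed
  emb_str := pbcEmb_str V L

variable {K : Type} [Field K] {D : CohData k₀ K} (h : D.IsTheory) (h' : IsStandard D)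

include h in
theorem pbc_h : D.pbH (pullback.fst V.str (ext k₀ V.k L)) (D.cls (V.h D)) =
    D.cls ((pbc V L).h D) := by
  have w1 := (pbc V L).isVar.isWeil
  have w2 := V.isVar.isWeil
  have s1 : Sm (pullback V.str (ext k₀ V.k L)) := (pbc V L).isVar.sm
  have s2 : Sm V.X := V.isVar.sm
  have sP : ∀ (F : Type) [Field F] [Algebra k₀ F], Sm (PSo k₀ F V.κ) := by
    intro F _ _
    have hκ : ∃ N, Nat.card V.κ = N + 1 := by
      have : 1 < Fintype.card V.κ := Fintype.one_lt_card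
      exact ⟨Fintype.card V.κ - 1, by rw [Nat.card_eq_fintype_card]; omega⟩
    obtain ⟨N, hN⟩ := hκ
    exact (pso_var k₀ F V.κ N hN).sm
  have e1 : D.pb (pullback.fst V.str (ext k₀ V.k L)) (V.h D) = (pbc V L).h D := by
    change D.pb (pullback.fst V.str (ext k₀ V.k L)) (D.pb V.emb (hyperplane D V.k V.i)) =
      D.pb (pbcEmb V L) (hyperplane D L V.i)
    rw [← hyperplane_bc h V.k L V.i, ← h.chow.pullFunctor.2 _ _ _ _ _ s1 s2 (sP V.k),
      ← h.chow.pullFunctor.2 _ _ _ _ _ s1 (sP L) (sP V.k), pbcEmb_bc]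
  rw [← e1]
  exact (h.weil.clPull _ _ _ w1 w2 _).symm

variable [CharZero K]

/-- Algebraic classes on the base change come from algebraic classes. -/
def ClsDesc (D : CohData k₀ K) (k L : Type) [Field k] [Algebra k₀ k] [Field L] [Algebra k₀ L]
    [Algebra k L] [IsScalarTower k₀ k L] : Prop :=
  ∀ (X X' : Sch k₀) (x : X ⟶ pt k₀ k) (x' : X' ⟶ pt k₀ L) (g : X' ⟶ X) (n : ℕ), IsVar x n →
    IsPullback g x' x (ext k₀ k L) → ∀ c (a : D.CH X'), D.Codim c a →
    ∃ b : D.CH X, D.Codim c b ∧ D.cls a = D.pbH g (D.cls b)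

include h h' in
/-- Canonical operators. -/
theorem pbc_canon (H : ClsDesc D V.k L) {P : ∀ V : PrVar k₀, (D.H V.X →ₗ[K] D.H V.X) → Prop}
    (hP : Canon D P) {r : ℤ} (hA : ∀ f, P (pbc V L) f → (pbc V L).Algebraic D r f) :
    ∀ f, P V f → V.Algebraic D r f := by
  have E := bridge_extra h h'
  have v1 := Var.isVar_prod V.isVar V.isVar
  have v' : IsVar (pullback.snd V.str (ext k₀ V.k L)) V.n := genclass_var (pbc_sq V L) V.isVar
  have v2 := Var.isVar_prod v' v'
  have sq := pbc_sq V L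
  have sq₂ := sqMap_isPullback sq
  obtain ⟨tg, bg, -⟩ := Div.tBC k₀ K (D.weil h) E V.k L ⟨V.X, V.str, V.n, V.isVar⟩
    ⟨_, _, V.n, v'⟩ (pullback.fst V.str (ext k₀ V.k L)) rfl sq
  obtain ⟨tg₂, bg₂, -⟩ := Div.tBC k₀ K (D.weil h) E V.k L ⟨_, _, _, v1⟩ ⟨_, _, _, v2⟩
    (sqMap sq) rfl sq₂
  obtain ⟨α, β, t, hβ⟩ : ∃ (α : D.H V.X ≃ₐ[K] D.H (pbc V L).X)
      (β : D.H V.sq ≃ₐ[K] D.H (pbc V L).sq), Transp D V (pbc V L) α β ∧
      ∀ u, β u = D.pbH (sqMap sq) u :=
    ⟨_, _, transp_of_pull h V (pbc V L) rfl (pullback.fst V.str (ext k₀ V.k L)) (sqMap sq)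
      (sqMap_fst _) (sqMap_snd _) bg bg₂ tg tg₂ (pbc_h V L h), fun u => rfl⟩
  intro f hf
  obtain ⟨a, ha, hr⟩ := hA _ (hP.tr _ _ _ _ t f hf)
  have key : ∀ c, D.Codim c a → ∃ b : D.CH V.sq, D.Codim c b ∧ D.cls a = D.pbH (sqMap sq) (D.cls b) :=
    fun c hc => H _ _ _ _ (sqMap sq) _ v1 sq₂ c a hc
  have key2 : ∀ b : D.CH V.sq, D.cls a = D.pbH (sqMap sq) (D.cls b) →
      ∀ v w, D.trace (D.cup (f v) w) = V.pair D b v w := by
    intro b hb
    have h1 : Rep D (pbc V L) (D.cls a) _ := hr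
    have h2 := (t.symm h).rep h1
    have e1 : β.symm (D.cls a) = D.cls b := by
      rw [AlgEquiv.symm_apply_eq, hβ]
      exact hb
    rw [e1] at h2
    have e2 : α.symm.toLinearEquiv.conj (α.toLinearEquiv.conj f) = f := conj_symm_conj α.symm f
    rw [e2] at h2
    exact h2
  rcases ha with ⟨hn, hc⟩ | ⟨hn, rfl⟩
  · obtain ⟨b, hb, hab⟩ := key _ hc
    exact ⟨b, Or.inl ⟨hn, hb⟩, key2 b hab⟩
  · refine ⟨0, Or.inr ⟨hn, rfl⟩, key2 0 ?_⟩
    exact (map_zero (D.cl _)).trans (((congrArg _ (map_zero (D.cl _))).trans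
      (map_zero (D.pullH _))).symm)

include h h' in
theorem pbc_kunneth (H : ClsDesc D V.k L) (hC : (pbc V L).KunnethConj D) : V.KunnethConj D := by
  have h1 := (kun_iff' h (pbc V L) h').1 hC
  rw [kun_iff' h V h']
  intro i π hπ
  exact pbc_canon V L h h' H (canon_pr h i) (fun f hf => h1 i f hf) π hπ

include h h' in
theorem pbc_lefschetz (H : ClsDesc D V.k L) (hB : (pbc V L).LefschetzConj D) :
    V.LefschetzConj D := by
  have h1 := (lef_iff' h (pbc V L) h').1 hB
  rw [lef_iff' h V h']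
  intro i j θ hij hθ
  exact pbc_canon V L h h' H (canon_inv h h' i j) (fun f hf => h1 i j f hf.1 hf.2) θ ⟨hij, hθ⟩

end bc

section closure

variable {K : Type} [Field K] {D : CohData k₀ K} (h : D.IsTheory) (h' : IsStandard D) [CharZero K]

include h h' in
/-- Extensions by finitely many parameters. -/
theorem clsDesc_closure (k κ F L : Type) [Fintype κ] [Nonempty κ] [Field k] [Algebra k₀ k]
    [IsAlgClosed k] [Field F] [Algebra k₀ F] [Algebra k F] [IsScalarTower k₀ k F]
    [Algebra (MvPolynomial κ k) F] [IsScalarTower k₀ (MvPolynomial κ k) F]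
    [IsScalarTower k (MvPolynomial κ k) F] [IsFractionRing (MvPolynomial κ k) F] [Field L]
    [Algebra k₀ L] [IsAlgClosed L] [Algebra k L] [Algebra F L] [IsScalarTower k₀ k L]
    [IsScalarTower k₀ F L] [IsScalarTower k F L] [IsAlgClosure F L] : ClsDesc D k L := by
  intro X X' x x' g n hx hg c a ha
  exact desc_alg (bridge_extra h h') κ F ⟨X, x, n, hx⟩ ⟨X', x', n, genclass_var hg hx⟩ g rfl hg c a
    ha

include h h' in
/-- **Descent.** For every `V` and `r` there is a variety `V'`, over a field whose transcendence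
degree over `k₀` is bigger by `r`, such that the conjectures for `V'` imply those for `V`. -/
theorem exists_pbc (V : PrVar k₀) (r : ℕ) : ∃ V' : PrVar k₀,
    Algebra.trdeg k₀ V'.k = Algebra.trdeg k₀ V.k + r ∧ V'.n = V.n ∧
    (V'.KunnethConj D → V.KunnethConj D) ∧ (V'.LefschetzConj D → V.LefschetzConj D) := by
  rcases Nat.eq_zero_or_pos r with rfl | hr
  · exact ⟨V, by rw [Nat.cast_zero, add_zero], rfl, fun H => H, fun H => H⟩
  have : Nonempty (Fin r) := ⟨⟨0, hr⟩⟩
  let F := FractionRing (MvPolynomial (Fin r) V.k)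
  let L := AlgebraicClosure F
  have H : ClsDesc D V.k L := clsDesc_closure h h' V.k (Fin r) F L
  refine ⟨pbc V L, ?_, rfl, pbc_kunneth V L h h' H, pbc_lefschetz V L h h' H⟩
  change Algebra.trdeg k₀ L = _
  rw [trdeg_closure k₀ V.k (Fin r) F L, Cardinal.mk_fin]

end closure

end Pool.Agent.Lib.MP_4ca46c_ag.Two
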