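import Mathlib
import Pool.Agent.Lib.MP_4ca46c_ag.Two.SpecU

/-!
# Base change and scaling of the equation of a hyperplane section
-/

set_option autoImplicit false

namespace Pool.Agent.Lib.MP_4ca46c_ag.Two

open CategoryTheory Limits AlgebraicGeometry
open Pool.Agent.Lib.MP_4ca46c_ag.Sign Pool.Agent.Lib.MP_4ca46c_ag.Hyp
open Pool.Agent.Lib.MP_4ca46c_ag.Std

namespace MemBCAux

section

variable {k₀ k : Type} [Field k₀] [Field k] [Algebra k₀ k] {κ : Type} [Fintype κ] {M : Type}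
  [Field M] [Algebra k₀ M] {Z : Sch k₀} {φ : Z ⟶ PSo k₀ k κ} {a : κ → M} {T : Sch k₀}

theorem mem_comp {T' : Sch k₀} (h : T' ⟶ T) {t : T ⟶ Z} {s : T ⟶ pt k₀ M} (H : Mem φ a t s) :
    Mem φ a (h ≫ t) (h ≫ s) := by
  have h1 : ((h ≫ t) ≫ φ).left = h.left ≫ (t ≫ φ).left := by
    rw [Category.assoc]
    rfl
  have h2 : ∀ j, Hyp.val ((h ≫ s).left : T'.left ⟶ Spec (CommRingCat.of M)) (a j) =
      h.left.appTop (Hyp.val (s.left : T.left ⟶ Spec (CommRingCat.of M)) (a j)) := fun j =>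
    DFunLike.congr_fun (Hyp.val_comp h.left s.left) (a j)
  unfold Mem
  rw [h1]
  simp only [h2]
  exact PreCoord.Van.comp _ h.left H

theorem mem_map {M' : Type} [Field M'] [Algebra k₀ M'] [Algebra M M'] [IsScalarTower k₀ M M']
    (t : T ⟶ Z) (s : T ⟶ pt k₀ M') : Mem φ (fun j => algebraMap M M' (a j)) t s ↔
      Mem φ a t (s ≫ ptMap k₀ (IsScalarTower.toAlgHom k₀ M M')) := by
  have h2 : ∀ j, Hyp.val ((s ≫ ptMap k₀ (IsScalarTower.toAlgHom k₀ M M')).left :
      T.left ⟶ Spec (CommRingCat.of M)) (a j) =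
      Hyp.val (s.left : T.left ⟶ Spec (CommRingCat.of M')) (algebraMap M M' (a j)) := fun j =>
    DFunLike.congr_fun (Hyp.val_map (s.left : T.left ⟶ Spec (CommRingCat.of M'))
      (IsScalarTower.toAlgHom k₀ M M').toRingHom) (a j)
  unfold Mem
  simp only [h2]

theorem ptMap_tower {M' : Type} [Algebra k M] [IsScalarTower k₀ k M] [Field M'] [Algebra k₀ M']
    [Algebra k M'] [IsScalarTower k₀ k M'] [Algebra M M'] [IsScalarTower k₀ M M']
    [IsScalarTower k M M'] : ptMap k₀ (IsScalarTower.toAlgHom k₀ M M') ≫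
      ptMap k₀ (IsScalarTower.toAlgHom k₀ k M) = ptMap k₀ (IsScalarTower.toAlgHom k₀ k M') := by
  apply Over.OverMorphism.ext
  refine (Spec.map_comp _ _).symm.trans (congrArg Spec.map ?_)
  refine (CommRingCat.ofHom_comp _ _).symm.trans (congrArg CommRingCat.ofHom ?_)
  ext x
  exact (IsScalarTower.algebraMap_apply k M M' x).symm

end

section

variable {Z : Scheme.{0}} {κ : Type} [Fintype κ] (C : PreCoord Z κ) {T : Scheme.{0}}

theorem eqn_smul (z : T ⟶ Z) (c : Γ(T, ⊤)) (a : κ → Γ(T, ⊤)) (i : κ) (W : T.Opens)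
    (h : W ≤ z ⁻¹ᵁ C.D i) : C.eqn z (fun j => c * a j) i W h =
      T.presheaf.map (homOfLE le_top).op c * C.eqn z a i W h := by
  rw [PreCoord.eqn, PreCoord.eqn, Finset.mul_sum]
  refine Finset.sum_congr rfl fun j _ => ?_
  rw [map_mul, mul_assoc]

theorem van_smul (z : T ⟶ Z) {c : Γ(T, ⊤)} (hc : IsUnit c) (a : κ → Γ(T, ⊤)) :
    C.Van z (fun j => c * a j) ↔ C.Van z a := by
  refine forall_congr' fun i => ?_
  rw [eqn_smul]
  exact (hc.map (T.presheaf.map (homOfLE le_top).op).hom).mul_right_eq_zero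

end

section

variable {k₀ k : Type} [Field k₀] [Field k] [Algebra k₀ k] {κ : Type} [Fintype κ] {M : Type}
  [Field M] [Algebra k₀ M] {Z : Sch k₀} {φ : Z ⟶ PSo k₀ k κ} {a : κ → M} {T : Sch k₀}

theorem mem_smul {c : M} (hc : c ≠ 0) (t : T ⟶ Z) (s : T ⟶ pt k₀ M) :
    Mem φ (fun j => c * a j) t s ↔ Mem φ a t s := by
  unfold Mem
  simp only [map_mul]
  exact van_smul _ _ ((IsUnit.mk0 c hc).map (Hyp.val _)) _

end

end MemBCAux

open MemBCAux

theorem tMemBC : StMemBC := by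
  intro k₀ k _ _ _ κ _ M _ _ _ _ M' _ _ _ _ _ _ _ Z z φ a U r u U' g u' H P
  refine ⟨?_, ?_, ?_, ?_⟩
  · rw [Category.assoc, H.comm, ← Category.assoc, P.w, Category.assoc, ptMap_tower]
  · rw [mem_map, ← P.w]
    exact mem_comp g H.mem
  · intro T t s h hm
    obtain ⟨t', h1, h2⟩ := H.lift T t (s ≫ ptMap k₀ (IsScalarTower.toAlgHom k₀ M M'))
      (by rw [Category.assoc, ptMap_tower, h]) ((mem_map t s).1 hm)
    refine ⟨P.lift t' s h2, ?_, P.lift_snd _ _ _⟩
    rw [← Category.assoc, P.lift_fst, h1]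
  · intro T t t' h1 h2
    refine P.hom_ext (H.ext T _ _ ?_ ?_) h2
    · rw [Category.assoc, Category.assoc]
      exact h1
    · rw [Category.assoc, Category.assoc, P.w, ← Category.assoc, ← Category.assoc, h2]

theorem tMemScale : StMemScale := by
  intro k₀ k _ _ _ κ _ M _ _ _ _ Z z φ a c hc U r u U' r' u' H H'
  obtain ⟨e, h1, h2⟩ := H'.lift U r u H.comm ((mem_smul hc r u).2 H.mem)
  obtain ⟨e', h3, h4⟩ := H.lift U' r' u' H'.comm ((mem_smul hc r' u').1 H'.mem)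
  refine ⟨e, ⟨e', ?_, ?_⟩, h1, h2⟩
  · refine H.ext U _ _ ?_ ?_
    · rw [Category.assoc, h3, h1, Category.id_comp]
    · rw [Category.assoc, h4, h2, Category.id_comp]
  · refine H'.ext U' _ _ ?_ ?_
    · rw [Category.assoc, h1, h3, Category.id_comp]
    · rw [Category.assoc, h2, h4, Category.id_comp]

end Pool.Agent.Lib.MP_4ca46c_ag.Two
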