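import Mathlib
import Pool.Agent.Lib.MP_4ca46c_ag.Two.SpecN
import Pool.Agent.Lib.MP_4ca46c_ag.Sign.SmS

/-!
# Cycles on `U₀ × U₀` (`tNetCH`)
-/

set_option autoImplicit false

namespace Pool.Agent.Lib.MP_4ca46c_ag.Two

open CategoryTheory Limits AlgebraicGeometry TensorProduct MonoidalCategory
  CartesianMonoidalCategory
open Pool.Agent.Lib.MP_4ca46c_ag.Sign Pool.Agent.Lib.MP_4ca46c_ag.Hyp
open Pool.Agent.Lib.MP_4ca46c_ag.Std Pool.Agent.Lib.MP_4ca46c_ag.Geo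

namespace NetCHAux

/-- affine bundles are stable under base change -/
theorem bundle_baseChange {E U E' U' : Scheme.{0}} {f : E ⟶ U} {f' : E' ⟶ U'} {e' : E' ⟶ E}
    {g : U' ⟶ U} (h : IsPullback e' f' f g) (hf : IsAffineBundle f) : IsAffineBundle f' := by
  intro x
  obtain ⟨V, m, e, hx, he⟩ := hf (g x)
  have s1 : IsPullback (f' ⁻¹ᵁ (g ⁻¹ᵁ V)).ι (f' ∣_ (g ⁻¹ᵁ V)) f' (g ⁻¹ᵁ V).ι :=
    (isPullback_morphismRestrict f' (g ⁻¹ᵁ V)).flip
  have s2 : IsPullback ((f' ⁻¹ᵁ (g ⁻¹ᵁ V)).ι ≫ e') (f' ∣_ (g ⁻¹ᵁ V)) f ((g ⁻¹ᵁ V).ι ≫ g) :=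
    s1.paste_horiz h
  have s3 : IsPullback (f ⁻¹ᵁ V).ι (f ∣_ V) f V.ι :=
    (isPullback_morphismRestrict f V).flip
  have s3' : (g ∣_ V) ≫ V.ι = (g ⁻¹ᵁ V).ι ≫ g := morphismRestrict_ι g V
  let a := s3.lift ((f' ⁻¹ᵁ (g ⁻¹ᵁ V)).ι ≫ e') ((f' ∣_ (g ⁻¹ᵁ V)) ≫ (g ∣_ V)) (by
    rw [s2.w, Category.assoc, s3'])
  have ha1 : a ≫ (f ⁻¹ᵁ V).ι = (f' ⁻¹ᵁ (g ⁻¹ᵁ V)).ι ≫ e' := s3.lift_fst _ _ _
  have ha2 : a ≫ (f ∣_ V) = (f' ∣_ (g ⁻¹ᵁ V)) ≫ (g ∣_ V) := s3.lift_snd _ _ _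
  have s4 : IsPullback a (f' ∣_ (g ⁻¹ᵁ V)) (f ∣_ V) (g ∣_ V) := by
    refine IsPullback.of_right ?_ ha2 s3
    rw [ha1, s3']
    exact s2
  have s5 := AffineSpace.isPullback_map (n := Fin m) (g ∣_ V)
  have s6 : IsPullback e.hom (f ∣_ V) (𝔸(Fin m; V.toScheme) ↘ V.toScheme) (𝟙 _) :=
    IsPullback.of_horiz_isIso ⟨by rw [he, Category.comp_id]⟩
  have s7 : IsPullback (a ≫ e.hom) (f' ∣_ (g ⁻¹ᵁ V)) (𝔸(Fin m; V.toScheme) ↘ V.toScheme)
      (g ∣_ V) := by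
    have := s4.paste_horiz s6
    rwa [Category.comp_id] at this
  exact ⟨g ⁻¹ᵁ V, m, s7.isoIsPullback _ _ s5, hx, s7.isoIsPullback_hom_snd _ _ s5⟩

variable {k₀ : Type} [Field k₀]

theorem sm_of_bundle {E O : Sch k₀} (f : E ⟶ O) (hf : IsAffineBundle f.left) (h : Sm O) :
    Sm E := by
  obtain ⟨F, i1, i2, x, hx⟩ := h
  have b3 := sms_bundle_smooth _ hf
  have b4 := sms_bundle_affine _ hf
  refine ⟨F, i1, i2, f ≫ x, ?_, ?_, ?_⟩
  · have h3 := hx.smooth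
    rw [Over.comp_left]
    exact smooth_comp _ _
  · have h3 := hx.separated
    rw [Over.comp_left]
    infer_instance
  · have h3 := hx.quasiCompact
    rw [Over.comp_left]
    infer_instance

theorem lemC {K : Type} [Field K] (T : WeilTheory k₀ K) {Q U E O Y : Sch k₀} (j : Q ⟶ U)
    (ρ : U ⟶ Y) (s : Q ⟶ E) (e : E ⟶ O) (i : O ⟶ Y) (hQ : Sm Q) (hU : Sm U) (hO : Sm O)
    (hY : Sm Y) (hs1 : Flat s.left) (hs2 : Mono s.left) (hs3 : QuasiCompact s.left)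
    (he : IsAffineBundle e.left) (hi1 : IsOpenImmersion i.left) (hi2 : QuasiCompact i.left)
    (hc : j ≫ ρ = s ≫ e ≫ i) (p : ℕ) (a : T.CH U) (ha : a ∈ T.codim U p) :
    ∃ w ∈ T.codim Y p, T.pull j (a - T.pull ρ w) = 0 := by
  have i1 : Flat i.left := inferInstance
  have i2 : Mono i.left := inferInstance
  have hE := sm_of_bundle e he hO
  obtain ⟨a', ha', e1⟩ := T.pull_surjective_of_mono s hQ hE hs1 hs2 hs3 p (T.pull j a)
    (T.pull_mem j hQ hU _ a ha)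
  obtain ⟨a'', ha'', e2⟩ := T.pull_surjective_of_affineBundle e hE hO he p a' ha'
  obtain ⟨w, hw, e3⟩ := T.pull_surjective_of_mono i hO hY i1 i2 hi2 p a'' ha''
  refine ⟨w, hw, ?_⟩
  rw [map_sub, sub_eq_zero, ← T.pull_comp j ρ hQ hU hY, ← e1, ← e2, ← e3,
    ← T.pull_comp e i hE hO hY, ← T.pull_comp s _ hQ hE hY, hc]

section

variable {k : Type} [Field k] [Algebra k₀ k] {Z : Sch k₀} {str : Z ⟶ pt k₀ k}
    {R F : Type} [CommRing R] [IsDomain R] [Algebra k₀ R] [Algebra k R] [IsScalarTower k₀ k R]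
    [Field F] [Algebra k₀ F] [Algebra R F] [IsScalarTower k₀ R F] (G : PreSec str R F)
    {Y U₀ : Sch k₀} (ys : Y ⟶ pt k₀ k) (u₀ : U₀ ⟶ pt k₀ F) (ψ : Y ⟶ Z) (toP : U₀ ⟶ G.Y₀)
    (toY : U₀ ⟶ Y) (hb : IsPullback toP toY G.r₀ ψ) (hu : toP ≫ G.y₀ = u₀)
    (ρ : pullback u₀ u₀ ⟶ pullback ys ys)
    (hρ1 : ρ ≫ pullback.fst ys ys = pullback.fst u₀ u₀ ≫ toY)
    (hρ2 : ρ ≫ pullback.snd ys ys = pullback.snd u₀ u₀ ≫ toY)
    (ψψ : pullback ys ys ⟶ pullback str str)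
    (h1 : ψψ ≫ pullback.fst str str = pullback.fst ys ys ≫ ψ)
    (h2 : ψψ ≫ pullback.snd str str = pullback.snd ys ys ≫ ψ)

include hb hu hρ1 hρ2 h1 h2 in
theorem lemA : ∃ τ : pullback u₀ u₀ ⟶ pullback G.y₀ G.y₀, IsPullback τ ρ G.rho ψψ := by
  have hc : pullback.fst u₀ u₀ ≫ toP ≫ G.y₀ = pullback.snd u₀ u₀ ≫ toP ≫ G.y₀ := by
    rw [hu, pullback.condition]
  let τ : pullback u₀ u₀ ⟶ pullback G.y₀ G.y₀ :=
    pullback.lift (pullback.fst u₀ u₀ ≫ toP) (pullback.snd u₀ u₀ ≫ toP) (by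
      rw [Category.assoc, Category.assoc, hc])
  have t1 : τ ≫ pullback.fst G.y₀ G.y₀ = pullback.fst u₀ u₀ ≫ toP := pullback.lift_fst _ _ _
  have t2 : τ ≫ pullback.snd G.y₀ G.y₀ = pullback.snd u₀ u₀ ≫ toP := pullback.lift_snd _ _ _
  have hw : τ ≫ G.rho = ρ ≫ ψψ := by
    apply pullback.hom_ext
    · rw [Category.assoc, Category.assoc, G.rho_fst, h1, ← Category.assoc, t1, Category.assoc,
        hb.w, ← Category.assoc, ← hρ1, Category.assoc]
    · rw [Category.assoc, Category.assoc, G.rho_snd, h2, ← Category.assoc, t2, Category.assoc,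
        hb.w, ← Category.assoc, ← hρ2, Category.assoc]
  have e1 : ∀ s : PullbackCone G.rho ψψ,
      (s.fst ≫ pullback.fst G.y₀ G.y₀) ≫ G.r₀ = (s.snd ≫ pullback.fst ys ys) ≫ ψ := by
    intro s
    rw [Category.assoc, Category.assoc, ← G.rho_fst, ← h1, ← Category.assoc, s.condition,
      Category.assoc]
  have e2 : ∀ s : PullbackCone G.rho ψψ,
      (s.fst ≫ pullback.snd G.y₀ G.y₀) ≫ G.r₀ = (s.snd ≫ pullback.snd ys ys) ≫ ψ := by
    intro s
    rw [Category.assoc, Category.assoc, ← G.rho_snd, ← h2, ← Category.assoc, s.condition,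
      Category.assoc]
  have e3 : ∀ s : PullbackCone G.rho ψψ,
      hb.lift _ _ (e1 s) ≫ u₀ = hb.lift _ _ (e2 s) ≫ u₀ := by
    intro s
    rw [← hu, ← Category.assoc, ← Category.assoc, hb.lift_fst, hb.lift_fst, Category.assoc,
      Category.assoc, pullback.condition]
  refine ⟨τ, ⟨hw⟩, ⟨PullbackCone.IsLimit.mk _
    (fun s => pullback.lift (hb.lift _ _ (e1 s)) (hb.lift _ _ (e2 s)) (e3 s)) ?_ ?_ ?_⟩⟩
  · intro s
    apply pullback.hom_ext
    · rw [Category.assoc, t1, pullback.lift_fst_assoc, hb.lift_fst]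
    · rw [Category.assoc, t2, pullback.lift_snd_assoc, hb.lift_fst]
  · intro s
    apply pullback.hom_ext
    · rw [Category.assoc, hρ1, pullback.lift_fst_assoc, hb.lift_snd]
    · rw [Category.assoc, hρ2, pullback.lift_snd_assoc, hb.lift_snd]
  · intro s m m1 m2
    apply pullback.hom_ext
    · rw [pullback.lift_fst]
      apply hb.hom_ext
      · rw [hb.lift_fst, Category.assoc, ← t1, ← Category.assoc, m1]
      · rw [hb.lift_snd, Category.assoc, ← hρ1, ← Category.assoc, m2]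
    · rw [pullback.lift_snd]
      apply hb.hom_ext
      · rw [hb.lift_fst, Category.assoc, ← t2, ← Category.assoc, m1]
      · rw [hb.lift_snd, Category.assoc, ← hρ2, ← Category.assoc, m2]

include hb hu hρ1 hρ2 h1 h2 in
theorem lemB : ∃ (s : pullback ρ (pullback.fst ψψ G.incl) ⟶
      pullback (pullback.snd G.q G.incl) (pullback.snd ψψ G.incl))
    (c : pullback ρ (pullback.fst ψψ G.incl) ⟶ pt k₀ F)
    (d : pullback (pullback.snd G.q G.incl) (pullback.snd ψψ G.incl) ⟶ sp k₀ R),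
    s ≫ pullback.snd (pullback.snd G.q G.incl) (pullback.snd ψψ G.incl) =
      pullback.snd ρ (pullback.fst ψψ G.incl) ∧
    IsPullback s c d (spG k₀ R F) := by
  obtain ⟨τ, hτ⟩ := lemA G ys u₀ ψ toP toY hb hu ρ hρ1 hρ2 ψψ h1 h2
  -- `Q₀ = O ×_(P × P) (Y₀ × Y₀)`
  have b1 : IsPullback (pullback.fst ρ (pullback.fst ψψ G.incl) ≫ τ)
      (pullback.snd ρ (pullback.fst ψψ G.incl)) G.rho (pullback.fst ψψ G.incl ≫ ψψ) :=
    (IsPullback.of_hasPullback ρ (pullback.fst ψψ G.incl)).paste_horiz hτ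
  rw [pullback.condition] at b1
  have b2 : IsPullback (pullback.fst G.rho G.incl) (pullback.snd G.rho G.incl) G.rho G.incl :=
    IsPullback.of_hasPullback _ _
  -- the map `Q₀ ⟶ Q`
  let σ : pullback ρ (pullback.fst ψψ G.incl) ⟶ pullback G.rho G.incl :=
    pullback.lift (pullback.fst ρ (pullback.fst ψψ G.incl) ≫ τ)
      (pullback.snd ρ (pullback.fst ψψ G.incl) ≫ pullback.snd ψψ G.incl) (by
        rw [b1.w, Category.assoc])
  have s1 : σ ≫ pullback.fst G.rho G.incl = pullback.fst ρ (pullback.fst ψψ G.incl) ≫ τ :=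
    pullback.lift_fst _ _ _
  have s2 : σ ≫ pullback.snd G.rho G.incl =
      pullback.snd ρ (pullback.fst ψψ G.incl) ≫ pullback.snd ψψ G.incl :=
    pullback.lift_snd _ _ _
  have b3 : IsPullback σ (pullback.snd ρ (pullback.fst ψψ G.incl))
      (pullback.snd G.rho G.incl) (pullback.snd ψψ G.incl) := by
    refine IsPullback.of_right ?_ s2 b2
    rw [s1]
    exact b1
  -- the map `Q₀ ⟶ E`
  let s : pullback ρ (pullback.fst ψψ G.incl) ⟶
      pullback (pullback.snd G.q G.incl) (pullback.snd ψψ G.incl) :=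
    pullback.lift (σ ≫ G.Q₀W₀) (pullback.snd ρ (pullback.fst ψψ G.incl)) (by
      rw [Category.assoc, G.Q₀W₀_snd, s2])
  have s3 : s ≫ pullback.fst (pullback.snd G.q G.incl) (pullback.snd ψψ G.incl) =
      σ ≫ G.Q₀W₀ := pullback.lift_fst _ _ _
  have s4 : s ≫ pullback.snd (pullback.snd G.q G.incl) (pullback.snd ψψ G.incl) =
      pullback.snd ρ (pullback.fst ψψ G.incl) := pullback.lift_snd _ _ _
  have b4 : IsPullback s σ
      (pullback.fst (pullback.snd G.q G.incl) (pullback.snd ψψ G.incl)) G.Q₀W₀ := by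
    refine IsPullback.of_right ?_ s3
      (IsPullback.of_hasPullback (pullback.snd G.q G.incl) (pullback.snd ψψ G.incl)).flip
    rw [s4, G.Q₀W₀_snd]
    exact b3.flip
  exact ⟨s, _, _, s4, b4.paste_vert G.generic_all⟩

end

end NetCHAux

open NetCHAux in
theorem tNetCH (k₀ K : Type) [Field k₀] [Field K] (h : StNetSm k₀) : StNetCH k₀ K := by
  intro T k _ _ _ P D p a ha
  obtain ⟨-, m2, m3, -, m5, m6, -, -, -, -, -, o1, o2, -⟩ := h k P D
  obtain ⟨s, c, d, s1, s2⟩ := lemB P.G D.str D.u₀ D.ψ D.toP D.toY D.isPB rfl D.ρ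
    (pullback.lift_fst _ _ _) (pullback.lift_snd _ _ _) D.ψψ (pullback.lift_fst _ _ _)
    (pullback.lift_snd _ _ _)
  have s3 : IsPullback s.left c.left d.left (spG k₀ P.R P.F).left := s2.map (Over.forget _)
  have b1 : IsPullback
      (pullback.fst (pullback.snd P.G.q P.G.incl) (pullback.snd D.ψψ P.G.incl)).left
      (pullback.snd (pullback.snd P.G.q P.G.incl) (pullback.snd D.ψψ P.G.incl)).left
      (pullback.snd P.G.q P.G.incl).left (pullback.snd D.ψψ P.G.incl).left :=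
    (IsPullback.of_hasPullback (pullback.snd P.G.q P.G.incl)
      (pullback.snd D.ψψ P.G.incl)).map (Over.forget _)
  exact lemC T D.jQ D.ρ s (pullback.snd (pullback.snd P.G.q P.G.incl) (pullback.snd D.ψψ P.G.incl))
    D.incl m6 m5 m3 m2
    (MorphismProperty.of_isPullback (P := @Flat) s3.flip (spG_flat P.R P.F))
    (MorphismProperty.of_isPullback (P := MorphismProperty.monomorphisms _) s3.flip
      (spG_mono P.R P.F))
    (MorphismProperty.of_isPullback (P := @QuasiCompact) s3.flip (spG_qc P.R P.F))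
    (bundle_baseChange b1 P.G.bundle) o1 o2
    (pullback.condition.trans ((congrArg (· ≫ D.incl) s1.symm).trans (Category.assoc _ _ _)))
    p a ha

end Pool.Agent.Lib.MP_4ca46c_ag.Two
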