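import Mathlib
import Pool.Agent.Lib.MP_4ca46c_ag.Two.SpecU
import Pool.Agent.Lib.MP_4ca46c_ag.Two.NetCH

/-!
# Connectedness of the divisors `U` of type `(1, 1)` (`tUConn`)
-/

set_option autoImplicit false

namespace Pool.Agent.Lib.MP_4ca46c_ag.Two

open CategoryTheory Limits AlgebraicGeometry TensorProduct MonoidalCategory
  CartesianMonoidalCategory
open Pool.Agent.Lib.MP_4ca46c_ag.Sign Pool.Agent.Lib.MP_4ca46c_ag.Hyp
open Pool.Agent.Lib.MP_4ca46c_ag.Std Pool.Agent.Lib.MP_4ca46c_ag.Geo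

namespace UConnAux

/-- the coefficients of the equation are the coordinates on the affine space -/
theorem val_toA {k : Type} [Field k] {κ : Type} [Fintype κ] {Z : Scheme.{0}}
    {s : Z ⟶ Spec (CommRingCat.of k)} (C : Coord s κ) {T : Scheme.{0}} (t : T ⟶ C.I) (j : κ) :
    Hyp.val (t ≫ C.toA) (MvPolynomial.X j) = t.appTop (C.vec j) := by
  have h1 : C.toA.appTop (chartiso_fn (MvPolynomial.X j)) = C.vec j := chartiso_m_vec C j
  rw [val_comp]
  exact congrArg (fun y => t.appTop y) h1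

section generic

variable {k : Type} [Field k] {κ : Type} [Fintype κ] (F : Type) [Field F] [Algebra k F]
  [Algebra (MvPolynomial κ k) F] [IsScalarTower k (MvPolynomial κ k) F]

/-- The generic member is the generic fibre of the universal hyperplane section (schemes). -/
theorem genFibre₀ {Z P U E : Scheme.{0}} {σ : P ⟶ Spec (CommRingCat.of k)} (C : Coord σ κ)
    (z : Z ⟶ Spec (CommRingCat.of k)) (φ : Z ⟶ P) (hφ : φ ≫ σ = z)
    (r : U ⟶ Z) (u : U ⟶ Spec (CommRingCat.of F))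
    (hcomm : r ≫ z = u ≫ Spec.map (CommRingCat.ofHom (algebraMap k F)))
    (hmem : C.Van (r ≫ φ)
      (fun j => Hyp.val u (algebraMap (MvPolynomial κ k) F (MvPolynomial.X j))))
    (hlift : ∀ (T : Scheme.{0}) (t : T ⟶ Z) (s : T ⟶ Spec (CommRingCat.of F)),
      t ≫ z = s ≫ Spec.map (CommRingCat.ofHom (algebraMap k F)) →
      C.Van (t ≫ φ)
        (fun j => Hyp.val s (algebraMap (MvPolynomial κ k) F (MvPolynomial.X j))) →
      ∃ t' : T ⟶ U, t' ≫ r = t ∧ t' ≫ u = s)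
    (hext : ∀ (T : Scheme.{0}) (t t' : T ⟶ U), t ≫ r = t' ≫ r → t ≫ u = t' ≫ u → t = t')
    (e₁ : E ⟶ C.I) (e₂ : E ⟶ Z) (hE : IsPullback e₁ e₂ C.toZ φ) :
    ∃ g : U ⟶ E, IsPullback g u (e₁ ≫ C.toA)
      (Spec.map (CommRingCat.ofHom (algebraMap (MvPolynomial κ k) F))) := by
  have hkF : ∀ (T : Scheme.{0}) (s : T ⟶ Spec (CommRingCat.of F)),
      (s ≫ Spec.map (CommRingCat.ofHom (algebraMap (MvPolynomial κ k) F))) ≫
        Spec.map (CommRingCat.ofHom (algebraMap k (MvPolynomial κ k))) =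
      s ≫ Spec.map (CommRingCat.ofHom (algebraMap k F)) := by
    intro T s
    rw [Category.assoc, ← Spec.map_comp, ← CommRingCat.ofHom_comp,
      ← IsScalarTower.algebraMap_eq]
  -- the morphism to the universal section
  obtain ⟨v, hv1, hv2⟩ : ∃ v : U ⟶ C.I, v ≫ C.toZ = r ≫ φ ∧ ∀ j, v.appTop (C.vec j) =
      Hyp.val u (algebraMap (MvPolynomial κ k) F (MvPolynomial.X j)) :=
    ⟨C.lift (r ≫ φ) _ hmem, C.lift_toZ _ _ _, fun j => C.lift_vec _ _ _ j⟩
  have hv3 : v ≫ C.toA =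
      u ≫ Spec.map (CommRingCat.ofHom (algebraMap (MvPolynomial κ k) F)) := by
    refine chartiso_ext _ _ ?_ fun j => ?_
    · rw [Category.assoc, Coord.toA_str, ← Category.assoc, hv1, Category.assoc, hφ, hcomm, hkF]
    · have a1 := val_toA C v j
      have a2 := val_map u (algebraMap (MvPolynomial κ k) F)
      have a3 := DFunLike.congr_fun a2 (MvPolynomial.X j)
      exact a1.trans ((hv2 j).trans a3.symm)
  have hw : hE.lift v r hv1 ≫ e₁ ≫ C.toA =
      u ≫ Spec.map (CommRingCat.ofHom (algebraMap (MvPolynomial κ k) F)) := by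
    rw [← Category.assoc, hE.lift_fst, hv3]
  have key : ∀ c : PullbackCone (e₁ ≫ C.toA)
      (Spec.map (CommRingCat.ofHom (algebraMap (MvPolynomial κ k) F))),
      ∃ l : c.pt ⟶ U, l ≫ r = c.fst ≫ e₂ ∧ l ≫ u = c.snd := by
    intro c
    have hc := c.condition
    refine hlift _ _ _ ?_ ?_
    · rw [← hkF, ← hc, ← hφ, Category.assoc, ← Category.assoc e₂ φ σ, ← hE.w]
      simp only [Category.assoc]
      rw [Coord.toA_str]
    · have h1 := C.van (c.fst ≫ e₁)
      have h2 : (c.fst ≫ e₁) ≫ C.toZ = (c.fst ≫ e₂) ≫ φ := by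
        rw [Category.assoc, hE.w, Category.assoc]
      have h3 : (fun j => (c.fst ≫ e₁).appTop (C.vec j)) = fun j => Hyp.val c.snd
          (algebraMap (MvPolynomial κ k) F (MvPolynomial.X j)) := by
        funext j
        rw [← val_toA C (c.fst ≫ e₁) j, Category.assoc, hc, val_map]
        rfl
      rw [h2, h3] at h1
      exact h1
  refine ⟨hE.lift v r hv1, ⟨⟨hw⟩, ⟨PullbackCone.IsLimit.mk _
    (fun c => (key c).choose) (fun c => ?_) (fun c => (key c).choose_spec.2)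
      (fun c m m1 m2 => ?_)⟩⟩⟩
  · obtain ⟨l1, l2⟩ := (key c).choose_spec
    have e3 : ((key c).choose ≫ hE.lift v r hv1) ≫ e₂ = c.fst ≫ e₂ := by
      rw [Category.assoc, hE.lift_snd, l1]
    refine hE.hom_ext ?_ e3
    refine C.toA_ext ?_ ?_
    · rw [Category.assoc _ e₁ C.toZ, Category.assoc _ e₁ C.toZ, hE.w, ← Category.assoc, e3,
        Category.assoc]
    · rw [Category.assoc, Category.assoc, Category.assoc, hw, ← Category.assoc, l2, ← c.condition]
  · obtain ⟨l1, l2⟩ := (key c).choose_spec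
    refine hext _ _ _ ?_ (m2.trans l2.symm)
    rw [l1, ← m1, Category.assoc, hE.lift_snd]

end generic

variable {k₀ k : Type} [Field k₀] [Field k] [Algebra k₀ k]

/-- The generic member is the generic fibre of the universal hyperplane section. -/
theorem genFibre {κ : Type} [Fintype κ] (F : Type) [Field F] [Algebra k₀ F] [Algebra k F]
    [IsScalarTower k₀ k F] [Algebra (MvPolynomial κ k) F]
    [IsScalarTower k (MvPolynomial κ k) F] {Z : Sch k₀} (z : Z ⟶ pt k₀ k)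
    (φ : Z ⟶ PSo k₀ k κ) (hφ : φ ≫ PSo.str k₀ k κ = z) {U : Sch k₀} (r : U ⟶ Z)
    (u : U ⟶ pt k₀ F)
    (hU : IsMem z φ (fun j : κ => algebraMap (MvPolynomial κ k) F (MvPolynomial.X j)) r u)
    {E : Scheme.{0}} (e₁ : E ⟶ (psCoord k κ).I) (e₂ : E ⟶ Z.left)
    (hE : IsPullback e₁ e₂ (psCoord k κ).toZ (φ.left : Z.left ⟶ PS k κ)) :
    ∃ g : U.left ⟶ E, IsPullback g (u.left : U.left ⟶ Spec (CommRingCat.of F))
      (e₁ ≫ (psCoord k κ).toA)
      (Spec.map (CommRingCat.ofHom (algebraMap (MvPolynomial κ k) F))) := by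
  refine genFibre₀ F (psCoord k κ) z.left φ.left (congrArg CommaMorphism.left hφ) r.left u.left
    (congrArg CommaMorphism.left hU.comm) hU.mem (fun T t s h1 h2 => ?_)
    (fun T t t' h1 h2 => ?_) e₁ e₂ hE
  · -- the structure of a scheme over `k₀`
    let T₀ : Sch k₀ := Over.mk (t ≫ Z.hom)
    let t₀ : T₀ ⟶ Z := Over.homMk t rfl
    have hs : s ≫ (pt k₀ F).hom = t ≫ Z.hom := by
      have e1 : z.left ≫ (pt k₀ k).hom = Z.hom := Over.w z
      have e2 : (ptMap k₀ (IsScalarTower.toAlgHom k₀ k F)).left ≫ (pt k₀ k).hom =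
        (pt k₀ F).hom := Over.w _
      rw [← e1, ← e2]
      exact (Category.assoc _ _ _).symm.trans
        ((congrArg (fun y => y ≫ (pt k₀ k).hom) h1.symm).trans (Category.assoc _ _ _))
    let s₀ : T₀ ⟶ pt k₀ F := Over.homMk s hs
    obtain ⟨t', a1, a2⟩ := hU.lift T₀ t₀ s₀ (Over.OverMorphism.ext h1) h2
    exact ⟨t'.left, congrArg CommaMorphism.left a1, congrArg CommaMorphism.left a2⟩
  · let T₀ : Sch k₀ := Over.mk (t ≫ U.hom)
    have hr : r.left ≫ Z.hom = U.hom := Over.w r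
    let t₀ : T₀ ⟶ U := Over.homMk t rfl
    let t₁ : T₀ ⟶ U := Over.homMk t' (by
      change t' ≫ U.hom = t ≫ U.hom
      rw [← hr, ← Category.assoc, ← Category.assoc, h1])
    exact congrArg CommaMorphism.left (hU.ext T₀ t₀ t₁ (Over.OverMorphism.ext h1)
      (Over.OverMorphism.ext h2))

theorem van_congr {Z T : Scheme.{0}} {κ : Type} [Fintype κ] {C : PreCoord Z κ} {z z' : T ⟶ Z}
    {a a' : κ → Γ(T, ⊤)} (h : C.Van z a) (h1 : z = z') (h2 : a = a') : C.Van z' a' := by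
  subst h1 h2
  exact h

/-- `det3` of the generic vector is not zero. -/
theorem det3_generic (F : Type) [Field F] [Algebra (MvPolynomial (Fin 3) k) F]
    [IsFractionRing (MvPolynomial (Fin 3) k) F] :
    det3 (fun j : Fin 3 => algebraMap (MvPolynomial (Fin 3) k) F (MvPolynomial.X j)) ≠ 0 := by
  have h1 : det3 (fun j : Fin 3 => algebraMap (MvPolynomial (Fin 3) k) F (MvPolynomial.X j)) =
      algebraMap (MvPolynomial (Fin 3) k) F (MvPolynomial.X 0 * MvPolynomial.X 1 +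
        MvPolynomial.X 0 * MvPolynomial.X 2 + MvPolynomial.X 1 * MvPolynomial.X 2) := by
    simp only [det3, map_add, map_mul]
  rw [h1]
  intro h2
  have h3 := (IsFractionRing.injective (MvPolynomial (Fin 3) k) F)
    (h2.trans (map_zero _).symm)
  have h4 := congrArg (MvPolynomial.eval (fun j : Fin 3 => if j = 2 then (0 : k) else 1)) h3
  simp at h4

/-- Connectedness of the generic member, for any model of the function field. -/
theorem connAux (h1 : StMemEx) (h2 : StGraph) (h3 : StGeomUp) [IsAlgClosed k] (Φ : Fib k₀ k)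
    (ψ₀ : PP k₀ k ⟶ PSo k₀ k (Fin 3)) (hψ : IsPsi ψ₀) (F : Type) [Field F] [Algebra k₀ F]
    [Algebra k F] [IsScalarTower k₀ k F] [Algebra (MvPolynomial (Fin 3) k) F]
    [IsScalarTower k (MvPolynomial (Fin 3) k) F] [IsFractionRing (MvPolynomial (Fin 3) k) F]
    (U : Sch k₀) (r : U ⟶ Φ.Y) (u : U ⟶ pt k₀ F) (hU : IsMem Φ.y (Φ.ff ≫ ψ₀)
      (fun j : Fin 3 => algebraMap (MvPolynomial (Fin 3) k) F (MvPolynomial.X j)) r u) :
    GeometricallyConnected u.left := by
  have hz : (Φ.ff ≫ ψ₀) ≫ PSo.str k₀ k (Fin 3) = Φ.y := by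
    rw [Category.assoc, hψ.1, ← Category.assoc, Fib.ff, pullback.lift_fst, Category.assoc,
      Φ.f_str]
  -- the universal section is irreducible
  have hY : IrreducibleSpace Φ.Y.left :=
    isVar_irreducible fStalk tIrr (Var.isVar_prod Φ.V.isVar Φ.V.isVar)
  have hb := NetCHAux.bundle_baseChange (IsPullback.of_hasPullback
    (psCoord k (Fin 3)).toZ ((Φ.ff ≫ ψ₀).left : Φ.Y.left ⟶ PS k (Fin 3)))
    (psCoord k (Fin 3)).toZ_bundle
  have hirr := tBundleIrr _ _ _ hb hY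
  obtain ⟨g, hg⟩ := genFibre F Φ.y (Φ.ff ≫ ψ₀) hz r u hU _ _
    (IsPullback.of_hasPullback _ _)
  have hpre : PreirreducibleSpace U.left :=
    tGenIrr (MvPolynomial (Fin 3) k) F _ _ _ _ _ hg hirr
  -- the curve `C`
  have hdet := det3_generic (k := k) F
  obtain ⟨C, rC, uC, hC⟩ := h1 k₀ k (Fin 3) F (PP k₀ k)
    (pr₁ k₀ k ≫ PSo.str k₀ k (Fin 2)) ψ₀ hψ.1
    (fun j : Fin 3 => algebraMap (MvPolynomial (Fin 3) k) F (MvPolynomial.X j))
  obtain ⟨hP1, -⟩ := h2 k₀ k ψ₀ hψ F _ hdet C rC uC hC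
  -- a rational point of `W`
  obtain ⟨p, hp⟩ := Φ.V.isVar.exists_point
  have hp2 : (ptMap k₀ (IsScalarTower.toAlgHom k₀ k F) ≫ p ≫ Φ.f) ≫
      PSo.str k₀ k (Fin 2) = 𝟙 _ ≫ ptMap k₀ (IsScalarTower.toAlgHom k₀ k F) := by
    rw [Category.assoc, Category.assoc, Φ.f_str, hp, Category.comp_id, Category.id_comp]
  obtain ⟨e, he1, he2⟩ : ∃ e : pt k₀ F ⟶ C, e ≫ rC ≫ pr₁ k₀ k =
      ptMap k₀ (IsScalarTower.toAlgHom k₀ k F) ≫ p ≫ Φ.f ∧ e ≫ uC = 𝟙 _ :=
    ⟨hP1.lift _ _ hp2, hP1.lift_fst _ _ _, hP1.lift_snd _ _ _⟩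
  have hσ : Φ.σ ≫ Φ.V.str = PSo.str k₀ k (Fin 2) := by
    rw [← Φ.f_str, ← Category.assoc, Φ.σ_f, Category.id_comp]
  have hw : (ptMap k₀ (IsScalarTower.toAlgHom k₀ k F) ≫ p) ≫ Φ.V.str =
      (e ≫ rC ≫ pr₂ k₀ k ≫ Φ.σ) ≫ Φ.V.str := by
    have e1 : pr₂ k₀ k ≫ PSo.str k₀ k (Fin 2) = pr₁ k₀ k ≫ PSo.str k₀ k (Fin 2) :=
      pullback.condition.symm
    have e2 : (e ≫ rC ≫ pr₂ k₀ k ≫ Φ.σ) ≫ Φ.V.str =
        e ≫ (rC ≫ pr₁ k₀ k) ≫ PSo.str k₀ k (Fin 2) := by
      simp only [Category.assoc]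
      rw [hσ, e1]
    rw [e2, hP1.w, ← Category.assoc, he2, Category.assoc, hp, Category.comp_id,
      Category.id_comp]
  obtain ⟨w, hw1, hw2⟩ : ∃ w : pt k₀ F ⟶ Φ.Y, w ≫ pullback.fst _ _ =
      ptMap k₀ (IsScalarTower.toAlgHom k₀ k F) ≫ p ∧ w ≫ pullback.snd _ _ =
      e ≫ rC ≫ pr₂ k₀ k ≫ Φ.σ :=
    ⟨pullback.lift _ _ hw, pullback.lift_fst _ _ _, pullback.lift_snd _ _ _⟩
  have hw3 : w ≫ Φ.ff = e ≫ rC := by
    apply pullback.hom_ext
    · rw [Category.assoc, Category.assoc, Fib.ff, pullback.lift_fst, ← Category.assoc, hw1,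
        Category.assoc]
      exact he1.symm
    · rw [Category.assoc, Category.assoc, Fib.ff, pullback.lift_snd, ← Category.assoc, hw2]
      simp only [Category.assoc]
      rw [Φ.σ_f, Category.comp_id]
  have hw4 : w ≫ Φ.y = 𝟙 _ ≫ ptMap k₀ (IsScalarTower.toAlgHom k₀ k F) := by
    rw [← Category.assoc, hw1, Category.assoc, hp, Category.comp_id, Category.id_comp]
  have hwm : Mem (Φ.ff ≫ ψ₀) (fun j : Fin 3 =>
      algebraMap (MvPolynomial (Fin 3) k) F (MvPolynomial.X j)) w (𝟙 _) := by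
    have a1 := PreCoord.Van.comp (psCoord k (Fin 3)).toPreCoord
      (e.left : (pt k₀ F).left ⟶ C.left) hC.mem
    have a2 : (e.left : (pt k₀ F).left ⟶ C.left) ≫ ((rC ≫ ψ₀).left : C.left ⟶ PS k (Fin 3)) =
        ((w ≫ Φ.ff ≫ ψ₀).left : (pt k₀ F).left ⟶ PS k (Fin 3)) := by
      rw [← Category.assoc w, hw3, Category.assoc]
      rfl
    have a3 : (fun j : Fin 3 => e.left.appTop (Hyp.val (uC.left : C.left ⟶
        Spec (CommRingCat.of F)) (algebraMap (MvPolynomial (Fin 3) k) F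
          (MvPolynomial.X j)))) = fun j : Fin 3 => Hyp.val ((𝟙 (pt k₀ F) :
            pt k₀ F ⟶ pt k₀ F).left : (pt k₀ F).left ⟶ Spec (CommRingCat.of F))
              (algebraMap (MvPolynomial (Fin 3) k) F (MvPolynomial.X j)) := by
      funext j
      rw [← he2]
      have a4 := val_comp e.left (uC.left : C.left ⟶ Spec (CommRingCat.of F))
      exact (DFunLike.congr_fun a4 _).symm
    exact van_congr a1 a2 a3
  obtain ⟨s, -, hs⟩ := hU.lift _ w (𝟙 _) hw4 hwm
  -- `U` is connected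
  have hne : Nonempty U.left := by
    have hn : Nonempty (pt k₀ F).left := inferInstanceAs (Nonempty (Spec (CommRingCat.of F)))
    exact ⟨s.left hn.some⟩
  have hcon : ConnectedSpace U.left := by
    have : IrreducibleSpace U.left := { toPreirreducibleSpace := hpre, toNonempty := hne }
    infer_instance
  have hs2 : (s.left : Spec (CommRingCat.of F) ⟶ U.left) ≫
      (u.left : U.left ⟶ Spec (CommRingCat.of F)) = 𝟙 _ := congrArg CommaMorphism.left hs
  have hP := IsPullback.of_hasPullback (u.left : U.left ⟶ Spec (CommRingCat.of F))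
    (Spec.map (CommRingCat.ofHom (algebraMap F (AlgebraicClosure F))))
  exact h3 F (AlgebraicClosure F) _ _ u.left _ _ hP
    (tRatPt F (AlgebraicClosure F) _ _ u.left _ _ s.left hs2 hP hcon)

end UConnAux

open UConnAux in
/-- **Connectedness of `U`** for the generic vector. -/
theorem tUConn (h1 : StMemEx) (h2 : StGraph) (h3 : StGeomUp) : StUConn := by
  intro k₀ k _ _ _ _ Φ ψ₀ hψ U r u hU
  exact @connAux k₀ k _ _ _ h1 h2 h3 _ Φ ψ₀ hψ (P2 k₀ k).F _ _ _ _
    (inferInstance : Algebra (P2 k₀ k).R (P2 k₀ k).F)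
    (inferInstance : IsScalarTower k (P2 k₀ k).R (P2 k₀ k).F)
    (inferInstance : IsFractionRing (P2 k₀ k).R (P2 k₀ k).F) U r u hU

end Pool.Agent.Lib.MP_4ca46c_ag.Two
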