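import Mathlib
import Pool.Agent.Lib.MP_4ca46c_ag.Two.UConn
import Pool.Agent.Lib.MP_4ca46c_ag.Two.Desc
import Pool.Agent.Lib.MP_4ca46c_ag.Two.MemBC
import Pool.Agent.Lib.MP_4ca46c_ag.Two.KunU

/-!
# The conjecture of Künneth type for `W` follows from the one for `U`

The first projection `U ⟶ W` has a section, over the field of definition of `U`.
-/

set_option autoImplicit false

namespace Pool.Agent.Lib.MP_4ca46c_ag.Two

open CategoryTheory Limits AlgebraicGeometry TensorProduct MonoidalCategory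
  CartesianMonoidalCategory
open Pool.Agent.Lib.MP_4ca46c_ag.Sign Pool.Agent.Lib.MP_4ca46c_ag.Hyp
open Pool.Agent.Lib.MP_4ca46c_ag.Std Pool.Agent.Lib.MP_4ca46c_ag.Geo

namespace RetrAux

universe v u w

/-- The conjecture of Künneth type is inherited by retracts. -/
theorem retract {K : Type w} [Field K] [CharZero K] {𝒱 : Type u} [Category.{v} 𝒱]
    [CartesianMonoidalCategory 𝒱] (W : WeilCohomology K 𝒱) {U Z : 𝒱} (s : Z ⟶ U) (p : U ⟶ Z)
    (h : s ≫ p = 𝟙 Z) (hU : W.Kunneth U) : W.Kunneth Z := by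
  rw [W.kunneth_iff] at hU ⊢
  intro i
  have h1 := W.cor_comp (W.cor_pull s) (W.cor_comp (hU i) (W.cor_pull p))
  have h2 : (W.pull s).toLinearMap ∘ₗ W.pi U i ∘ₗ (W.pull p).toLinearMap = W.pi Z i := by
    refine W.hom_ext fun l x hx => ?_
    change W.pull s (W.pi U i (W.pull p x)) = W.pi Z i x
    by_cases hl : l = i
    · subst hl
      rw [W.pi_same hx, W.pi_same (W.pull_gr p hx), ← W.pull_comp, h, W.pull_id]
    · rw [W.pi_ne hx hl, W.pi_ne (W.pull_gr p hx) hl, map_zero]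
  rw [h2] at h1
  simpa only [add_zero] using h1

section geo

variable {k₀ k : Type} [Field k₀] [Field k] [Algebra k₀ k]

/-- The first projection of a member of the net has a section. -/
theorem section_exists (h1 : StMemEx) (h2 : StGraph) (Φ : Fib k₀ k)
    (ψ₀ : PP k₀ k ⟶ PSo k₀ k (Fin 3)) (hψ : IsPsi ψ₀) (M : Type) [Field M] [Algebra k₀ M]
    [Algebra k M] [IsScalarTower k₀ k M] (a : Fin 3 → M) (hdet : det3 a ≠ 0)
    {U : Sch k₀} {r : U ⟶ Φ.Y} {u : U ⟶ pt k₀ M} (hU : IsMem Φ.y (Φ.ff ≫ ψ₀) a r u)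
    {X' : Sch k₀} {x' : X' ⟶ pt k₀ M} {g : X' ⟶ Φ.V.X}
    (hg : IsPullback g x' Φ.V.str (ptMap k₀ (IsScalarTower.toAlgHom k₀ k M))) :
    ∃ (s : X' ⟶ U) (p : U ⟶ X'), s ≫ p = 𝟙 X' ∧ s ≫ u = x' ∧ p ≫ x' = u ∧
      p ≫ g = r ≫ pullback.fst _ _ := by
  -- the curve `C`
  obtain ⟨C, rC, uC, hC⟩ := h1 k₀ k (Fin 3) M (PP k₀ k)
    (pr₁ k₀ k ≫ PSo.str k₀ k (Fin 2)) ψ₀ hψ.1 a
  obtain ⟨hP1, -⟩ := h2 k₀ k ψ₀ hψ M a hdet C rC uC hC
  have hc : (g ≫ Φ.f) ≫ PSo.str k₀ k (Fin 2) =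
      x' ≫ ptMap k₀ (IsScalarTower.toAlgHom k₀ k M) := by
    rw [Category.assoc, Φ.f_str, hg.w]
  obtain ⟨c, hc1, hc2⟩ : ∃ c : X' ⟶ C, c ≫ rC ≫ pr₁ k₀ k = g ≫ Φ.f ∧ c ≫ uC = x' :=
    ⟨hP1.lift _ _ hc, hP1.lift_fst _ _ _, hP1.lift_snd _ _ _⟩
  have hσ : Φ.σ ≫ Φ.V.str = PSo.str k₀ k (Fin 2) := by
    rw [← Φ.f_str, ← Category.assoc, Φ.σ_f, Category.id_comp]
  have hw : g ≫ Φ.V.str = (c ≫ rC ≫ pr₂ k₀ k ≫ Φ.σ) ≫ Φ.V.str := by
    have e1 : pr₂ k₀ k ≫ PSo.str k₀ k (Fin 2) = pr₁ k₀ k ≫ PSo.str k₀ k (Fin 2) :=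
      pullback.condition.symm
    have e2 : (c ≫ rC ≫ pr₂ k₀ k ≫ Φ.σ) ≫ Φ.V.str =
        (c ≫ rC ≫ pr₁ k₀ k) ≫ PSo.str k₀ k (Fin 2) := by
      simp only [Category.assoc]
      rw [hσ, e1]
    rw [e2, hc1, Category.assoc, Φ.f_str]
  obtain ⟨t, ht1, ht2⟩ : ∃ t : X' ⟶ Φ.Y, t ≫ pullback.fst _ _ = g ∧
      t ≫ pullback.snd _ _ = c ≫ rC ≫ pr₂ k₀ k ≫ Φ.σ :=
    ⟨pullback.lift _ _ hw, pullback.lift_fst _ _ _, pullback.lift_snd _ _ _⟩
  have ht3 : t ≫ Φ.ff = c ≫ rC := by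
    apply pullback.hom_ext
    · rw [Category.assoc, Category.assoc, Fib.ff, pullback.lift_fst, ← Category.assoc, ht1]
      exact hc1.symm
    · rw [Category.assoc, Category.assoc, Fib.ff, pullback.lift_snd, ← Category.assoc, ht2]
      simp only [Category.assoc]
      rw [Φ.σ_f, Category.comp_id]
  have ht4 : t ≫ Φ.y = x' ≫ ptMap k₀ (IsScalarTower.toAlgHom k₀ k M) := by
    rw [← Category.assoc, ht1, hg.w]
  have htm : Mem (Φ.ff ≫ ψ₀) a t x' := by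
    have a1 := PreCoord.Van.comp (psCoord k (Fin 3)).toPreCoord
      (c.left : X'.left ⟶ C.left) hC.mem
    have a2 : (c.left : X'.left ⟶ C.left) ≫ ((rC ≫ ψ₀).left : C.left ⟶ PS k (Fin 3)) =
        ((t ≫ Φ.ff ≫ ψ₀).left : X'.left ⟶ PS k (Fin 3)) := by
      rw [← Category.assoc t, ht3, Category.assoc]
      rfl
    have a3 : (fun j : Fin 3 => c.left.appTop (Hyp.val (uC.left : C.left ⟶
        Spec (CommRingCat.of M)) (a j))) = fun j : Fin 3 => Hyp.val (x'.left : X'.left ⟶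
          Spec (CommRingCat.of M)) (a j) := by
      funext j
      rw [← hc2]
      have a4 := val_comp c.left (uC.left : C.left ⟶ Spec (CommRingCat.of M))
      exact (DFunLike.congr_fun a4 _).symm
    exact UConnAux.van_congr a1 a2 a3
  obtain ⟨s, hs1, hs2⟩ := hU.lift _ t x' ht4 htm
  have hp : (r ≫ pullback.fst _ _) ≫ Φ.V.str =
      u ≫ ptMap k₀ (IsScalarTower.toAlgHom k₀ k M) := by
    rw [Category.assoc]
    exact hU.comm
  obtain ⟨p, hp1, hp2⟩ : ∃ p : U ⟶ X', p ≫ g = r ≫ pullback.fst _ _ ∧ p ≫ x' = u :=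
    ⟨hg.lift _ _ hp, hg.lift_fst _ _ _, hg.lift_snd _ _ _⟩
  refine ⟨s, p, hg.hom_ext ?_ ?_, hs2, hp2, hp1⟩
  · rw [Category.assoc, hp1, ← Category.assoc, hs1, ht1, Category.id_comp]
  · rw [Category.assoc, hp2, hs2, Category.id_comp]

end geo

section desc

variable {k₀ K : Type} [Field k₀] [Field K] [CharZero K] {T : WeilTheory k₀ K} (E : Extra T)
  {k L : Type} [Field k] [Algebra k₀ k] [IsAlgClosed k] [Field L] [Algebra k₀ L] [IsAlgClosed L]
  [Algebra k L] [IsScalarTower k₀ k L]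

include E in
/-- Descent of the conjecture of Künneth type. -/
theorem desc_kunneth (H : AlgDesc T k L) {X : Var k₀ k} {X' : Var k₀ L} {g : X'.X ⟶ X.X}
    (hd : X'.dim = X.dim)
    (hg : IsPullback g X'.str X.str (ptMap k₀ (IsScalarTower.toAlgHom k₀ k L)))
    (hK : (weil T L).Kunneth X') : (weil T k).Kunneth X := by
  obtain ⟨-, ⟨inj, -⟩, -⟩ := Div.tBC k₀ K T E k L X X' g hd hg
  rw [(weil T L).kunneth_iff] at hK
  rw [(weil T k).kunneth_iff]
  intro i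
  obtain ⟨f₀, hf₀, h⟩ := desc_cor E H hd hg 0 _ (hK i)
  have h2 : f₀ = (weil T k).pi X i := by
    refine (weil T k).hom_ext fun l x hx => inj ?_
    rw [← h x]
    have hx' : (T.pullH g x : T.H X'.X) ∈ (weil T L).gr X' l :=
      T.pullH_mem g X'.isVar.isWeil X.isVar.isWeil l x hx
    by_cases hl : l = i
    · subst hl
      rw [(weil T k).pi_same hx]
      exact (weil T L).pi_same hx'
    · rw [(weil T k).pi_ne hx hl]
      exact ((weil T L).pi_ne hx' hl).trans (map_zero (T.pullH g)).symm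
  rw [← h2]
  exact hf₀

end desc

end RetrAux

open RetrAux KunUAux in
/-- The conjecture of Künneth type for the member of the net over `k(b, c)` implies the one for
the total space of the fibration. -/
theorem kunneth_of_member {k₀ K : Type} [Field k₀] [Field K] [CharZero K] (h1 : StMemEx)
    (h2 : StGraph) (T : WeilTheory k₀ K) (E : Extra T) (k : Type) [Field k] [Algebra k₀ k]
    [IsAlgClosed k] (Φ : Fib k₀ k) (ψ₀ : PP k₀ k ⟶ PSo k₀ k (Fin 3)) (hψ : IsPsi ψ₀)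
    (a : Fin 3 → M k) (hdet : det3 a ≠ 0) (U : Var k₀ (M k)) (r : U.X ⟶ Φ.Y)
    (hU : IsMem Φ.y (Φ.ff ≫ ψ₀) a r U.str) (hK : (weil T (M k)).Kunneth U) :
    (weil T k).Kunneth Φ.VV := by
  have hg := IsPullback.of_hasPullback Φ.V.str
    (ptMap k₀ (IsScalarTower.toAlgHom k₀ k (M k)))
  have vX : IsVar (pullback.snd Φ.V.str (ptMap k₀ (IsScalarTower.toAlgHom k₀ k (M k)))) Φ.V.n :=
    genclass_var hg Φ.V.isVar
  let X' : Var k₀ (M k) := ⟨_, _, _, vX⟩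
  obtain ⟨s, p, hsp, hs, hp, -⟩ := section_exists h1 h2 Φ ψ₀ hψ (M k) a hdet hU hg
  have hA : AlgDesc T k (M k) := desc_alg E (Fin 2) (Q k)
  refine desc_kunneth E hA (X' := X') rfl hg ?_
  exact retract (weil T (M k)) (U := U) (Z := X') (Var.Hom.mk s hs) (Var.Hom.mk p hp)
    (Var.Hom.ext hsp) hK

end Pool.Agent.Lib.MP_4ca46c_ag.Two
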