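import Mathlib
import Pool.Agent.Lib.MP_4ca46c_ag.Two.SpecU

/-!
# Two parameters: the net on `W × W`
-/

namespace Pool.Agent.Lib.MP_4ca46c_ag.Two

open CategoryTheory Limits AlgebraicGeometry TensorProduct MonoidalCategory
  CartesianMonoidalCategory
open Pool.Agent.Lib.MP_4ca46c_ag.Sign Pool.Agent.Lib.MP_4ca46c_ag.Hyp
open Pool.Agent.Lib.MP_4ca46c_ag.Std Pool.Agent.Lib.MP_4ca46c_ag.Geo

namespace NetWWAux

/-- the generic vector -/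
noncomputable def gv (k₀ k : Type) [Field k₀] [Field k] [Algebra k₀ k] (j : Fin 3) :
    (P2 k₀ k).F := algebraMap (P2 k₀ k).R (P2 k₀ k).F (MvPolynomial.X j)

theorem gv_li (k₀ k : Type) [Field k₀] [Field k] [Algebra k₀ k] :
    LinearIndependent k (gv k₀ k) := by
  have h1 : LinearIndependent k (fun j : Fin 3 => (MvPolynomial.X j : MvPolynomial (Fin 3) k)) :=
    MvPolynomial.linearIndependent_X (Fin 3) k
  have h2 : Function.Injective (IsScalarTower.toAlgHom k (MvPolynomial (Fin 3) k)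
      (FractionRing (MvPolynomial (Fin 3) k))).toLinearMap :=
    IsFractionRing.injective (MvPolynomial (Fin 3) k) (FractionRing (MvPolynomial (Fin 3) k))
  exact h1.map' _ (LinearMap.ker_eq_bot.2 h2)

theorem gv_det (k₀ k : Type) [Field k₀] [Field k] [Algebra k₀ k] : det3 (gv k₀ k) ≠ 0 := by
  have h1 : (MvPolynomial.X 0 * MvPolynomial.X 1 + MvPolynomial.X 0 * MvPolynomial.X 2 +
      MvPolynomial.X 1 * MvPolynomial.X 2 : MvPolynomial (Fin 3) k) ≠ 0 := by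
    intro h
    have h2 := congrArg (MvPolynomial.eval (![1, 1, 0] : Fin 3 → k)) h
    simp at h2
  have h3 : det3 (gv k₀ k) = algebraMap (MvPolynomial (Fin 3) k)
      (FractionRing (MvPolynomial (Fin 3) k)) (MvPolynomial.X 0 * MvPolynomial.X 1 +
        MvPolynomial.X 0 * MvPolynomial.X 2 + MvPolynomial.X 1 * MvPolynomial.X 2) := by
    rw [map_add, map_add, map_mul, map_mul, map_mul]
    rfl
  rw [h3]
  intro h
  have h4 := IsFractionRing.injective (MvPolynomial (Fin 3) k)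
    (FractionRing (MvPolynomial (Fin 3) k))
  exact h1 (h4 (h.trans (map_zero _).symm))

section

variable {k₀ k : Type} [Field k₀] [Field k] [Algebra k₀ k] (Φ : Fib k₀ k)

theorem ff_fst : Φ.ff ≫ pr₁ k₀ k = pullback.fst Φ.V.str Φ.V.str ≫ Φ.f := pullback.lift_fst _ _ _

theorem ff_snd : Φ.ff ≫ pr₂ k₀ k = pullback.snd Φ.V.str Φ.V.str ≫ Φ.f := pullback.lift_snd _ _ _

theorem psi_str {ψ₀ : PP k₀ k ⟶ PSo k₀ k (Fin 3)} (h : IsPsi ψ₀) :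
    (Φ.ff ≫ ψ₀) ≫ PSo.str k₀ k (Fin 3) = Φ.y := by
  rw [Category.assoc, h.1, ← Category.assoc, ff_fst, Category.assoc, Φ.f_str]

theorem p1_var : IsVar (PSo.str k₀ k (Fin 2)) 1 := pso_var k₀ k (Fin 2) 1 (by simp)

theorem pp_var : IsVar (pr₁ k₀ k ≫ PSo.str k₀ k (Fin 2)) (1 + 1) := Var.isVar_prod p1_var p1_var

theorem y_var : IsVar Φ.y (Φ.V.n + Φ.V.n) := Var.isVar_prod Φ.V.isVar Φ.V.isVar

end

theorem class_eq {k₀ K : Type} [Field k₀] [Field K] [CharZero K] (h6 : StPsiCls k₀ K)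
    (T : WeilTheory k₀ K) (hT : Extra T) {k : Type} [Field k] [Algebra k₀ k] [IsAlgClosed k]
    (Φ : Fib k₀ k) (ψ₀ : PP k₀ k ⟶ PSo k₀ k (Fin 3)) (hψ : IsPsi ψ₀) :
    T.cl Φ.Y (T.pull (Φ.ff ≫ ψ₀) ((P2 k₀ k).h T)) =
    (weil T k).tm (X := Φ.VV) (Y := Φ.VV) (Φ.η T) 1 +
      (weil T k).tm (X := Φ.VV) (Y := Φ.VV) 1 (Φ.η T) := by
  have w3 : IsVar (PSo.str k₀ k (Fin 3)) 2 := pso_var k₀ k (Fin 3) 2 (by simp)
  have e1 : (P2 k₀ k).h T = hypClass T k (0 : Fin 3) := T.pull_id w3.sm _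
  have hY := y_var Φ
  have hPP := pp_var (k₀ := k₀) (k := k)
  have hP := p1_var (k₀ := k₀) (k := k)
  rw [e1, T.pull_comp _ _ hY.sm hPP.sm w3.sm, T.cl_pull _ hY.isWeil hPP.isWeil,
    h6 T hT k ψ₀ hψ, map_add, ← T.pullH_comp _ _ hY.isWeil hPP.isWeil hP.isWeil,
    ← T.pullH_comp _ _ hY.isWeil hPP.isWeil hP.isWeil, ff_fst, ff_snd,
    T.pullH_comp _ _ hY.isWeil Φ.V.isVar.isWeil hP.isWeil,
    T.pullH_comp _ _ hY.isWeil Φ.V.isVar.isWeil hP.isWeil]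
  have e2 : T.pullH Φ.f (T.cl (P1 k₀ k) (hypClass T k (0 : Fin 2))) = Φ.η T :=
    (T.cl_pull Φ.f Φ.V.isVar.isWeil hP.isWeil _).symm
  rw [e2]
  have e3 : (weil T k).tm (X := Φ.VV) (Y := Φ.VV) (Φ.η T) 1 =
      T.pullH (pullback.fst Φ.V.str Φ.V.str) (Φ.η T) *
        T.pullH (pullback.snd Φ.V.str Φ.V.str) 1 := rfl
  have e4 : (weil T k).tm (X := Φ.VV) (Y := Φ.VV) 1 (Φ.η T) =
      T.pullH (pullback.fst Φ.V.str Φ.V.str) 1 *
        T.pullH (pullback.snd Φ.V.str Φ.V.str) (Φ.η T) := rfl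
  rw [e3, e4, map_one, map_one, mul_one, one_mul]
  rfl

end NetWWAux

open NetWWAux in
theorem tNetWW (k₀ K : Type) [Field k₀] [Field K] [CharZero K] (h1 : StPsi) (h2 : StMemEx)
    (h3 : StMemGen) (h4 : StUSm) (h5 : StUConn) (h6 : StPsiCls k₀ K) : StNetWW k₀ K := by
  intro T hT k _ _ _ Φ
  obtain ⟨ψ₀, hψ⟩ := h1 k₀ k
  have hstr := psi_str Φ hψ
  obtain ⟨U, r, u, hU⟩ := h2 k₀ k (Fin 3) (P2 k₀ k).F Φ.Y Φ.y (Φ.ff ≫ ψ₀) hstr (gv k₀ k)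
  have hU' : IsMem Φ.y ((Φ.ff ≫ ψ₀) ≫ (P2 k₀ k).emb)
      (fun j => algebraMap (P2 k₀ k).R (P2 k₀ k).F (MvPolynomial.X j)) r u := by
    have e : (Φ.ff ≫ ψ₀) ≫ (P2 k₀ k).emb = Φ.ff ≫ ψ₀ := Category.comp_id _
    rw [e]
    exact hU
  obtain ⟨toP, hP1, hP2⟩ := h3 k₀ k (P2 k₀ k) Φ.Y Φ.y (Φ.ff ≫ ψ₀) hstr U r u hU'
  have h7 := h4 k₀ k Φ ψ₀ hψ (P2 k₀ k).F (gv k₀ k) (gv_li k₀ k) (gv_det k₀ k) U r u hU
  have h8 := h5 k₀ k Φ ψ₀ hψ U r u hU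
  refine ⟨ψ₀, hψ, U, toP, r, hP1, ?_, ?_, ?_, class_eq h6 T hT Φ ψ₀ hψ⟩
  · rw [hP2]
    exact h7.1
  · rw [hP2]
    exact h8
  · rw [hP2]
    exact hU

end Pool.Agent.Lib.MP_4ca46c_ag.Two
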