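import Pool.Agent.Lib.MP_4ca46c_ag.Two.SpecU
import Pool.Agent.Lib.MP_4ca46c_ag.Std.Conn
import Pool.Agent.Lib.MP_4ca46c_ag.Std.GeomConn
import Pool.Agent.Lib.MP_4ca46c_ag.Std.TensorD

/-!
# Geometric connectedness from the algebraic closure
-/

namespace Pool.Agent.Lib.MP_4ca46c_ag.Two

open CategoryTheory Limits AlgebraicGeometry TensorProduct MonoidalCategory
  CartesianMonoidalCategory
open Pool.Agent.Lib.MP_4ca46c_ag.Sign Pool.Agent.Lib.MP_4ca46c_ag.Hyp
open Pool.Agent.Lib.MP_4ca46c_ag.Std Pool.Agent.Lib.MP_4ca46c_ag.Geo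

theorem tGeomUp : StGeomUp := by
  intro F L _ _ _ _ X X' x x' g hpb hc
  haveI : IsAlgClosed L := IsAlgClosure.isAlgClosed F
  haveI hx' : GeometricallyConnected x' := tGeomConn tTensor L X' x' hc
  refine ⟨geometrically_iff_of_isClosedUnderIsomorphisms.mpr fun K _ y ↦ ?_⟩
  obtain ⟨φ, rfl⟩ := Spec.map_surjective y
  let M : Type := AlgebraicClosure K
  letI : Algebra F K := φ.hom.toAlgebra
  letI : Algebra F M := ((algebraMap K M).comp (algebraMap F K)).toAlgebra
  haveI : Algebra.IsAlgebraic F L := IsAlgClosure.isAlgebraic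
  let ψ : L →ₐ[F] M := IsAlgClosed.lift
  have hψ : (ψ : L →+* M).comp (algebraMap F L) = (algebraMap K M).comp (algebraMap F K) :=
    ψ.comp_algebraMap
  let a : Spec (CommRingCat.of M) ⟶ Spec (CommRingCat.of K) :=
    Spec.map (CommRingCat.ofHom (algebraMap K M))
  let b : Spec (CommRingCat.of M) ⟶ Spec (CommRingCat.of L) :=
    Spec.map (CommRingCat.ofHom (ψ : L →+* M))
  have hab : a ≫ Spec.map φ = b ≫ Spec.map (CommRingCat.ofHom (algebraMap F L)) := by
    change Spec.map (CommRingCat.ofHom (algebraMap K M)) ≫ Spec.map φ = _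
    rw [← Spec.map_comp, ← Spec.map_comp, ← CommRingCat.ofHom_comp, hψ]
    rfl
  -- the base change of `X'` to `M`
  let Z := pullback x' b
  have hZ : IsPullback (pullback.fst x' b) (pullback.snd x' b) x' b := IsPullback.of_hasPullback _ _
  haveI : GeometricallyConnected (pullback.snd x' b) := inferInstance
  haveI hZc : ConnectedSpace Z := by
    haveI : Subsingleton (Spec (CommRingCat.of M)) :=
      inferInstanceAs (Subsingleton (PrimeSpectrum M))
    exact GeometricallyConnected.connectedSpace_of_subsingleton (pullback.snd x' b)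
  -- the outer square
  have hout : IsPullback (pullback.fst x' b ≫ g) (pullback.snd x' b) x
      (b ≫ Spec.map (CommRingCat.ofHom (algebraMap F L))) := hZ.paste_horiz hpb
  rw [← hab] at hout
  have hK : IsPullback (pullback.fst x (Spec.map φ)) (pullback.snd x (Spec.map φ)) x
      (Spec.map φ) := IsPullback.of_hasPullback _ _
  let r : Z ⟶ pullback x (Spec.map φ) := hK.lift (pullback.fst x' b ≫ g)
    (pullback.snd x' b ≫ a) (by rw [hout.w, Category.assoc])
  have hr1 : r ≫ pullback.fst x (Spec.map φ) = pullback.fst x' b ≫ g := hK.lift_fst _ _ _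
  have hr2 : r ≫ pullback.snd x (Spec.map φ) = pullback.snd x' b ≫ a := hK.lift_snd _ _ _
  have hsq : IsPullback r (pullback.snd x' b) (pullback.snd x (Spec.map φ)) a := by
    refine IsPullback.of_right ?_ hr2 hK
    rw [hr1]
    exact hout
  have hsurj : AlgebraicGeometry.Surjective r :=
    MorphismProperty.of_isPullback hsq.flip (conn_surjective _)
  exact hsurj.surj.connectedSpace r.continuous

end Pool.Agent.Lib.MP_4ca46c_ag.Two
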