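import Pool.Agent.Lib.MP_4ca46c_ag.Two.SpecL

/-!
# Maximal idempotents (`StIdem`)
-/

namespace Pool.Agent.Lib.MP_4ca46c_ag.Two

open CategoryTheory MonoidalCategory CartesianMonoidalCategory TensorProduct
open Pool.Agent.Lib.MP_4ca46c_ag.Geo Pool.Agent.Lib.MP_4ca46c_ag.Geo.WeilCohomology

namespace IdemAux

open Polynomial Module

/-- An endomorphism with nonzero trace has a nonzero idempotent multiple. -/
theorem fit {K V : Type} [Field K] [CharZero K] [AddCommGroup V] [Module K V]
    [FiniteDimensional K V] (x : Module.End K V) (h : LinearMap.trace K V x ≠ 0) :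
    ∃ p : K[X], IsIdempotentElem (aeval x p * x) ∧ aeval x p * x ≠ 0 := by
  have hm : minpoly K x ≠ 0 := minpoly.ne_zero (Algebra.IsIntegral.isIntegral (R := K) x)
  obtain ⟨u, r, s, k, h1, h2⟩ := exists_split _ hm
  have h1' := congrArg (fun z : K[X] => aeval x z) h1
  have h2' := congrArg (fun z : K[X] => aeval x z) h2
  simp only [map_mul, map_sub, map_one, map_add, minpoly.aeval, mul_zero, add_zero] at h1' h2'
  have hid : IsIdempotentElem (aeval x u * aeval x ((X : K[X]) ^ (k + 1))) := by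
    rw [mul_sub, mul_one, sub_eq_zero] at h1'
    exact h1'.symm
  have he : aeval x (u * X ^ k) * x = aeval x u * aeval x ((X : K[X]) ^ (k + 1)) := by
    rw [map_mul, map_pow, map_pow, aeval_X, mul_assoc, pow_succ]
  refine ⟨u * X ^ k, he ▸ hid, fun h0 => h ?_⟩
  rw [he] at h0
  rw [h0, mul_zero, map_pow, aeval_X] at h2'
  exact (LinearMap.isNilpotent_trace_of_isNilpotent ⟨k + 1, h2'⟩).eq_zero

/-- Ranks of orthogonal idempotents. -/
theorem rank_lt {K V : Type} [Field K] [CharZero K] [AddCommGroup V] [Module K V]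
    [FiniteDimensional K V] {e e' : Module.End K V} (he : IsIdempotentElem e)
    (he' : IsIdempotentElem e') (hs : IsIdempotentElem (e + e')) (h0 : e' ≠ 0) :
    finrank K (LinearMap.range e) < finrank K (LinearMap.range (e + e')) := by
  have t1 := (LinearMap.IsIdempotentElem.isProj_range _ he).trace
  have t2 := (LinearMap.IsIdempotentElem.isProj_range _ he').trace
  have t3 := (LinearMap.IsIdempotentElem.isProj_range _ hs).trace
  rw [map_add, t1, t2, ← Nat.cast_add, Nat.cast_inj] at t3
  have hpos : 0 < finrank K (LinearMap.range e') := by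
    rw [Nat.pos_iff_ne_zero]
    intro h
    refine h0 (LinearMap.IsIdempotentElem.eq_zero_of_trace_eq_zero he' ?_)
    rw [t2, h, Nat.cast_zero]
  omega

theorem R_aeval {K : Type} [Field K] [CharZero K] {𝒱 : Type 1} [Category.{0} 𝒱]
    [CartesianMonoidalCategory 𝒱] {W : WeilCohomology K 𝒱} {X : 𝒱} {x : W.E X}
    (hx : x ∈ W.R X 0) (p : K[X]) : aeval x p ∈ W.R X 0 := by
  rw [aeval_eq_sum_range]
  exact Submodule.sum_mem _ fun m _ => Submodule.smul_mem _ _ (R_pow hx m)

end IdemAux

open IdemAux Module in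
theorem tIdem : StIdem := by
  intro K _ _ 𝒱 _ _ W X j T hT
  let S : Set ℕ := {n | ∃ G ∈ W.R X (-j), IsIdempotentElem (G * T) ∧
    finrank K (LinearMap.range (G * T)) = n}
  have hne : S.Nonempty := by
    refine ⟨_, 0, Submodule.zero_mem _, ?_, rfl⟩
    rw [zero_mul]
    exact IsIdempotentElem.zero
  have hbd : BddAbove S := by
    refine ⟨finrank K (W.H X), ?_⟩
    rintro n ⟨G, _, _, rfl⟩
    exact Submodule.finrank_le _
  obtain ⟨G₀, hG₀, he, hn⟩ := Nat.sSup_mem hne hbd
  have hmax : ∀ G ∈ W.R X (-j), IsIdempotentElem (G * T) →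
      finrank K (LinearMap.range (G * T)) ≤ finrank K (LinearMap.range (G₀ * T)) := by
    intro G hG hid
    rw [hn]
    exact le_csSup hbd ⟨G, hG, hid, rfl⟩
  have heR : G₀ * T ∈ W.R X 0 := R_cast (R_mul hG₀ hT) (by ring)
  have he1 : G₀ * T * (G₀ * T) = G₀ * T := he
  have hf : 1 - G₀ * T ∈ W.R X 0 := Submodule.sub_mem _ R_one heR
  have hff : (1 - G₀ * T) * (1 - G₀ * T) = 1 - G₀ * T := by
    rw [mul_sub, sub_mul, sub_mul, one_mul, mul_one, he1, one_mul]
    abel
  have hG : G₀ * T * G₀ ∈ W.R X (-j) := R_cast (R_mul heR hG₀) (by ring)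
  have hf' : 1 - T * (G₀ * T * G₀) ∈ W.R X 0 :=
    Submodule.sub_mem _ R_one (R_cast (R_mul hT hG) (by ring))
  have hGT : G₀ * T * G₀ * T = G₀ * T := by rw [mul_assoc (G₀ * T), he1]
  have hTf : T * (1 - G₀ * T) = (1 - T * (G₀ * T * G₀)) * T := by
    rw [mul_sub, sub_mul, mul_one, one_mul, mul_assoc T (G₀ * T * G₀) T, hGT]
  have hTfN : T * (1 - G₀ * T) ∈ W.N X j := by
    by_contra hcon
    obtain ⟨g, hg, ht⟩ := not_N (R_cast (R_mul hT hf) (by ring)) hcon
    set f := 1 - G₀ * T with hfdef
    set f' := 1 - T * (G₀ * T * G₀) with hf'def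
    have hx : f * g * f' * T ∈ W.R X 0 :=
      R_cast (R_mul (R_mul (R_mul hf hg) hf') hT) (by ring)
    have hx2 : f * g * f' * T = f * (g * (T * f)) := by
      rw [hTf]
      simp only [mul_assoc]
    have htr : LinearMap.trace K (W.H X) (f * g * f' * T) ≠ 0 := by
      have e1 : LinearMap.trace K (W.H X) (f * (g * (T * f))) =
          LinearMap.trace K (W.H X) (g * (T * f)) := by
        rw [LinearMap.trace_mul_comm, mul_assoc, mul_assoc, hff]
      rw [hx2, e1]
      exact ht
    obtain ⟨p, hid, h0⟩ := fit _ htr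
    set x := f * g * f' * T with hxdef
    have hef : G₀ * T * f = 0 := by rw [hfdef, mul_sub, mul_one, he1, sub_self]
    have hfe : f * (G₀ * T) = 0 := by rw [hfdef, sub_mul, one_mul, he1, sub_self]
    have hex : G₀ * T * x = 0 := by
      rw [hx2, ← mul_assoc, hef, zero_mul]
    have hxe : x * (G₀ * T) = 0 := by
      rw [hx2, mul_assoc, mul_assoc, mul_assoc, hfe, mul_zero, mul_zero, mul_zero]
    have hcomm : Polynomial.aeval x p * x = x * Polynomial.aeval x p := by
      have := congrArg (Polynomial.aeval x) (mul_comm p Polynomial.X)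
      rwa [map_mul, map_mul, Polynomial.aeval_X] at this
    have h1 : G₀ * T * (Polynomial.aeval x p * x) = 0 := by
      rw [hcomm, ← mul_assoc, hex, zero_mul]
    have h2 : Polynomial.aeval x p * x * (G₀ * T) = 0 := by
      rw [mul_assoc, hxe, mul_zero]
    have hG2 : Polynomial.aeval x p * (f * g * f') ∈ W.R X (-j) :=
      R_cast (R_mul (R_aeval hx p) (R_mul (R_mul hf hg) hf')) (by ring)
    have hsum : (G₀ + Polynomial.aeval x p * (f * g * f')) * T =
        G₀ * T + Polynomial.aeval x p * x := by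
      rw [add_mul, hxdef]
      simp only [mul_assoc]
    have hids : IsIdempotentElem (G₀ * T + Polynomial.aeval x p * x) := by
      change (G₀ * T + Polynomial.aeval x p * x) * (G₀ * T + Polynomial.aeval x p * x) = _
      rw [mul_add, add_mul, add_mul, h1, h2, he1, hid.eq, zero_add, add_zero]
    have hlt := rank_lt he hid hids h0
    have hle := hmax _ (Submodule.add_mem _ hG₀ hG2) (by rw [hsum]; exact hids)
    rw [hsum] at hle
    omega
  refine ⟨G₀ * T * G₀, hG, ?_, ?_⟩
  · rw [hGT, ← mul_assoc, he1]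
  · have : T - T * (G₀ * T * G₀) * T = T * (1 - G₀ * T) := by
      rw [hTf, sub_mul, one_mul]
    rw [this]
    exact hTfN

end Pool.Agent.Lib.MP_4ca46c_ag.Two
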