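import Pool.Agent.Lib.MP_4ca46c_ag.Two.SpecL

/-!
# Two parameters: conjecture B for `X` from conjecture B for the fibre of the pencil
-/

set_option autoImplicit false

namespace Pool.Agent.Lib.MP_4ca46c_ag.Two

open CategoryTheory MonoidalCategory CartesianMonoidalCategory TensorProduct
open Pool.Agent.Lib.MP_4ca46c_ag.Geo Pool.Agent.Lib.MP_4ca46c_ag.Geo.WeilCohomology

/-- Induction on the degree. -/
theorem tLefUp : StPencS → StStep → StLefUp := by
  intro hP hS K _ _ 𝒱 _ _ W X V Z h P hQ hV
  rw [W.lefschetz_iff] at hV ⊢
  have key : ∀ m : ℕ, LefAt W X h m := by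
    intro m
    induction m using Nat.strong_induction_on with
    | _ m ih =>
      rcases Nat.lt_trichotomy m (W.dim X) with hm | hm | hm
      · refine hS K 𝒱 W X V h P.i P.dim_V P.h_alg P.hard_X P.cls_V m hm
          (hP K 𝒱 W X V Z h P hQ m hm fun h2 => ih (m - 2) (by omega)) ?_
        intro j hj
        exact hV m j hj
      · intro j hj
        have hj0 : j = 0 := by omega
        subst hj0
        refine ⟨LinearMap.id, ?_, fun x _ => by rw [pow_zero, one_mul]; rfl⟩
        have h1 := W.cor_id X
        simpa using h1
      · intro j hj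
        omega
  intro i j hij
  exact key i j hij

end Pool.Agent.Lib.MP_4ca46c_ag.Two
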