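import Pool.Agent.Lib.MP_4ca46c_ag.Two.SpecL

/-!
# Two parameters: conjecture B in dimension at most one
-/

set_option autoImplicit false

namespace Pool.Agent.Lib.MP_4ca46c_ag.Two

open CategoryTheory MonoidalCategory CartesianMonoidalCategory TensorProduct
open Pool.Agent.Lib.MP_4ca46c_ag.Geo Pool.Agent.Lib.MP_4ca46c_ag.Geo.WeilCohomology

/-- Conjecture B in dimension at most `1`. -/
theorem tLow : StLow := by
  intro K _ _ 𝒱 _ _ W X h hh hard hdim
  rw [W.lefschetz_iff]
  intro i j hij
  rcases Nat.eq_zero_or_pos j with rfl | hj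
  · refine ⟨LinearMap.id, ?_, fun x _ => by rw [pow_zero, one_mul]; rfl⟩
    have h1 := W.cor_id X
    simpa using h1
  · have hi : i = 0 := by omega
    have hj1 : j = 1 := by omega
    subst hi hj1
    have hd : W.dim X = 1 := by omega
    obtain ⟨p, hp, hp1⟩ := W.exists_pt X
    have hpg : p ∈ W.gr X (0 + 2 * 1) := by
      have := W.alg_gr hp
      rwa [hd] at this
    obtain ⟨x, hx, hxp⟩ := (hard 0 1 hij).surjOn hpg
    obtain ⟨a, rfl⟩ := W.connected hx
    have htr : ∀ c : K, W.tr X (h * algebraMap K (W.H X) c) = c * W.tr X h := by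
      intro c
      rw [← Algebra.commutes, ← Algebra.smul_def, map_smul, smul_eq_mul]
    have hne : W.tr X h ≠ 0 := by
      intro h0
      have h1 : W.tr X p = a * W.tr X h := by
        rw [← hxp]
        change W.tr X (h ^ 1 * algebraMap K (W.H X) a) = _
        rw [pow_one, htr]
      rw [h0, mul_zero, hp1] at h1
      exact one_ne_zero h1
    obtain ⟨q, hq⟩ := W.alg_tr (X := X) (x := h) (by rw [hd]; exact hh)
    refine ⟨((q⁻¹ : ℚ) : K) • W.op (W.tm (1 : W.H X) (1 : W.H X)), W.cor_rat ?_ _, ?_⟩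
    · exact W.mem_cor.2 (Or.inr ⟨0, W.tm 1 1, by rw [hd]; norm_num,
        W.tm_alg (W.alg_one X) (W.alg_one X), rfl⟩)
    · intro x hx
      obtain ⟨c, rfl⟩ := W.connected hx
      have hq' : (q : K) ≠ 0 := by rwa [← hq]
      rw [LinearMap.smul_apply, W.op_tm, one_mul, pow_one, htr, hq, Algebra.algebraMap_eq_smul_one,
        smul_smul, Rat.cast_inv]
      congr 1
      field_simp

end Pool.Agent.Lib.MP_4ca46c_ag.Two
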