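import Mathlib
import Pool.Agent.Lib.MP_4ca46c_ag.Two.SpecU

/-!
# Existence of the hyperplane section over an extension
-/

set_option autoImplicit false

namespace Pool.Agent.Lib.MP_4ca46c_ag.Two

open CategoryTheory Limits AlgebraicGeometry
open Pool.Agent.Lib.MP_4ca46c_ag.Sign Pool.Agent.Lib.MP_4ca46c_ag.Hyp
open Pool.Agent.Lib.MP_4ca46c_ag.Std

namespace MemExAux

variable {k : Type} [Field k] {κ : Type} [Fintype κ] {X : Scheme.{0}} (z : X ⟶ PS k κ)
  (a : κ → Γ(X, ⊤))

/-- The equations of the hyperplane section. -/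
noncomputable def g (i : κ) : Γ(X, z ⁻¹ᵁ (psCoord k κ).D i) :=
  (psCoord k κ).eqn z a i (z ⁻¹ᵁ (psCoord k κ).D i) le_rfl

theorem zero_van {T : Scheme.{0}} (t : T ⟶ X) : (∃ t', t' ≫ zeroι (g z a) = t) ↔
    (psCoord k κ).Van (t ≫ z) (fun j => t.appTop (a j)) := by
  refine (zero_iff (g z a) ((psCoord k κ).iSup_pre z) (fun i j => ?_) t).trans ?_
  · refine ⟨z.appLE ((psCoord k κ).D j) _ inf_le_right ((psCoord k κ).f j i), ?_⟩
    rw [g, g, PreCoord.eqn_res, PreCoord.eqn_res]
    exact (psCoord k κ).eqn_mul _ _ i j _ _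
  · refine forall_congr' fun i => ?_
    have h := (psCoord k κ).map_eqn t z a i le_rfl
      (show (t ≫ z) ⁻¹ᵁ (psCoord k κ).D i ≤ t ⁻¹ᵁ (z ⁻¹ᵁ (psCoord k κ).D i) from le_rfl)
    rw [← h, g, Scheme.Hom.app_eq_appLE]
    rfl

end MemExAux

open MemExAux in
theorem tMemEx : StMemEx := by
  intro k₀ k _ _ _ κ _ M _ _ _ _ Z z φ _ a
  let q := ptMap k₀ (IsScalarTower.toAlgHom k₀ k M)
  let X : Sch k₀ := pullback z q
  let w : X.left ⟶ PS k κ := (pullback.fst z q ≫ φ).left
  let b : κ → Γ(X.left, ⊤) := fun j => Hyp.val (pullback.snd z q).left (a j)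
  let U : Sch k₀ := Over.mk (zeroι (g w b) ≫ X.hom)
  let inc : U ⟶ X := Over.homMk (zeroι (g w b)) rfl
  have hM : ∀ {T : Sch k₀} (l : T ⟶ X), Mem φ a (l ≫ pullback.fst z q) (l ≫ pullback.snd z q) ↔
      (psCoord k κ).Van (l.left ≫ w) (fun j => l.left.appTop (b j)) := by
    intro T l
    have h1 : ((l ≫ pullback.fst z q) ≫ φ).left = l.left ≫ w := by
      rw [Category.assoc]
      rfl
    have h2 : ∀ j, Hyp.val ((l ≫ pullback.snd z q).left : T.left ⟶ Spec (CommRingCat.of M)) (a j) =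
        l.left.appTop (b j) := fun j =>
      DFunLike.congr_fun (Hyp.val_comp l.left (pullback.snd z q).left) (a j)
    unfold Mem
    rw [h1]
    simp only [h2]
  have hl : inc.left = zeroι (g w b) := rfl
  refine ⟨U, inc ≫ pullback.fst z q, inc ≫ pullback.snd z q, ?_, ?_, ?_, ?_⟩
  · rw [Category.assoc, pullback.condition, Category.assoc]
  · exact (hM inc).2 ((zero_van w b inc.left).1 ⟨𝟙 _, Category.id_comp _⟩)
  · intro T t s h hm
    have h1 : pullback.lift t s h ≫ pullback.fst z q = t := pullback.lift_fst _ _ _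
    have h2 : pullback.lift t s h ≫ pullback.snd z q = s := pullback.lift_snd _ _ _
    have h3 : Mem φ a (pullback.lift t s h ≫ pullback.fst z q)
        (pullback.lift t s h ≫ pullback.snd z q) := by
      rw [h1, h2]
      exact hm
    obtain ⟨t', ht'⟩ := (zero_van w b (pullback.lift t s h).left).2 ((hM _).1 h3)
    have h4 : t' ≫ U.hom = T.hom := by
      change t' ≫ zeroι (g w b) ≫ X.hom = T.hom
      rw [← Category.assoc, ht']
      exact Over.w _
    have h5 : Over.homMk t' h4 ≫ inc = pullback.lift t s h := Over.OverMorphism.ext ht'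
    refine ⟨Over.homMk t' h4, ?_, ?_⟩
    · rw [← Category.assoc, h5, h1]
    · rw [← Category.assoc, h5, h2]
  · intro T t t' h1 h2
    have h3 : t ≫ inc = t' ≫ inc := by
      refine pullback.hom_ext ?_ ?_
      · rw [Category.assoc, Category.assoc]
        exact h1
      · rw [Category.assoc, Category.assoc]
        exact h2
    refine Over.OverMorphism.ext ((cancel_mono (zeroι (g w b))).1 ?_)
    exact congrArg (fun ψ => CommaMorphism.left ψ) h3

end Pool.Agent.Lib.MP_4ca46c_ag.Two
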