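import Pool.Agent.Lib.MP_4ca46c_ag.Two.SpecU
import Pool.Agent.Lib.MP_4ca46c_ag.Std.ChartIso

/-!
# The generic hyperplane section as a functor of points
-/

namespace Pool.Agent.Lib.MP_4ca46c_ag.Two

open CategoryTheory Limits AlgebraicGeometry TensorProduct
open Pool.Agent.Lib.MP_4ca46c_ag.Sign Pool.Agent.Lib.MP_4ca46c_ag.Hyp
open Pool.Agent.Lib.MP_4ca46c_ag.Std

namespace MemGenAux

variable {k₀ k : Type} [Field k₀] [Field k] [Algebra k₀ k] (P : ProjVar k₀ k)

theorem fib : IsPullback (P.toI.left : P.Y₀.left ⟶ P.C.I) P.y₀.left (chartiso_m P.C)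
    (Spec.map (CommRingCat.ofHom (algebraMap P.R P.F))) :=
  P.fibre.map (Over.forget _)

theorem van_iff {T : Sch k₀} (t : T ⟶ P.X) (a : P.κ → Γ(T.left, ⊤)) :
    P.C.Van (t.left : T.left ⟶ P.X.left) a ↔
      (psCoord k P.κ).Van ((t ≫ P.emb).left : T.left ⟶ PS k P.κ) a :=
  PreCoord.comap_van (psCoord k P.κ).toPreCoord P.emb.left t.left a

theorem mem_point {T : Sch k₀} (w : T ⟶ P.Y₀) :
    Mem P.emb (fun j => algebraMap P.R P.F (MvPolynomial.X j)) (w ≫ P.r₀) (w ≫ P.y₀) := by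
  have h := chartiso_van P.C (fib P) w.left
  exact (van_iff P (w ≫ P.r₀) _).1 h

theorem exists_point {T : Sch k₀} (t : T ⟶ P.X) (s : T ⟶ pt k₀ P.F)
    (h : t ≫ P.str = s ≫ ptMap k₀ (IsScalarTower.toAlgHom k₀ k P.F))
    (hm : Mem P.emb (fun j => algebraMap P.R P.F (MvPolynomial.X j)) t s) :
    ∃ w : T ⟶ P.Y₀, w ≫ P.r₀ = t ∧ w ≫ P.y₀ = s := by
  have h1 : (t.left : T.left ⟶ P.X.left) ≫ P.str.left =
      s.left ≫ Spec.map (CommRingCat.ofHom (algebraMap k P.F)) := congrArg CommaMorphism.left h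
  obtain ⟨w, hw1, hw2⟩ := chartiso_c P.C (fib P) t.left s.left h1 ((van_iff P t _).2 hm)
  refine ⟨Over.homMk w ?_, ?_, ?_⟩
  · have h3 : P.Y₀.hom = P.y₀.left ≫ (pt k₀ P.F).hom := (Over.w P.y₀).symm
    rw [h3]
    exact (Category.assoc _ _ _).symm.trans
      ((congrArg (fun φ => φ ≫ (pt k₀ P.F).hom) hw2).trans (Over.w s))
  · exact Over.OverMorphism.ext hw1
  · exact Over.OverMorphism.ext hw2

end MemGenAux

open MemGenAux in
theorem tMemGen : StMemGen := by
  intro k₀ k _ _ _ P Z z ψ hψ U r u H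
  obtain ⟨toP, hP1, hP2⟩ := exists_point P (r ≫ ψ) u (by
    rw [Category.assoc, hψ]
    exact H.comm) (by
    have h := H.mem
    unfold Mem at h ⊢
    rw [Category.assoc]
    exact h)
  refine ⟨toP, ?_, hP2⟩
  have key : ∀ s : PullbackCone P.r₀ ψ, ∃ t' : s.pt ⟶ U, t' ≫ r = s.snd ∧
      t' ≫ u = s.fst ≫ P.y₀ := by
    intro s
    refine H.lift s.pt s.snd (s.fst ≫ P.y₀) ?_ ?_
    · rw [← hψ, ← Category.assoc, ← s.condition, Category.assoc, P.r₀_str, Category.assoc]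
    · have h := mem_point P s.fst
      unfold Mem at h ⊢
      rw [s.condition, Category.assoc] at h
      exact h
  refine ⟨⟨hP1⟩, ⟨PullbackCone.IsLimit.mk _ (fun s => (key s).choose) ?_ ?_ ?_⟩⟩
  · intro s
    refine P.joint _ _ ?_ ?_
    · rw [Category.assoc, hP2]
      exact (key s).choose_spec.2
    · rw [Category.assoc, hP1, ← Category.assoc, (key s).choose_spec.1, s.condition]
  · intro s
    exact (key s).choose_spec.1
  · intro s m h1 h2
    refine H.ext _ _ _ ?_ ?_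
    · rw [h2, (key s).choose_spec.1]
    · have e : m ≫ toP ≫ P.y₀ = s.fst ≫ P.y₀ := by rw [← Category.assoc, h1]
      rw [hP2] at e
      exact e.trans (key s).choose_spec.2.symm

end Pool.Agent.Lib.MP_4ca46c_ag.Two
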