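import Pool.Agent.Lib.MP_4ca46c_ag.Two.SpecN
import Pool.Agent.Lib.MP_4ca46c_ag.Std.Average

/-!
# Two parameters: averaging over the conjugates of the generic member
-/

set_option autoImplicit false

namespace Pool.Agent.Lib.MP_4ca46c_ag.Two

open CategoryTheory Limits AlgebraicGeometry TensorProduct
open Pool.Agent.Lib.MP_4ca46c_ag.Sign Pool.Agent.Lib.MP_4ca46c_ag.Hyp
open Pool.Agent.Lib.MP_4ca46c_ag.Std Pool.Agent.Lib.MP_4ca46c_ag.Geo

namespace NetAvgAux

variable {k₀ : Type} [Field k₀] {k : Type} [Field k] [Algebra k₀ k] {P : ProjVar k₀ k}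

theorem isVar_u₀ (D : Net P) : IsVar D.u₀ D.N := by
  have hP := P.isVar.proper
  have hY := D.isVar.proper
  have h1 : IsProper D.ψ.left := by
    have h2 : IsProper (D.ψ.left ≫ P.str.left) := by
      rw [← Over.comp_left, D.ψ_str]
      exact hY
    exact IsProper.of_comp D.ψ.left P.str.left
  have h3 : IsProper D.toP.left := MorphismProperty.of_isPullback (P := @IsProper)
    (D.isPB.map (Over.forget _)).flip h1
  have h4 := P.proper₀
  refine ⟨D.smooth, ?_, D.conn⟩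
  change IsProper (D.toP.left ≫ P.y₀.left)
  infer_instance

theorem isVar_u (D : Net P) : IsVar D.u D.N := genclass_var D.isBC (isVar_u₀ D)

variable (D : Net P)

theorem e2_fst : D.e2 ≫ pullback.fst D.u₀ D.u₀ = pullback.fst D.u D.u ≫ D.pU :=
  pullback.lift_fst _ _ _

theorem e2_snd : D.e2 ≫ pullback.snd D.u₀ D.u₀ = pullback.snd D.u D.u ≫ D.pU :=
  pullback.lift_snd _ _ _

/-- the base change of an endomorphism of the algebraic closure -/
noncomputable def t (σ : P.L →ₐ[P.F] P.L) : D.U ⟶ D.U :=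
  D.isBC.lift D.pU (D.u ≫ ptMap k₀ (σ.restrictScalars k₀)) (by
    rw [Category.assoc, average_ptMap_comp, D.isBC.w]
    congr 2
    exact AlgHom.ext fun x => (σ.commutes x).symm)

theorem t_Y (σ : P.L →ₐ[P.F] P.L) : t D σ ≫ D.pU = D.pU :=
  D.isBC.lift_fst _ _ _

theorem t_str (σ : P.L →ₐ[P.F] P.L) :
    t D σ ≫ D.u = D.u ≫ ptMap k₀ (σ.restrictScalars k₀) :=
  D.isBC.lift_snd _ _ _

theorem t_comp (σ τ : P.L →ₐ[P.F] P.L) (h : σ.comp τ = AlgHom.id P.F P.L) :
    t D σ ≫ t D τ = 𝟙 D.U := by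
  apply D.isBC.hom_ext
  · rw [Category.assoc, t_Y, t_Y, Category.id_comp]
  · rw [Category.assoc, t_str, ← Category.assoc, t_str, Category.assoc,
      average_ptMap_comp, Category.id_comp]
    have h2 : (σ.restrictScalars k₀).comp (τ.restrictScalars k₀) = AlgHom.id k₀ P.L := by
      ext x
      exact DFunLike.congr_fun h x
    rw [h2, average_ptMap_id, Category.comp_id]

variable {D}

theorem s₁ {σ : P.L →ₐ[P.F] P.L} {s : D.UU ⟶ D.UU} (h1 : s ≫ D.e2 = D.e2)
    (h2 : s ≫ pullback.fst D.u D.u ≫ D.u =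
      (pullback.fst D.u D.u ≫ D.u) ≫ ptMap k₀ (σ.restrictScalars k₀)) :
    s ≫ pullback.fst D.u D.u = pullback.fst D.u D.u ≫ t D σ := by
  apply D.isBC.hom_ext
  · rw [Category.assoc, Category.assoc, t_Y, ← e2_fst, ← Category.assoc, h1]
  · rw [Category.assoc, Category.assoc, t_str, h2]
    exact Category.assoc _ _ _

theorem s₂ {σ : P.L →ₐ[P.F] P.L} {s : D.UU ⟶ D.UU} (h1 : s ≫ D.e2 = D.e2)
    (h2 : s ≫ pullback.fst D.u D.u ≫ D.u =
      (pullback.fst D.u D.u ≫ D.u) ≫ ptMap k₀ (σ.restrictScalars k₀)) :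
    s ≫ pullback.snd D.u D.u = pullback.snd D.u D.u ≫ t D σ := by
  apply D.isBC.hom_ext
  · rw [Category.assoc, Category.assoc, t_Y, ← e2_snd, ← Category.assoc, h1]
  · rw [Category.assoc, Category.assoc, t_str, ← pullback.condition, h2, pullback.condition]
    exact Category.assoc _ _ _

theorem iso {t t' : D.U ⟶ D.U} (h1 : t ≫ t' = 𝟙 _) (h2 : t' ≫ t = 𝟙 _)
    {p : pt k₀ P.L ⟶ pt k₀ P.L} (ht : t' ≫ D.u = D.u ≫ p)
    {s : D.UU ⟶ D.UU} (hs1 : s ≫ pullback.fst D.u D.u = pullback.fst D.u D.u ≫ t)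
    (hs2 : s ≫ pullback.snd D.u D.u = pullback.snd D.u D.u ≫ t) : IsIso s := by
  obtain ⟨s', h3, h4⟩ : ∃ s' : D.UU ⟶ D.UU,
      s' ≫ pullback.fst D.u D.u = pullback.fst D.u D.u ≫ t' ∧
      s' ≫ pullback.snd D.u D.u = pullback.snd D.u D.u ≫ t' := by
    refine ⟨pullback.lift (pullback.fst D.u D.u ≫ t') (pullback.snd D.u D.u ≫ t') ?_,
      pullback.lift_fst _ _ _, pullback.lift_snd _ _ _⟩
    rw [Category.assoc, Category.assoc, ht, ← Category.assoc, ← Category.assoc,
      pullback.condition]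
  refine ⟨s', ?_, ?_⟩
  · apply pullback.hom_ext
    · rw [Category.assoc, h3, ← Category.assoc, hs1, Category.assoc, h1, Category.comp_id,
        Category.id_comp]
    · rw [Category.assoc, h4, ← Category.assoc, hs2, Category.assoc, h1, Category.comp_id,
        Category.id_comp]
  · apply pullback.hom_ext
    · rw [Category.assoc, hs1, ← Category.assoc, h3, Category.assoc, h2, Category.comp_id,
        Category.id_comp]
    · rw [Category.assoc, hs2, ← Category.assoc, h4, Category.assoc, h2, Category.comp_id,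
        Category.id_comp]

end NetAvgAux

open NetAvgAux in
theorem tNetAvg (k₀ K : Type) [Field k₀] [Field K] (h : StNetSm k₀) : StNetAvg k₀ K := by
  intro T k _ _ _ P D m a ha hS
  obtain ⟨-, -, -, -, -, -, -, -, -, hV2, hW2, -, -, -, -, hE, -⟩ := h k P D
  have hw : IsWeil D.U := (isVar_u D).isWeil
  have hw2 : IsWeil D.UU := hW2.isWeil
  obtain ⟨N₀, σ, s, hN₀, hs, b, hb, hbs⟩ := T.norm (pullback.fst D.u₀ D.u₀ ≫ D.u₀)
    (pullback.fst D.u D.u ≫ D.u) D.e2 hV2.isSm hE D.N a ha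
  refine ⟨N₀, hN₀, b, hb, ?_⟩
  intro i y hy y'
  have key : ∀ j : Fin N₀, T.tr D.UU (T.cl D.UU (T.pull (s j) a) *
      T.pullH (pullback.snd D.u D.u) y * T.pullH (pullback.fst D.u D.u) y') =
      if i = m then T.tr D.U (y * y') else 0 := by
    intro j
    have hbij : Function.Bijective (σ j) := by
      have : Algebra.IsAlgebraic P.F P.L := IsAlgClosure.isAlgebraic
      exact Algebra.IsAlgebraic.algHom_bijective (σ j)
    let e : P.L ≃ₐ[P.F] P.L := AlgEquiv.ofBijective (σ j) hbij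
    let τ : P.L →ₐ[P.F] P.L := e.symm.toAlgHom
    have hc1 : (σ j).comp τ = AlgHom.id P.F P.L := by
      ext x
      exact e.apply_symm_apply x
    have hc2 : τ.comp (σ j) = AlgHom.id P.F P.L := by
      ext x
      exact e.symm_apply_apply x
    have ht1 : t D (σ j) ≫ t D τ = 𝟙 _ := t_comp D _ _ hc1
    have ht2 : t D τ ≫ t D (σ j) = 𝟙 _ := t_comp D _ _ hc2
    have hs1 := s₁ (hs j).1 (hs j).2
    have hs2 := s₂ (hs j).1 (hs j).2
    have hiso : IsIso (s j) := iso ht1 ht2 (t_str D τ) hs1 hs2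
    have hisot : IsIso (t D (σ j)) := ⟨_, ht1, ht2⟩
    have hpb : ∀ z, T.pullH (t D (σ j)) (T.pullH (t D τ) z) = z := by
      intro z
      rw [← T.pullH_comp _ _ hw hw hw, ht1, T.pullH_id hw]
    have e1 : T.pullH (pullback.fst D.u D.u) y' =
        T.pullH (s j) (T.pullH (pullback.fst D.u D.u) (T.pullH (t D τ) y')) := by
      rw [← T.pullH_comp _ _ hw2 hw2 hw, hs1, T.pullH_comp _ _ hw2 hw hw, hpb]
    have e2 : T.pullH (pullback.snd D.u D.u) y =
        T.pullH (s j) (T.pullH (pullback.snd D.u D.u) (T.pullH (t D τ) y)) := by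
      rw [← T.pullH_comp _ _ hw2 hw2 hw, hs2, T.pullH_comp _ _ hw2 hw hw, hpb]
    rw [e1, e2, T.cl_pull _ hw2 hw2, ← map_mul, ← map_mul, T.tr_iso _ hiso hw2 hw2,
      hS i _ (T.pullH_mem _ hw hw i y hy), ← T.tr_iso _ hisot hw hw, map_mul, hpb, hpb]
  rw [hbs, map_sum, Finset.sum_mul, Finset.sum_mul, map_sum, Finset.sum_congr rfl fun j _ => key j,
    Finset.sum_const, Finset.card_univ, Fintype.card_fin]
  by_cases h : i = m
  · rw [if_pos h, if_pos h, nsmul_eq_mul]
  · rw [if_neg h, if_neg h, smul_zero]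

end Pool.Agent.Lib.MP_4ca46c_ag.Two
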