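import Pool.Agent.Lib.MP_4ca46c_ag.Two.SpecN

/-!
# Two parameters: the class of the generic member
-/

set_option autoImplicit false

namespace Pool.Agent.Lib.MP_4ca46c_ag.Two

open CategoryTheory Limits AlgebraicGeometry TensorProduct
open Pool.Agent.Lib.MP_4ca46c_ag.Sign Pool.Agent.Lib.MP_4ca46c_ag.Hyp
open Pool.Agent.Lib.MP_4ca46c_ag.Std Pool.Agent.Lib.MP_4ca46c_ag.Geo

namespace NetClsAux

variable {k₀ K : Type} [Field k₀] [Field K]

/-- The class of the generic hyperplane section of `P` over the function field. -/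
theorem e1 (T : WeilTheory k₀ K) (E : Extra T) {k : Type} [Field k] [Algebra k₀ k]
    [IsAlgClosed k] (P : ProjVar k₀ k) (m : ℕ) (hn : P.n = m + 1) :
    ∃ i₀ : P.Y₀ ⟶ pullback P.str (ptMap k₀ (IsScalarTower.toAlgHom k₀ k P.F)),
      i₀ ≫ pullback.snd _ _ = P.y₀ ∧ i₀ ≫ pullback.fst _ _ = P.r₀ ∧
      IsClosedImmersion i₀.left ∧ T.push i₀ 1 = T.pull (pullback.fst _ _) (P.h T) := by
  have hX : IsVar P.str (m + 1) := by
    rw [← hn]
    exact P.isVar
  have hU := fUnivX k₀ K T E k P.κ P.i P.X P.str (m + 1) P.emb P.emb_str hX P.closed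
  obtain ⟨N, hN⟩ : ∃ N, Fintype.card P.κ = N + 1 := by
    have : 0 < Fintype.card P.κ := Fintype.card_pos
    exact ⟨Fintype.card P.κ - 1, by omega⟩
  obtain ⟨-, sA, -, sF⟩ := tAffSm k₀ k P.X P.str P.κ (m + 1) N hX.isSm hX.smooth hN
  have sI := (sF P.C).1
  have sX : Sm P.X := hX.sm
  have hy₀ := P.isSm₀ m hn
  obtain ⟨gA, gA1, gA2⟩ := genclass_gA P.str P.F (κ := P.κ)
  obtain ⟨i₀, i1, i2⟩ := genclass_i₀ P.C P.fibre gA2
  have vXF : IsVar (pullback.snd P.str (ptMap k₀ (IsScalarTower.toAlgHom k₀ k P.F))) (m + 1) :=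
    genclass_var (IsPullback.of_hasPullback _ _) hX
  have fA : Flat gA.left := MorphismProperty.of_isPullback (P := @Flat)
    (gA2.map (Over.forget _)).flip (genclass_flat_frac (k₀ := k₀) (F := P.F) (MvPolynomial P.κ k))
  have cI : IsClosedImmersion (Fam.inc P.C).left := inferInstanceAs (IsClosedImmersion P.C.inc)
  refine ⟨i₀, i1, ?_, ?_, ?_⟩
  · rw [← gA1, ← Category.assoc, ← i2.w, Category.assoc]
    rfl
  · exact MorphismProperty.of_isPullback (P := @IsClosedImmersion) (i2.map (Over.forget _)) cI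
  · have h3 := T.push_baseChange (Fam.inc P.C) i₀ P.toI gA i2 ⟨_, _, _, _, sI⟩ ⟨_, _, _, _, sA⟩
      ⟨_, _, _, _, hy₀⟩ vXF.sm inferInstance fA 1
    rw [map_one (T.pull P.toI)] at h3
    rw [← h3]
    refine (congrArg (T.pull gA) hU).trans ?_
    rw [← T.pull_comp gA (Aff.pr P.κ P.X) vXF.sm ⟨_, _, _, _, sA⟩ sX, gA1]
    rfl

end NetClsAux

open NetClsAux in
/-- The class of the generic member. -/
theorem tNetCls (k₀ K : Type) [Field k₀] [Field K] (h : StNetVar k₀) : StNetCls k₀ K := by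
  intro T E k _ _ _ P D m hn z
  obtain ⟨hU₀, hU, -⟩ := h k P D
  obtain ⟨i₀, i1, i2, ci, e1⟩ := e1 T E P m hn
  have hX : IsVar P.str (m + 1) := by
    rw [← hn]
    exact P.isVar
  have vPF : IsVar (pullback.snd P.str (ptMap k₀ (IsScalarTower.toAlgHom k₀ k P.F))) (m + 1) :=
    genclass_var (IsPullback.of_hasPullback _ _) hX
  have vYF : IsVar (pullback.snd D.str (ptMap k₀ (IsScalarTower.toAlgHom k₀ k P.F)))
      (D.N + 1) := genclass_var (IsPullback.of_hasPullback _ _) D.isVar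
  -- the map `ψ_F`
  obtain ⟨ψF, p1, p2⟩ : ∃ ψF : pullback D.str (ptMap k₀ (IsScalarTower.toAlgHom k₀ k P.F)) ⟶
      pullback P.str (ptMap k₀ (IsScalarTower.toAlgHom k₀ k P.F)),
      ψF ≫ pullback.fst _ _ = pullback.fst _ _ ≫ D.ψ ∧
      ψF ≫ pullback.snd _ _ = pullback.snd _ _ :=
    ⟨pullback.lift (pullback.fst _ _ ≫ D.ψ) (pullback.snd _ _) (by
      rw [Category.assoc, D.ψ_str, pullback.condition]), pullback.lift_fst _ _ _,
      pullback.lift_snd _ _ _⟩
  have hR : IsPullback (pullback.fst D.str (ptMap k₀ (IsScalarTower.toAlgHom k₀ k P.F))) ψF D.ψ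
      (pullback.fst P.str (ptMap k₀ (IsScalarTower.toAlgHom k₀ k P.F))) := by
    have h1 : IsPullback (pullback.fst D.str (ptMap k₀ (IsScalarTower.toAlgHom k₀ k P.F)))
        (ψF ≫ pullback.snd _ _) (D.ψ ≫ P.str)
        (ptMap k₀ (IsScalarTower.toAlgHom k₀ k P.F)) := by
      rw [p2, D.ψ_str]
      exact IsPullback.of_hasPullback _ _
    exact IsPullback.of_bot h1 p1.symm (IsPullback.of_hasPullback _ _)
  -- the map `i`
  obtain ⟨i, j1, j2⟩ : ∃ i : D.U₀ ⟶ pullback D.str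
      (ptMap k₀ (IsScalarTower.toAlgHom k₀ k P.F)), i ≫ pullback.fst _ _ = D.toY ∧
      i ≫ pullback.snd _ _ = D.u₀ :=
    ⟨pullback.lift D.toY D.u₀ D.toY_str, pullback.lift_fst _ _ _, pullback.lift_snd _ _ _⟩
  have hw : i ≫ ψF = D.toP ≫ i₀ := by
    apply pullback.hom_ext
    · rw [Category.assoc, Category.assoc, p1, i2, ← Category.assoc, j1, D.isPB.w]
    · rw [Category.assoc, Category.assoc, p2, i1, j2]
      rfl
  have hL : IsPullback i D.toP ψF i₀ := by
    have h1 : IsPullback (i ≫ pullback.fst _ _) D.toP D.ψ (i₀ ≫ pullback.fst _ _) := by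
      rw [j1, i2]
      exact D.isPB.flip
    exact IsPullback.of_right h1 hw hR
  have hy₀ := P.isSm₀ m hn
  have e2 : T.push i 1 = T.pull (pullback.fst _ _) (T.pull D.ψ (P.h T)) := by
    have h3 := E.transversal (pullback.snd P.str (ptMap k₀ (IsScalarTower.toAlgHom k₀ k P.F)))
      i₀ i D.toP ψF hL.flip vPF.isSm (by rw [i1]; exact hy₀) (by rw [p2]; exact vYF.isSm)
      (by rw [p2, j2]; exact hU₀.isSm) inferInstance (m + 1) m (D.N + 1) D.N vPF.smooth
      (by rw [i1]; exact P.smooth₀ m hn) (by rw [p2]; exact vYF.smooth)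
      (by rw [p2, j2]; exact hU₀.smooth) (by omega) 1
    rw [map_one (T.pull D.toP)] at h3
    rw [← h3, e1, ← T.pull_comp _ _ vYF.sm vPF.sm hX.sm, p1,
      T.pull_comp _ _ vYF.sm D.isVar.sm hX.sm]
  have ciF : IsClosedImmersion i.left :=
    MorphismProperty.of_isPullback (P := @IsClosedImmersion) (hL.map (Over.forget _)).flip ci
  -- the level of `L`
  have hQ := IsPullback.of_hasPullback
    (pullback.snd D.str (ptMap k₀ (IsScalarTower.toAlgHom k₀ k P.F)))
    (ptMap k₀ (IsScalarTower.toAlgHom k₀ P.F P.L))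
  have vXL := genclass_var hQ vYF
  obtain ⟨j, jj1, jj2⟩ : ∃ j : D.U ⟶ pullback
      (pullback.snd D.str (ptMap k₀ (IsScalarTower.toAlgHom k₀ k P.F)))
      (ptMap k₀ (IsScalarTower.toAlgHom k₀ P.F P.L)), j ≫ pullback.snd _ _ = D.u ∧
      IsPullback D.pU j i (pullback.fst _ _) := by
    have hw : (D.pU ≫ i) ≫ pullback.snd D.str (ptMap k₀ (IsScalarTower.toAlgHom k₀ k P.F)) =
        D.u ≫ ptMap k₀ (IsScalarTower.toAlgHom k₀ P.F P.L) := by
      rw [Category.assoc, j2, D.isBC.w]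
    refine ⟨hQ.lift _ _ hw, hQ.lift_snd _ _ _, ?_⟩
    refine IsPullback.of_bot ?_ (hQ.lift_fst _ _ _).symm hQ
    rw [hQ.lift_snd, j2]
    exact D.isBC
  have hbig := hQ.paste_horiz (IsPullback.of_hasPullback D.str
    (ptMap k₀ (IsScalarTower.toAlgHom k₀ k P.F)))
  rw [P.pt_comp] at hbig
  have htr := E.tr_field D.str _ _ (D.N + 1) D.isVar hbig
  have e3 : T.pull (pullback.fst (pullback.snd D.str
      (ptMap k₀ (IsScalarTower.toAlgHom k₀ k P.F)))
      (ptMap k₀ (IsScalarTower.toAlgHom k₀ P.F P.L)) ≫ pullback.fst D.str _)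
      (T.pull D.ψ (P.h T)) = T.pull (pullback.fst _ _) (T.push i 1) := by
    rw [T.pull_comp _ _ vXL.sm vYF.sm D.isVar.sm, e2]
  have hfl : Flat (pullback.fst (pullback.snd D.str
      (ptMap k₀ (IsScalarTower.toAlgHom k₀ k P.F)))
      (ptMap k₀ (IsScalarTower.toAlgHom k₀ P.F P.L))).left :=
    MorphismProperty.of_isPullback (P := @Flat) (hQ.map (Over.forget _)).flip
      genclass_flat_field
  have e4 := T.push_baseChange i j D.pU _ jj2 hU₀.sm vYF.sm hU.sm vXL.sm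
    inferInstance hfl 1
  rw [map_one (T.pull D.pU), ← e3] at e4
  have e5 : D.r = j ≫ pullback.fst _ _ ≫ pullback.fst _ _ := by
    rw [← Category.assoc, ← jj2.w, Category.assoc, j1]
    rfl
  rw [e5, T.pullH_comp _ _ hU.isWeil vXL.isWeil D.isVar.isWeil, ← htr, map_mul,
    ← T.cl_pull _ vXL.isWeil D.isVar.isWeil, e4,
    T.cl_push D.u _ j jj1 D.N (D.N + 1) hU vXL, map_one, one_mul]

end Pool.Agent.Lib.MP_4ca46c_ag.Two
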