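import Mathlib
import Pool.Agent.Lib.MP_4ca46c_ag.Two.SpecN

/-!
# Cycles supported on `ψ = ψ'`
-/

set_option autoImplicit false

namespace Pool.Agent.Lib.MP_4ca46c_ag.Two

open CategoryTheory Limits AlgebraicGeometry TensorProduct MonoidalCategory
  CartesianMonoidalCategory
open Pool.Agent.Lib.MP_4ca46c_ag.Sign Pool.Agent.Lib.MP_4ca46c_ag.Hyp
open Pool.Agent.Lib.MP_4ca46c_ag.Std Pool.Agent.Lib.MP_4ca46c_ag.Geo

namespace NetDelAux

variable {k₀ : Type} [Field k₀]

section graph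

variable {F : Type} [Field F] [Algebra k₀ F] {T₀ X : Sch k₀} {t : T₀ ⟶ pt k₀ F}
  {x : X ⟶ pt k₀ F}

/-- The graph of a morphism over `F`. -/
noncomputable def graph (f : T₀ ⟶ X) (hf : f ≫ x = t) : T₀ ⟶ pullback t x :=
  pullback.lift (𝟙 _) f (by rw [Category.id_comp, hf])

theorem graph_fst (f : T₀ ⟶ X) (hf : f ≫ x = t) : graph f hf ≫ pullback.fst t x = 𝟙 _ :=
  pullback.lift_fst _ _ _

theorem graph_snd (f : T₀ ⟶ X) (hf : f ≫ x = t) : graph f hf ≫ pullback.snd t x = f :=
  pullback.lift_snd _ _ _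

theorem graph_closed (f : T₀ ⟶ X) (hf : f ≫ x = t) (hx : IsSeparated x.left) :
    IsClosedImmersion (graph f hf).left := by
  have h1 : IsPullback (pullback.fst t x).left (pullback.snd t x).left t.left x.left :=
    (IsPullback.of_hasPullback t x).map (Over.forget _)
  have h2 : IsSeparated (pullback.fst t x).left :=
    MorphismProperty.of_isPullback (P := @IsSeparated) h1.flip hx
  have h3 : (graph f hf).left ≫ (pullback.fst t x).left = 𝟙 T₀.left := by
    rw [← Over.comp_left, graph_fst]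
    rfl
  have h4 : IsClosedImmersion ((graph f hf).left ≫ (pullback.fst t x).left) := by
    rw [h3]
    infer_instance
  exact IsClosedImmersion.of_comp (graph f hf).left (pullback.fst t x).left

end graph

section diagonal

variable {F : Type} [Field F] [Algebra k₀ F] {k : Type} [Field k] [Algebra k₀ k]
  {T₀ X P : Sch k₀} {t : T₀ ⟶ pt k₀ F} {x : X ⟶ pt k₀ F} {str : P ⟶ pt k₀ k} {q : X ⟶ P}
  {s : pt k₀ F ⟶ pt k₀ k}

/-- The map `(t, x) ↦ (q x, q (f t))`. -/
noncomputable def toSq (hX : IsPullback q x str s) (f : T₀ ⟶ X) (hf : f ≫ x = t) :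
    pullback t x ⟶ pullback str str :=
  pullback.lift (pullback.snd t x ≫ q) (pullback.fst t x ≫ f ≫ q) (by
    rw [Category.assoc, Category.assoc, Category.assoc, hX.w, ← Category.assoc f, hf,
      ← Category.assoc, ← Category.assoc, pullback.condition])

theorem toSq_fst (hX : IsPullback q x str s) (f : T₀ ⟶ X) (hf : f ≫ x = t) :
    toSq hX f hf ≫ pullback.fst str str = pullback.snd t x ≫ q := pullback.lift_fst _ _ _

theorem toSq_snd (hX : IsPullback q x str s) (f : T₀ ⟶ X) (hf : f ≫ x = t) :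
    toSq hX f hf ≫ pullback.snd str str = pullback.fst t x ≫ f ≫ q := pullback.lift_snd _ _ _

theorem graph_isPullback (hX : IsPullback q x str s) (f : T₀ ⟶ X) (hf : f ≫ x = t) :
    IsPullback (graph f hf) (f ≫ q) (toSq hX f hf) (pullback.diagonal str) := by
  refine ⟨⟨?_⟩, ⟨PullbackCone.IsLimit.mk _ (fun c => c.fst ≫ pullback.fst t x) ?_ ?_ ?_⟩⟩
  · apply pullback.hom_ext
    · rw [Category.assoc, Category.assoc, toSq_fst, pullback.diagonal_fst, Category.comp_id,
        ← Category.assoc, graph_snd]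
    · rw [Category.assoc, Category.assoc, toSq_snd, pullback.diagonal_snd, Category.comp_id,
        ← Category.assoc, graph_fst, Category.id_comp]
  · intro c
    have e1 : c.fst ≫ pullback.snd t x ≫ q = c.snd := by
      rw [← toSq_fst hX f hf, ← Category.assoc, c.condition, Category.assoc,
        pullback.diagonal_fst, Category.comp_id]
    have e2 : c.fst ≫ pullback.fst t x ≫ f ≫ q = c.snd := by
      rw [← toSq_snd hX f hf, ← Category.assoc, c.condition, Category.assoc,
        pullback.diagonal_snd, Category.comp_id]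
    have e3 : c.fst ≫ pullback.fst t x ≫ f = c.fst ≫ pullback.snd t x := by
      apply hX.hom_ext
      · rw [Category.assoc, Category.assoc, Category.assoc, e1, e2]
      · rw [Category.assoc, Category.assoc, Category.assoc, hf, pullback.condition]
    apply pullback.hom_ext
    · rw [Category.assoc, graph_fst, Category.comp_id]
    · rw [Category.assoc, graph_snd, Category.assoc, e3]
  · intro c
    rw [Category.assoc, ← toSq_snd hX f hf, ← Category.assoc, c.condition, Category.assoc,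
      pullback.diagonal_snd, Category.comp_id]
  · intro c m h1 _
    rw [← h1, Category.assoc, graph_fst, Category.comp_id]

theorem graph_complement (hX : IsPullback q x str s) (f : T₀ ⟶ X) (hf : f ≫ x = t)
    {U : Sch k₀} {incl : U ⟶ pullback str str}
    (hU : IsComplement (pullback.diagonal str) incl) :
    IsComplement (graph f hf) (pullback.fst (toSq hX f hf) incl) := by
  have hD : IsPullback (graph f hf).left (f ≫ q).left (toSq hX f hf).left
      (pullback.diagonal str).left :=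
    (graph_isPullback hX f hf).map (Over.forget _)
  have hQ : IsPullback (pullback.fst (toSq hX f hf) incl).left
      (pullback.snd (toSq hX f hf) incl).left (toSq hX f hf).left incl.left :=
    (IsPullback.of_hasPullback (toSq hX f hf) incl).map (Over.forget _)
  refine ⟨?_, ?_, ?_⟩
  · exact MorphismProperty.of_isPullback (P := @IsClosedImmersion) hD.flip hU.closed
  · exact MorphismProperty.of_isPullback (P := @IsOpenImmersion) hQ.flip hU.isOpen
  · rw [compl_range hD, compl_range hQ, hU.compl, Set.preimage_compl]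

theorem graph_toSq (hX : IsPullback q x str s) (f g : T₀ ⟶ X) (hf : f ≫ x = t)
    (hg : g ≫ x = t) (h : (f ≫ q) ≫ str = (g ≫ q) ≫ str) :
    graph f hf ≫ toSq hX g hg = pullback.lift (f ≫ q) (g ≫ q) h := by
  apply pullback.hom_ext
  · rw [Category.assoc, toSq_fst, ← Category.assoc, graph_snd, pullback.lift_fst]
  · rw [Category.assoc, toSq_snd, ← Category.assoc, graph_fst, Category.id_comp,
      pullback.lift_snd]

end diagonal

section main

variable {K : Type} [Field K] (T : WeilTheory k₀ K)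
  {F : Type} [Field F] [Algebra k₀ F] {k : Type} [Field k] [Algebra k₀ k]
  {L : Type} [Field L] [Algebra k₀ L] [IsAlgClosed L] [Algebra F L] [IsScalarTower k₀ F L]
  {T₀ X P U Q₀ T' : Sch k₀} {t : T₀ ⟶ pt k₀ F} {x : X ⟶ pt k₀ F} {str : P ⟶ pt k₀ k}
  {q : X ⟶ P} {s : pt k₀ F ⟶ pt k₀ k} {incl : U ⟶ pullback str str} {jQ : Q₀ ⟶ T₀}
  {uQ : Q₀ ⟶ U} {e : T' ⟶ T₀} {t' : T' ⟶ pt k₀ L} {m n : ℕ}

/-- The localization step. -/
theorem step (hX : IsPullback q x str s) (ht : IsVar t m) (hx : IsVar x n)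
    (hU : IsComplement (pullback.diagonal str) incl) (f g : T₀ ⟶ X) (hf : f ≫ x = t)
    (hg : g ≫ x = t) (h : (f ≫ q) ≫ str = (g ≫ q) ≫ str)
    (hQ : IsPullback jQ uQ (pullback.lift (f ≫ q) (g ≫ q) h) incl) (sQ : Sm Q₀)
    (p : ℕ) (β : T.CH T₀) (hβ : β ∈ T.codim T₀ p) (h0 : T.pull jQ β = 0) :
    ∃ b ∈ T.codim T₀ p, T.push (graph g hg) b = T.push (graph f hf) β := by
  have hz : IsVar (pullback.fst t x ≫ t) (m + n) := Var.isVar_prod ht hx
  have hsep : IsSeparated x.left := by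
    have := hx.proper
    infer_instance
  have cf : IsClosedImmersion (graph f hf).left := graph_closed f hf hsep
  have hC := graph_complement hX g hg hU
  have hj : IsOpenImmersion (pullback.fst (toSq hX g hg) incl).left := hC.isOpen
  obtain ⟨sZ', -⟩ := sms_open (sms_isSm hz) _ hj
  have hsq := IsPullback.of_hasPullback (toSq hX g hg) incl
  have hw : uQ ≫ incl = (jQ ≫ graph f hf) ≫ toSq hX g hg := by
    rw [Category.assoc, graph_toSq hX f g hf hg h, hQ.w]
  have hbig : IsPullback (hsq.lift (jQ ≫ graph f hf) uQ hw.symm ≫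
      pullback.snd (toSq hX g hg) incl) jQ incl (graph f hf ≫ toSq hX g hg) := by
    rw [hsq.lift_snd, graph_toSq hX f g hf hg h]
    exact hQ.flip
  have hsm : IsPullback jQ (hsq.lift (jQ ≫ graph f hf) uQ hw.symm) (graph f hf)
      (pullback.fst (toSq hX g hg) incl) :=
    (IsPullback.of_right hbig (hsq.lift_fst _ _ _) hsq.flip).flip
  have hbc := T.push_baseChange (graph f hf) _ jQ _ hsm (sms_sm ht) (sms_sm hz) sQ
    ⟨_, _, _, _, sZ'⟩ inferInstance inferInstance β
  rw [h0, map_zero] at hbc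
  have hst : ∀ (f : T₀ ⟶ X) (hf : f ≫ x = t), graph f hf ≫ pullback.fst t x ≫ t = t := by
    intro f hf
    rw [← Category.assoc, graph_fst, Category.id_comp]
  exact T.localization t (pullback.fst t x ≫ t) (graph g hg) _ (hst g hg) (sms_isSm ht)
    (sms_isSm hz) hC m n ht.smooth hz.smooth p _
    (T.push_mem t (pullback.fst t x ≫ t) (graph f hf) (hst f hf) (sms_isSm ht) (sms_isSm hz)
      inferInstance m (m + n) ht.smooth hz.smooth p (p + n) (by omega) β hβ) hbc

/-- Base change to `L`. -/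
theorem trace (ht : IsVar t m) (hx : IsVar x n) (hP : IsWeil P)
    (hB : IsPullback e t' t (ptMap k₀ (IsScalarTower.toAlgHom k₀ F L)))
    (f g : T₀ ⟶ X) (hf : f ≫ x = t) (hg : g ≫ x = t) (β b : T.CH T₀)
    (hb : T.push (graph g hg) b = T.push (graph f hf) β) (q : X ⟶ P) (c : T.CH P)
    (v : T.H T') :
    T.tr T' (T.cl T' (T.pull e β) * (T.pullH (e ≫ f ≫ q) (T.cl P c) * v)) =
      T.tr T' (T.cl T' (T.pull e b) * (T.pullH (e ≫ g ≫ q) (T.cl P c) * v)) := by
  have hz : IsVar (pullback.fst t x ≫ t) (m + n) := Var.isVar_prod ht hx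
  have ht' : IsVar t' m := genclass_var hB ht
  have hZ := IsPullback.of_hasPullback (pullback.fst t x ≫ t)
    (ptMap k₀ (IsScalarTower.toAlgHom k₀ F L))
  have hz' := genclass_var hZ hz
  have hsep : IsSeparated x.left := by
    have := hx.proper
    infer_instance
  have wT : IsWeil T' := ⟨L, _, _, ‹_›, t', m, ht'⟩
  have wZ : IsWeil (pullback (pullback.fst t x ≫ t)
    (ptMap k₀ (IsScalarTower.toAlgHom k₀ F L))) := ⟨L, _, _, ‹_›, _, _, hz'⟩
  have hfl : Flat (pullback.fst (pullback.fst t x ≫ t)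
      (ptMap k₀ (IsScalarTower.toAlgHom k₀ F L))).left :=
    MorphismProperty.of_isPullback (P := @Flat) (hZ.map (Over.forget _)).flip
      genclass_flat_field
  have hst : ∀ (f : T₀ ⟶ X) (hf : f ≫ x = t), graph f hf ≫ pullback.fst t x ≫ t = t := by
    intro f hf
    rw [← Category.assoc, graph_fst, Category.id_comp]
  -- the projection to `T'`
  have hwp : (pullback.fst (pullback.fst t x ≫ t) (ptMap k₀ (IsScalarTower.toAlgHom k₀ F L)) ≫
      pullback.fst t x) ≫ t = pullback.snd (pullback.fst t x ≫ t) _ ≫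
        ptMap k₀ (IsScalarTower.toAlgHom k₀ F L) := by
    rw [Category.assoc, hZ.w]
  obtain ⟨pr, pr1, pr2⟩ : ∃ pr : pullback (pullback.fst t x ≫ t)
      (ptMap k₀ (IsScalarTower.toAlgHom k₀ F L)) ⟶ T', pr ≫ e = pullback.fst _ _ ≫
        pullback.fst t x ∧ pr ≫ t' = pullback.snd _ _ :=
    ⟨hB.lift _ _ hwp, hB.lift_fst _ _ _, hB.lift_snd _ _ _⟩
  have key : ∀ (f : T₀ ⟶ X) (hf : f ≫ x = t) (a : T.CH T₀),
      T.tr _ (T.cl _ (T.pull (pullback.fst (pullback.fst t x ≫ t)
        (ptMap k₀ (IsScalarTower.toAlgHom k₀ F L))) (T.push (graph f hf) a)) *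
        (T.pullH (pullback.fst _ _ ≫ pullback.snd t x ≫ q) (T.cl P c) * T.pullH pr v)) =
      T.tr T' (T.cl T' (T.pull e a) * (T.pullH (e ≫ f ≫ q) (T.cl P c) * v)) := by
    intro f hf a
    have cf : IsClosedImmersion (graph f hf).left := graph_closed f hf hsep
    have hwg : (e ≫ graph f hf) ≫ pullback.fst t x ≫ t =
        t' ≫ ptMap k₀ (IsScalarTower.toAlgHom k₀ F L) := by
      rw [Category.assoc, hst f hf, hB.w]
    obtain ⟨γ, γ1, γ2⟩ : ∃ γ : T' ⟶ pullback (pullback.fst t x ≫ t)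
        (ptMap k₀ (IsScalarTower.toAlgHom k₀ F L)), γ ≫ pullback.fst _ _ = e ≫ graph f hf ∧
          γ ≫ pullback.snd _ _ = t' :=
      ⟨hZ.lift _ _ hwg, hZ.lift_fst _ _ _, hZ.lift_snd _ _ _⟩
    have hsq : IsPullback e γ (graph f hf) (pullback.fst (pullback.fst t x ≫ t)
        (ptMap k₀ (IsScalarTower.toAlgHom k₀ F L))) := by
      refine IsPullback.of_bot ?_ γ1.symm hZ
      rw [γ2, hst f hf]
      exact hB
    rw [T.push_baseChange (graph f hf) γ e _ hsq (sms_sm ht) (sms_sm hz) (sms_sm ht')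
      (sms_sm hz') inferInstance hfl a, T.cl_push t' _ γ γ2 _ _ ht' hz', map_mul (T.pullH γ),
      ← T.pullH_comp γ _ wT wZ hP, ← T.pullH_comp γ pr wT wZ wT]
    have e1 : γ ≫ pullback.fst (pullback.fst t x ≫ t)
        (ptMap k₀ (IsScalarTower.toAlgHom k₀ F L)) ≫ pullback.snd t x ≫ q = e ≫ f ≫ q := by
      rw [← Category.assoc, γ1, Category.assoc, ← Category.assoc (graph f hf), graph_snd]
    have e2 : γ ≫ pr = 𝟙 _ := by
      apply hB.hom_ext
      · rw [Category.assoc, pr1, ← Category.assoc, γ1, Category.assoc, graph_fst,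
          Category.comp_id, Category.id_comp]
      · rw [Category.assoc, pr2, γ2, Category.id_comp]
    rw [e1, e2, T.pullH_id wT]
  rw [← key f hf β, ← key g hg b, hb]

theorem main (hX : IsPullback q x str s) (ht : IsVar t m) (hx : IsVar x n) (hP : IsWeil P)
    (hU : IsComplement (pullback.diagonal str) incl)
    (hB : IsPullback e t' t (ptMap k₀ (IsScalarTower.toAlgHom k₀ F L)))
    (f g : T₀ ⟶ X) (hf : f ≫ x = t) (hg : g ≫ x = t) (h : (f ≫ q) ≫ str = (g ≫ q) ≫ str)
    (hQ : IsPullback jQ uQ (pullback.lift (f ≫ q) (g ≫ q) h) incl) (sQ : Sm Q₀)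
    (p : ℕ) (β : T.CH T₀) (hβ : β ∈ T.codim T₀ p) (h0 : T.pull jQ β = 0) (c : T.CH P)
    (v : T.H T') :
    T.tr T' (T.cl T' (T.pull e β) * T.pullH (e ≫ f ≫ q) (T.cl P c) * v) =
      T.tr T' (T.cl T' (T.pull e β) * T.pullH (e ≫ g ≫ q) (T.cl P c) * v) := by
  obtain ⟨b, -, hb⟩ := step T hX ht hx hU f g hf hg h hQ sQ p β hβ h0
  have ht' : IsVar t' m := genclass_var hB ht
  have wT : IsWeil T' := ⟨L, _, _, ‹_›, t', m, ht'⟩
  have hcl : T.cl T' (T.pull e β) = T.cl T' (T.pull e b) := by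
    rw [← sub_eq_zero]
    refine T.poincare T' wT _ fun v => ?_
    have h1 := trace T ht hx hP hB f g hf hg β b hb q 1 v
    rw [map_one (T.cl P), map_one (T.pullH (e ≫ f ≫ q)), map_one (T.pullH (e ≫ g ≫ q)),
      one_mul] at h1
    rw [sub_mul, map_sub, h1, sub_self]
  rw [mul_assoc, mul_assoc, trace T ht hx hP hB f g hf hg β b hb q c v, hcl]

end main

end NetDelAux

theorem tNetDel (k₀ K : Type) [Field k₀] [Field K] (h : StNetSm k₀) : StNetDel k₀ K := by
  intro T k _ _ _ P D β hβ h0 c v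
  obtain ⟨-, -, -, -, -, sQ, -, -, -, v₀, -, -, -, -, -, hB, -⟩ := h k P D
  have hX := IsPullback.of_hasPullback P.str (ptMap k₀ (IsScalarTower.toAlgHom k₀ k P.F))
  have vX := genclass_var hX P.isVar
  have hs : ∀ a : D.UU₀ ⟶ D.U₀, (a ≫ D.toY ≫ D.ψ) ≫ P.str =
      (a ≫ D.u₀) ≫ ptMap k₀ (IsScalarTower.toAlgHom k₀ k P.F) := by
    intro a
    rw [Category.assoc, Category.assoc, D.ψ_str, D.toY_str, Category.assoc]
  have hs2 : (pullback.snd D.u₀ D.u₀ ≫ D.toY ≫ D.ψ) ≫ P.str =
      (pullback.fst D.u₀ D.u₀ ≫ D.u₀) ≫ ptMap k₀ (IsScalarTower.toAlgHom k₀ k P.F) := by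
    rw [hs, pullback.condition]
  obtain ⟨f, f1, f2⟩ : ∃ f : D.UU₀ ⟶ pullback P.str
      (ptMap k₀ (IsScalarTower.toAlgHom k₀ k P.F)),
      f ≫ pullback.fst _ _ = pullback.fst D.u₀ D.u₀ ≫ D.toY ≫ D.ψ ∧
        f ≫ pullback.snd _ _ = pullback.fst D.u₀ D.u₀ ≫ D.u₀ :=
    ⟨hX.lift _ _ (hs _), hX.lift_fst _ _ _, hX.lift_snd _ _ _⟩
  obtain ⟨g, g1, g2⟩ : ∃ g : D.UU₀ ⟶ pullback P.str
      (ptMap k₀ (IsScalarTower.toAlgHom k₀ k P.F)),
      g ≫ pullback.fst _ _ = pullback.snd D.u₀ D.u₀ ≫ D.toY ≫ D.ψ ∧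
        g ≫ pullback.snd _ _ = pullback.fst D.u₀ D.u₀ ≫ D.u₀ :=
    ⟨hX.lift _ _ hs2, hX.lift_fst _ _ _, hX.lift_snd _ _ _⟩
  have hfg : (f ≫ pullback.fst P.str (ptMap k₀ (IsScalarTower.toAlgHom k₀ k P.F))) ≫ P.str =
      (g ≫ pullback.fst P.str (ptMap k₀ (IsScalarTower.toAlgHom k₀ k P.F))) ≫ P.str := by
    rw [f1, g1, hs, hs2]
  have hρ : D.ρ ≫ D.ψψ = pullback.lift (f ≫ pullback.fst P.str _)
      (g ≫ pullback.fst P.str _) hfg := by
    apply pullback.hom_ext
    · rw [pullback.lift_fst, f1, Category.assoc, Net.ψψ, pullback.lift_fst, ← Category.assoc,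
        Net.ρ, pullback.lift_fst, Category.assoc]
    · rw [pullback.lift_snd, g1, Category.assoc, Net.ψψ, pullback.lift_snd, ← Category.assoc,
        Net.ρ, pullback.lift_snd, Category.assoc]
  have hQ : IsPullback D.jQ (pullback.snd D.ρ D.incl ≫ pullback.snd D.ψψ P.G.incl)
      (D.ρ ≫ D.ψψ) P.G.incl := by
    have q1 : IsPullback (pullback.snd D.ρ D.incl) (pullback.fst D.ρ D.incl) D.incl D.ρ :=
      (IsPullback.of_hasPullback D.ρ D.incl).flip
    have q2 : IsPullback (pullback.snd D.ψψ P.G.incl) (pullback.fst D.ψψ P.G.incl) P.G.incl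
      D.ψψ := (IsPullback.of_hasPullback D.ψψ P.G.incl).flip
    exact (q1.paste_horiz q2).flip
  rw [hρ] at hQ
  have hPW : IsWeil P.X := ⟨k, _, _, ‹_›, P.str, P.n, P.isVar⟩
  have key := NetDelAux.main T hX v₀ vX hPW P.G.complement hB f g f2 g2 hfg hQ sQ D.N β hβ h0
    c v
  have e1 : D.e2 ≫ f ≫ pullback.fst P.str _ = pullback.fst D.u D.u ≫ D.r ≫ D.ψ := by
    rw [f1, ← Category.assoc, Net.e2, pullback.lift_fst, Net.r, Category.assoc, Category.assoc]
  have e2 : D.e2 ≫ g ≫ pullback.fst P.str _ = pullback.snd D.u D.u ≫ D.r ≫ D.ψ := by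
    rw [g1, ← Category.assoc, Net.e2, pullback.lift_snd, Net.r, Category.assoc, Category.assoc]
  rw [e1, e2] at key
  exact key

end Pool.Agent.Lib.MP_4ca46c_ag.Two
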