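import Pool.Agent.Lib.MP_4ca46c_ag.Two.SpecN

/-!
# Two parameters: the structure `NetH` for the generic member
-/

set_option autoImplicit false

namespace Pool.Agent.Lib.MP_4ca46c_ag.Two

open CategoryTheory Limits AlgebraicGeometry TensorProduct MonoidalCategory
  CartesianMonoidalCategory
open Pool.Agent.Lib.MP_4ca46c_ag.Sign Pool.Agent.Lib.MP_4ca46c_ag.Hyp
open Pool.Agent.Lib.MP_4ca46c_ag.Std Pool.Agent.Lib.MP_4ca46c_ag.Geo
open Pool.Agent.Lib.MP_4ca46c_ag.Geo.WeilCohomology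

namespace NetHAux

section abs

variable {K : Type} [Field K] [CharZero K] {𝒱 𝒱' : Type 1} [Category.{0} 𝒱]
  [CartesianMonoidalCategory 𝒱] [Category.{0} 𝒱'] [CartesianMonoidalCategory 𝒱']
  (W : WeilCohomology K 𝒱) (W' : WeilCohomology K 𝒱')

/-- Classes of even degree are central. -/
theorem central {X : 𝒱} {e : W.H X} (he : e ∈ W.gr X 2) (z : W.H X) : e * z = z * e := by
  refine W.ind (P := fun z => e * z = z * e) z (by simp) (fun j z hz => ?_)
    (fun r s hr hs => by rw [mul_add, add_mul, hr, hs])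
  rw [W.comm he hz]
  have h : Even (2 * j) := ⟨j, by ring⟩
  rw [h.neg_one_pow, one_mul]

variable {W W'} {Y : 𝒱} {U : 𝒱'} (res : W.H Y →ₐ[K] W'.H U)

/-- The Gysin map. -/
noncomputable def gys : W'.H U →ₗ[K] W.H Y :=
  (W.dual Y).symm.toLinearMap ∘ₗ
    (((LinearMap.mul K (W'.H U)).compr₂ (W'.tr U)).compl₂ res.toLinearMap)

theorem gys_spec (y : W'.H U) (z : W.H Y) : W.tr Y (gys res y * z) = W'.tr U (y * res z) := by
  rw [← dual_apply]
  change W.dual Y ((W.dual Y).symm _) z = _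
  rw [LinearEquiv.apply_symm_apply]
  rfl

variable {res}

theorem gys_gr (hdim : W.dim Y = W'.dim U + 1)
    (hres : ∀ i z, z ∈ W.gr Y i → res z ∈ W'.gr U i) {j : ℕ} {y : W'.H U}
    (hy : y ∈ W'.gr U j) : gys res y ∈ W.gr Y (j + 2) := by
  refine W.mem_gr_of_tr fun l z hz hl => ?_
  rw [gys_spec]
  exact W'.tr_gr (SetLike.mul_mem_graded hy (hres l z hz)) (by omega)

theorem gys_spec' (hdim : W.dim Y = W'.dim U + 1)
    (hres : ∀ i z, z ∈ W.gr Y i → res z ∈ W'.gr U i) (b : W.H Y) (y : W'.H U) :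
    W.tr Y (b * gys res y) = W'.tr U (res b * y) := by
  refine W.ind (P := fun b => W.tr Y (b * gys res y) = W'.tr U (res b * y)) b (by simp)
    (fun i b hb => ?_) (fun r s hr hs => by simp only [add_mul, map_add, hr, hs])
  refine W'.ind (P := fun y => W.tr Y (b * gys res y) = W'.tr U (res b * y)) y (by simp)
    (fun j y hy => ?_) (fun r s hr hs => by simp only [mul_add, map_add, hr, hs])
  rw [W.tr_comm hb (gys_gr hdim hres hy), W'.tr_comm (hres i b hb) hy, gys_spec]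
  congr 1
  have h : i * (j + 2) = i * j + 2 * i := by ring
  rw [h, pow_add]
  have h2 : Even (2 * i) := ⟨i, by ring⟩
  rw [h2.neg_one_pow, mul_one]

theorem op_res (hdim : W.dim Y = W'.dim U + 1)
    (hres : ∀ i z, z ∈ W.gr Y i → res z ∈ W'.gr U i)
    (rr : W.H (Y ⊗ Y) →ₗ[K] W'.H (U ⊗ U))
    (hrr : ∀ a b, rr (W.tm a b) = W'.tm (res a) (res b)) (u : W.H (Y ⊗ Y)) (y : W'.H U) :
    W'.op (rr u) y = res (W.op u (gys res y)) := by
  refine W.ind_tm (P := fun u => W'.op (rr u) y = res (W.op u (gys res y))) u ?_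
    (fun a b => ?_) (fun u v hu hv => ?_)
  · rw [map_zero, W'.op_zero, W.op_zero, LinearMap.zero_apply, LinearMap.zero_apply, map_zero]
  · rw [hrr, W'.op_tm, W.op_tm, map_smul, gys_spec' hdim hres]
  · rw [map_add, W'.op_add, W.op_add, LinearMap.add_apply, LinearMap.add_apply, hu, hv, map_add]

theorem main {δ : W.H Y} (N : ℕ) (hY : W.dim Y = N + 1) (hU : W'.dim U = N)
    (hres : ∀ i z, z ∈ W.gr Y i → res z ∈ W'.gr U i) (hδ : δ ∈ W.gr Y 2)
    (htr : ∀ z, W'.tr U (res z) = W.tr Y (δ * z))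
    (rr : W.H (Y ⊗ Y) →ₗ[K] W'.H (U ⊗ U))
    (hrr : ∀ a b, rr (W.tm a b) = W'.tm (res a) (res b))
    (hs : ∀ m, W'.pi U m ∈ W'.Cor U U 0 → ∃ N₀ : ℕ, 0 < N₀ ∧ ∃ u ∈ W.Alg (Y ⊗ Y) N,
      ∃ x : W'.H (U ⊗ U), (∀ y, W'.op (rr u + x) y = (N₀ : K) • W'.pi U m y) ∧
      ∀ v, W'.tr (U ⊗ U) (x * W'.pull (fst U U) (res δ) * v) =
        W'.tr (U ⊗ U) (x * W'.pull (snd U U) (res δ) * v)) :
    Nonempty (NetH W W' Y U δ) := by
  have hdim : W.dim Y = W'.dim U + 1 := by rw [hY, hU]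
  have hrδ := hres 2 δ hδ
  refine ⟨⟨res, hres, hδ, htr, gys res, gys_spec res, ?_⟩⟩
  intro m hm
  obtain ⟨N₀, hN₀, u, hu, x, h1, h2⟩ := hs m hm
  have hne : (N₀ : K) ≠ 0 := Nat.cast_ne_zero.2 hN₀.ne'
  refine ⟨(((N₀ : ℚ)⁻¹ : ℚ) : K) • W.op u, W.cor_rat
    (W.mem_cor.2 (Or.inr ⟨N, u, by rw [hY]; push_cast; ring, hu, rfl⟩)) _,
    ((N₀ : K)⁻¹) • W'.op x, ?_, ?_⟩
  · intro y
    rw [LinearMap.smul_apply, LinearMap.smul_apply, mul_smul_comm]
    congr 1
    refine W'.ext_tr fun y' => ?_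
    have e1 : W'.tr U (res δ * W'.op x y * y') = W'.tr U (W'.op x y * (res δ * y')) := by
      rw [central W' hrδ, mul_assoc]
    rw [e1, W'.op_spec, W'.op_spec, map_mul (W'.pull (snd U U)), map_mul (W'.pull (fst U U))]
    have e2 : x * (W'.pull (snd U U) (res δ) * W'.pull (snd U U) y) *
        W'.pull (fst U U) y' = x * W'.pull (snd U U) (res δ) *
        (W'.pull (snd U U) y * W'.pull (fst U U) y') := by
      simp only [mul_assoc]
    have e3 : x * W'.pull (snd U U) y * (W'.pull (fst U U) (res δ) * W'.pull (fst U U) y') =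
        x * W'.pull (fst U U) (res δ) * (W'.pull (snd U U) y * W'.pull (fst U U) y') := by
      rw [mul_assoc x, ← mul_assoc (W'.pull (snd U U) y),
        ← central W' (W'.pull_gr (fst U U) hrδ) (W'.pull (snd U U) y)]
      simp only [mul_assoc]
    rw [e2, e3, h2]
  · intro y
    have h3 := h1 y
    rw [W'.op_add, LinearMap.add_apply, op_res hdim hres rr hrr] at h3
    have h4 : W'.pi U m y = ((N₀ : K)⁻¹) • ((N₀ : K) • W'.pi U m y) := by
      rw [smul_smul, inv_mul_cancel₀ hne, one_smul]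
    rw [h4, ← h3, smul_add, LinearMap.smul_apply, LinearMap.smul_apply, map_smul, Rat.cast_inv,
      Rat.cast_natCast]

end abs

end NetHAux

open NetHAux in
/-- The structure `NetH` for the generic member. -/
theorem tNetH (k₀ K : Type) [Field k₀] [Field K] [CharZero K] (h1 : StNetSm k₀)
    (h2 : StNetCH k₀ K) (h3 : StNetDel k₀ K) (h4 : StNetCls k₀ K) (h5 : StNetAvg k₀ K) :
    StNetH k₀ K := by
  intro hv T E k _ _ _ P D m hn
  obtain ⟨hY, hYY, hO, hU₀, hUU₀, hQ₀, hU, hUU, vYY, vUU₀, vUU, -⟩ := h1 k P D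
  have vU : IsVar D.u D.N := (hv k P D).2.1
  have wU : IsWeil D.U := vU.isWeil
  have wY : IsWeil D.Y := D.isVar.isWeil
  have wUU : IsWeil D.UU := vUU.isWeil
  have wYY : IsWeil D.YY := vYY.isWeil
  have wP : IsWeil P.X := P.isVar.isWeil
  have hf : (D.e2 ≫ D.ρ) ≫ pullback.fst D.str D.str = pullback.fst D.u D.u ≫ D.r := by
    rw [Category.assoc]
    have e1 : D.ρ ≫ pullback.fst D.str D.str = pullback.fst D.u₀ D.u₀ ≫ D.toY :=
      pullback.lift_fst _ _ _
    have e2 : D.e2 ≫ pullback.fst D.u₀ D.u₀ = pullback.fst D.u D.u ≫ D.pU :=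
      pullback.lift_fst _ _ _
    rw [e1, ← Category.assoc, e2, Category.assoc]
    rfl
  have hg : (D.e2 ≫ D.ρ) ≫ pullback.snd D.str D.str = pullback.snd D.u D.u ≫ D.r := by
    rw [Category.assoc]
    have e1 : D.ρ ≫ pullback.snd D.str D.str = pullback.snd D.u₀ D.u₀ ≫ D.toY :=
      pullback.lift_snd _ _ _
    have e2 : D.e2 ≫ pullback.snd D.u₀ D.u₀ = pullback.snd D.u D.u ≫ D.pU :=
      pullback.lift_snd _ _ _
    rw [e1, ← Category.assoc, e2, Category.assoc]
    rfl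
  have hδ : T.cl D.Y (T.pull D.ψ (P.h T)) = T.pullH D.ψ (T.cl P.X (P.h T)) :=
    T.cl_pull _ wY wP _
  have hfδ : T.pullH (pullback.fst D.u D.u ≫ D.r ≫ D.ψ) (T.cl P.X (P.h T)) =
      T.pullH (pullback.fst D.u D.u) (T.pullH D.r (T.cl D.Y (T.pull D.ψ (P.h T)))) := by
    rw [T.pullH_comp _ _ wUU wU wP, T.pullH_comp _ _ wU wY wP, hδ]
  have hgδ : T.pullH (pullback.snd D.u D.u ≫ D.r ≫ D.ψ) (T.cl P.X (P.h T)) =
      T.pullH (pullback.snd D.u D.u) (T.pullH D.r (T.cl D.Y (T.pull D.ψ (P.h T)))) := by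
    rw [T.pullH_comp _ _ wUU wU wP, T.pullH_comp _ _ wU wY wP, hδ]
  refine main (W := weil T k) (W' := weil T P.L) (Y := D.YV) (U := D.UV hv)
    (res := T.pullH D.r) D.N rfl rfl (fun i z hz => T.pullH_mem D.r wU wY i z hz)
    (T.cl_mem _ wY 1 _ (T.pull_mem _ hY P.isVar.sm 1 _ (P.h_mem T tPS tHyp)))
    (h4 T E k P D m hn) (T.pullH (D.e2 ≫ D.ρ)).toLinearMap ?_ ?_
  · intro a b
    change T.pullH (D.e2 ≫ D.ρ) (T.pullH (pullback.fst D.str D.str) a *
      T.pullH (pullback.snd D.str D.str) b) = T.pullH (pullback.fst D.u D.u) (T.pullH D.r a) *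
      T.pullH (pullback.snd D.u D.u) (T.pullH D.r b)
    rw [map_mul, ← T.pullH_comp _ _ wUU wYY wY, ← T.pullH_comp _ _ wUU wYY wY, hf, hg,
      T.pullH_comp _ _ wUU wU wY, T.pullH_comp _ _ wUU wU wY]
  · intro i hi
    obtain ⟨a, ha, ha2⟩ : ∃ a ∈ T.codim D.UU D.N, ∀ j, ∀ y ∈ T.deg D.U j, ∀ y',
        T.tr D.UU (T.cl D.UU a * T.pullH (pullback.snd D.u D.u) y *
          T.pullH (pullback.fst D.u D.u) y') = if j = i then T.tr D.U (y * y') else 0 := by
      let pii : T.H D.U → T.H D.U := fun y => (weil T P.L).pi (D.UV hv) i y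
      have hpi : ∀ j, ∀ y ∈ T.deg D.U j, ∀ y', T.tr D.U (pii y * y') =
          if j = i then T.tr D.U (y * y') else 0 := by
        intro j y hy y'
        by_cases hji : j = i
        · subst hji
          have e1 : pii y = y := (weil T P.L).pi_same hy
          rw [if_pos rfl, e1]
        · have e1 : pii y = 0 := (weil T P.L).pi_ne hy hji
          rw [if_neg hji, e1, zero_mul, map_zero]
      rcases (weil T P.L).mem_cor.1 hi with h0 | ⟨c, u, hc, ⟨a, ha, hu⟩, he⟩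
      · refine ⟨0, Submodule.zero_mem _, fun j y hy y' => ?_⟩
        have e1 : pii y = 0 := LinearMap.congr_fun h0 y
        rw [map_zero, zero_mul, zero_mul, map_zero, ← hpi j y hy y', e1, zero_mul, map_zero]
      · have hcN : c = D.N := by
          have : (c : ℤ) = (D.N : ℤ) + 0 := hc
          omega
        subst hcN
        refine ⟨a, ha, fun j y hy y' => ?_⟩
        rw [← hpi j y hy y']
        have e1 := (weil T P.L).op_spec (X := D.UV hv) (Y := D.UV hv) u y y'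
        rw [← he] at e1
        rw [← hu] at e1
        exact e1.symm
    obtain ⟨N₀, hN₀, b, hb, hb2⟩ := h5 T k P D i a ha ha2
    obtain ⟨w, hw, hw2⟩ := h2 T k P D D.N b hb
    have hw3 : T.pull D.ρ w ∈ T.codim D.UU₀ D.N := T.pull_mem _ hUU₀ hYY _ _ hw
    have hdel := h3 T k P D (b - T.pull D.ρ w) (Submodule.sub_mem _ hb hw3) hw2 (P.h T)
    rw [hfδ, hgδ] at hdel
    refine ⟨N₀, hN₀, T.cl D.YY w, ⟨w, hw, rfl⟩,
      T.cl D.UU (T.pull D.e2 (b - T.pull D.ρ w)), ?_, hdel⟩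
    intro y
    have e1 : T.pullH (D.e2 ≫ D.ρ) (T.cl D.YY w) +
        T.cl D.UU (T.pull D.e2 (b - T.pull D.ρ w)) = T.cl D.UU (T.pull D.e2 b) := by
      rw [← T.cl_pull _ wUU wYY, T.pull_comp _ _ hUU hUU₀ hYY, map_sub, map_sub]
      abel
    have e2 : (weil T P.L).op (X := D.UV hv) (Y := D.UV hv)
        ((T.pullH (D.e2 ≫ D.ρ)).toLinearMap (T.cl D.YY w) +
        T.cl D.UU (T.pull D.e2 (b - T.pull D.ρ w))) =
        (weil T P.L).op (X := D.UV hv) (Y := D.UV hv) (T.cl D.UU (T.pull D.e2 b)) :=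
      congrArg (fun z => (weil T P.L).op (X := D.UV hv) (Y := D.UV hv) z) e1
    refine (LinearMap.congr_fun e2 y).trans ?_
    refine (weil T P.L).ind (X := D.UV hv) (P := fun y => (weil T P.L).op (X := D.UV hv)
      (Y := D.UV hv) (T.cl D.UU (T.pull D.e2 b)) y = (N₀ : K) • (weil T P.L).pi (D.UV hv) i y) y
      (by rw [map_zero, map_zero, smul_zero]) (fun j y hy => ?_)
      (fun r s hr hs => by rw [map_add, map_add, smul_add, hr, hs])
    refine (weil T P.L).ext_tr fun y' => ?_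
    rw [(weil T P.L).op_spec]
    refine (hb2 j y hy y').trans ?_
    by_cases hji : j = i
    · subst hji
      rw [if_pos rfl, (weil T P.L).pi_same hy, smul_mul_assoc, map_smul, smul_eq_mul]
      rfl
    · rw [if_neg hji, (weil T P.L).pi_ne hy hji, smul_zero, zero_mul, map_zero]

end Pool.Agent.Lib.MP_4ca46c_ag.Two
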