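import Pool.Agent.Lib.MP_4ca46c_ag.Two.SpecU

/-!
# The net on the product of two projective lines
-/

namespace Pool.Agent.Lib.MP_4ca46c_ag.Two

open CategoryTheory Limits AlgebraicGeometry TensorProduct MonoidalCategory
  CartesianMonoidalCategory
open Pool.Agent.Lib.MP_4ca46c_ag.Sign Pool.Agent.Lib.MP_4ca46c_ag.Hyp
open Pool.Agent.Lib.MP_4ca46c_ag.Std Pool.Agent.Lib.MP_4ca46c_ag.Geo

namespace NetPPAux

/-- The polynomial of the determinant is not zero. -/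
theorem poly_ne (k : Type) [Field k] :
    (MvPolynomial.X 0 * MvPolynomial.X 1 + MvPolynomial.X 0 * MvPolynomial.X 2 +
      MvPolynomial.X 1 * MvPolynomial.X 2 : MvPolynomial (Fin 3) k) ≠ 0 := by
  intro h
  have h1 := congrArg (MvPolynomial.eval (![1, 1, 0] : Fin 3 → k)) h
  simp at h1

/-- The determinant of the generic vector is not zero. -/
theorem det_ne (k : Type) [Field k] :
    det3 (fun j : Fin 3 => algebraMap (MvPolynomial (Fin 3) k)
      (FractionRing (MvPolynomial (Fin 3) k)) (MvPolynomial.X j)) ≠ 0 := by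
  intro h
  apply poly_ne k
  apply IsFractionRing.injective (MvPolynomial (Fin 3) k) (FractionRing (MvPolynomial (Fin 3) k))
  simp only [det3] at h
  simp only [map_add, map_mul, map_zero]
  exact h

/-- The generic hyperplane section of a map to a projective variety. -/
theorem gen (h1 : StMemEx) (h2 : StMemGen) {k₀ k : Type} [Field k₀] [Field k] [Algebra k₀ k]
    (P : ProjVar k₀ k) {Z : Sch k₀} (z : Z ⟶ pt k₀ k) (ψ : Z ⟶ P.X) (hψ : ψ ≫ P.str = z)
    (φ : Z ⟶ PSo k₀ k P.κ) (hφ : ψ ≫ P.emb = φ) :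
    ∃ (C : Sch k₀) (toP : C ⟶ P.Y₀) (r : C ⟶ Z), IsPullback toP r P.r₀ ψ ∧
      IsMem z φ (fun j => algebraMap P.R P.F (MvPolynomial.X j)) r (toP ≫ P.y₀) := by
  subst hφ
  obtain ⟨C, r, u, hC⟩ := h1 k₀ k P.κ P.F Z z (ψ ≫ P.emb)
    (by rw [Category.assoc, P.emb_str, hψ]) (fun j => algebraMap P.R P.F (MvPolynomial.X j))
  obtain ⟨toP, hP, hu⟩ := h2 k₀ k P Z z ψ hψ C r u hC
  subst hu
  exact ⟨C, toP, r, hP, hC⟩

end NetPPAux

theorem tNetPP (h1 : StMemEx) (h2 : StMemGen) (h3 : StGraph) : StNetPP := by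
  intro k₀ k _ _ _ ψ₀ hψ
  obtain ⟨C, toP, r, hP, hC⟩ := NetPPAux.gen h1 h2 (P2 k₀ k)
    (pr₁ k₀ k ≫ PSo.str k₀ k (Fin 2)) ψ₀ hψ.1 ψ₀ (Category.comp_id ψ₀)
  have H := h3 k₀ k ψ₀ hψ
  have H2 := H (P2 k₀ k).F
  have H3 := H2 (fun j : Fin 3 => algebraMap (P2 k₀ k).R (P2 k₀ k).F (MvPolynomial.X j))
  have hd : det3 (fun j : Fin 3 => algebraMap (P2 k₀ k).R (P2 k₀ k).F (MvPolynomial.X j)) ≠ 0 :=
    NetPPAux.det_ne k
  obtain ⟨g1, g2⟩ := H3 hd C r (toP ≫ (P2 k₀ k).y₀) hC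
  have hl := g1.map (Over.forget _)
  have hv := pso_var k₀ k (Fin 2) 1 (by simp)
  refine ⟨C, toP, r, hP, ?_, ?_, g1, g2⟩
  · have hs := smoothOfRelativeDimension_isStableUnderBaseChange 1
    exact MorphismProperty.of_isPullback (P := @SmoothOfRelativeDimension 1) hl hv.smooth
  · have hc := hv.connected
    exact MorphismProperty.of_isPullback (P := @GeometricallyConnected) hl hc

end Pool.Agent.Lib.MP_4ca46c_ag.Two
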