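import Pool.Agent.Lib.MP_4ca46c_ag.Two.SpecL

/-!
# Two parameters: the section of the Gysin map of a hyperplane section
-/

namespace Pool.Agent.Lib.MP_4ca46c_ag.Two

open CategoryTheory MonoidalCategory CartesianMonoidalCategory TensorProduct
open Pool.Agent.Lib.MP_4ca46c_ag.Geo Pool.Agent.Lib.MP_4ca46c_ag.Geo.WeilCohomology

namespace PencSAux

variable {K : Type} [Field K] [CharZero K] {𝒱 : Type 1} [Category.{0} 𝒱]
  [CartesianMonoidalCategory 𝒱] {W : WeilCohomology K 𝒱}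

theorem push_comp' (W : WeilCohomology K 𝒱) {A B C : 𝒱} (f : A ⟶ B) (g : B ⟶ C) (x : W.H A) :
    W.push (f ≫ g) x = W.push g (W.push f x) := by
  refine W.push_eq _ _ _ fun y => ?_
  rw [W.push_spec, W.push_spec, W.pull_comp]

theorem alg_pow' (W : WeilCohomology K 𝒱) {X : 𝒱} {h : W.H X} (hh : h ∈ W.Alg X 1) :
    ∀ j : ℕ, h ^ j ∈ W.Alg X j
  | 0 => by rw [pow_zero]; exact W.alg_one X
  | j + 1 => by rw [pow_succ]; exact W.alg_mul (alg_pow' W hh j) hh

variable {X V Z : 𝒱} {h : W.H X}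

theorem push_i (P : Pencil W X V Z h) (v : W.H V) :
    W.push P.i v = W.push P.p (W.push P.ι v) := by
  rw [← push_comp', P.ι_p]

theorem pull_i (P : Pencil W X V Z h) (x : W.H X) :
    W.pull P.ι (W.pull P.p x) = W.pull P.i x := by
  rw [← W.pull_comp, P.ι_p]

theorem iota_pull (P : Pencil W X V Z h) (z : W.H Z) :
    W.push P.ι (W.pull P.ι z) = P.η * z := by
  rw [W.push_pull, P.cls_η]

theorem i_pull (P : Pencil W X V Z h) (x : W.H X) :
    W.push P.i (W.pull P.i x) = h * x := by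
  rw [W.push_pull, P.cls_V]

theorem p_pull (P : Pencil W X V Z h) (x : W.H X) :
    W.push P.p (W.pull P.p x) = x := by
  rw [W.push_pull, P.deg_p, one_mul]

theorem p_eta (P : Pencil W X V Z h) (y : W.H X) :
    W.push P.p (P.η * W.pull P.p y) = h * y := by
  rw [← iota_pull, ← push_i, pull_i, i_pull]

/-- step (1) -/
theorem step_one (P : Pencil W X V Z h) {m : ℕ} (hm : m < W.dim X) {v : W.H V}
    (hv : v ∈ W.gr V m) : ∃ x ∈ W.gr X m, W.push P.ι v = P.η * W.pull P.p x := by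
  have hV := P.dim_V
  have hZ := P.dim_Z
  by_cases hlt : m < W.dim V
  · obtain ⟨x, hx, hxv⟩ := P.weak_V m hlt v hv
    refine ⟨x, hx, ?_⟩
    rw [← hxv, ← pull_i, iota_pull]
  · have hmV : m = W.dim V := by omega
    have h1 : W.push P.i v ∈ W.gr X (m + 2 * 1) := W.push_gr P.i hv (by omega)
    obtain ⟨x, hx, hxv⟩ := (P.hard_X m 1 (by omega)).surjOn h1
    have hxv' : h * x = W.push P.i v := by
      have h2 : h ^ 1 * x = W.push P.i v := hxv
      rwa [pow_one] at h2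
    refine ⟨x, hx, ?_⟩
    have h3 : W.push P.i (v - W.pull P.i x) = 0 := by
      rw [map_sub, i_pull, hxv', sub_self]
    have hv' : v - W.pull P.i x ∈ W.gr V m := Submodule.sub_mem _ hv (W.pull_gr _ hx)
    have h4 : W.push P.ι (v - W.pull P.i x) ∈ W.gr Z (m + 2) := W.push_gr P.ι hv' (by omega)
    have h5 : W.push P.ι (v - W.pull P.i x) = 0 := by
      refine W.duality _ fun y => ?_
      refine W.ind (P := fun y => W.tr Z (W.push P.ι (v - W.pull P.i x) * y) = 0) y (by simp)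
        (fun l z hz => ?_) (fun a b ha hb => by rw [mul_add, map_add, ha, hb, add_zero])
      by_cases hl : m + 2 + l = 2 * W.dim Z
      · have hlm : l = m := by omega
        subst hlm
        obtain ⟨x', hx', y', hy', -, hz'⟩ := P.weak_Z l (by omega) z hz
        have e1 : W.pull P.ι z = W.pull P.i x' := by
          rw [hz', map_add, map_mul, P.η_ι, zero_mul, add_zero, pull_i]
        rw [W.push_spec, e1, ← W.push_spec, h3, zero_mul, map_zero]
      · exact W.tr_gr (SetLike.mul_mem_graded h4 hz) hl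
    rw [map_sub, sub_eq_zero] at h5
    rw [h5, ← pull_i, iota_pull]

/-- step (2) -/
theorem step_two (P : Pencil W X V Z h) {G : W.H Z →ₗ[K] W.H Z} (hG : G ∈ W.Cor Z Z (-1))
    (hη : ∀ z, P.η * G (P.η * z) = P.η * z) {m : ℕ} (hm : m < W.dim X) {v : W.H V}
    (hv : v ∈ W.gr V m) : ∃ x ∈ W.gr X m, ∃ y ∈ W.gr X (m - 2), (m < 2 → y = 0) ∧
      W.push P.p (G (W.push P.ι v)) = x + h * y ∧ W.push P.i v = h * x := by
  have hV := P.dim_V
  have hZ := P.dim_Z
  obtain ⟨x₁, hx₁, h1⟩ := step_one P hm hv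
  have h2 : P.η * G (W.push P.ι v) = W.push P.ι v := by rw [h1, hη]
  have h3 : W.push P.ι v ∈ W.gr Z (m + 2) := W.push_gr P.ι hv (by omega)
  have h4 : G (W.push P.ι v) ∈ W.gr Z m := W.cor_gr hG h3 (by push_cast; ring)
  obtain ⟨x, hx, y, hy, hy0, hz⟩ := P.weak_Z m (by omega) _ h4
  refine ⟨x, hx, y, hy, hy0, ?_, ?_⟩
  · rw [hz, map_add, p_pull, p_eta]
  · rw [push_i, ← h2, hz, mul_add, ← mul_assoc P.η P.η, P.η_sq, zero_mul, add_zero, p_eta]

end PencSAux

open PencSAux in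
theorem tPencS : StPencS := by
  intro K _ _ 𝒱 _ _ W X V Z h P hQ m hm hL
  obtain ⟨G, hG, hη⟩ := hQ
  have hV := P.dim_V
  have hZ := P.dim_Z
  have c1 : W.push P.p ∈ W.Cor X Z 0 := by
    have h1 := W.cor_push P.p
    have h2 : ((W.dim X : ℤ) - W.dim Z) = 0 := by rw [hZ]; ring
    rwa [h2] at h1
  have c2 : W.push P.ι ∈ W.Cor Z V 1 := by
    have h1 := W.cor_push P.ι
    have h2 : ((W.dim Z : ℤ) - W.dim V) = 1 := by rw [hZ, hV]; push_cast; ring
    rwa [h2] at h1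
  have c3 : W.push P.i ∈ W.Cor X V 1 := by
    have h1 := W.cor_push P.i
    have h2 : ((W.dim X : ℤ) - W.dim V) = 1 := by rw [hV]; push_cast; ring
    rwa [h2] at h1
  have cS : W.push P.p ∘ₗ G ∘ₗ W.push P.ι ∈ W.Cor X V 0 := by
    have h1 := W.cor_comp c1 (W.cor_comp hG c2)
    have h2 : (0 : ℤ) + (-1 + 1) = 0 := by norm_num
    rwa [h2] at h1
  by_cases hm2 : m < 2
  · refine ⟨_, cS, fun v hv => ?_⟩
    obtain ⟨x, hx, y, hy, hy0, h1, h2⟩ := step_two P hG hη hm hv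
    rw [LinearMap.comp_apply, LinearMap.comp_apply, h1, h2, hy0 hm2, mul_zero, add_zero]
  · obtain ⟨θ, hθ, hθ1⟩ := hL (by omega) (W.dim X - m + 2) (by omega)
    obtain ⟨j, hj⟩ : ∃ j, j = W.dim X - m := ⟨_, rfl⟩
    rw [← hj] at hθ hθ1
    have cm : LinearMap.mulLeft K h ∈ W.Cor X X 1 := by
      have h1 := W.cor_mul P.h_alg
      rwa [Nat.cast_one] at h1
    have cj : LinearMap.mulLeft K (h ^ j) ∈ W.Cor X X j := W.cor_mul (alg_pow' W P.h_alg j)
    have cd : LinearMap.mulLeft K h ∘ₗ (W.push P.p ∘ₗ G ∘ₗ W.push P.ι) - W.push P.i ∈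
        W.Cor X V 1 := by
      have h1 := W.cor_comp cm cS
      rw [add_zero] at h1
      exact AddSubgroup.sub_mem _ h1 c3
    have cT : LinearMap.mulLeft K h ∘ₗ θ ∘ₗ LinearMap.mulLeft K (h ^ j) ∘ₗ
        (LinearMap.mulLeft K h ∘ₗ (W.push P.p ∘ₗ G ∘ₗ W.push P.ι) - W.push P.i) ∈
        W.Cor X V 0 := by
      have h1 := W.cor_comp cm (W.cor_comp hθ (W.cor_comp cj cd))
      have h2 : (1 : ℤ) + (-((j + 2 : ℕ) : ℤ) + ((j : ℤ) + 1)) = 0 := by push_cast; ring
      rwa [h2] at h1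
    refine ⟨_, AddSubgroup.sub_mem _ cS cT, fun v hv => ?_⟩
    obtain ⟨x, hx, y, hy, hy0, h1, h2⟩ := step_two P hG hη hm hv
    have h3 : h ^ j * (h * (x + h * y) - h * x) = h ^ (j + 2) * y := by
      rw [mul_add, add_sub_cancel_left, pow_add, pow_two]
      simp only [mul_assoc]
    have h4 : (W.push P.p ∘ₗ G ∘ₗ W.push P.ι - LinearMap.mulLeft K h ∘ₗ θ ∘ₗ
        LinearMap.mulLeft K (h ^ j) ∘ₗ
        (LinearMap.mulLeft K h ∘ₗ (W.push P.p ∘ₗ G ∘ₗ W.push P.ι) - W.push P.i)) v = x := by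
      simp only [LinearMap.sub_apply, LinearMap.comp_apply, LinearMap.mulLeft_apply]
      rw [h1, h2, h3, hθ1 y hy, add_sub_cancel_right]
    rw [h4, h2]

end Pool.Agent.Lib.MP_4ca46c_ag.Two
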