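import Pool.Agent.Lib.MP_4ca46c_ag.Two.SpecL

/-!
# Conjecture B for `X` from conjecture B for the hyperplane section, in one degree
-/

set_option autoImplicit false

namespace Pool.Agent.Lib.MP_4ca46c_ag.Two

open CategoryTheory MonoidalCategory CartesianMonoidalCategory TensorProduct
open Pool.Agent.Lib.MP_4ca46c_ag.Geo Pool.Agent.Lib.MP_4ca46c_ag.Geo.WeilCohomology

namespace StepAux

variable {K : Type} [Field K] [CharZero K] {𝒱 : Type 1} [Category.{0} 𝒱]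
  [CartesianMonoidalCategory 𝒱] (W : WeilCohomology K 𝒱) {X V : 𝒱}

theorem comm_h {h : W.H X} (hh : h ∈ W.Alg X 1) {m : ℕ} {x : W.H X} (hx : x ∈ W.gr X m) :
    h * x = x * h := by
  have h2 : h ∈ W.gr X 2 := W.alg_gr hh
  rw [W.comm h2 hx, (even_two_mul m).neg_one_pow, one_mul]

/-- The transpose of `s` on `h ^ (j + 1) x`. -/
theorem transp {h : W.H X} (hh : h ∈ W.Alg X 1) {i : V ⟶ X}
    {m j : ℕ} (hj : m + j = W.dim V) {s : W.H V →ₗ[K] W.H X}
    (hsv : ∀ v ∈ W.gr V m, h * s v = W.push i v) {t : W.H X →ₗ[K] W.H V}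
    (ht : t ∈ W.Cor V X (-1)) (hts : ∀ x v, W.tr V (t x * v) = W.tr X (x * s v))
    {x : W.H X} (hx : x ∈ W.gr X m) : t (h ^ (j + 1) * x) = W.pull i (h ^ j * x) := by
  have h2 : h ∈ W.gr X 2 := W.alg_gr hh
  have e1 : h ^ (j + 1) * x ∈ W.gr X (m + 2 * (j + 1)) := W.pow_gr h2 (j + 1) hx
  have e2 : t (h ^ (j + 1) * x) ∈ W.gr V (m + 2 * j) := W.cor_gr ht e1 (by push_cast; ring)
  have e3 : W.pull i (h ^ j * x) ∈ W.gr V (m + 2 * j) := W.pull_gr i (W.pow_gr h2 j hx)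
  refine W.ext_tr fun v => ?_
  refine W.ind (P := fun v => W.tr V (t (h ^ (j + 1) * x) * v) =
    W.tr V (W.pull i (h ^ j * x) * v)) v (by simp) (fun l v hv => ?_)
    (fun a b ha hb => by simp only [mul_add, map_add, ha, hb])
  by_cases hl : l = m
  · subst hl
    rw [hts, ← W.push_spec', ← hsv v hv]
    congr 1
    rw [pow_succ, mul_assoc (h ^ j) h x, comm_h W hh hx, ← mul_assoc, mul_assoc]
  · rw [W.tr_gr (SetLike.mul_mem_graded e2 hv) (by omega),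
      W.tr_gr (SetLike.mul_mem_graded e3 hv) (by omega)]

end StepAux

theorem tStep : StTrp → StStep := by
  intro hT K _ _ 𝒱 _ _ W X V h i hdim hh hard hp m hm hs hV j hj
  obtain ⟨s, hs, hsv⟩ := hs
  obtain ⟨j, rfl⟩ : ∃ j', j = j' + 1 := ⟨j - 1, by omega⟩
  have hjV : m + j = W.dim V := by omega
  obtain ⟨f, hf, hfv⟩ := hV j hjV
  obtain ⟨t, ht, hts⟩ := hT K 𝒱 W X V 0 (-1) (by rw [hdim]; push_cast; ring) s hs
  have h1 : s ∘ₗ (f ∘ₗ t) ∈ W.Cor X X (0 + (-(j : ℤ) + -1)) :=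
    W.cor_comp hs (W.cor_comp hf ht)
  refine ⟨s ∘ₗ (f ∘ₗ t), ?_, fun x hx => ?_⟩
  · have e : (0 + (-(j : ℤ) + -1)) = -((j + 1 : ℕ) : ℤ) := by push_cast; ring
    rw [← e]
    exact h1
  · have hv : W.pull i x ∈ W.gr V m := W.pull_gr i hx
    have e1 : (s ∘ₗ (f ∘ₗ t)) (h ^ (j + 1) * x) = s (W.pull i x) := by
      rw [LinearMap.comp_apply, LinearMap.comp_apply,
        StepAux.transp W hh hjV hsv ht hts hx, map_mul, map_pow, hfv _ hv]
    rw [e1]
    have e2 : s (W.pull i x) ∈ W.gr X m := W.cor_gr hs hv (by ring)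
    have e3 : h * s (W.pull i x) = h * x := by
      rw [hsv _ hv, W.push_pull, hp]
    refine (hard m (j + 1) hj).injOn e2 hx ?_
    rw [pow_succ, mul_assoc, e3, mul_assoc]

end Pool.Agent.Lib.MP_4ca46c_ag.Two
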