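import Pool.Agent.Lib.MP_4ca46c_ag.Two.SpecL

/-!
# The transpose of an algebraic correspondence between two varieties
-/

namespace Pool.Agent.Lib.MP_4ca46c_ag.Two

open CategoryTheory MonoidalCategory CartesianMonoidalCategory TensorProduct
open Pool.Agent.Lib.MP_4ca46c_ag.Geo Pool.Agent.Lib.MP_4ca46c_ag.Geo.WeilCohomology

namespace TrpAux

variable {K : Type} [Field K] [CharZero K] {𝒱 : Type 1} [Category.{0} 𝒱]
  [CartesianMonoidalCategory 𝒱] (W : WeilCohomology K 𝒱)

/-- The exchange of the two factors. -/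
noncomputable def sw (X Y : 𝒱) : Y ⊗ X ⟶ X ⊗ Y := lift (snd Y X) (fst Y X)

/-- The trace is invariant under the exchange of the factors. -/
theorem tr_sw (X Y : 𝒱) (v : W.H (X ⊗ Y)) :
    W.tr (Y ⊗ X) (W.pull (sw X Y) v) = W.tr (X ⊗ Y) v := by
  refine W.ind_tm (P := fun v => W.tr (Y ⊗ X) (W.pull (sw X Y) v) = W.tr (X ⊗ Y) v) v
    (by simp only [map_zero]) (fun a b => ?_)
    (fun u w hu hw => by simp only [map_add, hu, hw])
  refine W.ind (P := fun a => W.tr (Y ⊗ X) (W.pull (sw X Y) (W.tm a b)) =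
    W.tr (X ⊗ Y) (W.tm a b)) a (by simp only [WeilCohomology.tm, map_zero, zero_mul])
    (fun i a ha => ?_) (fun r s hr hs => by
      simp only [WeilCohomology.tm, map_add, add_mul] at hr hs ⊢
      rw [hr, hs])
  refine W.ind (P := fun b => W.tr (Y ⊗ X) (W.pull (sw X Y) (W.tm a b)) =
    W.tr (X ⊗ Y) (W.tm a b)) b (by simp only [WeilCohomology.tm, map_zero, mul_zero])
    (fun j b hb => ?_) (fun r s hr hs => by
      simp only [WeilCohomology.tm, map_add, mul_add] at hr hs ⊢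
      rw [hr, hs])
  rw [sw, W.pull_tm, W.comm_smul (W.pull_gr _ ha) (W.pull_gr _ hb), map_smul, W.tr_tensor,
    WeilCohomology.tm, W.tr_tensor, smul_eq_mul]
  by_cases hi : i = 2 * W.dim X
  · have h : Even (i * j) := ⟨W.dim X * j, by rw [hi]; ring⟩
    rw [h.neg_one_pow, one_mul, mul_comm]
  · rw [W.tr_gr ha hi, mul_zero, zero_mul, mul_zero]

/-- The transpose. -/
theorem trp (X Y : 𝒱) (r s : ℤ) (hrs : s + W.dim X = r + W.dim Y) :
    ∀ f ∈ W.Cor X Y r, ∃ f' ∈ W.Cor Y X s,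
    ∀ x y, W.tr Y (f' x * y) = W.tr X (x * f y) := by
  intro f hf
  have hf0 := hf
  rcases W.mem_cor.1 hf with rfl | ⟨c, u, hc, hu, rfl⟩
  · exact ⟨0, AddSubgroup.zero_mem _, fun x y => by
      rw [LinearMap.zero_apply, LinearMap.zero_apply, zero_mul, mul_zero, map_zero, map_zero]⟩
  · refine ⟨W.op (W.pull (sw X Y) u),
      W.mem_cor.2 (Or.inr ⟨c, W.pull (sw X Y) u, by omega, W.alg_pull _ hu, rfl⟩),
      fun x y => ?_⟩
    have h1 : ∀ x : W.H X, W.pull (snd Y X) x = W.pull (sw X Y) (W.pull (fst X Y) x) := by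
      intro x
      rw [← W.pull_comp, sw, lift_fst]
    have h2 : ∀ y : W.H Y, W.pull (fst Y X) y = W.pull (sw X Y) (W.pull (snd X Y) y) := by
      intro y
      rw [← W.pull_comp, sw, lift_snd]
    rw [W.op_spec, h1 x, h2 y, ← map_mul, ← map_mul, tr_sw]
    refine W.ind (P := fun x => W.tr (X ⊗ Y) (u * W.pull (fst X Y) x * W.pull (snd X Y) y) =
      W.tr X (x * W.op u y)) x (by simp) (fun j x hx => ?_)
      (fun a b ha hb => by simp only [map_add, add_mul, mul_add, ha, hb])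
    refine W.ind (P := fun y => W.tr (X ⊗ Y) (u * W.pull (fst X Y) x * W.pull (snd X Y) y) =
      W.tr X (x * W.op u y)) y (by simp) (fun k y hy => ?_)
      (fun a b ha hb => by simp only [map_add, mul_add, ha, hb])
    rw [mul_assoc, W.comm_smul (W.pull_gr (fst X Y) hx) (W.pull_gr (snd X Y) hy), mul_smul_comm,
      map_smul, smul_eq_mul, ← mul_assoc, ← W.op_spec]
    by_cases hm : (k : ℤ) + 2 * r < 0
    · rw [W.cor_gr_zero hf0 hy hm, zero_mul, mul_zero, map_zero, mul_zero]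
    · obtain ⟨m, hm'⟩ := Int.eq_ofNat_of_zero_le (not_lt.1 hm)
      have h3 : W.op u y ∈ W.gr X m := W.cor_gr hf0 hy hm'.symm
      rw [W.tr_comm h3 hx, ← mul_assoc, ← pow_add]
      have h4 : Even (j * k + m * j) := by
        have h5 : (m : ℤ) = k + 2 * r := hm'.symm
        have h6 : Even ((j : ℤ) * k + m * j) := ⟨j * (k + r), by rw [h5]; ring⟩
        exact_mod_cast h6
      rw [h4.neg_one_pow, one_mul]

end TrpAux

theorem tTrp : StTrp := by
  intro K _ _ 𝒱 _ _ W X Y r s hrs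
  exact TrpAux.trp W X Y r s hrs

end Pool.Agent.Lib.MP_4ca46c_ag.Two
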