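import Pool.Agent.Lib.MP_4ca46c_ag.Two.SpecN

/-!
# Smoothness of the schemes of a net
-/

set_option autoImplicit false

namespace Pool.Agent.Lib.MP_4ca46c_ag.Two

open CategoryTheory Limits AlgebraicGeometry TensorProduct MonoidalCategory
  CartesianMonoidalCategory
open Pool.Agent.Lib.MP_4ca46c_ag.Sign Pool.Agent.Lib.MP_4ca46c_ag.Hyp
open Pool.Agent.Lib.MP_4ca46c_ag.Std Pool.Agent.Lib.MP_4ca46c_ag.Geo

namespace NetSmAux

variable {k₀ : Type} [Field k₀]

theorem opn {A B C : Sch k₀} (f : A ⟶ C) (j : B ⟶ C) (hj : IsOpenImmersion j.left) :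
    IsOpenImmersion (pullback.fst f j).left := by
  have hQ : IsPullback (pullback.fst f j).left (pullback.snd f j).left f.left j.left :=
    (IsPullback.of_hasPullback f j).map (Over.forget _)
  exact MorphismProperty.of_isPullback (P := @IsOpenImmersion) hQ.flip hj

theorem sq {S S' U₀ U : Sch k₀} {u₀ : U₀ ⟶ S} {u : U ⟶ S'} {b : U ⟶ U₀} {s : S' ⟶ S}
    (h : IsPullback b u u₀ s) (e : pullback u u ⟶ pullback u₀ u₀)
    (h1 : e ≫ pullback.fst u₀ u₀ = pullback.fst u u ≫ b)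
    (h2 : e ≫ pullback.snd u₀ u₀ = pullback.snd u u ≫ b) :
    IsPullback e (pullback.fst u u ≫ u) (pullback.fst u₀ u₀ ≫ u₀) s := by
  refine ⟨⟨?_⟩, ⟨PullbackCone.IsLimit.mk _ (fun t => ?_) ?_ ?_ ?_⟩⟩
  · rw [← Category.assoc, h1, Category.assoc, h.w, Category.assoc]
  · refine pullback.lift
      (h.lift (t.fst ≫ pullback.fst u₀ u₀) t.snd ?_)
      (h.lift (t.fst ≫ pullback.snd u₀ u₀) t.snd ?_) ?_
    · rw [Category.assoc]; exact t.condition
    · rw [Category.assoc, ← pullback.condition]; exact t.condition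
    · rw [h.lift_snd, h.lift_snd]
  · intro t
    apply pullback.hom_ext
    · rw [Category.assoc, h1, ← Category.assoc, pullback.lift_fst, h.lift_fst]
    · rw [Category.assoc, h2, ← Category.assoc, pullback.lift_snd, h.lift_fst]
  · intro t
    rw [← Category.assoc, pullback.lift_fst, h.lift_snd]
  · intro t m hm1 hm2
    apply pullback.hom_ext
    · rw [pullback.lift_fst]
      apply h.hom_ext
      · rw [h.lift_fst, Category.assoc, ← hm1, Category.assoc, h1]
      · rw [h.lift_snd, ← hm2, Category.assoc]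
    · rw [pullback.lift_snd]
      apply h.hom_ext
      · rw [h.lift_fst, Category.assoc, ← hm1, Category.assoc, h2]
      · rw [h.lift_snd, ← hm2, Category.assoc]
        exact congrArg (m ≫ ·) (pullback.condition (f := u) (g := u)).symm

theorem flat_pt {F F' : Type} [Field F] [Algebra k₀ F] [Field F'] [Algebra k₀ F'] [Algebra F F']
    [IsScalarTower k₀ F F'] : Flat (ptMap k₀ (IsScalarTower.toAlgHom k₀ F F')).left := by
  change Flat (Spec.map (CommRingCat.ofHom (algebraMap F F')))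
  rw [Flat.SpecMap_iff]
  change RingHom.Flat (algebraMap F F')
  rw [RingHom.flat_algebraMap_iff]
  infer_instance

end NetSmAux

theorem tNetSm (k₀ : Type) [Field k₀] (h : StNetVar k₀) : StNetSm k₀ := by
  intro k _ _ _ P D
  obtain ⟨hU₀, hU, -⟩ := h k P D
  have hYY : IsVar (pullback.fst D.str D.str ≫ D.str) (D.N + 1 + (D.N + 1)) :=
    Var.isVar_prod D.isVar D.isVar
  have hUU₀ : IsVar (pullback.fst D.u₀ D.u₀ ≫ D.u₀) (D.N + D.N) := Var.isVar_prod hU₀ hU₀
  have hUU : IsVar (pullback.fst D.u D.u ≫ D.u) (D.N + D.N) := Var.isVar_prod hU hU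
  have hi : IsOpenImmersion D.incl.left := NetSmAux.opn _ _ P.G.complement.isOpen
  obtain ⟨hO, hqi⟩ := sms_open (sms_isSm hYY) D.incl hi
  have hj : IsOpenImmersion D.jQ.left := NetSmAux.opn _ _ hi
  obtain ⟨hQ, hqj⟩ := sms_open (sms_isSm hUU₀) D.jQ hj
  have hsq : IsPullback D.e2 (pullback.fst D.u D.u ≫ D.u) (pullback.fst D.u₀ D.u₀ ≫ D.u₀)
      (ptMap k₀ (IsScalarTower.toAlgHom k₀ P.F P.L)) :=
    NetSmAux.sq D.isBC D.e2 (pullback.lift_fst _ _ _) (pullback.lift_snd _ _ _)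
  refine ⟨sms_sm D.isVar, sms_sm hYY, ⟨_, _, _, _, hO⟩, sms_sm hU₀, sms_sm hUU₀,
    ⟨_, _, _, _, hQ⟩, sms_sm hU, sms_sm hUU, hYY, hUU₀, hUU, hi, hqi, hj, hqj, hsq, ?_⟩
  exact MorphismProperty.of_isPullback (P := @Flat) ((hsq.map (Over.forget _)).flip)
    NetSmAux.flat_pt

end Pool.Agent.Lib.MP_4ca46c_ag.Two
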