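import Mathlib
import Pool.Agent.Lib.MP_4ca46c_ag.Two.SpecU

/-!
# Two parameters: the map `ψ₀ : ℙ¹ × ℙ¹ ⟶ ℙ²`
-/

namespace Pool.Agent.Lib.MP_4ca46c_ag.Two

open CategoryTheory Limits AlgebraicGeometry Opposite HomogeneousLocalization MvPolynomial
open Pool.Agent.Lib.MP_4ca46c_ag.Sign Pool.Agent.Lib.MP_4ca46c_ag.Hyp
open Pool.Agent.Lib.MP_4ca46c_ag.Std Pool.Agent.Lib.MP_4ca46c_ag.Geo

namespace PsiAux

attribute [local instance] MvPolynomial.gradedAlgebra

section forms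

variable {k : Type} [Field k] {κ : Type}

/-- The fraction `z / y`. -/
noncomputable def fr (y z : MvPolynomial κ k) (hy : y ∈ homogeneousSubmodule κ k 1)
    (hz : z ∈ homogeneousSubmodule κ k 1) : Away (homogeneousSubmodule κ k) y :=
  Away.mk (homogeneousSubmodule κ k) hy 1 z (by simpa using hz)

theorem gsec_eq (y z : MvPolynomial κ k) (hy : y ∈ homogeneousSubmodule κ k 1)
    (hz : z ∈ homogeneousSubmodule κ k 1) :
    gsec y z hy hz = Proj.awayToSection (homogeneousSubmodule κ k) y (fr y z hy hz) := rfl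

theorem fr_self (y : MvPolynomial κ k) (hy : y ∈ homogeneousSubmodule κ k 1) :
    fr y y hy hy = 1 := by
  refine HomogeneousLocalization.val_injective _ ?_
  rw [fr, Away.val_mk, val_one]
  rw [← Localization.mk_one, Localization.mk_eq_mk_iff, Localization.r_iff_exists]
  exact ⟨1, by simp⟩

theorem gsec_self (y : MvPolynomial κ k) (hy : y ∈ homogeneousSubmodule κ k 1) :
    gsec y y hy hy = 1 := by
  rw [gsec_eq, fr_self, map_one]

theorem fr_add (y z w : MvPolynomial κ k) (hy : y ∈ homogeneousSubmodule κ k 1)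
    (hz : z ∈ homogeneousSubmodule κ k 1) (hw : w ∈ homogeneousSubmodule κ k 1) :
    fr y (z + w) hy (add_mem hz hw) = fr y z hy hz + fr y w hy hw := by
  refine HomogeneousLocalization.val_injective _ ?_
  rw [fr, fr, fr, val_add, Away.val_mk, Away.val_mk, Away.val_mk, Localization.add_mk_self]

theorem gsec_add (y z w : MvPolynomial κ k) (hy : y ∈ homogeneousSubmodule κ k 1)
    (hz : z ∈ homogeneousSubmodule κ k 1) (hw : w ∈ homogeneousSubmodule κ k 1) :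
    gsec y (z + w) hy (add_mem hz hw) = gsec y z hy hz + gsec y w hy hw := by
  rw [gsec_eq, gsec_eq, gsec_eq, fr_add, map_add]

theorem gsec_mul (y z w : MvPolynomial κ k) (hy : y ∈ homogeneousSubmodule κ k 1)
    (hz : z ∈ homogeneousSubmodule κ k 1) (hw : w ∈ homogeneousSubmodule κ k 1) :
    (PS k κ).presheaf.map (homOfLE inf_le_left).op (gsec y w hy hw) =
    ((PS k κ).presheaf.map (homOfLE inf_le_left).op (gsec y z hy hz) *
      (PS k κ).presheaf.map (homOfLE inf_le_right).op (gsec z w hz hw) :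
      Γ(PS k κ, Proj.basicOpen (homogeneousSubmodule κ k) y ⊓
        Proj.basicOpen (homogeneousSubmodule κ k) z)) := by
  have e : Proj.basicOpen (homogeneousSubmodule κ k) (y * z) =
      Proj.basicOpen (homogeneousSubmodule κ k) y ⊓ Proj.basicOpen (homogeneousSubmodule κ k) z :=
    Proj.basicOpen_mul _ _ _
  have inj : Function.Injective ((PS k κ).presheaf.map (homOfLE (le_of_eq e)).op) := by
    have : IsIso (homOfLE (le_of_eq e)) := ⟨homOfLE (le_of_eq e.symm), rfl, rfl⟩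
    exact (ConcreteCategory.bijective_of_isIso ((PS k κ).presheaf.map (homOfLE (le_of_eq e)).op)).1
  apply inj
  rw [map_mul, ← CommRingCat.comp_apply, ← CommRingCat.comp_apply, ← CommRingCat.comp_apply,
    ← Functor.map_comp, ← Functor.map_comp]
  have h1 := Proj.awayMap_awayToSection (homogeneousSubmodule κ k) (f := y) hz
    (rfl : (y * z : MvPolynomial κ k) = y * z)
  have h2 := Proj.awayMap_awayToSection (homogeneousSubmodule κ k) (f := z) hy
    (mul_comm y z : (y * z : MvPolynomial κ k) = z * y)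
  have e1 : ∀ (l : MvPolynomial κ k) (hl : l ∈ homogeneousSubmodule κ k 1),
      (PS k κ).presheaf.map (homOfLE (Proj.basicOpen_mono _ _ _ ⟨_, rfl⟩)).op
      (gsec y l hy hl) = Proj.awayToSection (homogeneousSubmodule κ k) (y * z)
        (awayMap (homogeneousSubmodule κ k) hz rfl (fr y l hy hl)) := fun l hl =>
    (congrArg (fun φ => φ.hom (fr y l hy hl)) h1).symm
  have e2 : ∀ (l : MvPolynomial κ k) (hl : l ∈ homogeneousSubmodule κ k 1),
      (PS k κ).presheaf.map (homOfLE (Proj.basicOpen_mono _ _ _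
      ⟨_, mul_comm y z⟩)).op (gsec z l hz hl) =
      Proj.awayToSection (homogeneousSubmodule κ k) (y * z)
        (awayMap (homogeneousSubmodule κ k) hy (mul_comm _ _) (fr z l hz hl)) := fun l hl =>
    (congrArg (fun φ => φ.hom (fr z l hz hl)) h2).symm
  refine (e1 w hw).trans (Eq.trans ?_ (congrArg₂ (· * ·) (e1 z hz) (e2 w hw)).symm)
  rw [← map_mul]
  congr 1
  refine HomogeneousLocalization.val_injective _ ?_
  rw [val_mul, fr, fr, fr, awayMap_mk, awayMap_mk, awayMap_mk, Away.val_mk, Away.val_mk,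
    Away.val_mk, Localization.mk_mul, Localization.mk_eq_mk_iff, Localization.r_iff_exists]
  refine ⟨1, ?_⟩
  simp only [OneMemClass.coe_one, one_mul, pow_one, Submonoid.mk_mul_mk]
  ring

theorem awayι_pre (y z : MvPolynomial κ k) (hy : y ∈ homogeneousSubmodule κ k 1)
    (hz : z ∈ homogeneousSubmodule κ k 1) :
    Proj.awayι (homogeneousSubmodule κ k) y hy one_pos ⁻¹ᵁ
      Proj.basicOpen (homogeneousSubmodule κ k) z = PrimeSpectrum.basicOpen (fr y z hy hz) := by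
  have h := Proj.awayι_preimage_basicOpen (homogeneousSubmodule κ k) hy one_pos hz one_pos
  rw [h]
  congr 1
  refine HomogeneousLocalization.val_injective _ ?_
  rw [fr, Away.val_mk, Away.val_mk, pow_one]

theorem basicOpen_gsec (y z : MvPolynomial κ k) (hy : y ∈ homogeneousSubmodule κ k 1)
    (hz : z ∈ homogeneousSubmodule κ k 1) :
    (PS k κ).basicOpen (gsec y z hy hz) ≤ Proj.basicOpen (homogeneousSubmodule κ k) z := by
  intro x hx
  have hxi : x ∈ Proj.basicOpen (homogeneousSubmodule κ k) y := (PS k κ).basicOpen_le _ hx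
  let U : (PS k κ).Opens := Proj.basicOpen (homogeneousSubmodule κ k) y
  let w : U.toScheme := ⟨x, hxi⟩
  let I := Proj.basicOpenIsoSpec (homogeneousSubmodule κ k) y hy one_pos
  have h3 : Proj.awayι (homogeneousSubmodule κ k) y hy one_pos (I.hom w) = x := by
    have h4 : I.hom ≫ Proj.awayι (homogeneousSubmodule κ k) y hy one_pos = U.ι := by
      rw [← Proj.basicOpenIsoSpec_inv_ι, Iso.hom_inv_id_assoc]
    have h5 := congrArg (fun φ => φ w) h4
    exact h5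
  have h1 : w ∈ U.ι ⁻¹ᵁ (PS k κ).basicOpen (gsec y z hy hz) := hx
  have h2 : I.hom w ∈ PrimeSpectrum.basicOpen (fr y z hy hz) := by
    rw [← Scheme.Opens.toSpecΓ_preimage_basicOpen] at h1
    exact h1
  rw [← awayι_pre] at h2
  rw [← h3]
  exact h2

/-- Linear forms. -/
abbrev LF (k : Type) [Field k] (κ : Type) : Type :=
  {y : MvPolynomial κ k // y ∈ homogeneousSubmodule κ k 1}

/-- All linear forms as coordinates. -/
noncomputable def lf (k : Type) [Field k] (κ : Type) : PreCoord (PS k κ) (LF k κ) where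
  D y := Proj.basicOpen (homogeneousSubmodule κ k) y.1
  f y z := gsec y.1 z.1 y.2 z.2
  iSup_D := by
    rw [eq_top_iff]
    intro x _
    obtain ⟨i, hi⟩ := TopologicalSpace.Opens.mem_iSup.1
      ((iSup_psD (k := k) (κ := κ)).ge (Set.mem_univ x))
    exact TopologicalSpace.Opens.mem_iSup.2 ⟨⟨X i, hX i⟩, hi⟩
  f_self y := gsec_self y.1 y.2
  f_mul y z w := gsec_mul y.1 z.1 w.1 y.2 z.2 w.2
  basicOpen_le y z := basicOpen_gsec y.1 z.1 y.2 z.2

/-- The coordinate as a linear form. -/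
noncomputable def xf (k : Type) [Field k] {κ : Type} (i : κ) : LF k κ := ⟨X i, hX i⟩

/-- A part of the coordinates. -/
noncomputable def restr {Z : Scheme.{0}} {κ κ' : Type} (C : PreCoord Z κ) (e : κ' → κ)
    (h : ⨆ i, C.D (e i) = ⊤) : PreCoord Z κ' where
  D i := C.D (e i)
  f i j := C.f (e i) (e j)
  iSup_D := h
  f_self i := C.f_self (e i)
  f_mul i j l := C.f_mul (e i) (e j) (e l)
  basicOpen_le i j := C.basicOpen_le (e i) (e j)

end forms

section line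

variable (k : Type) [Field k]

/-- The three linear forms. -/
noncomputable def ell (j : Fin 3) : LF k (Fin 2) :=
  if j = 0 then ⟨X 0, hX 0⟩ else if j = 1 then ⟨X 1, hX 1⟩ else
    ⟨X 0 + X 1, add_mem (hX 0) (hX 1)⟩

theorem two_forms {j j' : Fin 3} (h : j ≠ j') (x : PS k (Fin 2))
    (h1 : x ∉ (lf k (Fin 2)).D (ell k j)) : x ∈ (lf k (Fin 2)).D (ell k j') := by
  by_contra h2
  have m1 : (ell k j).1 ∈ x.asHomogeneousIdeal := by
    by_contra h3
    exact h1 h3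
  have m2 : (ell k j').1 ∈ x.asHomogeneousIdeal := by
    by_contra h3
    exact h2 h3
  have key : (X 0 : MvPolynomial (Fin 2) k) ∈ x.asHomogeneousIdeal.toIdeal ∧
      (X 1 : MvPolynomial (Fin 2) k) ∈ x.asHomogeneousIdeal.toIdeal := by
    have m1' : (ell k j).1 ∈ x.asHomogeneousIdeal.toIdeal := m1
    have m2' : (ell k j').1 ∈ x.asHomogeneousIdeal.toIdeal := m2
    clear m1 m2 h1 h2
    fin_cases j <;> fin_cases j' <;> simp [ell] at h m1' m2' ⊢
    · exact ⟨m1', m2'⟩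
    · exact ⟨m1', (Ideal.add_mem_iff_right _ m1').1 m2'⟩
    · exact ⟨m2', m1'⟩
    · exact ⟨(Ideal.add_mem_iff_left _ m1').1 m2', m1'⟩
    · exact ⟨m2', (Ideal.add_mem_iff_right _ m2').1 m1'⟩
    · exact ⟨(Ideal.add_mem_iff_left _ m2').1 m1', m2'⟩
  obtain ⟨i, hi⟩ := TopologicalSpace.Opens.mem_iSup.1
      ((iSup_psD (k := k) (κ := Fin 2)).ge (Set.mem_univ x))
  have hi' : (X i : MvPolynomial (Fin 2) k) ∉ x.asHomogeneousIdeal.toIdeal := hi
  fin_cases i
  · exact hi' key.1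
  · exact hi' key.2

end line

section product

variable {k : Type} [Field k] {Z : Scheme.{0}}

theorem pigeon (P Q : Fin 3 → Prop) (hP : ∀ j j', j ≠ j' → ¬ P j → P j')
    (hQ : ∀ j j', j ≠ j' → ¬ Q j → Q j') : ∃ j, P j ∧ Q j := by
  by_contra h
  push Not at h
  by_cases p0 : P 0
  · have q0 := h 0 p0
    have q1 := hQ 0 1 (by decide) q0
    have q2 := hQ 0 2 (by decide) q0
    by_cases p1 : P 1
    · exact h 1 p1 q1
    · exact h 2 (hP 1 2 (by decide) p1) q2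
  · have p1 := hP 0 1 (by decide) p0
    have p2 := hP 0 2 (by decide) p0
    by_cases q1 : Q 1
    · exact h 1 p1 q1
    · exact h 2 p2 (hQ 1 2 (by decide) q1)

/-- The coordinates `ℓ_j(x) ℓ_j(x')`. -/
noncomputable def cc (p₁ p₂ : Z ⟶ PS k (Fin 2)) : PreCoord Z (Fin 3) :=
  restr (((lf k (Fin 2)).comap p₁).segre ((lf k (Fin 2)).comap p₂))
    (fun j => (ell k j, ell k j)) (by
      rw [eq_top_iff]
      intro x _
      obtain ⟨j, h1, h2⟩ := pigeon (fun j => p₁ x ∈ (lf k (Fin 2)).D (ell k j))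
        (fun j => p₂ x ∈ (lf k (Fin 2)).D (ell k j)) (fun j j' h => two_forms k h _)
        (fun j j' h => two_forms k h _)
      exact TopologicalSpace.Opens.mem_iSup.2 ⟨j, h1, h2⟩)

theorem cc_le₁ (p₁ p₂ : Z ⟶ PS k (Fin 2)) (j : Fin 3) : (cc p₁ p₂).D j ≤
    ((lf k (Fin 2)).comap p₁).D (ell k j) := inf_le_left

theorem cc_le₂ (p₁ p₂ : Z ⟶ PS k (Fin 2)) (j : Fin 3) : (cc p₁ p₂).D j ≤
    ((lf k (Fin 2)).comap p₂).D (ell k j) := inf_le_right

theorem cc_appLE (p₁ p₂ : Z ⟶ PS k (Fin 2)) {T : Scheme.{0}} (z : T ⟶ Z) (W : T.Opens)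
    (j l : Fin 3) (h : W ≤ z ⁻¹ᵁ (cc p₁ p₂).D j)
    (h₁ : W ≤ z ⁻¹ᵁ ((lf k (Fin 2)).comap p₁).D (ell k j))
    (h₂ : W ≤ z ⁻¹ᵁ ((lf k (Fin 2)).comap p₂).D (ell k j)) :
    z.appLE ((cc p₁ p₂).D j) W h ((cc p₁ p₂).f j l) =
      z.appLE (((lf k (Fin 2)).comap p₁).D (ell k j)) W h₁
        (((lf k (Fin 2)).comap p₁).f (ell k j) (ell k l)) *
      z.appLE (((lf k (Fin 2)).comap p₂).D (ell k j)) W h₂
        (((lf k (Fin 2)).comap p₂).f (ell k j) (ell k l)) :=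
  PreCoord.segre_appLE ((lf k (Fin 2)).comap p₁) ((lf k (Fin 2)).comap p₂) z
    (ell k j, ell k j) (ell k l, ell k l) W h h₁ h₂

/-- The values of the three linear forms. -/
theorem ell_val {T : Scheme.{0}} (z : T ⟶ PS k (Fin 2)) (W : T.Opens) (i : Fin 2)
    (h : W ≤ z ⁻¹ᵁ psD i) (l : Fin 3) :
    z.appLE ((lf k (Fin 2)).D (xf k i)) W h ((lf k (Fin 2)).f (xf k i) (ell k l)) =
      if l = 0 then z.appLE (psD i) W h (psf i 0) else if l = 1 then
        z.appLE (psD i) W h (psf i 1) else z.appLE (psD i) W h (psf i 0) +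
        z.appLE (psD i) W h (psf i 1) := by
  have h2 : (lf k (Fin 2)).f (xf k i) (ell k 2) = psf i 0 + psf i 1 :=
    gsec_add (X i) (X 0) (X 1) (hX i) (hX 0) (hX 1)
  fin_cases l
  · rfl
  · rfl
  · refine (congrArg (z.appLE ((lf k (Fin 2)).D (xf k i)) W h) h2).trans ?_
    exact map_add _ _ _

theorem van_cc (p₁ p₂ : Z ⟶ PS k (Fin 2)) {T : Scheme.{0}} (z : T ⟶ Z) (i i' : Fin 2)
    (h : ⊤ ≤ (z ≫ p₁) ⁻¹ᵁ psD i) (h' : ⊤ ≤ (z ≫ p₂) ⁻¹ᵁ psD i') (a : Fin 3 → Γ(T, ⊤)) :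
    (cc p₁ p₂).Van z a ↔ ∑ l, a l * (
      z.appLE (((lf k (Fin 2)).comap p₁).D (xf k i)) ⊤ h
        (((lf k (Fin 2)).comap p₁).f (xf k i) (ell k l)) *
      z.appLE (((lf k (Fin 2)).comap p₂).D (xf k i')) ⊤ h'
        (((lf k (Fin 2)).comap p₂).f (xf k i') (ell k l))) = 0 := by
  set C₁ := (lf k (Fin 2)).comap p₁ with hC₁
  set C₂ := (lf k (Fin 2)).comap p₂ with hC₂
  have g₁ : ⊤ ≤ z ⁻¹ᵁ C₁.D (xf k i) := h
  have g₂ : ⊤ ≤ z ⁻¹ᵁ C₂.D (xf k i') := h'
  -- the equation on an open subset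
  have key : ∀ (j : Fin 3), (cc p₁ p₂).eqn z a j (z ⁻¹ᵁ (cc p₁ p₂).D j) le_rfl =
      z.appLE (C₁.D (ell k j)) (z ⁻¹ᵁ (cc p₁ p₂).D j) (pre_mono z (cc_le₁ p₁ p₂ j))
        (C₁.f (ell k j) (xf k i)) *
      z.appLE (C₂.D (ell k j)) (z ⁻¹ᵁ (cc p₁ p₂).D j) (pre_mono z (cc_le₂ p₁ p₂ j))
        (C₂.f (ell k j) (xf k i')) *
      T.presheaf.map (homOfLE le_top).op (∑ l, a l * (
        z.appLE (C₁.D (xf k i)) ⊤ h (C₁.f (xf k i) (ell k l)) *
        z.appLE (C₂.D (xf k i')) ⊤ h' (C₂.f (xf k i') (ell k l)))) := by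
    intro j
    rw [PreCoord.eqn, map_sum, Finset.mul_sum]
    refine Finset.sum_congr rfl fun l _ => ?_
    rw [cc_appLE p₁ p₂ z _ j l le_rfl (pre_mono z (cc_le₁ p₁ p₂ j)) (pre_mono z (cc_le₂ p₁ p₂ j)),
      C₁.f_mul' z _ (ell k j) (xf k i) (ell k l) (pre_mono z (cc_le₁ p₁ p₂ j)) (le_top.trans g₁),
      C₂.f_mul' z _ (ell k j) (xf k i') (ell k l) (pre_mono z (cc_le₂ p₁ p₂ j))
        (le_top.trans g₂), map_mul, map_mul, ← CommRingCat.comp_apply (z.appLE _ _ _),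
      ← CommRingCat.comp_apply (z.appLE _ _ _), Scheme.Hom.appLE_map, Scheme.Hom.appLE_map]
    ring
  have hu : ∀ j : Fin 3, IsUnit (
      z.appLE (C₁.D (ell k j)) (z ⁻¹ᵁ (cc p₁ p₂).D j) (pre_mono z (cc_le₁ p₁ p₂ j))
        (C₁.f (ell k j) (xf k i)) *
      z.appLE (C₂.D (ell k j)) (z ⁻¹ᵁ (cc p₁ p₂).D j) (pre_mono z (cc_le₂ p₁ p₂ j))
        (C₂.f (ell k j) (xf k i'))) := fun j =>
    (C₁.isUnit z _ _ _ (pre_mono z (cc_le₁ p₁ p₂ j)) (le_top.trans g₁)).mul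
      (C₂.isUnit z _ _ _ (pre_mono z (cc_le₂ p₁ p₂ j)) (le_top.trans g₂))
  constructor
  · intro H
    refine sec_zero (fun j : Fin 3 => z ⁻¹ᵁ (cc p₁ p₂).D j) (fun j => le_top) ?_ fun j => ?_
    · intro x _
      obtain ⟨j, hj⟩ := TopologicalSpace.Opens.mem_iSup.1
        ((cc p₁ p₂).iSup_D.ge (Set.mem_univ (z x)))
      exact TopologicalSpace.Opens.mem_iSup.2 ⟨j, hj⟩
    · have h1 := H j
      rw [key j] at h1
      exact (hu j).mul_right_eq_zero.1 h1
  · intro H j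
    rw [key j, H, map_zero, mul_zero]

theorem van_rep {C : PreCoord Z (Fin 3)} {F : Z ⟶ PS k (Fin 3)} (hF : C.Rep F)
    {T : Scheme.{0}} (z : T ⟶ Z) (a : Fin 3 → Γ(T, ⊤)) :
    (psCoord k (Fin 3)).Van (z ≫ F) a ↔ C.Van z a := by
  have key : ∀ j (h : z ⁻¹ᵁ C.D j ≤ (z ≫ F) ⁻¹ᵁ psD j),
      (psCoord k (Fin 3)).eqn (z ≫ F) a j (z ⁻¹ᵁ C.D j) h = C.eqn z a j (z ⁻¹ᵁ C.D j) le_rfl := by
    intro j h
    rw [PreCoord.eqn, PreCoord.eqn]
    refine Finset.sum_congr rfl fun l _ => ?_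
    congr 1
    exact hF.res z _ j l le_rfl h
  have hD : ∀ j, (z ≫ F) ⁻¹ᵁ psD j = z ⁻¹ᵁ C.D j := by
    intro j
    rw [Scheme.Hom.comp_preimage, hF.D_eq j]
  refine forall_congr' fun j => ?_
  rw [← key j (hD j).ge]
  constructor
  · intro h
    rw [← (psCoord k (Fin 3)).eqn_res (z ≫ F) a j le_rfl (hD j).ge, h, map_zero]
  · intro h
    have h2 := (psCoord k (Fin 3)).eqn_res (z ≫ F) a j (hD j).ge (hD j).le
    rw [h, map_zero] at h2
    exact h2.symm

end product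

end PsiAux

theorem tPsi : StPsi := by
  intro k₀ k _ _ _
  let p₁ : (PP k₀ k).left ⟶ PS k (Fin 2) := (pr₁ k₀ k).left
  let p₂ : (PP k₀ k).left ⟶ PS k (Fin 2) := (pr₂ k₀ k).left
  let F : (PP k₀ k).left ⟶ PS k (Fin 3) := (PsiAux.cc p₁ p₂).toPS (p₁ ≫ psStr k (Fin 2))
  have hF : (PsiAux.cc p₁ p₂).Rep F := PreCoord.rep_toPS _ _
  have hs : F ≫ psStr k (Fin 3) = p₁ ≫ psStr k (Fin 2) := PreCoord.toPS_str _ _
  refine ⟨Over.homMk F ?_, ?_, ?_⟩
  · exact ((Category.assoc _ _ _).symm.trans ((eq_whisker hs _).trans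
      ((Category.assoc _ _ _).trans (Over.w (pr₁ k₀ k)))))
  · apply Over.OverMorphism.ext
    exact hs
  · intro T z i i' h h' a
    have h1 := PsiAux.van_rep hF z a
    have h2 := PsiAux.van_cc p₁ p₂ z i i' h h' a
    refine h1.trans (h2.trans ?_)
    rw [Fin.sum_univ_three]
    have e1 : ∀ l, z.appLE (((PsiAux.lf k (Fin 2)).comap p₁).D (PsiAux.xf k i)) ⊤ h
        (((PsiAux.lf k (Fin 2)).comap p₁).f (PsiAux.xf k i) (PsiAux.ell k l)) = _ := fun l =>
      ((PsiAux.lf k (Fin 2)).comap_appLE p₁ z (PsiAux.xf k i) (PsiAux.ell k l) ⊤ h h).trans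
        (PsiAux.ell_val (z ≫ p₁) ⊤ i h l)
    have e2 : ∀ l, z.appLE (((PsiAux.lf k (Fin 2)).comap p₂).D (PsiAux.xf k i')) ⊤ h'
        (((PsiAux.lf k (Fin 2)).comap p₂).f (PsiAux.xf k i') (PsiAux.ell k l)) = _ := fun l =>
      ((PsiAux.lf k (Fin 2)).comap_appLE p₂ z (PsiAux.xf k i') (PsiAux.ell k l) ⊤ h' h').trans
        (PsiAux.ell_val (z ≫ p₂) ⊤ i' h' l)
    rw [e1, e1, e1, e2, e2, e2]
    exact Iff.rfl

end Pool.Agent.Lib.MP_4ca46c_ag.Two
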