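import Pool.Agent.Lib.MP_4ca46c_ag.Two.SpecU
import Pool.Agent.Lib.MP_4ca46c_ag.Div.BC

/-!
# The conjecture of Künneth type under base change
-/

set_option autoImplicit false

namespace Pool.Agent.Lib.MP_4ca46c_ag.Two

open CategoryTheory Limits AlgebraicGeometry TensorProduct MonoidalCategory
  CartesianMonoidalCategory
open Pool.Agent.Lib.MP_4ca46c_ag.Sign Pool.Agent.Lib.MP_4ca46c_ag.Hyp
open Pool.Agent.Lib.MP_4ca46c_ag.Std Pool.Agent.Lib.MP_4ca46c_ag.Geo
open Pool.Agent.Lib.MP_4ca46c_ag.Div

namespace KunBCAux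

variable {k₀ K : Type} [Field k₀] [Field K] [CharZero K] (T : WeilTheory k₀ K)

/-- the class of the diagonal -/
theorem diag_eq {k : Type} [Field k] [Algebra k₀ k] [IsAlgClosed k] (X : Var k₀ k) :
    (weil T k).diag X = T.cl (pullback X.str X.str) (T.push (pullback.diagonal X.str) 1) := by
  refine (weil T k).push_eq _ _ _ fun y => ?_
  have h1 := T.cl_push X.str (pullback.fst X.str X.str ≫ X.str) (pullback.diagonal X.str)
    (by rw [← Category.assoc, pullback.diagonal_fst, Category.id_comp])
    X.dim (X.dim + X.dim) X.isVar (Var.isVar_prod X.isVar X.isVar) 1 y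
  rw [map_one (T.cl X.X)] at h1
  exact h1

variable {M L : Type} [Field M] [Algebra k₀ M] [IsAlgClosed M] [Field L]
  [Algebra k₀ L] [IsAlgClosed L] [Algebra M L] [IsScalarTower k₀ M L] {X : Var k₀ M}
  {X' : Var k₀ L} {g : X'.X ⟶ X.X}

/-- the pull-back is compatible with the projectors -/
theorem pi_pull (i : ℕ) (a : T.H X.X) :
    (weil T L).pi X' i (T.pullH g a : T.H X'.X) = T.pullH g ((weil T M).pi X i a) := by
  have wX : IsWeil X.X := X.isVar.isWeil
  have wX' : IsWeil X'.X := X'.isVar.isWeil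
  refine (weil T M).ind (X := X) (P := fun a => (weil T L).pi X' i (T.pullH g a : T.H X'.X) =
    T.pullH g ((weil T M).pi X i a)) a ?_ (fun l x hx => ?_) (fun r s hr hs => ?_)
  · have h1 : T.pullH g (0 : T.H X.X) = 0 := map_zero _
    have h2 : (weil T M).pi X i (0 : (weil T M).H X) = 0 := map_zero _
    have h3 : (weil T L).pi X' i (0 : (weil T L).H X') = 0 := map_zero _
    refine Eq.trans ?_ (congrArg (T.pullH g) h2.symm)
    refine (congrArg ((weil T L).pi X' i) h1).trans ?_
    exact h3.trans h1.symm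
  · have hx' : (T.pullH g x : T.H X'.X) ∈ (weil T L).gr X' l := T.pullH_mem g wX' wX l x hx
    by_cases hl : l = i
    · subst hl
      rw [(weil T M).pi_same hx]
      exact (weil T L).pi_same hx'
    · rw [(weil T M).pi_ne hx hl]
      refine ((weil T L).pi_ne hx' hl).trans ?_
      exact (map_zero (T.pullH g)).symm
  · have h1 : T.pullH g (r + s) = T.pullH g r + T.pullH g s := map_add _ _ _
    have h2 : (weil T M).pi X i (r + s) = (weil T M).pi X i r + (weil T M).pi X i s :=
      map_add _ _ _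
    have h3 := map_add ((weil T L).pi X' i) (T.pullH g r : T.H X'.X) (T.pullH g s : T.H X'.X)
    have h4 := map_add (T.pullH g) ((weil T M).pi X i r : T.H X.X) ((weil T M).pi X i s : T.H X.X)
    refine (congrArg ((weil T L).pi X' i) h1).trans ?_
    refine h3.trans ?_
    refine Eq.trans ?_ (congrArg (T.pullH g) h2.symm)
    refine Eq.trans ?_ h4.symm
    exact congrArg₂ (fun a b : T.H X'.X => a + b) hr hs

variable (hg : IsPullback g X'.str X.str (ptMap k₀ (IsScalarTower.toAlgHom k₀ M L)))

theorem tm_pull (a b : T.H X.X) :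
    T.pullH (bc_g₂ hg) ((weil T M).tm (X := X) (Y := X) a b : T.H (pullback X.str X.str)) =
      (weil T L).tm (X := X') (Y := X') (T.pullH g a : T.H X'.X) (T.pullH g b : T.H X'.X) := by
  have vP : IsVar (pullback.fst X.str X.str ≫ X.str) (X.dim + X.dim) :=
    Var.isVar_prod X.isVar X.isVar
  have vP' : IsVar (pullback.fst X'.str X'.str ≫ X'.str) (X'.dim + X'.dim) :=
    Var.isVar_prod X'.isVar X'.isVar
  have wX : IsWeil X.X := X.isVar.isWeil
  have wX' : IsWeil X'.X := X'.isVar.isWeil
  have wP : IsWeil (pullback X.str X.str) := vP.isWeil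
  have wP' : IsWeil (pullback X'.str X'.str) := vP'.isWeil
  have c1 : T.pullH (bc_g₂ hg) (T.pullH (pullback.fst X.str X.str) a) =
      T.pullH (pullback.fst X'.str X'.str) (T.pullH g a) := by
    rw [← T.pullH_comp _ _ wP' wP wX, ← T.pullH_comp _ _ wP' wX' wX, bc_g₂_fst]
  have c2 : T.pullH (bc_g₂ hg) (T.pullH (pullback.snd X.str X.str) b) =
      T.pullH (pullback.snd X'.str X'.str) (T.pullH g b) := by
    rw [← T.pullH_comp _ _ wP' wP wX, ← T.pullH_comp _ _ wP' wX' wX, bc_g₂_snd]
  have e : T.pullH (bc_g₂ hg) (T.pullH (pullback.fst X.str X.str) a *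
      T.pullH (pullback.snd X.str X.str) b) = T.pullH (pullback.fst X'.str X'.str) (T.pullH g a) *
      T.pullH (pullback.snd X'.str X'.str) (T.pullH g b) := by
    rw [map_mul, c1, c2]
  exact e

theorem kcomp_pull (i j : ℕ) (u : T.H (pullback X.str X.str)) :
    (weil T L).kcomp (X := X') (Y := X') i j (T.pullH (bc_g₂ hg) u : T.H (pullback X'.str X'.str)) =
      T.pullH (bc_g₂ hg) ((weil T M).kcomp (X := X) (Y := X) i j u :
        T.H (pullback X.str X.str)) := by
  refine (weil T M).ind_tm (X := X) (Y := X) (P := fun u =>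
    (weil T L).kcomp (X := X') (Y := X') i j (T.pullH (bc_g₂ hg) u : T.H (pullback X'.str X'.str)) =
      T.pullH (bc_g₂ hg) ((weil T M).kcomp (X := X) (Y := X) i j u :
        T.H (pullback X.str X.str))) u ?_ (fun a b => ?_) (fun r s hr hs => ?_)
  · have h1 : T.pullH (bc_g₂ hg) (0 : T.H (pullback X.str X.str)) = 0 := map_zero _
    have h2 : (weil T M).kcomp (X := X) (Y := X) i j 0 = 0 := by
      rw [(weil T M).kcomp_eq, map_zero]
    have h3 : (weil T L).kcomp (X := X') (Y := X') i j 0 = 0 := by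
      rw [(weil T L).kcomp_eq, map_zero]
    refine Eq.trans ?_ (congrArg (T.pullH (bc_g₂ hg)) h2.symm)
    refine (congrArg ((weil T L).kcomp (X := X') (Y := X') i j) h1).trans ?_
    exact h3.trans h1.symm
  · have h1 := tm_pull T hg a b
    have h2 := tm_pull T hg ((weil T M).pi X i a) ((weil T M).pi X j b)
    refine (congrArg ((weil T L).kcomp (X := X') (Y := X') i j) h1).trans ?_
    have h3 : (weil T M).kcomp (X := X) (Y := X) i j ((weil T M).tm a b) =
        (weil T M).tm ((weil T M).pi X i a) ((weil T M).pi X j b) := by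
      rw [(weil T M).kcomp_eq, (weil T M).tens_tm]
    refine Eq.trans ?_ (congrArg (T.pullH (bc_g₂ hg)) h3.symm)
    refine Eq.trans ?_ h2.symm
    rw [(weil T L).kcomp_eq, (weil T L).tens_tm, pi_pull, pi_pull]
  · have h1 : T.pullH (bc_g₂ hg) (r + s) = T.pullH (bc_g₂ hg) r + T.pullH (bc_g₂ hg) s :=
      map_add _ _ _
    have h2 : (weil T M).kcomp (X := X) (Y := X) i j (r + s) =
        (weil T M).kcomp i j r + (weil T M).kcomp i j s := by
      simp only [(weil T M).kcomp_eq, map_add]
    have h3 : ∀ r s : T.H (pullback X'.str X'.str),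
        (weil T L).kcomp (X := X') (Y := X') i j (r + s) =
        (weil T L).kcomp (X := X') (Y := X') i j r + (weil T L).kcomp (X := X') (Y := X') i j s := by
      intro r s
      simp only [(weil T L).kcomp_eq]
      exact map_add ((weil T L).tens ((weil T L).pi X' i) ((weil T L).pi X' j)) _ _
    have h4 := map_add (T.pullH (bc_g₂ hg))
      ((weil T M).kcomp (X := X) (Y := X) i j r : T.H (pullback X.str X.str))
      ((weil T M).kcomp (X := X) (Y := X) i j s : T.H (pullback X.str X.str))
    refine (congrArg ((weil T L).kcomp (X := X') (Y := X') i j) h1).trans ?_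
    refine (h3 _ _).trans ?_
    refine Eq.trans ?_ (congrArg (T.pullH (bc_g₂ hg)) h2.symm)
    refine Eq.trans ?_ h4.symm
    rw [hr, hs]
    rfl

end KunBCAux

open KunBCAux in
theorem tKunBC (k₀ K : Type) [Field k₀] [Field K] [CharZero K] : StKunBC k₀ K := by
  intro T M L _ _ _ _ _ _ _ _ X X' g hg hdim hK i j hij
  have vP : IsVar (pullback.fst X.str X.str ≫ X.str) (X.dim + X.dim) :=
    Var.isVar_prod X.isVar X.isVar
  have vP' : IsVar (pullback.fst X'.str X'.str ≫ X'.str) (X'.dim + X'.dim) :=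
    Var.isVar_prod X'.isVar X'.isVar
  have wP : IsWeil (pullback X.str X.str) := vP.isWeil
  have wP' : IsWeil (pullback X'.str X'.str) := vP'.isWeil
  have hδ : T.cl (pullback X'.str X'.str) (T.push (pullback.diagonal X'.str) 1) =
      T.pullH (bc_g₂ hg) (T.cl (pullback X.str X.str) (T.push (pullback.diagonal X.str) 1)) := by
    rw [← T.cl_pull _ wP' wP, T.push_baseChange (pullback.diagonal X.str)
      (pullback.diagonal X'.str) g (bc_g₂ hg) (bc_squareDiag hg) X.isVar.sm vP.sm X'.isVar.sm
      vP'.sm (key_proper_diag X.str X.isVar.proper vP.isSm) (bc_flat hg), map_one (T.pull g)]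
  have hd : (weil T L).diag X' = (T.pullH (bc_g₂ hg) ((weil T M).diag X :
      T.H (pullback X.str X.str)) : T.H (pullback X'.str X'.str)) := by
    rw [diag_eq, diag_eq]
    exact hδ
  have hdim' : (weil T L).dim X' = (weil T M).dim X := hdim
  have h1 := hK i j (by rw [hij, hdim'])
  obtain ⟨a, ha, hcl⟩ := h1
  rw [hd]
  have h2 := kcomp_pull T hg i j ((weil T M).diag X)
  refine (congrArg (fun z => z ∈ (weil T L).Alg (X' ⊗ X') ((weil T L).dim X')) h2).mpr ?_
  refine ⟨T.pull (bc_g₂ hg) a, ?_, ?_⟩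
  · rw [hdim']
    exact T.pull_mem _ vP'.sm vP.sm _ _ ha
  · refine (T.cl_pull _ wP' wP a).trans ?_
    exact congrArg (T.pullH (bc_g₂ hg)) hcl

end Pool.Agent.Lib.MP_4ca46c_ag.Two
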