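import Pool.Agent.Lib.MP_4ca46c_ag.Two.SpecU

/-!
# The quasi-inverse for the class of a fibre
-/

namespace Pool.Agent.Lib.MP_4ca46c_ag.Two

open CategoryTheory Limits AlgebraicGeometry TensorProduct MonoidalCategory
  CartesianMonoidalCategory
open Pool.Agent.Lib.MP_4ca46c_ag.Sign Pool.Agent.Lib.MP_4ca46c_ag.Hyp
open Pool.Agent.Lib.MP_4ca46c_ag.Std Pool.Agent.Lib.MP_4ca46c_ag.Geo

theorem tQW (k₀ K : Type) [Field k₀] [Field K] [CharZero K] (h1 : StRelW k₀ K) (h2 : StVRK)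
    (h3 : StVRQ) : StQW k₀ K := by
  intro T E k _ _ _ Φ hK hC
  obtain ⟨ha, -, hR⟩ := h1 T E k Φ hK
  exact h3 K (Var k₀ k) (weil T k) Φ.VV (Φ.η T) ha hC
    (h2 K (Var k₀ k) (weil T k) Φ.VV (Φ.η T) ha
      (WeilCohomology.cor_le ((weil T k).sign_eps hC.sign)) hR)

end Pool.Agent.Lib.MP_4ca46c_ag.Two
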