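import Mathlib
import Pool.Agent.Lib.MP_4ca46c_ag.Two.SpecU

/-!
# Two parameters: the relation for the class of a fibre
-/

namespace Pool.Agent.Lib.MP_4ca46c_ag.Two

open CategoryTheory Limits AlgebraicGeometry TensorProduct MonoidalCategory
  CartesianMonoidalCategory
open Pool.Agent.Lib.MP_4ca46c_ag.Sign Pool.Agent.Lib.MP_4ca46c_ag.Hyp
open Pool.Agent.Lib.MP_4ca46c_ag.Std Pool.Agent.Lib.MP_4ca46c_ag.Geo

namespace RelWAux

section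

variable {k₀ k : Type} [Field k₀] [Field k] [Algebra k₀ k] (Φ : Fib k₀ k)

theorem p1_var : IsVar (PSo.str k₀ k (Fin 2)) 1 := pso_var k₀ k (Fin 2) 1 (by simp)

theorem y_var : IsVar Φ.y (Φ.V.n + Φ.V.n) := Var.isVar_prod Φ.V.isVar Φ.V.isVar

theorem ff_fst : Φ.ff ≫ pr₁ k₀ k = pullback.fst Φ.V.str Φ.V.str ≫ Φ.f := pullback.lift_fst _ _ _

theorem psi_str {ψ₀ : PP k₀ k ⟶ PSo k₀ k (Fin 3)} (h : IsPsi ψ₀) :
    (Φ.ff ≫ ψ₀) ≫ PSo.str k₀ k (Fin 3) = Φ.y := by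
  rw [Category.assoc, h.1, ← Category.assoc, ff_fst, Category.assoc, Φ.f_str]

theorem dim_eq : Φ.V.n + Φ.V.n = Φ.V.n + Φ.m + 1 := by
  have := Φ.dim
  omega

end

section

variable {k₀ K : Type} [Field k₀] [Field K] [CharZero K] (T : WeilTheory k₀ K) {k : Type}
  [Field k] [Algebra k₀ k] [IsAlgClosed k] (Φ : Fib k₀ k)

/-- the class of a point of the projective line -/
noncomputable def tt (k : Type) [Field k] [Algebra k₀ k] : T.H (P1 k₀ k) :=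
  T.cl (P1 k₀ k) (hypClass T k (0 : Fin 2))

theorem eta_eq : Φ.η T = T.pullH Φ.f (tt T k) :=
  T.cl_pull Φ.f Φ.V.isVar.isWeil p1_var.isWeil _

theorem alg : Φ.η T ∈ (weil T k).Alg Φ.VV 1 :=
  ⟨T.pull Φ.f (hypClass T k (0 : Fin 2)),
    T.pull_mem Φ.f Φ.V.isVar.sm p1_var.sm 1 _ (hypClass_mem T tPS tHyp k (0 : Fin 2)), rfl⟩

theorem sq : Φ.η T * Φ.η T = 0 := by
  rw [eta_eq, ← map_mul]
  have h1 : tt T k ∈ T.deg (P1 k₀ k) 2 :=
    T.cl_mem _ p1_var.isWeil 1 _ (hypClass_mem T tPS tHyp k (0 : Fin 2))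
  have h2 : tt T k * tt T k ∈ T.deg (P1 k₀ k) (2 + 2) := T.mulH_mem _ p1_var.isWeil 2 2 _ h1 _ h1
  let V1 : Var k₀ k := ⟨P1 k₀ k, PSo.str k₀ k (Fin 2), 1, p1_var⟩
  have h3 : (tt T k * tt T k : (weil T k).H V1) = 0 :=
    (weil T k).gr_top (X := V1) (i := 2 + 2) h2 (by change 2 * 1 < 2 + 2; omega)
  have h4 : tt T k * tt T k = 0 := h3
  rw [h4, map_zero]

theorem transport {L : Type} [Field L] [Algebra k₀ L] [IsAlgClosed L]
    {X : Sch k₀} {x : X ⟶ pt k₀ k} {d d' : ℕ} (h : IsVar x d) (h' : IsVar x d') (e : d = d')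
    (U : Var k₀ L) (δ : T.H X)
    (H : Nonempty (NetH (weil T k) (weil T L) (⟨X, x, d, h⟩ : Var k₀ k) U δ)) :
    Nonempty (NetH (weil T k) (weil T L) (⟨X, x, d', h'⟩ : Var k₀ k) U δ) := by
  subst e
  exact H

end

end RelWAux

open RelWAux in
theorem tRelW (k₀ K : Type) [Field k₀] [Field K] [CharZero K] (h1 : StNetVar k₀)
    (h2 : StNetH k₀ K) (h3 : StNetRel) (h4 : StNetWW k₀ K) (h5 : StKunU k₀ K) :
    StRelW k₀ K := by
  intro T hT k _ _ _ Φ hK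
  refine ⟨alg T Φ, sq T Φ, ?_⟩
  obtain ⟨ψ₀, hψ, U₀, toP, toY, hPB, hsm, hconn, hmem, hcls⟩ := h4 T hT k Φ
  let D : Net (P2 k₀ k) :=
    { Y := Φ.Y
      str := Φ.y
      N := Φ.V.n + Φ.m
      isVar := by
        rw [← dim_eq]
        exact y_var Φ
      ψ := Φ.ff ≫ ψ₀
      ψ_str := psi_str Φ hψ
      U₀ := U₀
      toP := toP
      toY := toY
      isPB := hPB
      smooth := hsm
      conn := hconn }
  have hKun : (weil T (P2 k₀ k).L).Kunneth (D.UV h1) :=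
    h5 T hT k Φ ψ₀ hψ hK U₀ toY (toP ≫ (P2 k₀ k).y₀) hmem hconn (D.UV h1) D.pU rfl D.isBC
  have hN := h2 h1 T hT k (P2 k₀ k) D 1 rfl
  have hN' := transport T D.isVar (y_var Φ) (dim_eq Φ).symm (D.UV h1) _ hN
  refine h3 K (Var k₀ k) (Var k₀ (P2 k₀ k).L) (weil T k) (weil T (P2 k₀ k).L) Φ.VV (D.UV h1)
    (Φ.η T) (alg T Φ) (sq T Φ) ?_ hKun
  rw [← hcls]
  exact hN'

end Pool.Agent.Lib.MP_4ca46c_ag.Two
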